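import Pool.Agent.Adm.LB

/-! The affine group of a finite field and labels of characters. -/

namespace Pool.Agent.Adm

/-- Affine maps x ↦ u x + b, composed from left to right. -/
@[ext] structure Aff (F : Type) [Field F] where
  u : Fˣ
  b : F

namespace Aff

variable {F : Type} [Field F]

instance : Mul (Aff F) := ⟨fun g h => ⟨g.u * h.u, h.u * g.b + h.b⟩⟩
instance : One (Aff F) := ⟨⟨1, 0⟩⟩
instance : Inv (Aff F) := ⟨fun g => ⟨g.u⁻¹, -((g.u⁻¹ : Fˣ) * g.b)⟩⟩

@[simp] theorem mul_u (g h : Aff F) : (g * h).u = g.u * h.u := rfl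
@[simp] theorem mul_b (g h : Aff F) : (g * h).b = h.u * g.b + h.b := rfl
@[simp] theorem one_u : (1 : Aff F).u = 1 := rfl
@[simp] theorem one_b : (1 : Aff F).b = 0 := rfl
@[simp] theorem inv_u (g : Aff F) : g⁻¹.u = g.u⁻¹ := rfl
@[simp] theorem inv_b (g : Aff F) : g⁻¹.b = -((g.u⁻¹ : Fˣ) * g.b) := rfl

instance : Group (Aff F) :=
  Group.ofLeftAxioms
    (fun a b c => Aff.ext (mul_assoc _ _ _) (by simp; ring))
    (fun a => Aff.ext (one_mul _) (by simp))
    (fun a => Aff.ext (inv_mul_cancel _) (by simp))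

instance [Finite F] : Finite (Aff F) :=
  Finite.of_injective (fun g : Aff F => (g.u, g.b)) fun g h e => by
    simp only [Prod.mk.injEq] at e
    exact Aff.ext e.1 e.2

/-- The linear part. -/
def lin : Aff F →* Fˣ where
  toFun g := g.u
  map_one' := rfl
  map_mul' _ _ := rfl

@[simp] theorem lin_apply (g : Aff F) : lin g = g.u := rfl

/-- The homotheties. -/
def inl : Fˣ →* Aff F where
  toFun u := ⟨u, 0⟩
  map_one' := rfl
  map_mul' a b := Aff.ext rfl (by simp)

@[simp] theorem inl_u (u : Fˣ) : (inl u : Aff F).u = u := rfl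
@[simp] theorem inl_b (u : Fˣ) : (inl u : Aff F).b = 0 := rfl

/-- g fixes the point β. -/
def Fixes (g : Aff F) (β : F) : Prop := g.u * β + g.b = β

/-- All elements of the subgroup fix a common point. -/
def HasFix (H : Subgroup (Aff F)) : Prop := ∃ β, ∀ g ∈ H, g.Fixes β

end Aff

/-- The root of unity c, value of a character of order dividing m on an inertia generator with
data (e, ζ), has label n modulo m. -/
def Lab {k : Type} [Field k] (m e : ℕ) (ζ c : k) (n : ℤ) : Prop :=
  ∃ r t : ℤ, m * r = e * (n + m * t) ∧ c = ζ ^ r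

/-- Label of a character on packaged monodromy data. -/
def LabD {F k G : Type} [Field F] [Field k] [Group G] (m : ℕ) (θ : F →+* k) (χ : G →* Fˣ)
    (d : Dat k G) (n : ℤ) : Prop :=
  Lab m d.1 d.2.1 (θ (χ d.2.2)) n

end Pool.Agent.Adm
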