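import Pool.Agent.Adm.ADefs

/-! Lemmas on the affine group and on finite fields. -/

namespace Pool.Agent.Adm

namespace Aff

variable {F : Type} [Field F]

theorem pow_of_u_AffL {g : Aff F} (hu : g.u = 1) (n : ℕ) :
    (g ^ n).u = 1 ∧ (g ^ n).b = n * g.b := by
  induction n with
  | zero => simp
  | succ n ih =>
    rw [pow_succ]
    refine ⟨by simp [ih.1, hu], ?_⟩
    rw [mul_b, ih.2, hu]
    push_cast
    ring

theorem eq_one_of_pow {g : Aff F} {e : ℕ} (he : (e : F) ≠ 0) (h : g ^ e = 1) (hu : g.u = 1) :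
    g = 1 := by
  have h1 := (pow_of_u_AffL hu e).2
  rw [h, one_b] at h1
  refine Aff.ext hu ?_
  rcases mul_eq_zero.1 h1.symm with h2 | h2
  · exact absurd h2 he
  · exact h2

theorem u_sub_one_ne_AffL {g : Aff F} (hu : g.u ≠ 1) : (g.u : F) - 1 ≠ 0 := by
  intro h
  apply hu
  ext
  simpa using sub_eq_zero.1 h

theorem Fixes.unique {g : Aff F} {β β' : F} (hu : g.u ≠ 1) (h : g.Fixes β) (h' : g.Fixes β') :
    β = β' := by
  have h1 := u_sub_one_ne_AffL hu
  unfold Fixes at h h'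
  have h2 : ((g.u : F) - 1) * (β - β') = 0 := by linear_combination h - h'
  rcases mul_eq_zero.1 h2 with h3 | h3
  · exact absurd h3 h1
  · exact sub_eq_zero.1 h3

theorem exists_conj {g g' : Aff F} (hu : g.u = g'.u) (h : g.u = 1 → g = 1 ∧ g' = 1) :
    ∃ γ : Aff F, γ * g' * γ⁻¹ = g := by
  by_cases h1 : g.u = 1
  · obtain ⟨h2, h3⟩ := h h1
    exact ⟨1, by rw [h2, h3]; simp⟩
  · have h2 := u_sub_one_ne_AffL h1
    refine ⟨⟨1, (g.b - g'.b) / ((g.u : F) - 1)⟩, Aff.ext (by simp [hu]) ?_⟩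
    simp only [mul_b, inv_u, inv_b, inv_one, Units.val_one, one_mul, ← hu]
    field_simp
    ring

theorem HasFix.mono {H H' : Subgroup (Aff F)} (h : HasFix H') (hle : H ≤ H') : HasFix H := by
  obtain ⟨β, hβ⟩ := h
  exact ⟨β, fun g hg => hβ g (hle hg)⟩

theorem hasFix_bot : HasFix (⊥ : Subgroup (Aff F)) := by
  refine ⟨0, fun g hg => ?_⟩
  rw [Subgroup.mem_bot] at hg
  subst hg
  simp [Fixes]

theorem fixes_conj_AffL (γ g : Aff F) (β : F) :
    (γ * g * γ⁻¹).Fixes β ↔ g.Fixes (γ.u * β + γ.b) := by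
  have h0 : (γ.u : F) ≠ 0 := γ.u.ne_zero
  simp only [Fixes, mul_u, mul_b, inv_u, inv_b, Units.val_mul, Units.val_inv_eq_inv_val]
  constructor
  · intro h
    have h1 : (γ.u : F) * (γ.u : F)⁻¹ = 1 := mul_inv_cancel₀ h0
    linear_combination (γ.u : F) * h
      - ((γ.u : F) * g.u * β + (g.u : F) * γ.b + g.b - γ.b) * h1
  · intro h
    have h1 : (γ.u : F) * (γ.u : F)⁻¹ = 1 := mul_inv_cancel₀ h0
    linear_combination (γ.u : F)⁻¹ * h + β * h1

theorem hasFix_map_conj (H : Subgroup (Aff F)) (γ : Aff F) :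
    HasFix (H.map (MulAut.conj γ).toMonoidHom) ↔ HasFix H := by
  constructor
  · rintro ⟨β, hβ⟩
    refine ⟨γ.u * β + γ.b, fun g hg => (fixes_conj_AffL γ g β).1 (hβ _ ⟨g, hg, rfl⟩)⟩
  · rintro ⟨β, hβ⟩
    refine ⟨(γ.u : F)⁻¹ * (β - γ.b), ?_⟩
    rintro _ ⟨g, hg, rfl⟩
    refine (fixes_conj_AffL γ g _).2 ?_
    have h0 : (γ.u : F) ≠ 0 := γ.u.ne_zero
    have h1 : (γ.u : F) * ((γ.u : F)⁻¹ * (β - γ.b)) + γ.b = β := by
      field_simp
      ring
    rw [h1]
    exact hβ g hg

/-- The stabiliser of a point. -/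
def stab_AffL (β : F) : Subgroup (Aff F) where
  carrier := {g | g.Fixes β}
  mul_mem' := by
    intro a b ha hb
    simp only [Set.mem_ofPred_eq, Fixes, mul_u, mul_b, Units.val_mul] at ha hb ⊢
    linear_combination (b.u : F) * ha + hb
  one_mem' := by simp [Fixes]
  inv_mem' := by
    intro a ha
    have h0 : (a.u : F) ≠ 0 := a.u.ne_zero
    have h1 : (a.u : F) * (a.u : F)⁻¹ = 1 := mul_inv_cancel₀ h0
    simp only [Set.mem_ofPred_eq, Fixes, inv_u, inv_b, Units.val_inv_eq_inv_val] at ha ⊢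
    linear_combination -(a.u : F)⁻¹ * ha + β * h1

theorem HasFix.sup {H H' : Subgroup (Aff F)} (h : HasFix H) (h' : HasFix H') (g : Aff F)
    (hg : g ∈ H) (hg' : g ∈ H') (hu : g.u ≠ 1) : HasFix (H ⊔ H') := by
  obtain ⟨β, hβ⟩ := h
  obtain ⟨β', hβ'⟩ := h'
  have e : β = β' := Fixes.unique hu (hβ g hg) (hβ' g hg')
  subst e
  have hle : H ⊔ H' ≤ stab_AffL β := sup_le (fun x hx => hβ x hx) (fun x hx => hβ' x hx)
  exact ⟨β, fun x hx => hle hx⟩

end Aff

/-- Facts on a finite field F embedded in a domain. -/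
theorem card_cast_eq_zero {F W : Type} [Field F] [Fintype F] [CommRing W] (θ : F →+* W) :
    (Fintype.card F : W) = 0 := by
  rw [← map_natCast θ, FiniteField.cast_card_eq_zero, map_zero]

theorem card_sub_one_cast_ne_zero {F W : Type} [Field F] [Fintype F] [CommRing W] [Nontrivial W]
    (θ : F →+* W) : ((Fintype.card F - 1 : ℕ) : W) ≠ 0 := by
  rw [Nat.cast_sub Fintype.card_pos, card_cast_eq_zero θ]
  simp

theorem exists_eq_of_pow_card {F W : Type} [Field F] [Fintype F] [CommRing W] [IsDomain W]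
    (θ : F →+* W) (x : W) (hx : x ^ Fintype.card F = x) : ∃ a, θ a = x := by
  classical
  have h1 : (∏ a : F, (Polynomial.X - Polynomial.C a)) =
      (Polynomial.X ^ Fintype.card F - Polynomial.X : Polynomial F) := by
    have hq : 1 < Fintype.card F := Fintype.one_lt_card
    have hm : (Polynomial.X ^ Fintype.card F - Polynomial.X : Polynomial F).Monic :=
      Polynomial.monic_X_pow_sub (by rw [Polynomial.degree_X]; exact_mod_cast hq)
    have hr := FiniteField.roots_X_pow_card_sub_X F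
    have hd := FiniteField.X_pow_card_sub_X_natDegree_eq F hq
    have h2 := Polynomial.prod_multiset_X_sub_C_of_monic_of_roots_card_eq hm
      (by rw [hr, hd]; rfl)
    rw [hr] at h2
    exact h2
  have h2 := congrArg (Polynomial.eval₂RingHom θ x) h1
  rw [map_prod] at h2
  simp only [Polynomial.coe_eval₂RingHom, Polynomial.eval₂_sub, Polynomial.eval₂_X,
    Polynomial.eval₂_C, Polynomial.eval₂_X_pow, hx, sub_self] at h2
  obtain ⟨a, -, ha⟩ := Finset.prod_eq_zero_iff.1 h2
  exact ⟨a, (sub_eq_zero.1 ha).symm⟩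

theorem exists_unit_of_pow_card_sub_one {F W : Type} [Field F] [Fintype F] [CommRing W]
    [IsDomain W] (θ : F →+* W) (x : W) (hx : x ^ (Fintype.card F - 1) = 1) :
    ∃ a : Fˣ, θ a = x := by
  have hq : 1 < Fintype.card F := Fintype.one_lt_card
  have h1 : x ^ Fintype.card F = x := by
    have e : Fintype.card F = (Fintype.card F - 1) + 1 := by omega
    rw [e, pow_succ, hx, one_mul]
  obtain ⟨a, ha⟩ := exists_eq_of_pow_card θ x h1
  have ha0 : a ≠ 0 := by
    rintro rfl
    rw [map_zero] at ha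
    rw [← ha, zero_pow (by omega)] at hx
    exact zero_ne_one hx
  exact ⟨Units.mk0 a ha0, ha⟩

theorem add_pow_card_of_hom {F W : Type} [Field F] [Fintype F] [CommRing W] (θ : F →+* W)
    (x y : W) : (x + y) ^ Fintype.card F = x ^ Fintype.card F + y ^ Fintype.card F := by
  rcases subsingleton_or_nontrivial W with hW | hW
  · exact Subsingleton.elim _ _
  obtain ⟨p, hp⟩ := CharP.exists F
  obtain ⟨n, hpp, hn⟩ := FiniteField.card F p
  have : Fact p.Prime := ⟨hpp⟩
  have : CharP W p := charP_of_injective_ringHom θ.injective p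
  rw [hn]
  exact add_pow_char_pow x y p n

theorem sub_pow_card_of_hom {F W : Type} [Field F] [Fintype F] [CommRing W] (θ : F →+* W)
    (x y : W) : (x - y) ^ Fintype.card F = x ^ Fintype.card F - y ^ Fintype.card F := by
  have h := add_pow_card_of_hom θ (x - y) y
  rw [sub_add_cancel] at h
  rw [h, add_sub_cancel_right]

end Pool.Agent.Adm
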