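import Pool.Agent.Adm.LB

/-! Orders of expansions of polynomials. -/

namespace Pool.Agent.Adm

open scoped OnePoint
open Polynomial

variable {k : Type} [Field k]

theorem coeff_eval_H0 (s : k) (n : ℤ) (Q : k[X]) (j : ℤ) :
    (Q.eval₂ HahnSeries.C (HahnSeries.single n s : LaurentSeries k)).coeff j =
      ∑ i ∈ Q.support, if j = i * n then Q.coeff i * s ^ i else 0 := by
  rw [eval₂_eq_sum, Polynomial.sum, HahnSeries.coeff_sum]
  refine Finset.sum_congr rfl fun i _ => ?_
  rw [HahnSeries.single_pow, HahnSeries.C_apply, HahnSeries.single_mul_single, zero_add,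
    HahnSeries.coeff_single, nsmul_eq_mul]
  split_ifs <;> rfl

theorem coeff_mul_H0 (s : k) {n : ℤ} (hn : n ≠ 0) (Q : k[X]) (m : ℕ) :
    (Q.eval₂ HahnSeries.C (HahnSeries.single n s : LaurentSeries k)).coeff (m * n) =
      Q.coeff m * s ^ m := by
  rw [coeff_eval_H0, Finset.sum_eq_single m, if_pos rfl]
  · intro i _ hi
    exact if_neg fun e => hi (by exact_mod_cast (mul_right_cancel₀ hn e).symm)
  · intro hm
    rw [if_pos rfl, notMem_support_iff.1 hm, zero_mul]

theorem coeff_ne_H0 (s : k) (n : ℤ) (Q : k[X]) (j : ℤ)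
    (h : (Q.eval₂ HahnSeries.C (HahnSeries.single n s : LaurentSeries k)).coeff j ≠ 0) :
    ∃ i ∈ Q.support, j = i * n := by
  rw [coeff_eval_H0] at h
  obtain ⟨i, hi, h1⟩ := Finset.exists_ne_zero_of_sum_ne_zero h
  exact ⟨i, hi, by_contra fun e => h1 (if_neg e)⟩

theorem ne_zero_H0 {s : k} (hs : s ≠ 0) {n : ℤ} (hn : n ≠ 0) {Q : k[X]} (hQ : Q ≠ 0) :
    Q.eval₂ HahnSeries.C (HahnSeries.single n s : LaurentSeries k) ≠ 0 := by
  intro h
  have h1 := coeff_mul_H0 s hn Q Q.natDegree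
  rw [h] at h1
  exact mul_ne_zero (leadingCoeff_ne_zero.2 hQ) (pow_ne_zero _ hs) h1.symm

theorem shift_H0 (x : k) (u : LaurentSeries k) (P : k[X]) :
    P.eval₂ HahnSeries.C (HahnSeries.C x + u) = (P.comp (X + C x)).eval₂ HahnSeries.C u := by
  rw [eval₂_comp, eval₂_add, eval₂_X, eval₂_C, add_comm]

theorem order_H0 {n : ℤ} (hn : n ≠ 0) {Q : k[X]} {m : ℕ} (hm : m ∈ Q.support)
    (h : ∀ i ∈ Q.support, (m : ℤ) * n ≤ i * n) :
    (Q.eval₂ HahnSeries.C (HahnSeries.single n 1 : LaurentSeries k)).order = m * n := by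
  have hQ : Q ≠ 0 := by
    rintro rfl
    simp at hm
  refine le_antisymm (HahnSeries.order_le_of_coeff_ne_zero ?_) ?_
  · rw [coeff_mul_H0 1 hn, one_pow, mul_one]
    exact mem_support_iff.1 hm
  · obtain ⟨i, hi, e⟩ := coeff_ne_H0 1 n Q _
      (HahnSeries.coeff_order_eq_zero.not.2 (ne_zero_H0 one_ne_zero hn hQ))
    rw [e]
    exact h i hi

theorem eval₂_expand_ne_zero (a : OnePoint k) (e : ℕ) (he : 0 < e) (P : k[X]) (hP : P ≠ 0) :
    P.eval₂ HahnSeries.C (expand a e) ≠ 0 := by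
  have h0 : (e : ℤ) ≠ 0 := by exact_mod_cast he.ne'
  induction a using OnePoint.rec with
  | infty => exact ne_zero_H0 one_ne_zero (neg_ne_zero.2 h0) hP
  | coe b =>
    show P.eval₂ HahnSeries.C (HahnSeries.C b + HahnSeries.single (e : ℤ) 1) ≠ 0
    rw [shift_H0]
    exact ne_zero_H0 one_ne_zero h0 (comp_X_add_C_ne_zero_iff.2 hP)

theorem order_eval₂_expand_coe (a : k) (e : ℕ) (he : 0 < e) (P : k[X]) (hP : P ≠ 0) :
    (P.eval₂ HahnSeries.C (expand (a : OnePoint k) e)).order = e * P.rootMultiplicity a := by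
  have h0 : (0 : ℤ) < e := by exact_mod_cast he
  show (P.eval₂ HahnSeries.C (HahnSeries.C a + HahnSeries.single (e : ℤ) 1)).order = _
  rw [shift_H0, rootMultiplicity_eq_natTrailingDegree, mul_comm]
  refine order_H0 h0.ne' (natTrailingDegree_mem_support_of_nonzero
    (comp_X_add_C_ne_zero_iff.2 hP)) fun i hi => ?_
  exact mul_le_mul_of_nonneg_right (by exact_mod_cast natTrailingDegree_le_of_mem_supp i hi) h0.le

theorem order_eval₂_expand_infty (e : ℕ) (he : 0 < e) (P : k[X]) (hP : P ≠ 0) :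
    (P.eval₂ HahnSeries.C (expand (∞ : OnePoint k) e)).order = -(e * P.natDegree : ℤ) := by
  have h0 : (0 : ℤ) < e := by exact_mod_cast he
  show (P.eval₂ HahnSeries.C (HahnSeries.single (-(e : ℤ)) 1)).order = _
  rw [order_H0 (neg_ne_zero.2 h0.ne') (natDegree_mem_support_of_nonzero hP) fun i hi => ?_]
  · ring
  · exact mul_le_mul_of_nonpos_right (by exact_mod_cast le_natDegree_of_mem_supp i hi)
      (neg_nonpos.2 h0.le)

/-- The expansion of rational functions at a point. -/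
theorem exists_chart (a : OnePoint k) (e : ℕ) (he : 0 < e) :
    ∃ j : RatFunc k →+* LaurentSeries k, (∀ c, j (RatFunc.C c) = HahnSeries.C c) ∧
      j RatFunc.X = expand a e :=
  exists_ratFunc_hom HahnSeries.C (expand a e) (eval₂_expand_ne_zero a e he)

/-- A nonconstant power series of the form x + s z^e is transcendental. -/
theorem eval₂_ne_zero_of_single (x s : k) (hs : s ≠ 0) (n : ℤ) (hn : n ≠ 0) (P : k[X])
    (hP : P ≠ 0) :
    P.eval₂ HahnSeries.C (HahnSeries.C x + HahnSeries.single n s : LaurentSeries k) ≠ 0 := by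
  rw [shift_H0]
  exact ne_zero_H0 hs hn (comp_X_add_C_ne_zero_iff.2 hP)

theorem scL_coe (ζ : k) (h : ζ ≠ 0) (u : PowerSeries k) :
    scL ζ h (u : LaurentSeries k) = (PowerSeries.rescale ζ u : PowerSeries k) := by
  ext n
  rw [scL_coeff, PowerSeries.coeff_coe, PowerSeries.coeff_coe]
  split_ifs with hn
  · rw [mul_zero]
  · obtain ⟨m, rfl⟩ := Int.eq_ofNat_of_zero_le (not_lt.1 hn)
    rw [PowerSeries.coeff_rescale, Int.natAbs_natCast, zpow_natCast]

/-- An eigenvector of z ↦ ζ z has eigenvalue ζ to the order. -/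
theorem eigen_eq_zpow (ζ : k) (h : ζ ≠ 0) (y : LaurentSeries k) (hy : y ≠ 0) (c : k)
    (hc : scL ζ h y = HahnSeries.C c * y) : c = ζ ^ y.order := by
  have h1 := congrArg (fun w : LaurentSeries k => w.coeff y.order) hc
  simp only [scL_coeff, HahnSeries.C_mul_eq_smul, HahnSeries.coeff_smul, smul_eq_mul] at h1
  exact (mul_right_cancel₀ (HahnSeries.coeff_order_eq_zero.not.2 hy) h1).symm

end Pool.Agent.Adm
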