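import Pool.Agent.Adm.LB

/-! Localisation of a ring at the nonzero polynomials. -/

namespace Pool.Agent.Adm

theorem exists_loc {C R : Type} [Field C] [CommRing R] (π : Polynomial C →+* R) :
    ∃ (Q : Type) (_ : CommRing Q) (a : R →+* Q) (κ : RatFunc C →+* Q),
      (∀ P, κ (algebraMap (Polynomial C) (RatFunc C) P) = a (π P)) ∧
      (∀ q : Q, ∃ d : Polynomial C, d ≠ 0 ∧ ∃ r : R, q * a (π d) = a r) ∧
      ∀ (W : Type) [Field W] (ψ0 : R →+* W), (∀ d : Polynomial C, d ≠ 0 → ψ0 (π d) ≠ 0) →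
        ∃ ψ : Q →+* W, (∀ r, ψ (a r) = ψ0 r) ∧ (Function.Injective ψ0 → Function.Injective ψ) ∧
          ∀ s : W →+* W, (∀ r, s (ψ0 r) = ψ0 r) → ∀ q, s (ψ q) = ψ q := by
  let M : Submonoid R := (nonZeroDivisors (Polynomial C)).map π
  have hu : ∀ d : nonZeroDivisors (Polynomial C),
      IsUnit (((algebraMap R (Localization M)).comp π) d) := fun d =>
    IsLocalization.map_units (Localization M) (⟨π d, d, d.2, rfl⟩ : M)
  have hs : ∀ q : Localization M, ∃ d : Polynomial C, d ≠ 0 ∧ ∃ r : R,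
      q * algebraMap R (Localization M) (π d) = algebraMap R (Localization M) r := fun q => by
    obtain ⟨⟨r, _, d, hd, rfl⟩, h⟩ := IsLocalization.surj M q
    exact ⟨d, nonZeroDivisors.ne_zero hd, r, h⟩
  refine ⟨Localization M, inferInstance, algebraMap R _, IsLocalization.lift hu,
    fun P => IsLocalization.lift_eq hu P, hs, fun W _ ψ0 h0 => ?_⟩
  have hv : ∀ y : M, IsUnit (ψ0 y) := by
    rintro ⟨_, d, hd, rfl⟩
    exact (h0 d (nonZeroDivisors.ne_zero hd)).isUnit
  have he : ∀ r, IsLocalization.lift hv (algebraMap R (Localization M) r) = ψ0 r :=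
    IsLocalization.lift_eq hv
  refine ⟨IsLocalization.lift hv, he, fun hi => (injective_iff_map_eq_zero _).2 fun q hq => ?_,
    fun s hs' q => ?_⟩
  · obtain ⟨d, hd, r, h⟩ := hs q
    have h1 := congrArg (IsLocalization.lift hv) h
    rw [map_mul, hq, zero_mul, he] at h1
    rw [hi (h1.symm.trans (map_zero ψ0).symm), map_zero] at h
    exact (hu ⟨d, mem_nonZeroDivisors_of_ne_zero hd⟩).mul_left_eq_zero.1 h
  · obtain ⟨d, hd, r, h⟩ := hs q
    have h1 := congrArg (IsLocalization.lift hv) h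
    rw [map_mul, he, he] at h1
    have h2 := congrArg s h1
    rw [map_mul, hs', hs'] at h2
    exact mul_right_cancel₀ (h0 d hd) (h2.trans h1.symm)

end Pool.Agent.Adm
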