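import Pool.Agent.Adm.T2

/-! Formal expansion of convergent series at a point. -/

namespace Pool.Agent.Adm

open Filter Topology

noncomputable section

namespace T

variable {C : Type} [NormedField C] [CompleteSpace C] [IsUltrametricDist C]

omit [CompleteSpace C] in
theorem nonarch_T4 : NonarchimedeanRing C :=
  { (inferInstance : IsTopologicalRing C) with
    is_nonarchimedean := NonarchimedeanAddGroup.is_nonarchimedean }

omit [CompleteSpace C] in
/-- Uniform bound for a fixed coefficient of the powers of a series. -/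
theorem bound_T4 (v : PowerSeries C) (hv : ‖PowerSeries.constantCoeff v‖ ≤ 1) (i : ℕ) :
    ∃ K : ℝ, 0 ≤ K ∧ ∀ n : ℕ, ‖PowerSeries.coeff i (v ^ n)‖ ≤ K := by
  set R : ℝ := 1 + ∑ j ∈ Finset.range (i + 1), ‖PowerSeries.coeff j v‖ with hR
  have hs : 0 ≤ ∑ j ∈ Finset.range (i + 1), ‖PowerSeries.coeff j v‖ :=
    Finset.sum_nonneg fun _ _ => norm_nonneg _
  have hR1 : 1 ≤ R := by linarith
  have hR0 : 0 ≤ R := by linarith
  have hv' : ∀ j ≤ i, ‖PowerSeries.coeff j v‖ ≤ R ^ j := by
    intro j hj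
    rcases Nat.eq_zero_or_pos j with rfl | h0
    · simpa using hv
    · have h1 : ‖PowerSeries.coeff j v‖ ≤ ∑ j ∈ Finset.range (i + 1), ‖PowerSeries.coeff j v‖ :=
        Finset.single_le_sum (f := fun j => ‖PowerSeries.coeff j v‖) (fun _ _ => norm_nonneg _)
          (Finset.mem_range.2 (by omega))
      calc ‖PowerSeries.coeff j v‖ ≤ R := by linarith
        _ ≤ R ^ j := le_self_pow₀ hR1 h0.ne'
  have key : ∀ n : ℕ, ∀ j ≤ i, ‖PowerSeries.coeff j (v ^ n)‖ ≤ R ^ j := by
    intro n
    induction n with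
    | zero =>
      intro j _
      rw [pow_zero, PowerSeries.coeff_one]
      split_ifs with h
      · subst h; simp
      · simpa using pow_nonneg hR0 j
    | succ n ih =>
      intro j hj
      rw [pow_succ, PowerSeries.coeff_mul]
      refine IsUltrametricDist.norm_sum_le_of_forall_le_of_nonneg (pow_nonneg hR0 j) ?_
      intro p hp
      rw [Finset.HasAntidiagonal.mem_antidiagonal] at hp
      rw [norm_mul, ← hp, pow_add]
      exact mul_le_mul (ih _ (by omega)) (hv' _ (by omega)) (norm_nonneg _) (pow_nonneg hR0 _)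
  exact ⟨R ^ i, pow_nonneg hR0 i, fun n => key n i le_rfl⟩

/-- General expansion along a multiplicative family. -/
theorem gen_T4 (S : Subring (T C)) (w : ℤ → PowerSeries C) (h0 : w 0 = 1)
    (hw : ∀ f ∈ S, ∀ g ∈ S, ∀ m n : ℤ, f.coeff m ≠ 0 → g.coeff n ≠ 0 → w (m + n) = w m * w n)
    (hs : ∀ f ∈ S, ∀ i : ℕ,
      Tendsto (fun n : ℤ => f.coeff n * PowerSeries.coeff i (w n)) cofinite (𝓝 0)) :
    ∃ ev : S →+* PowerSeries C,
      (∀ (n : ℤ) (c : C) (h : mono n c ∈ S), ev ⟨mono n c, h⟩ = PowerSeries.C c * w n) ∧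
      ∀ ζ : C, (∀ n, PowerSeries.rescale ζ (w n) = w n) →
        ∀ f, PowerSeries.rescale ζ (ev f) = ev f := by
  haveI : NonarchimedeanRing C := nonarch_T4
  have hsum : ∀ f ∈ S, ∀ i : ℕ,
      Summable (fun n : ℤ => f.coeff n * PowerSeries.coeff i (w n)) := fun f hf i =>
    NonarchimedeanAddGroup.summable_of_tendsto_cofinite_zero (hs f hf i)
  let E : T C → PowerSeries C := fun f =>
    PowerSeries.mk fun i => ∑' n : ℤ, f.coeff n * PowerSeries.coeff i (w n)
  have hE : ∀ f i, PowerSeries.coeff i (E f) = ∑' n : ℤ, f.coeff n * PowerSeries.coeff i (w n) :=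
    fun f i => PowerSeries.coeff_mk _ _
  have hmono : ∀ (n : ℤ) (c : C), E (mono n c) = PowerSeries.C c * w n := by
    intro n c
    ext i
    rw [hE, PowerSeries.coeff_C_mul, tsum_eq_single n]
    · simp [coeff_mono]
    · intro m hm
      simp [coeff_mono, hm]
  have hmul : ∀ f ∈ S, ∀ g ∈ S, E (f * g) = E f * E g := by
    intro f hf g hg
    ext i
    rw [hE, PowerSeries.coeff_mul]
    have h1 : HasSum (fun p : ℤ × ℤ => ∑ q ∈ Finset.HasAntidiagonal.antidiagonal i,
        (f.coeff p.1 * PowerSeries.coeff q.1 (w p.1)) *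
          (g.coeff p.2 * PowerSeries.coeff q.2 (w p.2)))
        (∑ q ∈ Finset.HasAntidiagonal.antidiagonal i,
          PowerSeries.coeff q.1 (E f) * PowerSeries.coeff q.2 (E g)) := by
      refine hasSum_sum fun q _ => ?_
      rw [hE, hE]
      exact (hsum f hf q.1).hasSum.mul_of_nonarchimedean (hsum g hg q.2).hasSum
    have h2 : (fun p : ℤ × ℤ => ∑ q ∈ Finset.HasAntidiagonal.antidiagonal i,
        (f.coeff p.1 * PowerSeries.coeff q.1 (w p.1)) *
          (g.coeff p.2 * PowerSeries.coeff q.2 (w p.2))) =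
        fun p : ℤ × ℤ => f.coeff p.1 * g.coeff p.2 * PowerSeries.coeff i (w (p.1 + p.2)) := by
      funext p
      by_cases ha : f.coeff p.1 = 0
      · simp [ha]
      by_cases hb : g.coeff p.2 = 0
      · simp [hb]
      rw [hw f hf g hg _ _ ha hb, PowerSeries.coeff_mul, Finset.mul_sum]
      exact Finset.sum_congr rfl fun q _ => by ring
    rw [h2] at h1
    let e : ℤ × ℤ ≃ ℤ × ℤ :=
      { toFun := fun p => (p.2, p.1 - p.2)
        invFun := fun p => (p.1 + p.2, p.1)
        left_inv := fun p => by simp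
        right_inv := fun p => by simp }
    have h3 := (e.hasSum_iff (f := fun p : ℤ × ℤ =>
      f.coeff p.1 * g.coeff p.2 * PowerSeries.coeff i (w (p.1 + p.2)))).2 h1
    refine (h3.prod_fiberwise fun n => ?_).tsum_eq
    have h4 := (summable_conv f g n).hasSum.mul_right (PowerSeries.coeff i (w n))
    rw [coeff_mul]
    have h5 : (fun m : ℤ => ((fun p : ℤ × ℤ => f.coeff p.1 * g.coeff p.2 *
        PowerSeries.coeff i (w (p.1 + p.2))) ∘ e) (n, m)) =
        fun m => f.coeff m * g.coeff (n - m) * PowerSeries.coeff i (w n) := by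
      funext m
      change f.coeff m * g.coeff (n - m) * PowerSeries.coeff i (w (m + (n - m))) = _
      rw [add_sub_cancel]
    rw [h5]
    exact h4
  refine ⟨{ toFun := fun f => E f
            map_one' := ?_
            map_mul' := fun f g => hmul f f.2 g g.2
            map_zero' := ?_
            map_add' := ?_ }, fun n c h => hmono n c, ?_⟩
  · have := hmono 0 1
    rw [h0, map_one, mul_one] at this
    exact this
  · ext i
    rw [hE]
    simp
  · intro f g
    ext i
    rw [map_add, hE, hE, hE, ← (hsum f f.2 i).tsum_add (hsum g g.2 i)]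
    refine tsum_congr fun n => ?_
    rw [Subring.coe_add, coeff_add, add_mul]
  · intro ζ hζ f
    ext i
    change PowerSeries.coeff i (PowerSeries.rescale ζ (E f)) = PowerSeries.coeff i (E f)
    rw [PowerSeries.coeff_rescale, hE, ← tsum_mul_left]
    refine tsum_congr fun n => ?_
    have := congrArg (PowerSeries.coeff i) (hζ n)
    rw [PowerSeries.coeff_rescale] at this
    rw [mul_left_comm, this]

/-- Expansion of a power series converging on the closed unit disc along V ↦ u. -/
theorem exists_evp (u : PowerSeries C) (hu : ‖PowerSeries.constantCoeff u‖ ≤ 1) :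
    ∃ ev : Tp C →+* PowerSeries C,
      (∀ (n : ℕ) (c : C) (h : mono n c ∈ Tp C), ev ⟨mono n c, h⟩ = PowerSeries.C c * u ^ n) ∧
      ∀ ζ : C, PowerSeries.rescale ζ u = u → ∀ f, PowerSeries.rescale ζ (ev f) = ev f := by
  obtain ⟨ev, h1, h2⟩ := gen_T4 (Tp C) (fun n => u ^ n.toNat) (by simp) (by
      intro f hf g hg m n hm hn
      have hm' : 0 ≤ m := not_lt.1 fun h => hm ((mem_Tp f).1 hf m h)
      have hn' : 0 ≤ n := not_lt.1 fun h => hn ((mem_Tp g).1 hg n h)
      rw [Int.toNat_add hm' hn', pow_add]) (by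
      intro f _ i
      obtain ⟨K, -, hK⟩ := bound_T4 u hu i
      refine squeeze_zero_norm (a := fun n => ‖f.coeff n‖ * K) (fun n => ?_) ?_
      · rw [norm_mul]
        exact mul_le_mul_of_nonneg_left (hK _) (norm_nonneg _)
      · simpa using (tendsto_coeff f).norm.mul_const K)
  refine ⟨ev, fun n c h => ?_, fun ζ hζ => h2 ζ fun n => ?_⟩
  · simpa using h1 n c h
  · rw [map_pow, hζ]

/-- Expansion of a series converging on the closed annulus along V ↦ u. -/
theorem exists_eva (l : C) (hl : l ≠ 0) (u : PowerSeries C)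
    (h1 : 1 ≤ ‖PowerSeries.constantCoeff u‖) (h2 : ‖PowerSeries.constantCoeff u‖ ≤ ‖l‖) :
    ∃ ev : Tan l hl →+* PowerSeries C,
      (∀ (n : ℕ) (c : C) (h : mono n c ∈ Tan l hl), ev ⟨mono n c, h⟩ = PowerSeries.C c * u ^ n) ∧
      ∀ ζ : C, PowerSeries.rescale ζ u = u → ∀ f, PowerSeries.rescale ζ (ev f) = ev f := by
  have hu0 : PowerSeries.constantCoeff u ≠ 0 := by
    intro h
    rw [h, norm_zero] at h1
    exact absurd h1 (by norm_num)
  let U : (PowerSeries C)ˣ :=
    ⟨u, u⁻¹, PowerSeries.mul_inv_cancel u hu0, PowerSeries.inv_mul_cancel u hu0⟩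
  have hUp : ∀ n : ℕ, ((U ^ (n : ℤ) : (PowerSeries C)ˣ) : PowerSeries C) = u ^ n := by
    intro n
    rw [zpow_natCast, Units.val_pow_eq_pow_val]
  have hUm : ∀ n : ℕ, ((U ^ (-(n : ℤ)) : (PowerSeries C)ˣ) : PowerSeries C) = u⁻¹ ^ n := by
    intro n
    rw [zpow_neg, ← inv_zpow, zpow_natCast, Units.val_pow_eq_pow_val]
    rfl
  have hl0 : 0 < ‖l‖ := norm_pos_iff.2 hl
  obtain ⟨ev, h3, h4⟩ := gen_T4 (Tan l hl)
    (fun n => ((U ^ n : (PowerSeries C)ˣ) : PowerSeries C)) (by simp) (by
      intro f _ g _ m n _ _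
      rw [zpow_add, Units.val_mul]) (by
      intro f hf i
      obtain ⟨K, hK0, hK⟩ := bound_T4 (PowerSeries.C l⁻¹ * u) (by
        rw [map_mul, PowerSeries.constantCoeff_C, norm_mul, norm_inv]
        exact (inv_mul_le_one₀ hl0).2 h2) i
      obtain ⟨K', hK0', hK'⟩ := bound_T4 u⁻¹ (by
        rw [PowerSeries.constantCoeff_inv, norm_inv]
        exact inv_le_one_of_one_le₀ h1) i
      refine squeeze_zero_norm
        (a := fun n => ‖l ^ n * f.coeff n‖ * K + ‖f.coeff n‖ * K') (fun n => ?_) ?_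
      · obtain ⟨m, rfl | rfl⟩ := Int.eq_nat_or_neg n
        · have h5 : f.coeff m * PowerSeries.coeff i (u ^ m) =
              (l ^ (m : ℤ) * f.coeff m) * PowerSeries.coeff i ((PowerSeries.C l⁻¹ * u) ^ m) := by
            rw [mul_pow, ← map_pow, PowerSeries.coeff_C_mul, zpow_natCast, inv_pow]
            have : l ^ m ≠ 0 := pow_ne_zero _ hl
            field_simp
          rw [hUp, h5, norm_mul]
          have h6 := mul_le_mul_of_nonneg_left (hK m) (norm_nonneg (l ^ (m : ℤ) * f.coeff m))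
          have h7 := mul_nonneg (norm_nonneg (f.coeff m)) hK0'
          linarith
        · rw [hUm, norm_mul]
          have h6 := mul_le_mul_of_nonneg_left (hK' m) (norm_nonneg (f.coeff (-m)))
          have h7 := mul_nonneg (norm_nonneg (l ^ (-(m : ℤ)) * f.coeff (-m))) hK0
          linarith
      · simpa using (((mem_Tan l hl f).1 hf).norm.mul_const K).add
          ((tendsto_coeff f).norm.mul_const K'))
  refine ⟨ev, fun n c h => ?_, fun ζ hζ => h4 ζ fun n => ?_⟩
  · rw [h3 n c h, hUp]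
  · have h5 : Units.map (PowerSeries.rescale ζ : PowerSeries C →+* PowerSeries C).toMonoidHom U
        = U := Units.ext hζ
    have h6 := congrArg (fun x : (PowerSeries C)ˣ => ((x ^ n : (PowerSeries C)ˣ) : PowerSeries C))
      h5
    simp only [← map_zpow] at h6
    exact h6

/-- Expansion of a power series in V⁻¹ along V⁻¹ ↦ u. -/
theorem exists_evm (u : PowerSeries C) (hu : ‖PowerSeries.constantCoeff u‖ ≤ 1) :
    ∃ ev : Tm C →+* PowerSeries C,
      (∀ (n : ℕ) (c : C) (h : mono (-n) c ∈ Tm C), ev ⟨mono (-n) c, h⟩ = PowerSeries.C c * u ^ n) ∧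
      ∀ ζ : C, PowerSeries.rescale ζ u = u → ∀ f, PowerSeries.rescale ζ (ev f) = ev f := by
  obtain ⟨ev, h1, h2⟩ := gen_T4 (Tm C) (fun n => u ^ (-n).toNat) (by simp) (by
      intro f hf g hg m n hm hn
      have hm' : 0 ≤ -m := by
        have := not_lt.1 fun h => hm ((mem_Tm f).1 hf m h)
        omega
      have hn' : 0 ≤ -n := by
        have := not_lt.1 fun h => hn ((mem_Tm g).1 hg n h)
        omega
      rw [neg_add, Int.toNat_add hm' hn', pow_add]) (by
      intro f _ i
      obtain ⟨K, -, hK⟩ := bound_T4 u hu i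
      refine squeeze_zero_norm (a := fun n => ‖f.coeff n‖ * K) (fun n => ?_) ?_
      · rw [norm_mul]
        exact mul_le_mul_of_nonneg_left (hK _) (norm_nonneg _)
      · simpa using (tendsto_coeff f).norm.mul_const K)
  refine ⟨ev, fun n c h => ?_, fun ζ hζ => h2 ζ fun n => ?_⟩
  · simpa using h1 (-n) c h
  · rw [map_pow, hζ]

end T

end

end Pool.Agent.Adm
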