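import Pool.Agent.Adm.AnDefs
import Pool.Agent.Adm.T4
import Pool.Agent.Adm.Loc
import Pool.Agent.Adm.H0

/-! Meromorphic functions on the outer disc. -/

namespace Pool.Agent.Adm

theorem exists_inv_AnB (k : Type) [Field k] : ∃ f : RatFunc k →+* RatFunc k,
    (∀ c, f (RatFunc.C c) = RatFunc.C c) ∧ f RatFunc.X = RatFunc.X⁻¹ := by
  refine exists_ratFunc_hom RatFunc.C _ fun P hP h => ?_
  have h1 : IsAlgebraic k (RatFunc.X⁻¹ : RatFunc k) :=
    ⟨P, hP, by rwa [Polynomial.aeval_def, RatFunc.algebraMap_eq_C]⟩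
  exact RatFunc.transcendental_X (IsAlgebraic.inv_iff.1 h1)

variable {C : Type} [NormedField C] [CompleteSpace C] [IsUltrametricDist C]

theorem exists_QB (c : C) (hc : c ≠ 0) (e : ℕ) (he : 0 < e) :
    ∃ (Q : Type) (_ : CommRing Q) (a : T.Tm C →+* Q) (κ : RatFunc C →+* Q)
      (β : Q →+* FractionRing (T C)), Function.Injective β ∧
      (∀ r, β (a r) = iT (T.pw e he r)) ∧
      (∀ x, β (κ (RatFunc.C x)) = iT (T.cst x)) ∧ β (κ RatFunc.X) = iT (T.mono e c) ∧
      (∀ q : Q, ∃ d : Polynomial C, d ≠ 0 ∧ ∃ r,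
        q * κ (d.eval₂ RatFunc.C RatFunc.X⁻¹) = a r) ∧
      ∀ u : PowerSeries C, ‖PowerSeries.constantCoeff u‖ ≤ ‖c‖⁻¹ →
        (∀ P : Polynomial C, P ≠ 0 → P.eval₂ HahnSeries.C (u : LaurentSeries C) ≠ 0) →
        ∃ ψ : Q →+* LaurentSeries C, (∀ x, ψ (κ (RatFunc.C x)) = HahnSeries.C x) ∧
          ψ (κ RatFunc.X) = (u : LaurentSeries C)⁻¹ ∧
          ∀ (ζ : C) (h : ζ ≠ 0), scL ζ h (u : LaurentSeries C) = u → ∀ q, scL ζ h (ψ q) = ψ q := by
  let cs : C →+* T.Tm C := T.cst.codRestrict (T.Tm C) fun x => T.mono_mem_Tm 0 le_rfl x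
  let w : T.Tm C := ⟨T.mono (-1) c⁻¹, T.mono_mem_Tm _ (by norm_num) _⟩
  obtain ⟨Q, _, a, κ, h1, h2, h3⟩ := exists_loc (Polynomial.eval₂RingHom cs w)
  obtain ⟨f, fC, fX⟩ := exists_inv_AnB C
  have kC : ∀ x, κ (RatFunc.C x) = a (cs x) := fun x => by simpa using h1 (Polynomial.C x)
  have kX : κ RatFunc.X = a w := by simpa using h1 Polynomial.X
  have key : ∀ (W : Type) [Field W] (ψ : Q →+* W), ψ (κ (f RatFunc.X)) = (ψ (a w))⁻¹ :=
    fun W _ ψ => by
      rw [fX, ← kX]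
      exact map_inv₀ (ψ.comp κ) _
  have he0 : (e : ℤ) ≠ 0 := by exact_mod_cast he.ne'
  let β0 : T.Tm C →+* FractionRing (T C) := iT.comp ((T.pw e he).comp (T.Tm C).subtype)
  have iinj : Function.Injective (iT : T C →+* FractionRing (T C)) :=
    IsFractionRing.injective _ _
  have pC : ((T.pw e he).comp (T.Tm C).subtype).comp cs = T.cst := by
    refine RingHom.ext fun x => ?_
    show T.pw e he (T.mono 0 x) = T.mono 0 x
    rw [T.pw_mono, mul_zero]
  have pw : (T.pw e he).comp (T.Tm C).subtype w = T.mono (e * -1) c⁻¹ := T.pw_mono e he _ _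
  obtain ⟨β, b1, b2, -⟩ := h3 _ β0 fun d hd => by
    show iT ((T.pw e he).comp (T.Tm C).subtype (d.eval₂ cs w)) ≠ 0
    rw [Polynomial.hom_eval₂, pC, pw, map_ne_zero_iff _ iinj]
    exact T.eval₂_ne_zero d hd _ (by simpa using he.ne') _ (inv_ne_zero hc)
  refine ⟨Q, inferInstance, a, κ.comp f, β,
    b2 (iinj.comp ((T.pw_injective e he).comp Subtype.val_injective)), b1, fun x => ?_, ?_,
    fun q => ?_, fun u hu hP => ?_⟩
  · rw [RingHom.comp_apply, fC, kC, b1]
    exact congrArg iT (RingHom.congr_fun pC x)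
  · rw [RingHom.comp_apply, key, b1]
    refine inv_eq_of_mul_eq_one_right ?_
    show iT ((T.pw e he).comp (T.Tm C).subtype w) * _ = 1
    rw [pw, ← map_mul, T.mono_mul_mono, inv_mul_cancel₀ hc, mul_neg_one, neg_add_cancel]
    exact map_one iT
  · obtain ⟨d, hd, r, hr⟩ := h2 q
    refine ⟨d, hd, r, ?_⟩
    have e1 : f.comp RatFunc.C = RatFunc.C := RingHom.ext fC
    rw [RingHom.comp_apply, Polynomial.hom_eval₂, e1, map_inv₀, fX, inv_inv,
      ← hom_algebraMap (RingHom.id _) RatFunc.C RatFunc.X (fun _ => rfl) rfl, RingHom.id_apply, h1,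
      hr]
  · obtain ⟨ev, v1, v2⟩ := T.exists_evm (PowerSeries.C c * u) (by
      rw [map_mul, PowerSeries.constantCoeff_C, norm_mul]
      exact (mul_le_mul_of_nonneg_left hu (norm_nonneg c)).trans_eq
        (mul_inv_cancel₀ (norm_ne_zero_iff.2 hc)))
    let ψ0 : T.Tm C →+* LaurentSeries C := (HahnSeries.ofPowerSeries ℤ C).comp ev
    have qC : ψ0.comp cs = HahnSeries.C := by
      refine RingHom.ext fun x => ?_
      have : ev (cs x) = _ := v1 0 x (T.mono_mem_Tm 0 le_rfl x)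
      show HahnSeries.ofPowerSeries ℤ C (ev (cs x)) = _
      rw [this, pow_zero, mul_one, HahnSeries.ofPowerSeries_C]
    have qw : ψ0 w = (u : LaurentSeries C) := by
      have : ev w = _ := v1 1 c⁻¹ w.2
      show HahnSeries.ofPowerSeries ℤ C (ev w) = _
      rw [this, pow_one, ← mul_assoc, ← map_mul, inv_mul_cancel₀ hc, map_one, one_mul]
    obtain ⟨ψ, p1, -, p3⟩ := h3 _ ψ0 fun d hd => by
      show ψ0 (d.eval₂ cs w) ≠ 0
      rw [Polynomial.hom_eval₂, qC, qw]
      exact hP d hd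
    refine ⟨ψ, fun x => ?_, ?_, fun ζ h hζ => p3 _ fun r => ?_⟩
    · rw [RingHom.comp_apply, fC, kC, p1]
      exact RingHom.congr_fun qC x
    · rw [RingHom.comp_apply, key, p1, qw]
    · rw [scL_coe] at hζ
      have e1 : PowerSeries.rescale ζ u = u := HahnSeries.ofPowerSeries_injective hζ
      have e2 : PowerSeries.rescale ζ (PowerSeries.C c * u) = PowerSeries.C c * u := by
        rw [← PowerSeries.smul_eq_C_mul]
        ext n
        have := congrArg (PowerSeries.coeff n) e1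
        rw [PowerSeries.coeff_rescale] at this
        rw [PowerSeries.coeff_rescale, PowerSeries.coeff_smul, smul_eq_mul, mul_left_comm, this]
      exact (scL_coe ζ h (ev r)).trans (congrArg _ (v2 ζ e2 r))

end Pool.Agent.Adm
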