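import Mathlib

/-! Cartan factorisation of matrices close to the identity. -/

namespace Pool.Agent.Adm

section AuxT5

attribute [local instance] Matrix.linftyOpNormedRing

open scoped NNReal

variable {n : Type} [Fintype n] [DecidableEq n]

theorem norm_mono_T5 {R S : Type} [NormedRing R] [NormedRing S] (a : Matrix n n R)
    (b : Matrix n n S) (h : ∀ i j, ‖a i j‖ ≤ ‖b i j‖) : ‖a‖ ≤ ‖b‖ := by
  rw [Matrix.linfty_opNorm_def, Matrix.linfty_opNorm_def, NNReal.coe_le_coe]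
  exact Finset.sup_mono_fun fun i _ => Finset.sum_le_sum fun j _ => h i j

theorem norm_le_T5 {R : Type} [NormedRing R] (a : Matrix n n R) (δ : ℝ≥0)
    (h : ∀ i j, ‖a i j‖ ≤ δ) : ‖a‖ ≤ Fintype.card n * δ := by
  rw [Matrix.linfty_opNorm_def]
  have : ((Finset.univ : Finset n).sup fun i => ∑ j : n, ‖a i j‖₊) ≤ Fintype.card n * δ := by
    refine Finset.sup_le fun i _ => ?_
    calc ∑ j : n, ‖a i j‖₊ ≤ ∑ _j : n, δ := Finset.sum_le_sum fun j _ => h i j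
      _ = Fintype.card n * δ := by simp
  exact_mod_cast this

theorem complete_T5 (R : Type) [NormedRing R] [CompleteSpace R] :
    @CompleteSpace (Matrix n n R)
      (Matrix.linftyOpNormedRing (n := n) (α := R)).toPseudoMetricSpace.toUniformSpace :=
  (inferInstance : CompleteSpace (n → n → R))

theorem unit_T5 {R : Type} [NormedCommRing R] [CompleteSpace R] (S : Subring R)
    (hS : IsClosed (S : Set R)) (a : Matrix n n R) (ha : ∀ i j, a i j ∈ S) (h : ‖a‖ < 1) :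
    ∃ b : Matrix n n S, IsUnit b ∧ b.map S.subtype = 1 + a := by
  have : CompleteSpace S := hS.completeSpace_coe
  have := complete_T5 (n := n) S
  let c : Matrix n n S := Matrix.of fun i j => -⟨a i j, ha i j⟩
  have hc : ‖c‖ < 1 := lt_of_le_of_lt (norm_mono_T5 c a fun i j => by
    change ‖-(⟨a i j, ha i j⟩ : S)‖ ≤ _
    rw [norm_neg]
    exact le_rfl) h
  refine ⟨1 - c, isUnit_one_sub_of_norm_lt_one hc, ?_⟩
  ext i j
  by_cases hij : i = j <;> simp [c, hij]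

theorem fix_T5 {R : Type} [NormedCommRing R] [CompleteSpace R] (π : R →+ R)
    (hn1 : ∀ x, ‖π x‖ ≤ ‖x‖) (x : Matrix n n R) (hx : ‖x‖ ≤ 1 / 4) :
    ∃ a : Matrix n n R, a = -(x + a * x).map π ∧ ‖x + a * x‖ ≤ 1 / 2 := by
  have := complete_T5 (n := n) R
  have hm : ∀ z : Matrix n n R, ‖z.map π‖ ≤ ‖z‖ := fun z =>
    norm_mono_T5 _ _ fun i j => hn1 _
  have hc : ContractingWith (1 / 4 : ℝ≥0) fun a : Matrix n n R => -(x + a * x).map π := by
    refine ⟨by norm_num, LipschitzWith.of_dist_le_mul fun a b => ?_⟩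
    rw [dist_eq_norm, dist_eq_norm]
    have : -(x + a * x).map π - -(x + b * x).map π = -((a - b) * x).map π := by
      ext i j
      simp [Matrix.sub_mul]
      ring
    rw [this, norm_neg]
    calc ‖((a - b) * x).map π‖ ≤ ‖(a - b) * x‖ := hm _
      _ ≤ ‖a - b‖ * ‖x‖ := norm_mul_le _ _
      _ ≤ ‖a - b‖ * (1 / 4) := mul_le_mul_of_nonneg_left hx (norm_nonneg _)
      _ = _ := by push_cast; ring
  refine ⟨hc.fixedPoint, hc.fixedPoint_isFixedPt.symm, ?_⟩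
  set a := hc.fixedPoint
  have ha : a = -(x + a * x).map π := hc.fixedPoint_isFixedPt.symm
  have h1 : ‖a‖ ≤ ‖x + a * x‖ := by
    conv_lhs => rw [ha, norm_neg]
    exact hm _
  have h2 : ‖x + a * x‖ ≤ 1 / 4 + ‖a‖ * (1 / 4) :=
    (norm_add_le _ _).trans (add_le_add hx ((norm_mul_le _ _).trans
      (mul_le_mul_of_nonneg_left hx (norm_nonneg _))))
  linarith

theorem cartan_T5 {R : Type} [NormedCommRing R] [CompleteSpace R] (S1 S2 : Subring R)
    (h1 : IsClosed (S1 : Set R)) (h2 : IsClosed (S2 : Set R)) (π : R →+ R)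
    (hπ1 : ∀ x, π x ∈ S1) (hπ2 : ∀ x, x - π x ∈ S2) (hn1 : ∀ x, ‖π x‖ ≤ ‖x‖)
    (hn2 : ∀ x, ‖x - π x‖ ≤ ‖x‖) (y : Matrix n n R) (δ : ℝ≥0)
    (hδ : (Fintype.card n : ℝ) * δ ≤ 1 / 4) (hy : ∀ i j, ‖(y - 1) i j‖ ≤ δ) :
    ∃ (b1 : Matrix n n S1) (b2 : Matrix n n S2), IsUnit b1 ∧ IsUnit b2 ∧
      y = b1.map S1.subtype * b2.map S2.subtype := by
  obtain ⟨a, ha, hz⟩ := fix_T5 π hn1 (y - 1) ((norm_le_T5 _ δ hy).trans hδ)
  set z := y - 1 + a * (y - 1) with hzd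
  have hna : ‖a‖ < 1 := by
    rw [ha, norm_neg]
    exact lt_of_le_of_lt ((norm_mono_T5 _ z fun i j => hn1 _).trans hz) (by norm_num)
  have hnw : ‖z - z.map π‖ < 1 :=
    lt_of_le_of_lt ((norm_mono_T5 _ z fun i j => hn2 _).trans hz) (by norm_num)
  obtain ⟨c1, u1, e1⟩ := unit_T5 S1 h1 a (fun i j => by
    rw [ha]
    exact S1.neg_mem (hπ1 _)) hna
  obtain ⟨c2, u2, e2⟩ := unit_T5 S2 h2 (z - z.map π) (fun i j => hπ2 _) hnw
  obtain ⟨u, rfl⟩ := u1
  refine ⟨↑u⁻¹, c2, Units.isUnit _, u2, ?_⟩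
  have e3 : (u : Matrix n n S1).map S1.subtype * y = c2.map S2.subtype := by
    rw [e1, e2, sub_eq_add_neg z, ← ha, hzd]
    noncomm_ring
  rw [← e3, ← Matrix.mul_assoc, ← Matrix.map_mul, Units.inv_mul, Matrix.map_one _ (map_zero _)
    (map_one _), Matrix.one_mul]

end AuxT5

theorem cartan_small {R : Type} [NormedCommRing R] [CompleteSpace R] (S1 S2 : Subring R)
    (h1 : IsClosed (S1 : Set R)) (h2 : IsClosed (S2 : Set R)) (π : R →+ R)
    (hπ1 : ∀ x, π x ∈ S1) (hπ2 : ∀ x, x - π x ∈ S2) (hn1 : ∀ x, ‖π x‖ ≤ ‖x‖)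
    (hn2 : ∀ x, ‖x - π x‖ ≤ ‖x‖) (n : Type) [Fintype n] [DecidableEq n] :
    ∃ δ : ℝ, 0 < δ ∧ ∀ y : Matrix n n R, (∀ i j, ‖(y - 1) i j‖ ≤ δ) →
      ∃ (b1 : Matrix n n S1) (b2 : Matrix n n S2), IsUnit b1 ∧ IsUnit b2 ∧
        y = b1.map S1.subtype * b2.map S2.subtype := by
  have hp : (0 : ℝ) < 1 / (4 * (Fintype.card n + 1)) := by positivity
  refine ⟨1 / (4 * (Fintype.card n + 1)), hp, fun y hy => ?_⟩
  refine cartan_T5 S1 S2 h1 h2 π hπ1 hπ2 hn1 hn2 y ⟨_, hp.le⟩ ?_ hy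
  change (Fintype.card n : ℝ) * (1 / (4 * (Fintype.card n + 1))) ≤ 1 / 4
  rw [mul_one_div, div_le_div_iff₀ (by positivity) (by positivity)]
  linarith

end Pool.Agent.Adm
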