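import Pool.Agent.Adm.T2
import Pool.Agent.Adm.T5

/-! Cartan factorisation over T, on one circle and on two circles. -/

namespace Pool.Agent.Adm

noncomputable section

namespace T

variable {C : Type} [NormedField C] [CompleteSpace C] [IsUltrametricDist C]

/-- Evaluation of polynomials at V. -/
def pol : Polynomial C →+* T C := Polynomial.eval₂RingHom cst (mono 1 1)

theorem pol_monomial_T6 (j : ℕ) (c : C) : pol (Polynomial.monomial j c) = mono j c := by
  simp only [pol, Polynomial.coe_eval₂RingHom, Polynomial.eval₂_monomial]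
  rw [mono_pow, cst_apply, mono_mul_mono]
  simp

theorem exists_pol_approx (f : T C) (ε : ℝ) (hε : 0 < ε) :
    ∃ N0 : ℕ, ∀ N : ℕ, N0 ≤ N → ∃ P : Polynomial C, ‖f * mono N 1 - pol P‖ ≤ ε := by
  have h1 : ∀ᶠ i in Filter.cofinite, ‖f.coeff i‖ < ε :=
    (NormedAddGroup.tendsto_nhds_zero.1 (tendsto_coeff f)) ε hε
  have h2 : {i : ℤ | ¬ ‖f.coeff i‖ < ε}.Finite := Filter.eventually_cofinite.1 h1
  obtain ⟨M, hM⟩ := (h2.image Int.natAbs).bddAbove
  refine ⟨M, fun N hN => ⟨∑ j ∈ Finset.range (N + M + 1),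
    Polynomial.monomial j (f.coeff ((j : ℤ) - N)), ?_⟩⟩
  refine norm_le _ hε.le fun m => ?_
  rw [coeff_sub, mul_comm f, coeff_mono_mul, one_mul, map_sum, coeff_sum]
  simp only [pol_monomial_T6, coeff_mono]
  by_cases hm : 0 ≤ m ∧ m < (N + M + 1 : ℕ)
  · obtain ⟨k, rfl⟩ := Int.eq_ofNat_of_zero_le hm.1
    rw [Finset.sum_eq_single k]
    · simp [hε.le]
    · intro b _ hb
      rw [if_neg (by exact_mod_cast hb.symm)]
    · intro hk
      exact absurd (Finset.mem_range.2 (by exact_mod_cast hm.2)) hk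
  · rw [Finset.sum_eq_zero, sub_zero]
    · by_contra hc
      have h3 : (m - N).natAbs ≤ M := hM ⟨m - N, fun h => hc h.le, rfl⟩
      apply hm
      push_cast
      omega
    · intro b hb
      rw [if_neg]
      rintro rfl
      exact hm ⟨Int.natCast_nonneg b, by exact_mod_cast Finset.mem_range.1 hb⟩

theorem norm_mono_le_T6 (m : ℤ) : ‖(mono m 1 : T C)‖ ≤ 1 := by
  refine norm_le _ zero_le_one fun i => ?_
  rw [coeff_mono]
  split_ifs <;> simp

/-- The projection keeping the coefficients of nonnegative index. -/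
def posT6 : T C →+ T C where
  toFun f := mk (fun i => if 0 ≤ i then f.coeff i else 0) (by
    refine squeeze_zero_norm (a := fun i => ‖f.coeff i‖) (fun i => ?_)
      (tendsto_zero_iff_norm_tendsto_zero.1 (tendsto_coeff f))
    split_ifs <;> simp)
  map_zero' := by ext i; simp
  map_add' f g := by
    ext i
    by_cases h : 0 ≤ i <;> simp [h]

theorem coeff_posT6 (f : T C) (i : ℤ) :
    (posT6 f).coeff i = if 0 ≤ i then f.coeff i else 0 := rfl

/-- The projection keeping the coefficients of negative index. -/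
def negT6 : T C →+ T C where
  toFun f := f - posT6 f
  map_zero' := by rw [map_zero, sub_zero]
  map_add' f g := by rw [map_add]; abel

theorem negT6_apply (f : T C) : negT6 f = f - posT6 f := rfl

theorem posT6_mem (f : T C) : posT6 f ∈ Tp C := by
  rw [mem_Tp]
  intro i hi
  rw [coeff_posT6, if_neg (by omega)]

theorem sub_posT6_mem (f : T C) : f - posT6 f ∈ Tm C := by
  rw [mem_Tm]
  intro i hi
  rw [coeff_sub, coeff_posT6, if_pos hi.le, sub_self]

theorem norm_posT6 (f : T C) : ‖posT6 f‖ ≤ ‖f‖ := by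
  refine norm_le _ (norm_nonneg _) fun i => ?_
  rw [coeff_posT6]
  split_ifs
  · exact norm_coeff_le f i
  · simp

theorem norm_sub_posT6 (f : T C) : ‖f - posT6 f‖ ≤ ‖f‖ := by
  refine norm_le _ (norm_nonneg _) fun i => ?_
  rw [coeff_sub, coeff_posT6]
  split_ifs
  · simp
  · simpa using norm_coeff_le f i

variable {n : Type} [Fintype n] [DecidableEq n]

theorem approx_T6 (A B : Matrix n n (T C)) (hAB : A * B = 1) (δ : ℝ) (hδ : 0 < δ) :
    ∃ (N : ℕ) (Λ : Matrix n n (Polynomial C)),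
      ∀ i j, ‖(((mono (-(N : ℤ)) 1 : T C) • Λ.map pol) * B - 1) i j‖ ≤ δ := by
  set M : ℝ := ∑ k, ∑ j, ‖B k j‖ + 1 with hM
  have hM0 : 0 < M := by positivity
  choose N0 hN0 using fun p : n × n => exists_pol_approx (A p.1 p.2) (δ / M) (div_pos hδ hM0)
  obtain ⟨N, hN⟩ := (Set.finite_range N0).bddAbove
  choose P hP using fun p : n × n => hN0 p N (hN ⟨p, rfl⟩)
  refine ⟨N, Matrix.of fun i j => P (i, j), fun i j => ?_⟩
  rw [← hAB, ← Matrix.sub_mul, Matrix.mul_apply]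
  have h1 : ∀ k, ‖((mono (-(N : ℤ)) 1 : T C) • (Matrix.of fun i j => P (i, j)).map pol - A) i k‖
      ≤ δ / M := by
    intro k
    have h2 : ((mono (-(N : ℤ)) 1 : T C) • (Matrix.of fun i j => P (i, j)).map pol - A) i k =
        -(mono (-(N : ℤ)) 1 * (A i k * mono N 1 - pol (P (i, k)))) := by
      have h3 : (mono (-(N : ℤ)) 1 : T C) * mono N 1 = 1 := by
        rw [mono_mul_mono, neg_add_cancel, one_mul]; rfl
      simp only [Matrix.sub_apply, Matrix.smul_apply, Matrix.map_apply, Matrix.of_apply,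
        smul_eq_mul]
      linear_combination (A i k) * h3
    rw [h2, norm_neg]
    refine (norm_mul_le _ _).trans ?_
    have h4 := hP (i, k)
    have h5 := norm_mono_le_T6 (C := C) (-(N : ℤ))
    calc _ ≤ 1 * (δ / M) := mul_le_mul h5 h4 (norm_nonneg _) zero_le_one
      _ = δ / M := one_mul _
  refine (norm_sum_le _ _).trans ?_
  have h6 : ∑ k, ‖B k j‖ ≤ M := by
    have : ∑ k, ‖B k j‖ ≤ ∑ k, ∑ j, ‖B k j‖ :=
      Finset.sum_le_sum fun k _ =>
        Finset.single_le_sum (f := fun j => ‖B k j‖) (fun _ _ => norm_nonneg _) (Finset.mem_univ j)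
    linarith
  calc _ ≤ ∑ k, δ / M * ‖B k j‖ := Finset.sum_le_sum fun k _ =>
        (norm_mul_le _ _).trans (mul_le_mul_of_nonneg_right (h1 k) (norm_nonneg _))
    _ = δ / M * ∑ k, ‖B k j‖ := (Finset.mul_sum _ _ _).symm
    _ ≤ δ / M * M := mul_le_mul_of_nonneg_left h6 (div_pos hδ hM0).le
    _ = δ := div_mul_cancel₀ _ hM0.ne'

theorem isUnit_map_T6 {R S : Type} [CommRing R] [CommRing S] (f : R →+* S) {b : Matrix n n R}
    (hb : IsUnit b) : IsUnit (b.map f) := hb.map f.mapMatrix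

theorem cartan_gen_T6 (S1 S2 : Subring (T C))
    (h1 : IsClosed (S1 : Set (T C))) (h2 : IsClosed (S2 : Set (T C))) (π : T C →+ T C)
    (hπ1 : ∀ x, π x ∈ S1) (hπ2 : ∀ x, x - π x ∈ S2) (hn1 : ∀ x, ‖π x‖ ≤ ‖x‖)
    (hn2 : ∀ x, ‖x - π x‖ ≤ ‖x‖) (A : Matrix n n (T C)) (hA : IsUnit A) :
    ∃ (N : ℕ) (Λ : Matrix n n (Polynomial C)) (c2 : Matrix n n S2) (c1 : Matrix n n S1),
      IsUnit c2 ∧ IsUnit c1 ∧ IsUnit (Λ.map pol) ∧
      (mono N 1 : T C) • A = c2.map S2.subtype * c1.map S1.subtype * Λ.map pol := by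
  obtain ⟨δ, hδ, H⟩ := cartan_small S1 S2 h1 h2 π hπ1 hπ2 hn1 hn2 n
  obtain ⟨a, rfl⟩ := hA
  obtain ⟨N, Λ, hΛ⟩ := approx_T6 a.val a.inv a.val_inv δ hδ
  obtain ⟨b1, b2, ⟨u1, rfl⟩, ⟨u2, rfl⟩, hy⟩ := H _ hΛ
  have h3 : (mono N 1 : T C) * mono (-(N : ℤ)) 1 = 1 := by
    rw [mono_mul_mono, add_neg_cancel, one_mul]; rfl
  have h4 : Λ.map pol = (mono N 1 : T C) •
      (u1.val.map S1.subtype * u2.val.map S2.subtype * a.val) := by
    rw [← hy, Matrix.mul_assoc, a.inv_val, Matrix.mul_one, smul_smul, h3, one_smul]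
  have h5 : u1.inv.map S1.subtype * u1.val.map S1.subtype = 1 := by
    rw [← Matrix.map_mul, u1.inv_val, Matrix.map_one _ (map_zero _) (map_one _)]
  have h6 : u2.inv.map S2.subtype * u2.val.map S2.subtype = 1 := by
    rw [← Matrix.map_mul, u2.inv_val, Matrix.map_one _ (map_zero _) (map_one _)]
  refine ⟨N, Λ, u2.inv, u1.inv, (u2⁻¹).isUnit, (u1⁻¹).isUnit, ?_, ?_⟩
  · rw [h4, Algebra.smul_def]
    refine IsUnit.mul (IsUnit.map _ (IsUnit.of_mul_eq_one _ h3)) ?_
    exact ((isUnit_map_T6 _ u1.isUnit).mul (isUnit_map_T6 _ u2.isUnit)).mul a.isUnit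
  · rw [h4, Matrix.mul_smul]
    congr 1
    rw [Matrix.mul_assoc (u1.val.map _), Matrix.mul_assoc, ← Matrix.mul_assoc (u1.inv.map _), h5,
      Matrix.one_mul, ← Matrix.mul_assoc, h6, Matrix.one_mul]

theorem cartan_mp (A : Matrix n n (T C)) (hA : IsUnit A) :
    ∃ (N : ℕ) (Λ : Matrix n n (Polynomial C)) (bm : Matrix n n (Tm C)) (bp : Matrix n n (Tp C)),
      IsUnit bm ∧ IsUnit bp ∧ IsUnit (Λ.map pol) ∧
      (mono N 1 : T C) • A = bm.map (Tm C).subtype * bp.map (Tp C).subtype * Λ.map pol :=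
  cartan_gen_T6 (Tp C) (Tm C) isClosed_Tp isClosed_Tm posT6 posT6_mem sub_posT6_mem norm_posT6
    norm_sub_posT6 A hA

theorem cartan_pm (A : Matrix n n (T C)) (hA : IsUnit A) :
    ∃ (N : ℕ) (Λ : Matrix n n (Polynomial C)) (bp : Matrix n n (Tp C)) (bm : Matrix n n (Tm C)),
      IsUnit bp ∧ IsUnit bm ∧ IsUnit (Λ.map pol) ∧
      (mono N 1 : T C) • A = bp.map (Tp C).subtype * bm.map (Tm C).subtype * Λ.map pol :=
  cartan_gen_T6 (Tm C) (Tp C) isClosed_Tm isClosed_Tp negT6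
    (fun x => by rw [negT6_apply]; exact sub_posT6_mem x)
    (fun x => by rw [negT6_apply, sub_sub_cancel]; exact posT6_mem x)
    (fun x => by rw [negT6_apply]; exact norm_sub_posT6 x)
    (fun x => by rw [negT6_apply, sub_sub_cancel]; exact norm_posT6 x) A hA

theorem cartan_two (l : C) (hl : l ≠ 0) (h1 : 1 ≤ ‖l‖) (A1 A2 : Matrix n n (T C))
    (hA1 : IsUnit A1) (hA2 : IsUnit A2) :
    ∃ (N1 N2 : ℕ) (Λ1 Λ2 : Matrix n n (Polynomial C)) (UM : Matrix n n (Tan l hl))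
      (DA : Matrix n n (Tp C)) (DB : Matrix n n (Tm C)),
      IsUnit UM ∧ IsUnit DA ∧ IsUnit DB ∧ IsUnit (Λ1.map pol) ∧ IsUnit (Λ2.map pol) ∧
      (mono N1 1 : T C) • A1 = UM.map (Tan l hl).subtype * DA.map (Tp C).subtype * Λ1.map pol ∧
      (mono N2 1 : T C) • A2 = UM.map (res l hl) * DB.map (Tm C).subtype * Λ2.map pol := by
  obtain ⟨N1, Λ1, bm, bp, hbm, hbp, hΛ1, e1⟩ := cartan_mp A1 hA1
  obtain ⟨up, hup, hup'⟩ := exists_up l hl h1
  let inc : Tm C →+* Tan l hl := Subring.inclusion (Tm_le_Tan l hl h1)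
  let up' : Tp C →+* Tp C := ((Tan l hl).subtype.comp up).codRestrict (Tp C) hup'
  obtain ⟨w, hw⟩ := isUnit_map_T6 (res l hl) (isUnit_map_T6 inc hbm)
  obtain ⟨N2, Λ2, cp, cm, hcp, hcm, hΛ2, e2⟩ := cartan_pm (w.inv * A2) ((w⁻¹).isUnit.mul hA2)
  obtain ⟨z, hz⟩ := isUnit_map_T6 up' hcp
  refine ⟨N1, N2, Λ1, Λ2, bm.map inc * cp.map up, z.inv * bp, cm,
    (isUnit_map_T6 inc hbm).mul (isUnit_map_T6 up hcp), (z⁻¹).isUnit.mul hbp, hcm, hΛ1, hΛ2,
    ?_, ?_⟩
  · have h2 : (bm.map inc).map (Tan l hl).subtype = bm.map (Tm C).subtype := rfl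
    have h3 : (cp.map up).map (Tan l hl).subtype = z.val.map (Tp C).subtype := by
      rw [hz]; rfl
    have h4 : z.val.map (Tp C).subtype * z.inv.map (Tp C).subtype = 1 := by
      rw [← Matrix.map_mul, z.val_inv, Matrix.map_one _ (map_zero _) (map_one _)]
    rw [e1, Matrix.map_mul, Matrix.map_mul, h2, h3, Matrix.mul_assoc (bm.map _) (z.val.map _),
      ← Matrix.mul_assoc (z.val.map _), h4, Matrix.one_mul]
  · have h2 : (cp.map up).map (res l hl) = cp.map (Tp C).subtype := by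
      ext i j : 1
      exact hup (cp i j)
    rw [Matrix.map_mul, ← hw, h2, Matrix.mul_assoc w.val, Matrix.mul_assoc w.val, ← e2,
      Matrix.mul_smul, ← Matrix.mul_assoc, w.val_inv, Matrix.one_mul]

end T

end

end Pool.Agent.Adm
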