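import Pool.Agent.Adm.T2

/-! A meromorphic function on the annulus extending to both discs is rational. -/

namespace Pool.Agent.Adm

noncomputable section

namespace T

variable {C : Type} [NormedField C] [CompleteSpace C] [IsUltrametricDist C]

theorem exists_poly_of_bdd (c : C) (hc : c ≠ 0) (f : T C) (hf : f ∈ Tp C) (N : ℤ)
    (h : ∀ n, N < n → f.coeff n = 0) : ∃ P : Polynomial C, P.eval₂ cst (mono 1 c) = f := by
  refine ⟨∑ i ∈ Finset.range (N.toNat + 1), Polynomial.monomial i (f.coeff i / c ^ i), ?_⟩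
  ext n
  simp only [Polynomial.eval₂_finsetSum, Polynomial.eval₂_monomial, coeff_sum, coeff_cst_mul,
    mono_pow, coeff_mono, mul_one]
  rcases lt_or_ge n 0 with hn | hn
  · rw [hf n hn]
    exact Finset.sum_eq_zero fun i _ => by rw [if_neg (by omega), mul_zero]
  · lift n to ℕ using hn
    rw [Finset.sum_eq_single n (fun i _ hi => by rw [if_neg (by omega), mul_zero]) fun hn => by
      rw [h n (by simp at hn; omega), zero_div, zero_mul], if_pos rfl,
      div_mul_cancel₀ _ (pow_ne_zero _ hc)]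

theorem eval₂_mem_T7 (P : Polynomial C) (c : C) : P.eval₂ cst (mono 1 c) ∈ Tp C := by
  rw [Polynomial.eval₂_eq_sum_range]
  exact Subring.sum_mem _ fun i _ => Subring.mul_mem _ (mono_mem_Tp 0 le_rfl _)
    (Subring.pow_mem _ (mono_mem_Tp 1 zero_le_one c) i)

theorem coeff_res_T7 (l c : C) (hl : l ≠ 0) (r : Tan l hl) (P : Polynomial C) (n : ℤ) :
    l ^ n * (P.eval₂ cst (mono 1 c) * (r : T C)).coeff n =
      (P.eval₂ cst (mono 1 (l * c)) * res l hl r).coeff n := by
  rw [coeff_eval₂_mul, coeff_eval₂_mul, Finset.mul_sum]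
  refine Finset.sum_congr rfl fun i _ => ?_
  rw [coeff_res, mul_one, zpow_sub₀ hl, zpow_natCast, mul_pow]
  field_simp

theorem inter_poly (l c : C) (hl : l ≠ 0) (hc : c ≠ 0) (r : Tan l hl) (rA rB : T C)
    (hA : rA ∈ Tp C) (hB : rB ∈ Tm C) (d1 d2 d3 : Polynomial C) (h1 : d1 ≠ 0) (h3 : d3 ≠ 0)
    (e1 : rA * d2.eval₂ cst (mono 1 c) = (r : T C) * d1.eval₂ cst (mono 1 c))
    (e2 : res l hl r * d3.eval₂ cst (mono (-1) (l * c)⁻¹) = rB * d2.eval₂ cst (mono 1 (l * c))) :
    ∃ P d : Polynomial C, d ≠ 0 ∧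
      (r : T C) * d.eval₂ cst (mono 1 c) = P.eval₂ cst (mono 1 c) := by
  have hu : mono (-1) (l * c)⁻¹ * mono 1 (l * c) = (1 : T C) := by
    rw [mono_mul_mono, inv_mul_cancel₀ (mul_ne_zero hl hc)]
    rfl
  let _ : Invertible (mono (-1) (l * c)⁻¹ : T C) :=
    ⟨mono 1 (l * c), (mul_comm _ _).trans hu, hu⟩
  have h4 : d3.reverse.eval₂ cst (mono 1 (l * c)) * mono (-1) (l * c)⁻¹ ^ d3.natDegree =
      d3.eval₂ cst (mono (-1) (l * c)⁻¹) :=
    Polynomial.eval₂_reverse_mul_pow cst (mono (-1) (l * c)⁻¹) d3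
  have h5 : (d1 * d3.reverse).eval₂ cst (mono 1 (l * c)) * res l hl r =
      (d1 * Polynomial.X ^ d3.natDegree * d2).eval₂ cst (mono 1 (l * c)) * rB := by
    have h6 := congrArg (· ^ d3.natDegree) hu
    simp only [mul_pow, one_pow] at h6
    simp only [Polynomial.eval₂_mul, Polynomial.eval₂_X_pow]
    rw [← h4] at e2
    linear_combination (d1.eval₂ cst (mono 1 (l * c)) * mono 1 (l * c) ^ d3.natDegree) * e2 -
      (d1.eval₂ cst (mono 1 (l * c)) * d3.reverse.eval₂ cst (mono 1 (l * c)) * res l hl r) * h6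
  obtain ⟨P, hP⟩ := exists_poly_of_bdd c hc ((r : T C) * (d1 * d3.reverse).eval₂ cst (mono 1 c))
    (by
      rw [Polynomial.eval₂_mul, ← mul_assoc, ← e1]
      exact Subring.mul_mem _ (Subring.mul_mem _ hA (eval₂_mem_T7 _ _)) (eval₂_mem_T7 _ _))
    (d1 * Polynomial.X ^ d3.natDegree * d2).natDegree fun n hn => by
      refine (mul_eq_zero.1 ?_).resolve_left (zpow_ne_zero n hl)
      rw [mul_comm (r : T C), coeff_res_T7, h5, coeff_eval₂_mul]
      refine Finset.sum_eq_zero fun i hi => ?_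
      have := Polynomial.le_natDegree_of_mem_supp i hi
      rw [hB _ (by omega), mul_zero]
  exact ⟨P, _, mul_ne_zero h1 (Polynomial.reverse_eq_zero.not.2 h3), hP.symm⟩

end T

end

end Pool.Agent.Adm
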