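import Pool.Agent.Adm.AnA
import Pool.Agent.Adm.AnB
import Pool.Agent.Adm.T6
import Pool.Agent.Adm.T7

/-! Construction of the analytic package. -/

namespace Pool.Agent.Adm

section

variable {C : Type} [NormedField C] [CompleteSpace C] [IsUltrametricDist C]

theorem iT_inj_An : Function.Injective (iT : T C →+* FractionRing (T C)) :=
  IsFractionRing.injective (T C) (FractionRing (T C))

theorem pw_cst_An (e : ℕ) (he : 0 < e) (x : C) : T.pw e he (T.cst x) = T.cst x := by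
  rw [T.cst_apply, T.pw_mono, mul_zero]

theorem pw_eval_An (e : ℕ) (he : 0 < e) (d : Polynomial C) (m : ℤ) (c : C) :
    T.pw e he (d.eval₂ T.cst (T.mono m c)) = d.eval₂ T.cst (T.mono (e * m) c) := by
  rw [Polynomial.hom_eval₂, T.pw_mono]
  congr 1
  ext1 x
  exact pw_cst_An e he x

theorem hom_poly_An {Q : Type} [CommRing Q] (κ : RatFunc C →+* Q)
    (α : Q →+* FractionRing (T C)) (m : ℤ) (c : C)
    (hC : ∀ x, α (κ (RatFunc.C x)) = iT (T.cst x)) (hX : α (κ RatFunc.X) = iT (T.mono m c))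
    (d : Polynomial C) :
    α (κ (algebraMap (Polynomial C) (RatFunc C) d)) = iT (d.eval₂ T.cst (T.mono m c)) := by
  have h := hom_algebraMap (α.comp κ) (iT.comp T.cst) (iT (T.mono m c)) hC hX d
  rw [Polynomial.hom_eval₂]
  exact h

theorem hom_inv_An {Q : Type} [CommRing Q] (κ : RatFunc C →+* Q)
    (α : Q →+* FractionRing (T C)) (m : ℤ) (c : C) (hc : c ≠ 0)
    (hC : ∀ x, α (κ (RatFunc.C x)) = iT (T.cst x)) (hX : α (κ RatFunc.X) = iT (T.mono m c))
    (d : Polynomial C) :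
    α (κ (d.eval₂ RatFunc.C RatFunc.X⁻¹)) = iT (d.eval₂ T.cst (T.mono (-m) c⁻¹)) := by
  have h1 : (α.comp κ) RatFunc.X⁻¹ = iT (T.mono (-m) c⁻¹) := by
    rw [map_inv₀, RingHom.comp_apply, hX]
    symm
    apply eq_inv_of_mul_eq_one_left
    rw [← map_mul, T.mono_mul_mono, neg_add_cancel, inv_mul_cancel₀ hc]
    exact map_one iT
  have h2 : (α.comp κ).comp RatFunc.C = iT.comp T.cst := by
    ext1 x
    exact hC x
  have h := Polynomial.hom_eval₂ d RatFunc.C (α.comp κ) RatFunc.X⁻¹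
  rw [h1, h2] at h
  rw [Polynomial.hom_eval₂ d T.cst iT]
  exact h

theorem factor_side_An {Q S : Type} [CommRing Q] [CommRing S] (j : S →+* T C) (a : S →+* Q)
    (κ : RatFunc C →+* Q) (α : Q →+* FractionRing (T C)) (e : ℕ) (he : 0 < e) (c : C)
    (hc : c ≠ 0) (ha : ∀ r, α (a r) = iT (T.pw e he (j r)))
    (hC : ∀ x, α (κ (RatFunc.C x)) = iT (T.cst x)) (hX : α (κ RatFunc.X) = iT (T.mono e c))
    {n : Type} [Fintype n] [DecidableEq n] (A M : Matrix n n (T C)) (N : ℕ)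
    (Λ : Matrix n n (Polynomial C)) (D : Matrix n n S) (hD : IsUnit D)
    (hΛ : IsUnit (Λ.map T.pol)) (h : (T.mono N 1 : T C) • A = M * D.map j * Λ.map T.pol) :
    ∃ U : Matrix n n Q, IsUnit U ∧
      A.map (iT.comp (T.pw e he)) * U.map α = M.map (iT.comp (T.pw e he)) := by
  set φ : T C →+* FractionRing (T C) := iT.comp (T.pw e he) with hφ
  let θ : Polynomial C →+* RatFunc C :=
    Polynomial.eval₂RingHom RatFunc.C (RatFunc.C c⁻¹ * RatFunc.X)
  have hθ : α.comp (κ.comp θ) = φ.comp T.pol := by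
    apply Polynomial.ringHom_ext
    · intro x
      simp only [θ, hφ, T.pol, RingHom.comp_apply, Polynomial.coe_eval₂RingHom,
        Polynomial.eval₂_C]
      rw [hC, pw_cst_An]
    · simp only [θ, hφ, T.pol, RingHom.comp_apply, Polynomial.coe_eval₂RingHom,
        Polynomial.eval₂_X]
      rw [map_mul, map_mul, hC, hX, ← map_mul, T.cst_apply, T.mono_mul_mono, T.pw_mono,
        zero_add, mul_one, inv_mul_cancel₀ hc]
  have hθ' : ∀ P, α (κ (θ P)) = φ (T.pol P) := fun P => DFunLike.congr_fun hθ P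
  have hunit : ∀ P, IsUnit (T.pol P : T C) → IsUnit (κ (θ P)) := by
    intro P hP
    have h0 : θ P ≠ 0 := by
      intro h0
      have h1 := hθ' P
      rw [h0, map_zero, map_zero] at h1
      exact (hP.map φ).ne_zero h1.symm
    exact (IsUnit.mk0 _ h0).map κ
  have hΛ' : IsUnit (Λ.map (κ.comp θ)) := by
    rw [Matrix.isUnit_iff_isUnit_det] at hΛ ⊢
    have h1 : (Λ.map (κ.comp θ)).det = κ (θ Λ.det) := ((κ.comp θ).map_det Λ).symm
    have h2 : (Λ.map (T.pol : Polynomial C →+* T C)).det = T.pol Λ.det :=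
      ((T.pol : Polynomial C →+* T C).map_det Λ).symm
    rw [h1]
    rw [h2] at hΛ
    exact hunit _ hΛ
  have hXN : (T.pol (Polynomial.X ^ N) : T C) = T.mono N 1 := by
    simp only [T.pol, Polynomial.coe_eval₂RingHom, Polynomial.eval₂_X_pow]
    rw [T.mono_pow, mul_one, one_pow]
  have hv : IsUnit (κ (θ (Polynomial.X ^ N))) := by
    apply hunit
    rw [hXN]
    refine IsUnit.of_mul_eq_one (T.mono (-(N : ℤ)) 1) ?_
    rw [T.mono_mul_mono, add_neg_cancel, mul_one]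
    rfl
  have hW : IsUnit (D.map a * Λ.map (κ.comp θ)) := (hD.map a.mapMatrix).mul hΛ'
  obtain ⟨W, hW⟩ := hW
  refine ⟨Matrix.scalar n (κ (θ (Polynomial.X ^ N))) * (↑W⁻¹ : Matrix n n Q),
    (hv.map (Matrix.scalar n)).mul (Units.isUnit _), ?_⟩
  have e1 : (W : Matrix n n Q).map α = (D.map j).map φ * (Λ.map T.pol).map φ := by
    rw [hW, Matrix.map_mul]
    congr 1
    · ext i k
      exact ha _
    · ext i k
      exact hθ' _
  have e2 : A.map φ * (Matrix.scalar n (κ (θ (Polynomial.X ^ N)))).map α =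
      M.map φ * (W : Matrix n n Q).map α := by
    rw [e1, ← Matrix.mul_assoc, ← Matrix.map_mul, ← Matrix.map_mul, ← h]
    ext i k
    simp only [Matrix.scalar_apply, Matrix.diagonal_map (map_zero α), Matrix.mul_diagonal,
      Matrix.map_apply, Matrix.smul_apply, smul_eq_mul, map_mul, hθ', hXN]
    ring
  rw [Matrix.map_mul, ← Matrix.mul_assoc, e2, Matrix.mul_assoc, ← Matrix.map_mul,
    Units.mul_inv, Matrix.map_one α (map_zero α) (map_one α), Matrix.mul_one]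

end

theorem nonempty_anPkg {C : Type} [NormedField C] [CompleteSpace C] [IsUltrametricDist C]
    (c1 c2 : C) (h1 : c1 ≠ 0) (h12 : ‖c1‖ ≤ ‖c2‖) (e1 e2 : ℕ) (he1 : 0 < e1) (he2 : 0 < e2) :
    Nonempty (AnPkg c1 c2 e1 e2 he1 he2) := by
  have hn1 : 0 < ‖c1‖ := norm_pos_iff.2 h1
  have h2 : c2 ≠ 0 := norm_pos_iff.1 (lt_of_lt_of_le hn1 h12)
  have hl : c2 / c1 ≠ 0 := div_ne_zero h2 h1
  have hl1 : 1 ≤ ‖c2 / c1‖ := by
    rw [norm_div, one_le_div hn1]
    exact h12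
  have hlc : c2 / c1 * c1 = c2 := div_mul_cancel₀ c2 h1
  obtain ⟨QA, rA, aA, κA, α, hα, haA, hAC, hAX, frA, evA⟩ := exists_QA c1 h1 e1 he1
  obtain ⟨QM, rM, aM, κM, μ1, μ2, hμ1, hμ2, haM1, haM2, hM1C, hM1X, hM2C, hM2X, frM, evM⟩ :=
    exists_QM c1 (c2 / c1) h1 hl e1 e2 he1 he2
  obtain ⟨QB, rB, aB, κB, β, hβ, haB, hBC, hBX, frB, evB⟩ := exists_QB c2 h2 e2 he2
  rw [hlc] at hM2X evM
  have frA' : ∀ q : QA, ∃ d : Polynomial C, d ≠ 0 ∧ ∃ r : T C, r ∈ T.Tp C ∧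
      α q * iT (d.eval₂ T.cst (T.mono e1 c1)) = iT (T.pw e1 he1 r) := by
    intro q
    obtain ⟨d, hd, r, hr⟩ := frA q
    refine ⟨d, hd, r, r.2, ?_⟩
    rw [← hom_poly_An κA α e1 c1 hAC hAX, ← map_mul, hr, haA]
  have frB' : ∀ q : QB, ∃ d : Polynomial C, d ≠ 0 ∧ ∃ r : T C, r ∈ T.Tm C ∧
      β q * iT (d.eval₂ T.cst (T.mono (-(e2 : ℤ)) c2⁻¹)) = iT (T.pw e2 he2 r) := by
    intro q
    obtain ⟨d, hd, r, hr⟩ := frB q
    refine ⟨d, hd, r, r.2, ?_⟩
    rw [← hom_inv_An κB β e2 c2 h2 hBC hBX, ← map_mul, hr, haB]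
  have frM' : ∀ q : QM, ∃ d : Polynomial C, d ≠ 0 ∧ ∃ r : T.Tan (c2 / c1) hl,
      μ1 q * iT (d.eval₂ T.cst (T.mono e1 c1)) = iT (T.pw e1 he1 r) ∧
      μ2 q * iT (d.eval₂ T.cst (T.mono e2 c2)) = iT (T.pw e2 he2 (T.res (c2 / c1) hl r)) := by
    intro q
    obtain ⟨d, hd, r, hr⟩ := frM q
    refine ⟨d, hd, r, ?_, ?_⟩
    · rw [← hom_poly_An κM μ1 e1 c1 hM1C hM1X, ← map_mul, hr, haM1]
    · rw [← hom_poly_An κM μ2 e2 c2 hM2C hM2X, ← map_mul, hr, haM2]
  refine ⟨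
    { QA := QA, QM := QM, QB := QB, κA := κA, κM := κM, κB := κB, α := α, μ1 := μ1, μ2 := μ2
      β := β, α_inj := hα, μ1_inj := hμ1, μ2_inj := hμ2, β_inj := hβ, α_C := hAC, α_X := hAX
      μ1_C := hM1C, μ1_X := hM1X, μ2_C := hM2C, μ2_X := hM2X, β_C := hBC, β_X := hBX
      inter := ?_, factor := ?_, fracA := frA', fracM := ?_, fracB := frB'
      evA := evA, evM := evM, evB := evB }⟩
  · intro a m b hab hbc
    obtain ⟨d1, hd1, r1, hr1, E1⟩ := frA' a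
    obtain ⟨d2, hd2, r2, E2, E2'⟩ := frM' m
    obtain ⟨d3, hd3, r3, hr3, E3⟩ := frB' b
    have F1 : r1 * d2.eval₂ T.cst (T.mono 1 c1) = (r2 : T C) * d1.eval₂ T.cst (T.mono 1 c1) := by
      apply T.pw_injective e1 he1
      apply iT_inj_An
      rw [map_mul, map_mul, map_mul, map_mul, pw_eval_An, pw_eval_An, mul_one, ← E1, ← E2, hab]
      ring
    have F2 : T.res (c2 / c1) hl r2 * d3.eval₂ T.cst (T.mono (-1) (c2 / c1 * c1)⁻¹) =
        r3 * d2.eval₂ T.cst (T.mono 1 (c2 / c1 * c1)) := by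
      rw [hlc]
      apply T.pw_injective e2 he2
      apply iT_inj_An
      rw [map_mul, map_mul, map_mul, map_mul, pw_eval_An, pw_eval_An, mul_one, mul_neg, mul_one,
        ← E2', ← E3, hbc]
      ring
    obtain ⟨P, d, hd, hP⟩ := T.inter_poly (c2 / c1) c1 hl h1 r2 r1 r3 hr1 hr3 d1 d2 d3 hd1 hd3 F1 F2
    have hP' : iT (T.pw e1 he1 r2) * iT (d.eval₂ T.cst (T.mono e1 c1)) =
        iT (P.eval₂ T.cst (T.mono e1 c1)) := by
      have h := congrArg (T.pw e1 he1) hP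
      rw [map_mul, pw_eval_An, pw_eval_An, mul_one] at h
      rw [← map_mul, h]
    have he1' : (e1 : ℤ) ≠ 0 := by exact_mod_cast he1.ne'
    have hne : ∀ w : Polynomial C, w ≠ 0 → iT (w.eval₂ T.cst (T.mono e1 c1)) ≠ 0 := by
      intro w hw h0
      exact T.eval₂_ne_zero w hw e1 he1' c1 h1 (iT_inj_An (by rw [h0, map_zero]))
    refine ⟨algebraMap (Polynomial C) (RatFunc C) P /
      (algebraMap (Polynomial C) (RatFunc C) d2 * algebraMap (Polynomial C) (RatFunc C) d), ?_⟩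
    apply hμ1
    have h := map_div₀ (μ1.comp κM) (algebraMap (Polynomial C) (RatFunc C) P)
      (algebraMap (Polynomial C) (RatFunc C) d2 * algebraMap (Polynomial C) (RatFunc C) d)
    rw [map_mul] at h
    simp only [RingHom.comp_apply, hom_poly_An κM μ1 e1 c1 hM1C hM1X] at h
    rw [h, div_eq_iff (mul_ne_zero (hne d2 hd2) (hne d hd)), ← mul_assoc, E2, hP']
  · intro n _ _ A1 A2 hA1 hA2
    obtain ⟨N1, N2, Λ1, Λ2, UM, DA, DB, hUM, hDA, hDB, hΛ1, hΛ2, G1, G2⟩ :=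
      T.cartan_two (c2 / c1) hl hl1 A1 A2 hA1 hA2
    obtain ⟨UA, hUA, K1⟩ := factor_side_An (T.Tp C).subtype aA κA α e1 he1 c1 h1 haA hAC hAX
      A1 _ N1 Λ1 DA hDA hΛ1 G1
    obtain ⟨UB, hUB, K2⟩ := factor_side_An (T.Tm C).subtype aB κB β e2 he2 c2 h2 haB hBC hBX
      A2 _ N2 Λ2 DB hDB hΛ2 G2
    refine ⟨UA, UM.map aM, UB, hUA, hUM.map aM.mapMatrix, hUB, ?_, ?_⟩
    · rw [K1]
      ext i k
      exact (haM1 _).symm
    · rw [K2]
      ext i k
      exact (haM2 _).symm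
  · intro q
    obtain ⟨d, hd, r, hr, -⟩ := frM' q
    exact ⟨d, hd, r, r.2, hr⟩

end Pool.Agent.Adm
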