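import Pool.Agent.Adm.AnDefs
import Pool.Agent.Adm.T4
import Pool.Agent.Adm.Loc
import Pool.Agent.Adm.H0

/-! Meromorphic functions on the inner disc and on the annulus. -/

namespace Pool.Agent.Adm

variable {C : Type} [NormedField C] [CompleteSpace C] [IsUltrametricDist C]

theorem core_AnA (S : Subring (T C)) (hm : ∀ (n : ℤ) (x : C), 0 ≤ n → T.mono n x ∈ S) (c : C) :
    ∃ (Q : Type) (_ : CommRing Q) (a : S →+* Q) (κ : RatFunc C →+* Q),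
      (∀ q : Q, ∃ d : Polynomial C, d ≠ 0 ∧ ∃ r,
        q * κ (algebraMap (Polynomial C) (RatFunc C) d) = a r) ∧
      ∀ (W : Type) [Field W] (ψ0 : S →+* W) (φ : C →+* W) (X : W),
        (∀ x, ψ0 ⟨T.mono 0 x, hm 0 x le_rfl⟩ = φ x) → ψ0 ⟨T.mono 1 c, hm 1 c zero_le_one⟩ = X →
        (∀ P : Polynomial C, P ≠ 0 → P.eval₂ φ X ≠ 0) →
        ∃ ψ : Q →+* W, (∀ r, ψ (a r) = ψ0 r) ∧ (Function.Injective ψ0 → Function.Injective ψ) ∧
          (∀ x, ψ (κ (RatFunc.C x)) = φ x) ∧ ψ (κ RatFunc.X) = X ∧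
          ∀ s : W →+* W, (∀ r, s (ψ0 r) = ψ0 r) → ∀ q, s (ψ q) = ψ q := by
  let ι : C →+* S := (T.cst : C →+* T C).codRestrict S fun x => hm 0 x le_rfl
  let π : Polynomial C →+* S := Polynomial.eval₂RingHom ι ⟨T.mono 1 c, hm 1 c zero_le_one⟩
  obtain ⟨Q, hQ, a, κ, h1, h2, h3⟩ := exists_loc π
  refine ⟨Q, hQ, a, κ, fun q => ?_, fun W _ ψ0 φ X e0 e1 hne => ?_⟩
  · obtain ⟨d, hd, r, hr⟩ := h2 q
    exact ⟨d, hd, r, by rw [h1, hr]⟩
  · have hc : ψ0.comp ι = φ := RingHom.ext e0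
    have hπ : ∀ d, ψ0 (π d) = d.eval₂ φ X := fun d => by
      rw [← hc, ← e1, ← Polynomial.hom_eval₂]
      rfl
    obtain ⟨ψ, p1, p2, p3⟩ := h3 W ψ0 fun d hd => by rw [hπ]; exact hne d hd
    refine ⟨ψ, p1, p2, fun x => ?_, ?_, p3⟩
    · rw [← RatFunc.algebraMap_C, h1, p1, hπ, Polynomial.eval₂_C]
    · rw [← RatFunc.algebraMap_X, h1, p1, hπ, Polynomial.eval₂_X]

theorem ne_AnA (e : ℕ) (he : 0 < e) (c : C) (hc : c ≠ 0) (P : Polynomial C) (hP : P ≠ 0) :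
    P.eval₂ (iT.comp T.cst) (iT (T.mono e c)) ≠ (0 : FractionRing (T C)) := by
  rw [← Polynomial.hom_eval₂]
  exact fun h => T.eval₂_ne_zero P hP e (by exact_mod_cast he.ne') c hc
    (IsFractionRing.injective (T C) (FractionRing (T C)) (h.trans (map_zero _).symm))

theorem chart_AnA (S : Subring (T C)) (hm : ∀ (n : ℤ) (x : C), 0 ≤ n → T.mono n x ∈ S) (c : C)
    (hc : c ≠ 0) (u : PowerSeries C) (ev : S →+* PowerSeries C)
    (h1 : ∀ (n : ℕ) (x : C) (h : T.mono n x ∈ S),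
      ev ⟨T.mono n x, h⟩ = PowerSeries.C x * (PowerSeries.C c⁻¹ * u) ^ n)
    (h2 : ∀ ζ : C, PowerSeries.rescale ζ (PowerSeries.C c⁻¹ * u) = PowerSeries.C c⁻¹ * u →
      ∀ f, PowerSeries.rescale ζ (ev f) = ev f) :
    ∃ ψ0 : S →+* LaurentSeries C, (∀ x, ψ0 ⟨T.mono 0 x, hm 0 x le_rfl⟩ = HahnSeries.C x) ∧
      ψ0 ⟨T.mono 1 c, hm 1 c zero_le_one⟩ = (u : LaurentSeries C) ∧
      ∀ (ζ : C) (h : ζ ≠ 0), scL ζ h (u : LaurentSeries C) = u → ∀ r, scL ζ h (ψ0 r) = ψ0 r := by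
  refine ⟨(HahnSeries.ofPowerSeries ℤ C).comp ev, fun x => ?_, ?_, fun ζ h hu r => ?_⟩
  · have := h1 0 x (hm 0 x le_rfl)
    rw [pow_zero, mul_one] at this
    exact (congrArg (HahnSeries.ofPowerSeries ℤ C) this).trans (HahnSeries.ofPowerSeries_C x)
  · have := h1 1 c (hm 1 c zero_le_one)
    rw [pow_one, ← mul_assoc, ← map_mul, mul_inv_cancel₀ hc, map_one, one_mul] at this
    exact congrArg (HahnSeries.ofPowerSeries ℤ C) this
  · rw [scL_coe] at hu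
    have hu' : PowerSeries.rescale ζ u = u := HahnSeries.ofPowerSeries_injective hu
    have h3 : PowerSeries.rescale ζ (PowerSeries.C c⁻¹) = PowerSeries.C c⁻¹ := by
      ext n
      rw [PowerSeries.coeff_rescale, PowerSeries.coeff_C]
      split_ifs with hn
      · rw [hn, pow_zero, one_mul]
      · rw [mul_zero]
    have h4 := h2 ζ (by rw [map_mul, hu', h3]) r
    exact (scL_coe ζ h (ev r)).trans (congrArg (HahnSeries.ofPowerSeries ℤ C) h4)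

theorem cc_AnA {C : Type} [NormedField C] (c : C) (u : PowerSeries C) :
    ‖PowerSeries.constantCoeff (PowerSeries.C c⁻¹ * u)‖ =
      ‖c‖⁻¹ * ‖PowerSeries.constantCoeff u‖ := by
  rw [map_mul, PowerSeries.constantCoeff_C, norm_mul, norm_inv]

theorem exists_QA (c : C) (hc : c ≠ 0) (e : ℕ) (he : 0 < e) :
    ∃ (Q : Type) (_ : CommRing Q) (a : T.Tp C →+* Q) (κ : RatFunc C →+* Q)
      (α : Q →+* FractionRing (T C)), Function.Injective α ∧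
      (∀ r, α (a r) = iT (T.pw e he r)) ∧
      (∀ x, α (κ (RatFunc.C x)) = iT (T.cst x)) ∧ α (κ RatFunc.X) = iT (T.mono e c) ∧
      (∀ q : Q, ∃ d : Polynomial C, d ≠ 0 ∧ ∃ r,
        q * κ (algebraMap (Polynomial C) (RatFunc C) d) = a r) ∧
      ∀ u : PowerSeries C, ‖PowerSeries.constantCoeff u‖ ≤ ‖c‖ →
        (∀ P : Polynomial C, P ≠ 0 → P.eval₂ HahnSeries.C (u : LaurentSeries C) ≠ 0) →
        ∃ ψ : Q →+* LaurentSeries C, (∀ x, ψ (κ (RatFunc.C x)) = HahnSeries.C x) ∧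
          ψ (κ RatFunc.X) = (u : LaurentSeries C) ∧
          ∀ (ζ : C) (h : ζ ≠ 0), scL ζ h (u : LaurentSeries C) = u → ∀ q, scL ζ h (ψ q) = ψ q := by
  obtain ⟨Q, hQ, a, κ, h1, h2⟩ := core_AnA (T.Tp C) (fun n x hn => T.mono_mem_Tp n hn x) c
  obtain ⟨α, a1, a2, a3, a4, -⟩ := h2 (FractionRing (T C))
    (iT.comp ((T.pw e he).comp (T.Tp C).subtype)) (iT.comp T.cst) (iT (T.mono e c))
    (fun x => congrArg iT (by
      change T.pw e he (T.mono 0 x) = T.mono 0 x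
      rw [T.pw_mono, mul_zero]))
    (congrArg iT (by
      change T.pw e he (T.mono 1 c) = T.mono e c
      rw [T.pw_mono, mul_one])) (ne_AnA e he c hc)
  refine ⟨Q, hQ, a, κ, α, a2 ((IsFractionRing.injective (T C) (FractionRing (T C))).comp
    ((T.pw_injective e he).comp Subtype.val_injective)), a1, a3, a4, h1, fun u hu hP => ?_⟩
  have hn : 0 < ‖c‖ := norm_pos_iff.2 hc
  obtain ⟨ev, e1, e2⟩ := T.exists_evp (PowerSeries.C c⁻¹ * u) (by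
    rw [cc_AnA, inv_mul_le_iff₀ hn, mul_one]; exact hu)
  obtain ⟨ψ0, b1, b2, b3⟩ := chart_AnA (T.Tp C) (fun n x hn => T.mono_mem_Tp n hn x) c hc u ev e1 e2
  obtain ⟨ψ, -, -, p3, p4, p5⟩ := h2 (LaurentSeries C) ψ0 HahnSeries.C u b1 b2 hP
  exact ⟨ψ, p3, p4, fun ζ h hζ => p5 (scL ζ h) (b3 ζ h hζ)⟩

theorem exists_QM (c l : C) (hc : c ≠ 0) (hl : l ≠ 0) (e1 e2 : ℕ) (he1 : 0 < e1) (he2 : 0 < e2) :
    ∃ (Q : Type) (_ : CommRing Q) (a : T.Tan l hl →+* Q) (κ : RatFunc C →+* Q)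
      (μ1 μ2 : Q →+* FractionRing (T C)), Function.Injective μ1 ∧ Function.Injective μ2 ∧
      (∀ r, μ1 (a r) = iT (T.pw e1 he1 r)) ∧ (∀ r, μ2 (a r) = iT (T.pw e2 he2 (T.res l hl r))) ∧
      (∀ x, μ1 (κ (RatFunc.C x)) = iT (T.cst x)) ∧ μ1 (κ RatFunc.X) = iT (T.mono e1 c) ∧
      (∀ x, μ2 (κ (RatFunc.C x)) = iT (T.cst x)) ∧ μ2 (κ RatFunc.X) = iT (T.mono e2 (l * c)) ∧
      (∀ q : Q, ∃ d : Polynomial C, d ≠ 0 ∧ ∃ r,
        q * κ (algebraMap (Polynomial C) (RatFunc C) d) = a r) ∧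
      ∀ u : PowerSeries C, ‖c‖ ≤ ‖PowerSeries.constantCoeff u‖ →
        ‖PowerSeries.constantCoeff u‖ ≤ ‖l * c‖ →
        (∀ P : Polynomial C, P ≠ 0 → P.eval₂ HahnSeries.C (u : LaurentSeries C) ≠ 0) →
        ∃ ψ : Q →+* LaurentSeries C, (∀ x, ψ (κ (RatFunc.C x)) = HahnSeries.C x) ∧
          ψ (κ RatFunc.X) = (u : LaurentSeries C) ∧
          ∀ (ζ : C) (h : ζ ≠ 0), scL ζ h (u : LaurentSeries C) = u → ∀ q, scL ζ h (ψ q) = ψ q := by
  obtain ⟨Q, hQ, a, κ, h1, h2⟩ := core_AnA (T.Tan l hl) (fun n x _ => T.mono_mem_Tan l hl n x) c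
  obtain ⟨μ1, a1, a2, a3, a4, -⟩ := h2 (FractionRing (T C))
    (iT.comp ((T.pw e1 he1).comp (T.Tan l hl).subtype)) (iT.comp T.cst) (iT (T.mono e1 c))
    (fun x => congrArg iT (by
      change T.pw e1 he1 (T.mono 0 x) = T.mono 0 x
      rw [T.pw_mono, mul_zero]))
    (congrArg iT (by
      change T.pw e1 he1 (T.mono 1 c) = T.mono e1 c
      rw [T.pw_mono, mul_one])) (ne_AnA e1 he1 c hc)
  obtain ⟨μ2, c1, c2, c3, c4, -⟩ := h2 (FractionRing (T C))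
    (iT.comp ((T.pw e2 he2).comp (T.res l hl))) (iT.comp T.cst) (iT (T.mono e2 (l * c)))
    (fun x => congrArg iT (by
      change T.pw e2 he2 (T.res l hl ⟨T.mono 0 x, T.mono_mem_Tan l hl 0 x⟩) = T.mono 0 x
      rw [T.res_mono, T.pw_mono, mul_zero, zpow_zero, one_mul]))
    (congrArg iT (by
      change T.pw e2 he2 (T.res l hl ⟨T.mono 1 c, T.mono_mem_Tan l hl 1 c⟩) = T.mono e2 (l * c)
      rw [T.res_mono, T.pw_mono, mul_one, zpow_one])) (ne_AnA e2 he2 (l * c) (mul_ne_zero hl hc))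
  refine ⟨Q, hQ, a, κ, μ1, μ2, a2 ((IsFractionRing.injective (T C) (FractionRing (T C))).comp
    ((T.pw_injective e1 he1).comp Subtype.val_injective)),
    c2 ((IsFractionRing.injective (T C) (FractionRing (T C))).comp
    ((T.pw_injective e2 he2).comp (T.res_injective l hl))), a1, c1, a3, a4, c3, c4, h1,
    fun u hu hu' hP => ?_⟩
  have hn : 0 < ‖c‖ := norm_pos_iff.2 hc
  obtain ⟨ev, e1, e2⟩ := T.exists_eva l hl (PowerSeries.C c⁻¹ * u)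
    (by rw [cc_AnA, le_inv_mul_iff₀ hn, mul_one]; exact hu)
    (by rw [cc_AnA, inv_mul_le_iff₀ hn, mul_comm, ← norm_mul]; exact hu')
  obtain ⟨ψ0, b1, b2, b3⟩ :=
    chart_AnA (T.Tan l hl) (fun n x _ => T.mono_mem_Tan l hl n x) c hc u ev e1 e2
  obtain ⟨ψ, -, -, p3, p4, p5⟩ := h2 (LaurentSeries C) ψ0 HahnSeries.C u b1 b2 hP
  exact ⟨ψ, p3, p4, fun ζ h hζ => p5 (scL ζ h) (b3 ζ h hζ)⟩

end Pool.Agent.Adm
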