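import Pool.Agent.Adm.T2

/-! The analytic package: meromorphic functions on the disc, the annulus and the outer disc
bounded by the circles of radii the norms of c1 and c2. -/

namespace Pool.Agent.Adm

open Filter Topology

noncomputable section

variable {C : Type} [NormedField C] [CompleteSpace C] [IsUltrametricDist C]

/-- The inclusion of T in its fraction field. -/
abbrev iT : T C →+* FractionRing (T C) := algebraMap (T C) (FractionRing (T C))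

/-- Rings QA, QM, QB of meromorphic functions, with restriction maps to the two circles followed
by the ramified pull-backs V ↦ V^e1, V ↦ V^e2; X is c1 V on the first circle, c2 V on the second. -/
structure AnPkg (c1 c2 : C) (e1 e2 : ℕ) (he1 : 0 < e1) (he2 : 0 < e2) : Type 1 where
  QA : Type
  QM : Type
  QB : Type
  [rA : CommRing QA]
  [rM : CommRing QM]
  [rB : CommRing QB]
  κA : RatFunc C →+* QA
  κM : RatFunc C →+* QM
  κB : RatFunc C →+* QB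
  α : QA →+* FractionRing (T C)
  μ1 : QM →+* FractionRing (T C)
  μ2 : QM →+* FractionRing (T C)
  β : QB →+* FractionRing (T C)
  α_inj : Function.Injective α
  μ1_inj : Function.Injective μ1
  μ2_inj : Function.Injective μ2
  β_inj : Function.Injective β
  α_C : ∀ c, α (κA (RatFunc.C c)) = iT (T.cst c)
  α_X : α (κA RatFunc.X) = iT (T.mono e1 c1)
  μ1_C : ∀ c, μ1 (κM (RatFunc.C c)) = iT (T.cst c)
  μ1_X : μ1 (κM RatFunc.X) = iT (T.mono e1 c1)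
  μ2_C : ∀ c, μ2 (κM (RatFunc.C c)) = iT (T.cst c)
  μ2_X : μ2 (κM RatFunc.X) = iT (T.mono e2 c2)
  β_C : ∀ c, β (κB (RatFunc.C c)) = iT (T.cst c)
  β_X : β (κB RatFunc.X) = iT (T.mono e2 c2)
  inter : ∀ a m b, α a = μ1 m → μ2 m = β b → ∃ r, κM r = m
  factor : ∀ (n : Type) [Fintype n] [DecidableEq n] (A1 A2 : Matrix n n (T C)),
    IsUnit A1 → IsUnit A2 →
    ∃ (UA : Matrix n n QA) (UM : Matrix n n QM) (UB : Matrix n n QB),
      IsUnit UA ∧ IsUnit UM ∧ IsUnit UB ∧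
      A1.map (iT.comp (T.pw e1 he1)) * UA.map α = UM.map μ1 ∧
      A2.map (iT.comp (T.pw e2 he2)) * UB.map β = UM.map μ2
  fracA : ∀ q : QA, ∃ d : Polynomial C, d ≠ 0 ∧ ∃ r : T C, r ∈ T.Tp C ∧
    α q * iT (d.eval₂ T.cst (T.mono e1 c1)) = iT (T.pw e1 he1 r)
  fracM : ∀ q : QM, ∃ d : Polynomial C, d ≠ 0 ∧ ∃ r : T C,
    Tendsto (fun n : ℤ => (c2 / c1) ^ n * r.coeff n) cofinite (𝓝 0) ∧
    μ1 q * iT (d.eval₂ T.cst (T.mono e1 c1)) = iT (T.pw e1 he1 r)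
  fracB : ∀ q : QB, ∃ d : Polynomial C, d ≠ 0 ∧ ∃ r : T C, r ∈ T.Tm C ∧
    β q * iT (d.eval₂ T.cst (T.mono (-(e2 : ℤ)) c2⁻¹)) = iT (T.pw e2 he2 r)
  evA : ∀ u : PowerSeries C, ‖PowerSeries.constantCoeff u‖ ≤ ‖c1‖ →
    (∀ P : Polynomial C, P ≠ 0 → P.eval₂ HahnSeries.C (u : LaurentSeries C) ≠ 0) →
    ∃ ψ : QA →+* LaurentSeries C, (∀ c, ψ (κA (RatFunc.C c)) = HahnSeries.C c) ∧
      ψ (κA RatFunc.X) = (u : LaurentSeries C) ∧
      ∀ (ζ : C) (h : ζ ≠ 0), scL ζ h (u : LaurentSeries C) = u → ∀ q, scL ζ h (ψ q) = ψ q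
  evM : ∀ u : PowerSeries C, ‖c1‖ ≤ ‖PowerSeries.constantCoeff u‖ →
    ‖PowerSeries.constantCoeff u‖ ≤ ‖c2‖ →
    (∀ P : Polynomial C, P ≠ 0 → P.eval₂ HahnSeries.C (u : LaurentSeries C) ≠ 0) →
    ∃ ψ : QM →+* LaurentSeries C, (∀ c, ψ (κM (RatFunc.C c)) = HahnSeries.C c) ∧
      ψ (κM RatFunc.X) = (u : LaurentSeries C) ∧
      ∀ (ζ : C) (h : ζ ≠ 0), scL ζ h (u : LaurentSeries C) = u → ∀ q, scL ζ h (ψ q) = ψ q
  evB : ∀ u : PowerSeries C, ‖PowerSeries.constantCoeff u‖ ≤ ‖c2‖⁻¹ →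
    (∀ P : Polynomial C, P ≠ 0 → P.eval₂ HahnSeries.C (u : LaurentSeries C) ≠ 0) →
    ∃ ψ : QB →+* LaurentSeries C, (∀ c, ψ (κB (RatFunc.C c)) = HahnSeries.C c) ∧
      ψ (κB RatFunc.X) = (u : LaurentSeries C)⁻¹ ∧
      ∀ (ζ : C) (h : ζ ≠ 0), scL ζ h (u : LaurentSeries C) = u → ∀ q, scL ζ h (ψ q) = ψ q

attribute [instance] AnPkg.rA AnPkg.rM AnPkg.rB

end

end Pool.Agent.Adm
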