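import Pool.Agent.Adm.LB

/-! Linear independence under extension of constants. -/

namespace Pool.Agent.Adm

/-- Coefficientwise application of an additive map. -/
def lamBC0 {k k' : Type} [Field k] [Field k'] (l : k' →+ k) :
    LaurentSeries k' →+ LaurentSeries k where
  toFun x := x.map l
  map_zero' := by ext n; simp
  map_add' x y := by ext n; simp

theorem lam_mulBC0 {k k' : Type} [Field k] [Field k'] (φ : k →+* k') (l : k' →+ k)
    (hl : ∀ (c : k') (a : k), l (c * φ a) = l c * a) (c : k') (y : LaurentSeries k) :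
    lamBC0 l (HahnSeries.C c * mapL φ y) = HahnSeries.C (l c) * y := by
  ext n
  rw [HahnSeries.C_mul_eq_smul, HahnSeries.C_mul_eq_smul]
  show l ((c • mapL φ y).coeff n) = _
  rw [HahnSeries.coeff_smul, HahnSeries.coeff_smul, mapL_coeff, smul_eq_mul, smul_eq_mul, hl]

theorem polyBC0 {k k' : Type} [Field k] [Field k'] (φ : k →+* k')
    (u : LaurentSeries k) (j : RatFunc k →+* LaurentSeries k)
    (hC : ∀ c, j (RatFunc.C c) = HahnSeries.C c) (hX : j RatFunc.X = u)
    {ι : Type} [Fintype ι] (b : ι → LaurentSeries k)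
    (hb : ∀ r : ι → RatFunc k, ∑ i, j (r i) * b i = 0 → ∀ i, r i = 0)
    (P : ι → Polynomial k')
    (hP : ∑ i, (P i).eval₂ HahnSeries.C (mapL φ u) * mapL φ (b i) = 0) (i : ι) : P i = 0 := by
  let _ : Algebra k k' := φ.toAlgebra
  ext n
  rw [Polynomial.coeff_zero, ← Module.forall_dual_apply_eq_zero_iff k]
  intro lam
  have hl : ∀ (c : k') (a : k), lam.toAddMonoidHom (c * φ a) = lam.toAddMonoidHom c * a := by
    intro c a
    have : c * φ a = a • c := by rw [Algebra.smul_def, mul_comm]; rfl
    rw [this, mul_comm]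
    exact lam.map_smul a c
  have h1 := congrArg (lamBC0 lam.toAddMonoidHom) hP
  rw [map_zero, map_sum] at h1
  have h2 := hb (fun i => algebraMap (Polynomial k) (RatFunc k)
    (∑ m ∈ (P i).support, Polynomial.monomial m (lam ((P i).coeff m)))) (by
      rw [← h1]
      refine Finset.sum_congr rfl fun i _ => ?_
      rw [hom_algebraMap j HahnSeries.C u hC hX, Polynomial.eval₂_finsetSum,
        Polynomial.eval₂_eq_sum, Polynomial.sum_def, Finset.sum_mul, Finset.sum_mul, map_sum]
      refine Finset.sum_congr rfl fun m _ => ?_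
      rw [Polynomial.eval₂_monomial, mul_assoc, mul_assoc, ← map_pow, ← map_mul,
        lam_mulBC0 φ _ hl]
      rfl) i
  have h3 := congrArg (fun Q => Polynomial.coeff Q n)
    ((map_eq_zero_iff _ (IsFractionRing.injective (Polynomial k) (RatFunc k))).1 h2)
  simp only [Polynomial.finsetSum_coeff, Polynomial.coeff_monomial, Finset.sum_ite_eq',
    Polynomial.coeff_zero] at h3
  by_cases hn : n ∈ (P i).support
  · rwa [if_pos hn] at h3
  · rw [Polynomial.notMem_support_iff.1 hn, map_zero]

/-- Linear independence over k(X) of Laurent series persists over k'(X). -/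
theorem linearIndependent_mapL {k k' : Type} [Field k] [Field k'] (φ : k →+* k')
    (u : LaurentSeries k) (j : RatFunc k →+* LaurentSeries k)
    (hC : ∀ c, j (RatFunc.C c) = HahnSeries.C c) (hX : j RatFunc.X = u)
    (j' : RatFunc k' →+* LaurentSeries k') (hC' : ∀ c, j' (RatFunc.C c) = HahnSeries.C c)
    (hX' : j' RatFunc.X = mapL φ u) {ι : Type} [Fintype ι] (b : ι → LaurentSeries k)
    (hb : ∀ r : ι → RatFunc k, ∑ i, j (r i) * b i = 0 → ∀ i, r i = 0)
    (r : ι → RatFunc k') (hr : ∑ i, j' (r i) * mapL φ (b i) = 0) : ∀ i, r i = 0 := by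
  obtain ⟨d, hd⟩ := IsLocalization.exist_integer_multiples_of_finite
    (nonZeroDivisors (Polynomial k')) r
  choose P hP using hd
  have h0 := polyBC0 φ u j hC hX b hb P (by
    have := congrArg (fun w => j' (algebraMap (Polynomial k') (RatFunc k') d) * w) hr
    simp only [mul_zero, Finset.mul_sum] at this
    rw [← this]
    refine Finset.sum_congr rfl fun i _ => ?_
    rw [← hom_algebraMap j' HahnSeries.C _ hC' hX', hP, Algebra.smul_def, map_mul, mul_assoc])
  intro i
  have h1 := hP i
  rw [h0 i, map_zero, Algebra.smul_def] at h1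
  exact (mul_eq_zero.1 h1.symm).resolve_left
    ((map_ne_zero_iff _ (IsFractionRing.injective (Polynomial k') (RatFunc k'))).2
      (nonZeroDivisors.ne_zero d.2))

end Pool.Agent.Adm
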