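import Pool.Agent.Adm.TC
import Pool.Agent.Adm.BC0

/-! Base change of coverings along an extension of algebraically closed fields. -/

namespace Pool.Agent.Adm

open scoped OnePoint TensorProduct

theorem lift_BC {F F' L W : Type} [Field F] [Field F'] [Field L] [Algebra F F'] [Algebra F L]
    [CommRing W] (j' : F' →+* W) (j : L →+* W)
    (h : ∀ x : F, j' (algebraMap F F' x) = j (algebraMap F L x)) :
    ∃ J : F' ⊗[F] L →+* W, ∀ y x, J (y ⊗ₜ x) = j' y * j x := by
  letI : Algebra F W := (j.comp (algebraMap F L)).toAlgebra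
  let f : F' →ₐ[F] W := ⟨j', h⟩
  let g : L →ₐ[F] W := ⟨j, fun _ => rfl⟩
  exact ⟨(Algebra.TensorProduct.lift f g (fun _ _ => Commute.all _ _)).toRingHom, fun _ _ => rfl⟩

theorem domain_BC {F F' L W : Type} [Field F] [Field F'] [Field L] [Algebra F F'] [Algebra F L]
    [Field W] (j' : F' →+* W) (j : L →+* W)
    (h : ∀ x : F, j' (algebraMap F F' x) = j (algebraMap F L x)) {ι : Type} [Fintype ι]
    (b : Module.Basis ι F L) (hb : ∀ r : ι → F', ∑ i, j' (r i) * j (b i) = 0 → ∀ i, r i = 0) :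
    IsDomain (F' ⊗[F] L) := by
  obtain ⟨J, hJ⟩ := lift_BC j' j h
  refine Function.Injective.isDomain J ((injective_iff_map_eq_zero J).2 fun z hz => ?_)
  have e := (Algebra.TensorProduct.basis F' b).sum_repr z
  have h0 := hb (fun i => (Algebra.TensorProduct.basis F' b).repr z i) (by
    rw [← hz]
    conv_rhs => rw [← e, map_sum]
    refine Finset.sum_congr rfl fun i _ => ?_
    rw [Algebra.TensorProduct.basis_repr_symm_apply', hJ])
  rw [← e]
  exact Finset.sum_eq_zero fun i _ => by rw [h0 i, zero_smul]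

/-- The action of the Galois group on the tensor product. -/
noncomputable def rho_BC (F F' L : Type) [Field F] [Field F'] [Field L] [Algebra F F']
    [Algebra F L] : (L ≃ₐ[F] L) →* (F' ⊗[F] L ≃ₐ[F'] F' ⊗[F] L) :=
  MonoidHom.mk' (fun σ => Algebra.TensorProduct.congr (AlgEquiv.refl : F' ≃ₐ[F'] F') σ)
    (fun σ τ => by
      refine AlgEquiv.ext fun z => ?_
      induction z using TensorProduct.induction_on with
      | zero => simp only [map_zero]
      | tmul y x => rfl
      | add a b ha hb => simp only [map_add, ha, hb])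

theorem rho_tmul_BC {F F' L : Type} [Field F] [Field F'] [Field L] [Algebra F F'] [Algebra F L]
    (σ : L ≃ₐ[F] L) (y : F') (x : L) : rho_BC F F' L σ (y ⊗ₜ x) = y ⊗ₜ σ x := rfl

theorem rho_inj_BC (F F' L : Type) [Field F] [Field F'] [Field L] [Algebra F F'] [Algebra F L]
    [Nontrivial (F' ⊗[F] L)] : Function.Injective (rho_BC F F' L) := by
  refine (injective_iff_map_eq_one _).2 fun σ hσ => AlgEquiv.ext fun x => ?_
  have h1 := rho_tmul_BC σ (1 : F') x
  rw [hσ] at h1
  exact (Algebra.TensorProduct.includeRight : L →ₐ[F] F' ⊗[F] L).toRingHom.injective h1.symm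

theorem abstract_BC {F F' L : Type} [Field F] [Field F'] [Field L] [Algebra F F'] [Algebra F L]
    [FiniteDimensional F L] [IsGalois F L] [IsDomain (F' ⊗[F] L)] :
    ∃ (L' : Type) (_ : Field L') (_ : Algebra F' L') (_ : FiniteDimensional F' L')
      (_ : IsGalois F' L') (ρ : (L ≃ₐ[F] L) ≃* (L' ≃ₐ[F'] L')),
      ∀ (W : Type) [CommRing W] (j' : F' →+* W) (j : L →+* W),
        (∀ x : F, j' (algebraMap F F' x) = j (algebraMap F L x)) →
        ∃ J : L' →+* W, (∀ y, J (algebraMap F' L' y) = j' y) ∧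
          ∀ (σ : L ≃ₐ[F] L) (s : W →+* W), (∀ y, s (j' y) = j' y) → (∀ x, j (σ x) = s (j x)) →
            ∀ z, J (ρ σ z) = s (J z) := by
  letI : Field (F' ⊗[F] L) := fieldOfFiniteDimensional F' (F' ⊗[F] L)
  obtain ⟨hg, hρ⟩ := galois_of_action (K := F') (B := F' ⊗[F] L) (rho_BC F F' L)
    (rho_inj_BC F F' L) (by rw [Module.finrank_baseChange, IsGalois.card_aut_eq_finrank])
  refine ⟨F' ⊗[F] L, inferInstance, inferInstance, inferInstance, hg,
    MulEquiv.ofBijective _ hρ, fun W _ j' j h => ?_⟩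
  obtain ⟨J, hJ⟩ := lift_BC j' j h
  refine ⟨J, fun y => ?_, fun σ s hs hσ z => ?_⟩
  · have := hJ y 1
    rw [map_one, mul_one] at this
    exact this
  · change J (rho_BC F F' L σ z) = s (J z)
    induction z using TensorProduct.induction_on with
    | zero => simp only [map_zero]
    | tmul y x => rw [rho_tmul_BC, hJ, hJ, map_mul, hs, hσ]
    | add a b ha hb => simp only [map_add, ha, hb]

theorem theta_BC {k k' : Type} [Field k] [Field k'] (φ : k →+* k') :
    ∃ θ : RatFunc k →+* RatFunc k', (∀ c, θ (RatFunc.C c) = RatFunc.C (φ c)) ∧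
      θ RatFunc.X = RatFunc.X := by
  refine exists_ratFunc_hom (RatFunc.C.comp φ) RatFunc.X fun P hP => ?_
  rw [← Polynomial.eval₂_map,
    ← hom_algebraMap (RingHom.id (RatFunc k')) RatFunc.C RatFunc.X (fun _ => rfl) rfl]
  exact RatFunc.algebraMap_ne_zero (Polynomial.map_ne_zero hP)

theorem Cover.exists_baseChange' {k k' G : Type} [Field k] [Field k'] [Group G] (c : Cover k G)
    (φ : k →+* k') (h : ∃ a e ζ g, c.Mono a e ζ g) :
    ∃ c' : Cover k' G, c'.ι.range = c.ι.range ∧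
      ∀ (W : Type) [Field W] (ψ : k' →+* W) (u : W) (s : W →+* W) (g : G),
        (∀ P : Polynomial k', P ≠ 0 → P.eval₂ ψ u ≠ 0) → (∀ x, s (ψ x) = ψ x) → s u = u →
        c.RMono (ψ.comp φ) u s g → c'.RMono ψ u s g := by
  obtain ⟨θ, θC, θX⟩ := theta_BC φ
  letI : Algebra (RatFunc k) (RatFunc k') := θ.toAlgebra
  have compat : ∀ {W : Type} [CommRing W] (ψ : k' →+* W) (u : W) (j' : RatFunc k' →+* W)
      (j : c.L →+* W), (∀ x, j' (RatFunc.C x) = ψ x) → j' RatFunc.X = u →
      (∀ x : k, j (algebraMap (RatFunc k) c.L (RatFunc.C x)) = ψ (φ x)) →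
      j (algebraMap (RatFunc k) c.L RatFunc.X) = u →
      ∀ x, j' (algebraMap (RatFunc k) (RatFunc k') x) = j (algebraMap (RatFunc k) c.L x) := by
    intro W _ ψ u j' j h1 h2 h3 h4 x
    refine DFunLike.congr_fun (ratFunc_hom_ext (j'.comp θ)
      (j.comp (algebraMap (RatFunc k) c.L)) (fun y => ?_) ?_) x
    · rw [RingHom.comp_apply, RingHom.comp_apply, θC, h1, h3]
    · rw [RingHom.comp_apply, RingHom.comp_apply, θX, h2, h4]
  obtain ⟨a, e, ζ, g0, he, -, j, jC, jX, -⟩ := h
  obtain ⟨j', jC', jX'⟩ := exists_chart (a.map φ) e he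
  have : IsDomain (RatFunc k' ⊗[RatFunc k] c.L) := by
    refine domain_BC j' ((mapL φ).comp j) (compat HahnSeries.C _ j' _ jC' jX' (fun x => ?_) ?_)
      (Module.finBasis (RatFunc k) c.L) ?_
    · rw [RingHom.comp_apply, jC, mapL_C]
    · rw [RingHom.comp_apply, jX, mapL_expand]
    · refine linearIndependent_mapL φ (expand a e) (j.comp (algebraMap (RatFunc k) c.L)) jC jX j'
        jC' (by rw [jX', mapL_expand]) (fun i => j (Module.finBasis (RatFunc k) c.L i))
        (fun r hr => ?_)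
      refine Fintype.linearIndependent_iff.1 (Module.finBasis (RatFunc k) c.L).linearIndependent r
        (j.injective ?_)
      rw [map_zero, ← hr, map_sum]
      refine Finset.sum_congr rfl fun i _ => ?_
      rw [Algebra.smul_def, map_mul, RingHom.comp_apply]
  obtain ⟨L', _, _, _, _, ρ, hρ⟩ := abstract_BC (F := RatFunc k) (F' := RatFunc k') (L := c.L)
  refine ⟨{ L := L', ι := c.ι.comp ρ.symm.toMonoidHom }, ?_, ?_⟩
  · ext g
    constructor
    · rintro ⟨τ, rfl⟩
      exact ⟨ρ.symm τ, rfl⟩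
    · rintro ⟨σ, rfl⟩
      exact ⟨ρ σ, congrArg c.ι (ρ.symm_apply_apply σ)⟩
  · rintro W _ ψ u s g hP hs hu ⟨i, iC, iX, σ, hσ, hi⟩
    obtain ⟨i', iC', iX'⟩ := exists_ratFunc_hom ψ u hP
    obtain ⟨J, hJ, hJ'⟩ := hρ W i' i (compat ψ u i' i iC' iX' iC iX)
    refine ⟨J, fun x => (hJ _).trans (iC' x), (hJ _).trans iX', ρ σ,
      (congrArg c.ι (ρ.symm_apply_apply σ)).trans hσ, hJ' σ s (fun y => ?_) hi⟩
    refine DFunLike.congr_fun (ratFunc_hom_ext (s.comp i') i' (fun x => ?_) ?_) y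
    · rw [RingHom.comp_apply, iC', hs]
    · rw [RingHom.comp_apply, iX', hu]

theorem Cover.exists_baseChange {k k' G : Type} [Field k] [IsAlgClosed k] [Field k']
    [IsAlgClosed k'] [Group G] (c : Cover k G) (φ : k →+* k') (h : ∃ a e ζ g, c.Mono a e ζ g) :
    ∃ c' : Cover k' G, c'.ι.range = c.ι.range ∧
      (∀ a e ζ g, c.Mono a e ζ g → c'.Mono (a.map φ) e (φ ζ) g) ∧
      ∀ x : k', x ∉ Set.range φ → c'.Mono (x : OnePoint k') 1 1 1 := by
  obtain ⟨c', h1, h2⟩ := c.exists_baseChange' φ h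
  refine ⟨c', h1, fun a e ζ g hm => ?_, fun x hx => ?_⟩
  · have hζ : IsPrimitiveRoot (φ ζ) e := hm.2.1.map_of_injective φ.injective
    refine Cover.RMono.mono hm.1 hζ (h2 _ _ _ _ g (eval₂_expand_ne_zero _ e hm.1)
      (fun x => scL_C _ _ x) (scL_expand _ e _ _ hζ.pow_eq_one) ?_)
    have h3 := hm.rmono.comp (mapL φ) (scL (φ ζ) (hζ.ne_zero hm.1.ne')) (mapL_scL φ ζ _)
    rw [mapL_expand] at h3
    have h4 : (mapL φ).comp HahnSeries.C =
        (HahnSeries.C : k' →+* LaurentSeries k').comp φ := RingHom.ext (mapL_C φ)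
    rwa [h4] at h3
  · refine Cover.RMono.mono one_pos IsPrimitiveRoot.one (h2 _ _ _ _ 1
      (eval₂_expand_ne_zero _ 1 one_pos) (fun x => scL_C _ _ x)
      (scL_expand _ 1 _ _ (one_pow 1)) ?_)
    have h4 : scL (1 : k') (IsPrimitiveRoot.one.ne_zero one_pos.ne') = RingHom.id _ :=
      RingHom.ext scL_one
    rw [h4]
    exact c.rmono_transcendental φ x hx

end Pool.Agent.Adm
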