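import Pool.Agent.Adm.Path

/-! The curves of the chain. -/

namespace Pool.Agent.Adm

open scoped OnePoint

section Aux

variable {k G : Type} [Field k] [Group G]

theorem md_Bridge {c : Cover k G} {S : Set (OnePoint k)} (h : c.Tame S) (a : OnePoint k) :
    ∃ d, c.MD a d := by
  obtain ⟨e, ζ, g, h1, -⟩ := h a
  exact ⟨(e, ζ, g), h1⟩

theorem tame_Bridge {c : Cover k G} {S S' : Set (OnePoint k)} (e : S = S') (h : c.Tame S') :
    c.Tame S := e ▸ h

theorem sup1_Bridge (f : Fin 1 → Subgroup G) : ⨆ v, f v = f 0 := iSup_unique f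

theorem sup3_Bridge (f : Fin 3 → Subgroup G) : ⨆ v, f v = f 0 ⊔ f 1 ⊔ f 2 := by
  refine le_antisymm (iSup_le fun v => ?_) (sup_le (sup_le (le_iSup f _) (le_iSup f _))
    (le_iSup f _))
  fin_cases v
  · exact le_sup_of_le_left le_sup_left
  · exact le_sup_of_le_left le_sup_right
  · exact le_sup_right

theorem sup4_Bridge (f : Fin 4 → Subgroup G) : ⨆ v, f v = f 0 ⊔ f 1 ⊔ f 2 ⊔ f 3 := by
  refine le_antisymm (iSup_le fun v => ?_) (by simp [le_iSup])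
  fin_cases v
  · exact le_sup_of_le_left (le_sup_of_le_left le_sup_left)
  · exact le_sup_of_le_left (le_sup_of_le_left le_sup_right)
  · exact le_sup_of_le_left le_sup_right
  · exact le_sup_right

theorem sup5_Bridge (f : Fin 5 → Subgroup G) : ⨆ v, f v = f 0 ⊔ f 1 ⊔ f 2 ⊔ f 3 ⊔ f 4 := by
  refine le_antisymm (iSup_le fun v => ?_) (by simp [le_iSup])
  fin_cases v
  · exact le_sup_of_le_left (le_sup_of_le_left (le_sup_of_le_left le_sup_left))
  · exact le_sup_of_le_left (le_sup_of_le_left (le_sup_of_le_left le_sup_right))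
  · exact le_sup_of_le_left (le_sup_of_le_left le_sup_right)
  · exact le_sup_of_le_left le_sup_right
  · exact le_sup_right

/-- The special points of a component of a chain. -/
def sp_Bridge (r : ℕ) (comp : Fin 7 → Fin (r + 1)) (mark : Fin 7 → OnePoint k) (v : Fin (r + 1)) :
    Set (OnePoint k) :=
  {a | (a = ((0 : k) : OnePoint k) ∧ v ≠ 0) ∨ (a = ∞ ∧ v ≠ Fin.last r) ∨
    ∃ i, comp i = v ∧ mark i = a}

theorem ex7_Bridge (P : Fin 7 → Prop) :
    (∃ i, P i) ↔ P 0 ∨ P 1 ∨ P 2 ∨ P 3 ∨ P 4 ∨ P 5 ∨ P 6 := by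
  simp [Fin.exists_fin_succ]

theorem all7_Bridge (P : Fin 7 → Prop) :
    (∀ i, P i) ↔ P 0 ∧ P 1 ∧ P 2 ∧ P 3 ∧ P 4 ∧ P 5 ∧ P 6 := by
  simp [Fin.forall_fin_succ]

end Aux

variable {k : Type} [Field k] [IsAlgClosed k] (p : ℕ) [CharP k p]

variable (k) in
theorem exists_curve5 : ∃ X : StableCurve p 7, Describes X (A5 k) := by
  obtain ⟨X, hX⟩ := exists_pathCurve (k := k) (p := p) 4 7 ![0, 0, 1, 2, 3, 4, 4]
    ![((0 : k) : OnePoint k), (1 : k), (1 : k), (1 : k), (1 : k), (1 : k), ∞]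
    (by simp [all7_Bridge]) (by simp [all7_Bridge]) (by simp [all7_Bridge, Fin.last]) (by decide)
  have hS : ∀ v, sp_Bridge 4 ![0, 0, 1, 2, 3, 4, 4]
      ![((0 : k) : OnePoint k), (1 : k), (1 : k), (1 : k), (1 : k), (1 : k), ∞] v = S3 k := by
    intro v
    ext a
    fin_cases v <;> simp [sp_Bridge, S3, ex7_Bridge, Fin.last, eq_comm (b := a)] <;> tauto
  refine ⟨X, fun G _ => (hX G).trans ⟨?_, ?_⟩⟩
  · rintro ⟨c, h1, h2, h3⟩
    have h4 : ∀ v, (c v).Tame (S3 k) := fun v => hS v ▸ h1 v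
    choose d hd using fun v => md_Bridge (h4 v)
    rw [sup5_Bridge] at h3
    exact ⟨![d 0 (0 : k), d 0 (1 : k), d 1 (1 : k), d 2 (1 : k), d 3 (1 : k), d 4 (1 : k), d 4 ∞],
      c 0, c 1, c 2, c 3, c 4, h4 0, h4 1, h4 2, h4 3, h4 4, h2 0, h2 1, h2 2, h2 3, h3,
      hd _ _, hd _ _, hd _ _, hd _ _, hd _ _, hd _ _, hd _ _⟩
  · rintro ⟨d, c1, c2, c3, c4, c5, t1, t2, t3, t4, t5, g1, g2, g3, g4, h, -⟩
    refine ⟨![c1, c2, c3, c4, c5], fun v => ?_, fun v => ?_, by rw [sup5_Bridge]; exact h⟩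
    · refine tame_Bridge (hS v) ?_
      fin_cases v
      exacts [t1, t2, t3, t4, t5]
    · fin_cases v
      exacts [g1, g2, g3, g4]

theorem exists_curve4 (s : k) (h0 : s ≠ 0) (h1 : s ≠ 1) :
    ∃ X : StableCurve p 7, Describes X (A4 s) := by
  obtain ⟨X, hX⟩ := exists_pathCurve (k := k) (p := p) 3 7 ![0, 0, 0, 1, 2, 3, 3]
    ![((0 : k) : OnePoint k), (s : k), (1 : k), (1 : k), (1 : k), (1 : k), ∞]
    (by simp [all7_Bridge, h0, h1, h0.symm, h1.symm]) (by simp [all7_Bridge])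
    (by simp [all7_Bridge, Fin.last]) (by decide)
  have hS : ∀ v, sp_Bridge 3 ![0, 0, 0, 1, 2, 3, 3]
      ![((0 : k) : OnePoint k), (s : k), (1 : k), (1 : k), (1 : k), (1 : k), ∞] v =
      ![S4 s, S3 k, S3 k, S3 k] v := by
    intro v
    ext a
    fin_cases v <;> simp [sp_Bridge, S3, S4, ex7_Bridge, Fin.last, eq_comm (b := a)] <;> tauto
  refine ⟨X, fun G _ => (hX G).trans ⟨?_, ?_⟩⟩
  · rintro ⟨c, h1, h2, h3⟩
    have h4 : ∀ v, (c v).Tame (![S4 s, S3 k, S3 k, S3 k] v) := fun v => hS v ▸ h1 v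
    choose d hd using fun v => md_Bridge (h4 v)
    rw [sup4_Bridge] at h3
    exact ⟨![d 0 (0 : k), d 0 (s : k), d 0 (1 : k), d 1 (1 : k), d 2 (1 : k), d 3 (1 : k), d 3 ∞],
      c 0, c 1, c 2, c 3, h4 0, h4 1, h4 2, h4 3, h2 0, h2 1, h2 2, h3,
      hd _ _, hd _ _, hd _ _, hd _ _, hd _ _, hd _ _, hd _ _⟩
  · rintro ⟨d, c1, c2, c3, c4, t1, t2, t3, t4, g1, g2, g3, h, -⟩
    refine ⟨![c1, c2, c3, c4], fun v => ?_, fun v => ?_, by rw [sup4_Bridge]; exact h⟩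
    · refine tame_Bridge (hS v) ?_
      fin_cases v
      exacts [t1, t2, t3, t4]
    · fin_cases v
      exacts [g1, g2, g3]

theorem exists_curve3 (s s' : k) (h0 : s ≠ 0) (h1 : s ≠ 1) (h0' : s' ≠ 0) (h1' : s' ≠ 1) :
    ∃ X : StableCurve p 7, Describes X (A3 s s') := by
  obtain ⟨X, hX⟩ := exists_pathCurve (k := k) (p := p) 2 7 ![0, 0, 0, 1, 2, 2, 2]
    ![((0 : k) : OnePoint k), (s : k), (1 : k), (1 : k), (1 : k), (s' : k), ∞]
    (by simp [all7_Bridge, h0, h1, h0.symm, h1.symm, h1', h1'.symm]) (by simp [all7_Bridge, h0'])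
    (by simp [all7_Bridge, Fin.last]) (by decide)
  have hS : ∀ v, sp_Bridge 2 ![0, 0, 0, 1, 2, 2, 2]
      ![((0 : k) : OnePoint k), (s : k), (1 : k), (1 : k), (1 : k), (s' : k), ∞] v =
      ![S4 s, S3 k, S4 s'] v := by
    intro v
    ext a
    fin_cases v <;> simp [sp_Bridge, S3, S4, ex7_Bridge, Fin.last, eq_comm (b := a)] <;> tauto
  refine ⟨X, fun G _ => (hX G).trans ⟨?_, ?_⟩⟩
  · rintro ⟨c, h1, h2, h3⟩
    have h4 : ∀ v, (c v).Tame (![S4 s, S3 k, S4 s'] v) := fun v => hS v ▸ h1 v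
    choose d hd using fun v => md_Bridge (h4 v)
    rw [sup3_Bridge] at h3
    exact ⟨![d 0 (0 : k), d 0 (s : k), d 0 (1 : k), d 1 (1 : k), d 2 (1 : k), d 2 (s' : k), d 2 ∞],
      c 0, c 1, c 2, h4 0, h4 1, h4 2, h2 0, h2 1, h3,
      hd _ _, hd _ _, hd _ _, hd _ _, hd _ _, hd _ _, hd _ _⟩
  · rintro ⟨d, c1, c2, c3, t1, t2, t3, g1, g2, h, -⟩
    refine ⟨![c1, c2, c3], fun v => ?_, fun v => ?_, by rw [sup3_Bridge]; exact h⟩
    · refine tame_Bridge (hS v) ?_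
      fin_cases v
      exacts [t1, t2, t3]
    · fin_cases v
      exacts [g1, g2]

theorem exists_curve1 (a : Fin 6 → k) (ha : Function.Injective a) :
    ∃ X : StableCurve p 7, Describes X (A1 a) := by
  obtain ⟨X, hX⟩ := exists_pathCurve (k := k) (p := p) 0 7 (fun _ => 0)
    ![((a 0 : k) : OnePoint k), (a 1 : k), (a 2 : k), (a 3 : k), (a 4 : k), (a 5 : k), ∞]
    (by simp [all7_Bridge, ha.eq_iff]) (by simp) (by simp) (by decide)
  have hS : sp_Bridge 0 (fun _ => 0)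
      ![((a 0 : k) : OnePoint k), (a 1 : k), (a 2 : k), (a 3 : k), (a 4 : k), (a 5 : k), ∞] 0 =
      S7 a := by
    ext b
    simp [sp_Bridge, S7, Fin.exists_fin_succ, eq_comm (b := b)]
    tauto
  refine ⟨X, fun G _ => (hX G).trans ⟨?_, ?_⟩⟩
  · rintro ⟨c, h1, -, h3⟩
    have h4 : (c 0).Tame (S7 a) := hS ▸ h1 0
    choose d hd using md_Bridge h4
    rw [sup1_Bridge] at h3
    refine ⟨![d (a 0 : k), d (a 1 : k), d (a 2 : k), d (a 3 : k), d (a 4 : k), d (a 5 : k), d ∞],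
      c 0, h4, h3, fun i => ?_, hd _⟩
    fin_cases i <;> exact hd _
  · rintro ⟨d, c, t, h, -⟩
    refine ⟨fun _ => c, fun v => ?_, fun v => v.elim0, by rw [sup1_Bridge]; exact h⟩
    obtain rfl : v = 0 := Subsingleton.elim (α := Fin 1) _ _
    exact tame_Bridge hS t

end Pool.Agent.Adm
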