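import Pool.Agent.Adm.ADefs

/-! Admissible coverings with monodromy data of the curves of the chain. -/

namespace Pool.Agent.Adm

open scoped OnePoint

variable {k : Type} [Field k]

/-- The points 0, 1, infinity. -/
def S3 (k : Type) [Field k] : Set (OnePoint k) := {((0 : k) : OnePoint k), ((1 : k) : OnePoint k), ∞}

/-- The points 0, 1, s, infinity. -/
def S4 (s : k) : Set (OnePoint k) :=
  {((0 : k) : OnePoint k), ((1 : k) : OnePoint k), (s : OnePoint k), ∞}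

/-- Six finite points and infinity. -/
def S7 (a : Fin 6 → k) : Set (OnePoint k) := insert ∞ (Set.range fun i => (a i : OnePoint k))

/-- Five components. -/
def A5 (k : Type) [Field k] (G : Type) [Group G] (d : Fin 7 → Dat k G) : Prop :=
  ∃ c1 c2 c3 c4 c5 : Cover k G, c1.Tame (S3 k) ∧ c2.Tame (S3 k) ∧ c3.Tame (S3 k) ∧
    c4.Tame (S3 k) ∧ c5.Tame (S3 k) ∧ Glue c1 c2 ∧ Glue c2 c3 ∧ Glue c3 c4 ∧ Glue c4 c5 ∧
    c1.ι.range ⊔ c2.ι.range ⊔ c3.ι.range ⊔ c4.ι.range ⊔ c5.ι.range = ⊤ ∧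
    c1.MD (0 : k) (d 0) ∧ c1.MD (1 : k) (d 1) ∧ c2.MD (1 : k) (d 2) ∧ c3.MD (1 : k) (d 3) ∧
    c4.MD (1 : k) (d 4) ∧ c5.MD (1 : k) (d 5) ∧ c5.MD ∞ (d 6)

/-- Four components. -/
def A4 (s : k) (G : Type) [Group G] (d : Fin 7 → Dat k G) : Prop :=
  ∃ c1 c3 c4 c5 : Cover k G, c1.Tame (S4 s) ∧ c3.Tame (S3 k) ∧ c4.Tame (S3 k) ∧
    c5.Tame (S3 k) ∧ Glue c1 c3 ∧ Glue c3 c4 ∧ Glue c4 c5 ∧
    c1.ι.range ⊔ c3.ι.range ⊔ c4.ι.range ⊔ c5.ι.range = ⊤ ∧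
    c1.MD (0 : k) (d 0) ∧ c1.MD s (d 1) ∧ c1.MD (1 : k) (d 2) ∧ c3.MD (1 : k) (d 3) ∧
    c4.MD (1 : k) (d 4) ∧ c5.MD (1 : k) (d 5) ∧ c5.MD ∞ (d 6)

/-- Three components. -/
def A3 (s s' : k) (G : Type) [Group G] (d : Fin 7 → Dat k G) : Prop :=
  ∃ c1 c3 c4 : Cover k G, c1.Tame (S4 s) ∧ c3.Tame (S3 k) ∧ c4.Tame (S4 s') ∧
    Glue c1 c3 ∧ Glue c3 c4 ∧ c1.ι.range ⊔ c3.ι.range ⊔ c4.ι.range = ⊤ ∧
    c1.MD (0 : k) (d 0) ∧ c1.MD s (d 1) ∧ c1.MD (1 : k) (d 2) ∧ c3.MD (1 : k) (d 3) ∧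
    c4.MD (1 : k) (d 4) ∧ c4.MD s' (d 5) ∧ c4.MD ∞ (d 6)

/-- One component. -/
def A1 (a : Fin 6 → k) (G : Type) [Group G] (d : Fin 7 → Dat k G) : Prop :=
  ∃ c : Cover k G, c.Tame (S7 a) ∧ c.ι.range = ⊤ ∧ (∀ i : Fin 6, c.MD (a i) (d i.castSucc)) ∧
    c.MD ∞ (d 6)

/-- A property of groups with monodromy data. -/
abbrev AdmP (k : Type) [Field k] : Type 1 := ∀ (G : Type) [Group G], (Fin 7 → Dat k G) → Prop

/-- Coverings of type A lift to coverings of type A' with the same monodromy data. -/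
def Lifts {k' : Type} [Field k'] (φ : k →+* k') (A : AdmP k) (A' : AdmP k') : Prop :=
  ∀ (G : Type) [Group G] [Finite G] (d : Fin 7 → Dat k G), A G d → A' G fun i => (d i).map φ

/-- Every affine quotient with labels n has a fixed point. -/
def AllFix {F : Type} [Field F] [Fintype F] (θ : F →+* k) (A : AdmP k) (n : Fin 7 → ℤ) : Prop :=
  ∀ (G : Type) [Group G] (d : Fin 7 → Dat k G) (ψ : G →* Aff F), A G d →
    (∀ i, LabD (Fintype.card F - 1) θ (Aff.lin.comp ψ) (d i) (n i)) → Aff.HasFix ψ.range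

/-- Every covering is dominated by one with an affine quotient of labels n without fixed point. -/
def NewCov {F : Type} [Field F] [Fintype F] (θ : F →+* k) (A : AdmP k) (n : Fin 7 → ℤ) : Prop :=
  ∀ (G : Type) [Group G] [Finite G] (d : Fin 7 → Dat k G), A G d →
    ∃ (H : Type) (_ : Group H) (_ : Finite H) (pr : H →* G) (ψ : H →* Aff F)
      (d' : Fin 7 → Dat k H), A H d' ∧ Function.Surjective pr ∧ ¬ Aff.HasFix ψ.range ∧
      ∀ χ : G →* Fˣ, χ.comp pr = Aff.lin.comp ψ →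
        ∀ i, LabD (Fintype.card F - 1) θ χ (d i) (n i)

/-- The finite quotients of the fundamental group of X are described by A. -/
def Describes {p : ℕ} (X : StableCurve p 7) (A : AdmP k) : Prop :=
  ∀ (G : Type) [Group G], X.HasCover G ↔ ∃ d, A G d

end Pool.Agent.Adm
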