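import Mathlib

/-!
Admissible coverings of pointed stable curves of genus zero in characteristic p, and the space of
their admissible fundamental groups with the anabelian topology.
-/

namespace Pool.Agent.Adm

open scoped OnePoint

/-- A finite Galois extension L of the function field k(X) of a projective line, with a
homomorphism from its Galois group to G.  It describes the restriction of a Galois G-covering to
one irreducible component; the image of the homomorphism is the decomposition group. -/
structure Cover (k : Type) [Field k] (G : Type) [Group G] : Type 1 where
  L : Type
  [field : Field L]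
  [alg : Algebra (RatFunc k) L]
  [fin : FiniteDimensional (RatFunc k) L]
  [gal : IsGalois (RatFunc k) L]
  ι : (L ≃ₐ[RatFunc k] L) →* G

attribute [instance] Cover.field Cover.alg Cover.fin Cover.gal

/-- The coordinate X near the point a of the projective line, as a Laurent series in a local
parameter z of a place of ramification index dividing e: a + z^e, or z^(-e) at infinity. -/
noncomputable def expand {k : Type} [Field k] (a : OnePoint k) (e : ℕ) : LaurentSeries k :=
  a.elim (HahnSeries.single (-(e : ℤ)) 1) (fun b => HahnSeries.C b + HahnSeries.single (e : ℤ) 1)

/-- Tame local monodromy: L embeds over k into k((z)) with X sent to expand a e (a place above a,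
tamely ramified since k has the primitive e-th root of unity ζ), and the automorphism σ of L
induced by z ↦ ζ z (a generator of the inertia group of that place) is sent to g. -/
def Cover.Mono {k G : Type} [Field k] [Group G] (c : Cover k G) (a : OnePoint k) (e : ℕ) (ζ : k)
    (g : G) : Prop :=
  0 < e ∧ IsPrimitiveRoot ζ e ∧ ∃ j : c.L →+* LaurentSeries k,
    (∀ x : k, j (algebraMap (RatFunc k) c.L (RatFunc.C x)) = HahnSeries.C x) ∧
    j (algebraMap (RatFunc k) c.L RatFunc.X) = expand a e ∧
    ∃ σ : c.L ≃ₐ[RatFunc k] c.L, c.ι σ = g ∧
      ∀ (x : c.L) (n : ℤ), (j (σ x)).coeff n = ζ ^ n * (j x).coeff n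

/-- An n-pointed stable curve of genus zero over an algebraically closed field of characteristic
p: a finite tree of projective lines.  For adjacent v, w the point node v w of the line v is glued
to the point node w v of the line w; the i-th marked point is mark i on the line comp i; the
special points of each line are distinct and at least three. -/
structure StableCurve (p n : ℕ) : Type 1 where
  k : Type
  [field : Field k]
  [closed : IsAlgClosed k]
  [char : CharP k p]
  V : Type
  [fin : Finite V]
  T : SimpleGraph V
  tree : T.IsTree
  node : V → V → OnePoint k
  comp : Fin n → V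
  mark : Fin n → OnePoint k
  node_inj : ∀ v w w', T.Adj v w → T.Adj v w' → node v w = node v w' → w = w'
  mark_inj : ∀ i j, comp i = comp j → mark i = mark j → i = j
  mark_ne_node : ∀ i w, T.Adj (comp i) w → mark i ≠ node (comp i) w
  stable : ∀ v, 3 ≤ {a | (∃ w, T.Adj v w ∧ node v w = a) ∨ ∃ i, comp i = v ∧ mark i = a}.ncard

attribute [instance] StableCurve.field StableCurve.closed StableCurve.char StableCurve.fin

/-- The special points (nodes and marked points) of the component v. -/
def StableCurve.Special {p n : ℕ} (X : StableCurve p n) (v : X.V) (a : OnePoint X.k) : Prop :=
  (∃ w, X.T.Adj v w ∧ X.node v w = a) ∨ ∃ i, X.comp i = v ∧ X.mark i = a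

/-- X has a connected Galois admissible covering with group G: coverings of the components, tame
everywhere and unramified outside the special points, whose inertia generators agree at each node
(z ↦ ζ z on one branch, z ↦ ζ⁻¹ z on the other), and whose decomposition groups generate G. -/
def StableCurve.HasCover {p n : ℕ} (X : StableCurve p n) (G : Type) [Group G] : Prop :=
  ∃ c : X.V → Cover X.k G,
    (∀ v a, ∃ e ζ g, (c v).Mono a e ζ g ∧ (¬ X.Special v a → g = 1)) ∧
    (∀ v w, X.T.Adj v w →
      ∃ e ζ g, (c v).Mono (X.node v w) e ζ g ∧ (c w).Mono (X.node w v) e ζ⁻¹ g) ∧
    ⨆ v, (c v).ι.range = ⊤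

/-- The set of admissible fundamental groups of type (0, n): curves are identified when their
admissible fundamental groups have the same finite quotients. -/
def PiBar (p n : ℕ) : Type 1 :=
  Quot fun X Y : StableCurve p n =>
    ∀ (G : Type) [Group G] [Finite G], X.HasCover G ↔ Y.HasCover G

/-- The set U_G of fundamental groups having the finite group G as a quotient. -/
def U (p n : ℕ) (G : Type) [Group G] : Set (PiBar p n) :=
  {x | ∃ X : StableCurve p n, Quot.mk _ X = x ∧ X.HasCover G}

/-- The anabelian topology, generated by the sets U_G for finite groups G. -/
instance topPiBar (p n : ℕ) : TopologicalSpace (PiBar p n) :=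
  TopologicalSpace.generateFrom
    {s | ∃ (G : Type) (_ : Group G) (_ : Finite G), s = U p n G}

end Pool.Agent.Adm
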