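import Pool.Agent.Adm.LabL

/-! The Kummer-Artin-Schreier extension. -/

namespace Pool.Agent.Adm

theorem step_EX2 {F K Ω : Type} [Field F] [Fintype F] [Field K] [Field Ω] [Algebra K Ω]
    (θ : F →+* K) (f h : K) (y w y' w' : Ω) (hy0 : y ≠ 0)
    (hy : y ^ (Fintype.card F - 1) = algebraMap K Ω f)
    (hw : w ^ Fintype.card F - w = algebraMap K Ω h * y)
    (hy' : y' ^ (Fintype.card F - 1) = algebraMap K Ω f)
    (hw' : w' ^ Fintype.card F - w' = algebraMap K Ω h * y') :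
    ∃ g : Aff F, y' = algebraMap K Ω (θ g.u) * y ∧
      w' = algebraMap K Ω (θ g.u) * w + algebraMap K Ω (θ g.b) := by
  let φ : F →+* Ω := (algebraMap K Ω).comp θ
  have h1 : (y' / y) ^ (Fintype.card F - 1) = 1 := by
    rw [div_pow, hy', ← hy, div_self (pow_ne_zero _ hy0)]
  obtain ⟨a, ha⟩ := exists_unit_of_pow_card_sub_one φ _ h1
  have ha' : y' = φ a * y := by rw [ha, div_mul_cancel₀ _ hy0]
  have haq : φ a ^ Fintype.card F = φ a := by rw [← map_pow, FiniteField.pow_card]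
  have h2 : (w' - φ a * w) ^ Fintype.card F = w' - φ a * w := by
    rw [sub_pow_card_of_hom φ, mul_pow, haq]
    rw [ha'] at hw'
    linear_combination hw' - φ a * hw
  obtain ⟨b, hb⟩ := exists_eq_of_pow_card φ _ h2
  refine ⟨⟨a, b⟩, ha', ?_⟩
  change w' = φ a * w + φ b
  rw [hb]
  ring

theorem uniq_EX2 {F K Ω : Type} [Field F] [Field K] [Field Ω] [Algebra K Ω]
    (θ : F →+* K) (y w : Ω) (hy0 : y ≠ 0) (g g' : Aff F)
    (h1 : algebraMap K Ω (θ g.u) * y = algebraMap K Ω (θ g'.u) * y)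
    (h2 : algebraMap K Ω (θ g.u) * w + algebraMap K Ω (θ g.b) =
      algebraMap K Ω (θ g'.u) * w + algebraMap K Ω (θ g'.b)) : g = g' := by
  have e1 := mul_right_cancel₀ hy0 h1
  rw [e1] at h2
  have e2 := add_left_cancel h2
  exact Aff.ext (Units.ext (θ.injective ((algebraMap K Ω).injective e1)))
    (θ.injective ((algebraMap K Ω).injective e2))

theorem conj_EX2 {K Ω Ω' : Type} [Field K] [Field Ω] [Algebra K Ω] [Field Ω'] [Algebra K Ω']
    (q : ℕ) (f h : K) (y w : Ω) (σ : Ω →ₐ[K] Ω')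
    (hy : y ^ (q - 1) = algebraMap K Ω f)
    (hw : w ^ q - w = algebraMap K Ω h * y) :
    σ y ^ (q - 1) = algebraMap K Ω' f ∧ σ w ^ q - σ w = algebraMap K Ω' h * σ y := by
  constructor
  · rw [← map_pow, hy, AlgHom.commutes]
  · rw [← map_pow, ← map_sub, hw, map_mul, AlgHom.commutes]

theorem hom_EX2 {F K L : Type} [Field F] [Fintype F] [Field K] [Field L] [Algebra K L]
    (θ : F →+* K) (f h : K) (y w : L) (hy0 : y ≠ 0)
    (hy : y ^ (Fintype.card F - 1) = algebraMap K L f)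
    (hw : w ^ Fintype.card F - w = algebraMap K L h * y) :
    ∃ ι : (L ≃ₐ[K] L) →* Aff F, (∀ σ : L ≃ₐ[K] L, σ y = algebraMap K L (θ (ι σ).u) * y) ∧
      ∀ σ : L ≃ₐ[K] L, σ w = algebraMap K L (θ (ι σ).u) * w + algebraMap K L (θ (ι σ).b) := by
  have key : ∀ σ : L ≃ₐ[K] L, ∃ g : Aff F, σ y = algebraMap K L (θ g.u) * y ∧
      σ w = algebraMap K L (θ g.u) * w + algebraMap K L (θ g.b) := fun σ =>
    step_EX2 θ f h y w (σ y) (σ w) hy0 hy hw (conj_EX2 _ f h y w (σ : L →ₐ[K] L) hy hw).1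
      (conj_EX2 _ f h y w (σ : L →ₐ[K] L) hy hw).2
  choose i hi1 hi2 using key
  refine ⟨MonoidHom.mk' i fun σ τ => uniq_EX2 θ y w hy0 _ _ ?_ ?_, hi1, hi2⟩
  · rw [← hi1, AlgEquiv.mul_apply, hi1 τ, map_mul, AlgEquiv.commutes, hi1 σ]
    simp only [Aff.mul_u, Units.val_mul, map_mul]
    ring
  · rw [← hi2, AlgEquiv.mul_apply, hi2 τ, map_add, map_mul, AlgEquiv.commutes, AlgEquiv.commutes,
      hi2 σ]
    simp only [Aff.mul_u, Aff.mul_b, Units.val_mul, map_mul, map_add]
    ring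

open Polynomial in
theorem sepAS_EX2 {E Ω : Type} [Field E] [Field Ω] [Algebra E Ω] (q : ℕ) (hq : (q : E) = 0)
    (c : E) (w : Ω) (hw : w ^ q - w = algebraMap E Ω c) : IsSeparable E w := by
  have hs : Separable (X ^ q - X - C c : E[X]) := by
    have hd : derivative (X ^ q - X - C c : E[X]) = -1 := by
      simp [derivative_X_pow, hq]
    rw [Separable, hd]
    exact isCoprime_one_right.neg_right
  refine hs.of_dvd (minpoly.dvd E w ?_)
  simp [hw]

open Polynomial in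
theorem exists_AS_EX2 {Ω : Type} [Field Ω] [IsAlgClosed Ω] (q : ℕ) (hq : 1 < q) (c : Ω) :
    ∃ w : Ω, w ^ q - w = c := by
  have hd : (X ^ q - X - C c : Polynomial Ω).degree = q := by
    have : (X ^ q - X - C c : Polynomial Ω) = X ^ q - (X + C c) := by ring
    rw [this, degree_sub_eq_left_of_degree_lt, degree_X_pow]
    rw [degree_X_add_C, degree_X_pow]
    exact_mod_cast hq
  obtain ⟨w, hw⟩ := IsAlgClosed.exists_root (X ^ q - X - C c : Polynomial Ω) (by
    rw [hd]
    exact_mod_cast (by omega : q ≠ 0))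
  refine ⟨w, ?_⟩
  have : w ^ q - w - c = 0 := by simpa using hw
  exact sub_eq_zero.1 this

open IntermediateField Polynomial in
theorem gal_EX2 {F K Ω : Type} [Field F] [Fintype F] [Field K] [Field Ω] [Algebra K Ω]
    [Normal K Ω] (θ : F →+* K) (f h : K) (hf : f ≠ 0) (y w : Ω) (hy0 : y ≠ 0)
    (hy : y ^ (Fintype.card F - 1) = algebraMap K Ω f)
    (hw : w ^ Fintype.card F - w = algebraMap K Ω h * y) :
    FiniteDimensional K (adjoin K {y, w}) ∧ IsGalois K (adjoin K {y, w}) := by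
  have sy : IsSeparable K y := by
    refine (separable_X_pow_sub_C f (card_sub_one_cast_ne_zero θ) hf).of_dvd
      (minpoly.dvd K y ?_)
    simp [hy]
  have sw : IsSeparable K w := by
    have := (isSeparable_adjoin_simple_iff_isSeparable K Ω).2 sy
    refine IsSeparable.of_algebra_isSeparable_of_isSeparable K (E := K⟮y⟯) ?_
    refine sepAS_EX2 (Fintype.card F) (card_cast_eq_zero ((algebraMap K K⟮y⟯).comp θ))
      (algebraMap K K⟮y⟯ h * AdjoinSimple.gen K y) w ?_
    rw [hw, map_mul, AdjoinSimple.algebraMap_gen, ← IsScalarTower.algebraMap_apply]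
  have sep : ∀ x ∈ ({y, w} : Set Ω), IsSeparable K x := by
    rintro x (rfl | rfl)
    exacts [sy, sw]
  have hsep : Algebra.IsSeparable K (adjoin K {y, w}) :=
    (isSeparable_adjoin_iff_isSeparable K Ω).2 sep
  have hnor : Normal K (adjoin K {y, w}) := by
    rw [normal_iff_forall_map_le]
    intro σ
    obtain ⟨c1, c2⟩ := conj_EX2 _ f h y w σ hy hw
    obtain ⟨g, g1, g2⟩ := step_EX2 θ f h y w (σ y) (σ w) hy0 hy hw c1 c2
    have my : y ∈ adjoin K ({y, w} : Set Ω) := subset_adjoin _ _ (by simp)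
    have mw : w ∈ adjoin K ({y, w} : Set Ω) := subset_adjoin _ _ (by simp)
    rw [adjoin_map, adjoin_le_iff]
    rintro _ ⟨x, (rfl | rfl), rfl⟩
    · rw [g1]
      exact mul_mem (IntermediateField.algebraMap_mem _ _) my
    · rw [g2]
      exact add_mem (mul_mem (IntermediateField.algebraMap_mem _ _) mw)
        (IntermediateField.algebraMap_mem _ _)
  exact ⟨finiteDimensional_adjoin fun x hx => (sep x hx).isIntegral, IsGalois.mk⟩

theorem exists_affine_ext {k F : Type} [Field k] [Field F] [Fintype F] (θ : F →+* k)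
    (f h : RatFunc k) (hf : f ≠ 0) :
    ∃ (c : Cover k (Aff F)) (y w : c.L),
      y ^ (Fintype.card F - 1) = algebraMap (RatFunc k) c.L f ∧
      w ^ Fintype.card F - w = algebraMap (RatFunc k) c.L h * y ∧
      IntermediateField.adjoin (RatFunc k) {y, w} = ⊤ ∧
      (∀ σ : c.L ≃ₐ[RatFunc k] c.L,
        σ y = algebraMap (RatFunc k) c.L (RatFunc.C (θ (c.ι σ).u)) * y) ∧
      ∀ σ : c.L ≃ₐ[RatFunc k] c.L,
        σ w = algebraMap (RatFunc k) c.L (RatFunc.C (θ (c.ι σ).u)) * w +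
          algebraMap (RatFunc k) c.L (RatFunc.C (θ (c.ι σ).b)) := by
  have hq : 1 < Fintype.card F := Fintype.one_lt_card
  let Ω := AlgebraicClosure (RatFunc k)
  let θ' : F →+* RatFunc k := (RatFunc.C : k →+* RatFunc k).comp θ
  obtain ⟨y, hy⟩ := IsAlgClosed.exists_pow_nat_eq (algebraMap (RatFunc k) Ω f)
    (n := Fintype.card F - 1) (by omega)
  have hy0 : y ≠ 0 := by
    rintro rfl
    rw [zero_pow (by omega)] at hy
    exact hf ((map_eq_zero _).1 hy.symm)
  obtain ⟨w, hw⟩ := exists_AS_EX2 _ hq (algebraMap (RatFunc k) Ω h * y)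
  obtain ⟨hfin, hgal⟩ := gal_EX2 θ' f h hf y w hy0 hy hw
  let L := IntermediateField.adjoin (RatFunc k) ({y, w} : Set Ω)
  have my : y ∈ L := IntermediateField.subset_adjoin _ _ (by simp)
  have mw : w ∈ L := IntermediateField.subset_adjoin _ _ (by simp)
  have hy' : (⟨y, my⟩ : L) ^ (Fintype.card F - 1) = algebraMap (RatFunc k) L f :=
    Subtype.ext (by simpa using hy)
  have hw' : (⟨w, mw⟩ : L) ^ Fintype.card F - ⟨w, mw⟩ = algebraMap (RatFunc k) L h * ⟨y, my⟩ :=
    Subtype.ext (by simpa using hw)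
  have hy0' : (⟨y, my⟩ : L) ≠ 0 := fun e => hy0 (congrArg Subtype.val e)
  obtain ⟨ι, h1, h2⟩ := hom_EX2 θ' f h _ _ hy0' hy' hw'
  refine ⟨⟨L, ι⟩, ⟨y, my⟩, ⟨w, mw⟩, hy', hw', ?_, h1, h2⟩
  apply IntermediateField.lift_injective L
  rw [IntermediateField.lift_adjoin, IntermediateField.lift_top, Set.image_pair]

end Pool.Agent.Adm
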