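import Mathlib

/-! Galois theoretic tools. -/

namespace Pool.Agent.Adm

/-- An endomorphism of the target fixing the base induces an automorphism of a normal extension. -/
theorem exists_aut_of_normal {F L W : Type} [Field F] [Field L] [Field W] [Algebra F L]
    [Normal F L] (j j' : L →+* W) (h : ∀ x, j' (algebraMap F L x) = j (algebraMap F L x)) :
    ∃ σ : L ≃ₐ[F] L, ∀ x, j (σ x) = j' x := by
  let : Algebra L W := j.toAlgebra
  let : Algebra F W := (j.comp (algebraMap F L)).toAlgebra
  have : IsScalarTower F L W := IsScalarTower.of_algebraMap_eq fun _ => rfl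
  let φ : L →ₐ[F] W := { j' with commutes' := h }
  exact ⟨φ.restrictNormal' L, fun x => φ.restrictNormal_commutes L x⟩

/-- Extending an embedding to an algebraic extension when all extensions to the algebraic closure
send a generating set into W. -/
theorem exists_extension {F L W : Type} [Field F] [Field L] [Field W] [Algebra F L]
    [Algebra.IsAlgebraic F L] (j0 : F →+* W) (S : Set L)
    (hS : IntermediateField.adjoin F S = ⊤)
    (h : ∀ J : L →+* AlgebraicClosure W,
      (∀ x, J (algebraMap F L x) = algebraMap W (AlgebraicClosure W) (j0 x)) →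
      ∀ s ∈ S, J s ∈ Set.range (algebraMap W (AlgebraicClosure W))) :
    ∃ j : L →+* W, ∀ x, j (algebraMap F L x) = j0 x := by
  let : Algebra F (AlgebraicClosure W) :=
    ((algebraMap W (AlgebraicClosure W)).comp j0).toAlgebra
  let J : L →ₐ[F] AlgebraicClosure W := IsAlgClosed.lift
  have hJ : ∀ x, (J : L →+* AlgebraicClosure W) (algebraMap F L x) =
      algebraMap W (AlgebraicClosure W) (j0 x) := fun x => J.commutes x
  have hmem : ∀ x : L, (J : L →+* AlgebraicClosure W) x ∈
      (algebraMap W (AlgebraicClosure W)).fieldRange := by
    intro x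
    have hx : x ∈ IntermediateField.adjoin F S := hS ▸ IntermediateField.mem_top
    induction hx using IntermediateField.adjoin_induction with
    | mem x hx => exact h _ hJ x hx
    | algebraMap x => exact ⟨j0 x, (hJ x).symm⟩
    | add x y _ _ hx hy => rw [map_add]; exact add_mem hx hy
    | inv x _ hx => rw [map_inv₀]; exact inv_mem hx
    | mul x y _ _ hx hy => rw [map_mul]; exact mul_mem hx hy
  choose f hf using hmem
  have hi := (algebraMap W (AlgebraicClosure W)).injective
  refine ⟨{ toFun := f
            map_one' := hi (by rw [hf, map_one, map_one])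
            map_mul' := fun x y => hi (by rw [hf, map_mul, map_mul, hf, hf])
            map_zero' := hi (by rw [hf, map_zero, map_zero])
            map_add' := fun x y => hi (by rw [hf, map_add, map_add, hf, hf]) },
    fun x => hi ((hf _).trans (hJ x))⟩

/-- A faithful action of a group of order at least the degree identifies the Galois group. -/
theorem galois_of_action {K B H : Type} [Field K] [Field B] [Algebra K B] [FiniteDimensional K B]
    [Group H] [Finite H] (ρ : H →* (B ≃ₐ[K] B)) (hρ : Function.Injective ρ)
    (hc : Module.finrank K B ≤ Nat.card H) : IsGalois K B ∧ Function.Bijective ρ := by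
  have h1 : Nat.card (B ≃ₐ[K] B) ≤ Module.finrank K B := by
    rw [Nat.card_eq_fintype_card]
    exact AlgEquiv.card_le
  have h2 := Nat.card_le_card_of_injective ρ hρ
  exact ⟨IsGalois.of_card_aut_eq_finrank K B (le_antisymm h1 (hc.trans h2)),
    hρ.bijective_of_nat_card_le (h1.trans hc)⟩

/-- A reduced finite algebra over a field without nontrivial idempotents is a field. -/
theorem isField_of_reduced {K B : Type} [Field K] [CommRing B] [Algebra K B] [Module.Finite K B]
    [Nontrivial B] [IsReduced B] (h : ∀ x : B, x * x = x → x = 0 ∨ x = 1) : IsField B := by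
  have : IsArtinianRing B := IsArtinianRing.of_finite K B
  refine ⟨exists_pair_ne B, mul_comm, fun {x} hx => ?_⟩
  obtain ⟨n, y, hy⟩ := IsArtinian.exists_pow_succ_smul_dvd x (1 : B)
  rw [smul_eq_mul, smul_eq_mul, mul_one, Nat.succ_eq_add_one] at hy
  have h1 : x * (x * y - 1) = 0 := IsReduced.eq_zero _ ⟨n + 1, by
    rw [mul_pow, pow_succ (x * y - 1), pow_succ x]
    linear_combination (x * (x * y - 1) ^ n) * hy⟩
  rcases h (x * y) (by linear_combination y * h1) with h2 | h2
  · exact absurd (by linear_combination x * h2 - h1) hx
  · exact ⟨y, h2⟩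

end Pool.Agent.Adm
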