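import Pool.Agent.Adm.H1
import Pool.Agent.Adm.GA0

/-! Galois theoretic tools. -/

namespace Pool.Agent.Adm

open scoped OnePoint

variable {k G : Type} [Field k] [Group G]

/-- From a chart to monodromy. -/
theorem Cover.exists_mono_of_chart (c : Cover k G) (a : OnePoint k) (e : ℕ) (he : 0 < e) (ζ : k)
    (hζ : IsPrimitiveRoot ζ e) (j : c.L →+* LaurentSeries k)
    (hC : ∀ x : k, j (algebraMap (RatFunc k) c.L (RatFunc.C x)) = HahnSeries.C x)
    (hX : j (algebraMap (RatFunc k) c.L RatFunc.X) = expand a e) :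
    ∃ σ : c.L ≃ₐ[RatFunc k] c.L, c.Mono a e ζ (c.ι σ) ∧
      ∀ x, j (σ x) = scL ζ (hζ.ne_zero he.ne') (j x) := by
  have hr : (scL ζ (hζ.ne_zero he.ne')).comp (j.comp (algebraMap (RatFunc k) c.L)) =
      j.comp (algebraMap (RatFunc k) c.L) := by
    apply ratFunc_hom_ext
    · intro x
      simp only [RingHom.comp_apply, hC, scL_C]
    · simp only [RingHom.comp_apply, hX]
      exact scL_expand a e ζ _ hζ.pow_eq_one
  obtain ⟨σ, hσ⟩ := exists_aut_of_normal (F := RatFunc k) j ((scL ζ (hζ.ne_zero he.ne')).comp j)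
    (fun x => DFunLike.congr_fun hr x)
  exact ⟨σ, Cover.RMono.mono he hζ ⟨j, hC, hX, σ, rfl, hσ⟩, hσ⟩

/-- The trivial covering. -/
theorem exists_trivial_cover (k G : Type) [Field k] [Group G] :
    ∃ c : Cover k G, c.ι.range = ⊥ ∧
      ∀ (a : OnePoint k) (e : ℕ) (ζ : k), 0 < e → IsPrimitiveRoot ζ e → c.Mono a e ζ 1 := by
  let c : Cover k G := { L := RatFunc k, ι := 1 }
  refine ⟨c, MonoidHom.range_one, fun a e ζ he hζ => ?_⟩
  obtain ⟨j, h1, h2⟩ := exists_chart a e he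
  obtain ⟨σ, h, -⟩ := c.exists_mono_of_chart a e he ζ hζ j h1 h2
  exact h

/-- Rescaling the local parameter. -/
theorem Cover.RMono.mono_of_scaled [IsAlgClosed k] {c : Cover k G} {e : ℕ} {ζ : k} {g : G}
    (he : 0 < e) (hζ : IsPrimitiveRoot ζ e) (x s : k) (hs : s ≠ 0)
    (h : c.RMono HahnSeries.C (HahnSeries.C x + HahnSeries.single (e : ℤ) s)
      (scL ζ (hζ.ne_zero he.ne')) g) : c.Mono (x : OnePoint k) e ζ g := by
  obtain ⟨r, hr⟩ := IsAlgClosed.exists_pow_nat_eq s⁻¹ he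
  have hr0 : r ≠ 0 := by
    rintro rfl
    rw [zero_pow he.ne'] at hr
    exact inv_ne_zero hs hr.symm
  have h2 := h.comp (scL r hr0) (scL ζ (hζ.ne_zero he.ne')) (fun y => by
    rw [scL_scL, scL_scL]
    simp only [mul_comm])
  have h3 : (scL r hr0).comp HahnSeries.C = HahnSeries.C := by
    exact RingHom.ext fun y => scL_C r hr0 y
  have h4 : scL r hr0 (HahnSeries.C x + HahnSeries.single (e : ℤ) s) =
      expand (x : OnePoint k) e := by
    rw [map_add, scL_C, scL_single, zpow_natCast, hr, inv_mul_cancel₀ hs]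
    rfl
  rw [h3, h4] at h2
  exact h2.mono he hζ

theorem Cover.RMono.mono_infty_of_scaled [IsAlgClosed k] {c : Cover k G} {e : ℕ} {ζ : k} {g : G}
    (he : 0 < e) (hζ : IsPrimitiveRoot ζ e) (s : k) (hs : s ≠ 0)
    (h : c.RMono HahnSeries.C (HahnSeries.single (-(e : ℤ)) s)
      (scL ζ (hζ.ne_zero he.ne')) g) : c.Mono ∞ e ζ g := by
  obtain ⟨r, hr⟩ := IsAlgClosed.exists_pow_nat_eq s he
  have hr0 : r ≠ 0 := by
    rintro rfl
    rw [zero_pow he.ne'] at hr
    exact hs hr.symm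
  have h2 := h.comp (scL r hr0) (scL ζ (hζ.ne_zero he.ne')) (fun y => by
    rw [scL_scL, scL_scL]
    simp only [mul_comm])
  have h3 : (scL r hr0).comp HahnSeries.C = HahnSeries.C := by
    exact RingHom.ext fun y => scL_C r hr0 y
  have h4 : scL r hr0 (HahnSeries.single (-(e : ℤ)) s) = expand (∞ : OnePoint k) e := by
    rw [scL_single, zpow_neg, zpow_natCast, hr, inv_mul_cancel₀ hs]
    rfl
  rw [h3, h4] at h2
  exact h2.mono he hζ

end Pool.Agent.Adm
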