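import Pool.Agent.Adm.EX1
import Pool.Agent.Adm.EX2
import Pool.Agent.Adm.GA

/-! Existence of tame affine coverings with prescribed labels. -/

namespace Pool.Agent.Adm

open scoped OnePoint
open Polynomial

variable {k F : Type} [Field k] [IsAlgClosed k] [Field F] [Fintype F]

/-- c is a tame affine covering whose labels are the root multiplicities of f. -/
def AffLab (θ : F →+* k) (c : Cover k (Aff F)) (f : k[X]) : Prop :=
  (∀ (a ζ : k), IsPrimitiveRoot ζ (Fintype.card F - 1) →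
    ∃ g, c.Mono (a : OnePoint k) (Fintype.card F - 1) ζ g ∧
      θ g.u = ζ ^ (f.rootMultiplicity a : ℤ)) ∧
  ∀ ζ : k, IsPrimitiveRoot ζ (Fintype.card F - 1) →
    ∃ g, c.Mono ∞ (Fintype.card F - 1) ζ g ∧ θ g.u = ζ ^ (-(f.natDegree : ℤ))

theorem local_EX (θ : F →+* k) (c : Cover k (Aff F)) (y w : c.L) (f h : RatFunc k) (hf : f ≠ 0)
    (hy : y ^ (Fintype.card F - 1) = algebraMap (RatFunc k) c.L f)
    (hw : w ^ Fintype.card F - w = algebraMap (RatFunc k) c.L h * y)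
    (hS : IntermediateField.adjoin (RatFunc k) {y, w} = ⊤)
    (hσ : ∀ σ : c.L ≃ₐ[RatFunc k] c.L,
      σ y = algebraMap (RatFunc k) c.L (RatFunc.C (θ (c.ι σ).u)) * y)
    (a : OnePoint k) (j0 : RatFunc k →+* LaurentSeries k)
    (hC : ∀ x, j0 (RatFunc.C x) = HahnSeries.C x)
    (hX : j0 RatFunc.X = expand a (Fintype.card F - 1)) (N : ℤ)
    (hN : (j0 f).order = ((Fintype.card F - 1 : ℕ) : ℤ) * N)
    (hW : ∀ y1 : LaurentSeries k, y1 ^ (Fintype.card F - 1) = j0 f → y1.order = N →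
      ∃ W : LaurentSeries k, W ^ Fintype.card F - W = j0 h * y1)
    (ζ : k) (hζ : IsPrimitiveRoot ζ (Fintype.card F - 1)) :
    ∃ g, c.Mono a (Fintype.card F - 1) ζ g ∧ θ g.u = ζ ^ N := by
  have hq : 1 < Fintype.card F := Fintype.one_lt_card
  have hm : 0 < Fintype.card F - 1 := by omega
  have hf0 : j0 f ≠ 0 := (map_ne_zero j0).2 hf
  have hord : ∀ y1 : LaurentSeries k, y1 ^ (Fintype.card F - 1) = j0 f → y1.order = N := by
    intro y1 h1
    have h2 := HahnSeries.order_pow y1 (Fintype.card F - 1)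
    rw [h1, hN, nsmul_eq_mul] at h2
    exact (mul_left_cancel₀ (by exact_mod_cast hm.ne') h2).symm
  obtain ⟨y0, hy0⟩ := exists_pow_eq (Fintype.card F - 1) (card_sub_one_cast_ne_zero θ) (j0 f)
    ⟨N, hN⟩
  have hy00 : y0 ≠ 0 := by
    rintro rfl
    rw [zero_pow hm.ne'] at hy0
    exact hf0 hy0.symm
  obtain ⟨j, hj⟩ := exists_extension j0 {y, w} hS (fun J hJ => by
    set ι := algebraMap (LaurentSeries k) (AlgebraicClosure (LaurentSeries k)) with hι
    have hinj : Function.Injective ι := ι.injective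
    have h1 : J y ^ (Fintype.card F - 1) = ι (j0 f) := by rw [← map_pow, hy, hJ]
    have h2 : ι y0 ≠ 0 := (map_ne_zero ι).2 hy00
    obtain ⟨u, hu⟩ := exists_unit_of_pow_card_sub_one (ι.comp (HahnSeries.C.comp θ))
      (J y / ι y0) (by
        rw [div_pow, h1, ← map_pow, hy0]
        exact div_self ((map_ne_zero ι).2 hf0))
    have h3 : J y = ι (HahnSeries.C (θ u) * y0) := by
      rw [map_mul]
      exact ((eq_div_iff h2).1 hu).symm
    have h4 : (HahnSeries.C (θ u) * y0) ^ (Fintype.card F - 1) = j0 f := by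
      apply hinj
      rw [map_pow, ← h3, h1]
    obtain ⟨W, hW1⟩ := hW _ h4 (hord _ h4)
    obtain ⟨b, hb⟩ := exists_eq_of_pow_card (ι.comp (HahnSeries.C.comp θ)) (J w - ι W) (by
      rw [sub_pow_card_of_hom (ι.comp (HahnSeries.C.comp θ))]
      have h5 : J w ^ Fintype.card F - J w = ι W ^ Fintype.card F - ι W := by
        rw [← map_pow, ← map_sub, hw, map_mul, hJ, h3, ← map_mul, ← hW1, map_sub, map_pow]
      linear_combination h5)
    intro s hs
    rcases hs with rfl | rfl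
    · exact ⟨_, h3.symm⟩
    · refine ⟨HahnSeries.C (θ b) + W, ?_⟩
      rw [map_add]
      exact (eq_sub_iff_add_eq.1 hb))
  obtain ⟨σ, h1, h2⟩ := c.exists_mono_of_chart a _ hm ζ hζ j (fun x => by rw [hj, hC])
    (by rw [hj, hX])
  have h3 : j y ^ (Fintype.card F - 1) = j0 f := by rw [← map_pow, hy, hj]
  have h4 : j y ≠ 0 := by
    intro h0
    rw [h0, zero_pow hm.ne'] at h3
    exact hf0 h3.symm
  refine ⟨c.ι σ, h1, ?_⟩
  rw [← hord _ h3]
  apply eigen_eq_zpow ζ (hζ.ne_zero hm.ne') (j y) h4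
  rw [← h2, hσ, map_mul, hj, hC]

omit [IsAlgClosed k] in
theorem reg_of_order_EX {x : LaurentSeries k} (hx : 0 ≤ x.order) : Reg x := fun _ hn =>
  HahnSeries.coeff_eq_zero_of_lt_order (lt_of_lt_of_le hn hx)

omit [IsAlgClosed k] in
theorem fix_EX (θ : F →+* k) (c : Cover k (Aff F)) (y w : c.L) (f h : RatFunc k) (hf : f ≠ 0)
    (hy : y ^ (Fintype.card F - 1) = algebraMap (RatFunc k) c.L f)
    (hw : w ^ Fintype.card F - w = algebraMap (RatFunc k) c.L h * y)
    (hσ : ∀ σ : c.L ≃ₐ[RatFunc k] c.L,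
      σ y = algebraMap (RatFunc k) c.L (RatFunc.C (θ (c.ι σ).u)) * y)
    (hσ' : ∀ σ : c.L ≃ₐ[RatFunc k] c.L,
      σ w = algebraMap (RatFunc k) c.L (RatFunc.C (θ (c.ι σ).u)) * w +
        algebraMap (RatFunc k) c.L (RatFunc.C (θ (c.ι σ).b)))
    (hfix : Aff.HasFix c.ι.range) : ∃ r : RatFunc k, r ^ Fintype.card F * f - r = h := by
  have hq : 1 < Fintype.card F := Fintype.one_lt_card
  have hm : 0 < Fintype.card F - 1 := by omega
  obtain ⟨β, hβ⟩ := hfix
  set τ : F →+* c.L := (algebraMap (RatFunc k) c.L).comp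
    ((RatFunc.C : k →+* RatFunc k).comp θ) with hτ
  have hτ1 : ∀ x, algebraMap (RatFunc k) c.L (RatFunc.C (θ x)) = τ x := fun _ => rfl
  have hy0 : y ≠ 0 := by
    rintro rfl
    rw [zero_pow hm.ne'] at hy
    exact (map_ne_zero (algebraMap (RatFunc k) c.L)).2 hf hy.symm
  have h1 : ∀ σ : c.L ≃ₐ[RatFunc k] c.L, σ ((w - τ β) / y) = (w - τ β) / y := by
    intro σ
    have h2 : (c.ι σ).Fixes β := hβ _ ⟨σ, rfl⟩
    have h3 : τ (c.ι σ).u * τ β + τ (c.ι σ).b = τ β := by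
      rw [← map_mul, ← map_add, h2]
    have h4 : τ (c.ι σ).u ≠ 0 := (map_ne_zero τ).2 (c.ι σ).u.ne_zero
    have h5 : σ (τ β) = τ β := by rw [← hτ1, AlgEquiv.commutes]
    rw [map_div₀, map_sub, hσ, hσ', h5, hτ1, hτ1, div_eq_div_iff (mul_ne_zero h4 hy0) hy0]
    linear_combination y * h3
  obtain ⟨r, hr⟩ := (IsGalois.mem_bot_iff_fixed (F := RatFunc k) _).2 h1
  have hr' : algebraMap (RatFunc k) c.L r * y = w - τ β := (eq_div_iff hy0).1 hr
  refine ⟨r, (algebraMap (RatFunc k) c.L).injective ?_⟩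
  rw [map_sub, map_mul, map_pow, ← hy]
  apply mul_right_cancel₀ hy0
  have h6 : y ^ Fintype.card F = y ^ (Fintype.card F - 1) * y := by
    rw [← pow_succ, Nat.sub_add_cancel hq.le]
  have h7 : τ β ^ Fintype.card F = τ β := by rw [← map_pow, FiniteField.pow_card]
  have h8 : (algebraMap (RatFunc k) c.L r * y) ^ Fintype.card F = w ^ Fintype.card F - τ β := by
    rw [hr', sub_pow_card_of_hom τ, h7]
  rw [mul_pow, h6] at h8
  linear_combination h8 - hr' + hw

theorem exists_affLab_of_sol {J : OnePoint k → RatFunc k →+* LaurentSeries k} (hJ : IsCharts J)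
    (θ : F →+* k) (f h : k[X]) (hf : f ≠ 0) (V : LaurentSeries k)
    (hV : V ^ Fintype.card F * J ∞ (algebraMap k[X] (RatFunc k) f) - V =
      J ∞ (algebraMap k[X] (RatFunc k) h)) :
    ∃ c : Cover k (Aff F), AffLab θ c f ∧ (Aff.HasFix c.ι.range → ∃ r : RatFunc k,
      r ^ Fintype.card F * algebraMap k[X] (RatFunc k) f - r = algebraMap k[X] (RatFunc k) h) := by
  have hq : 1 < Fintype.card F := Fintype.one_lt_card
  have hm : 0 < Fintype.card F - 1 := by omega
  have hf' : algebraMap k[X] (RatFunc k) f ≠ 0 := by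
    rwa [Ne, IsFractionRing.to_map_eq_zero_iff]
  obtain ⟨c, y, w, hy, hw, hS, hσ, hσ'⟩ := exists_affine_ext θ _ (algebraMap k[X] (RatFunc k) h) hf'
  have hC : ∀ a x, ((powL _ hm).comp (J a)) (RatFunc.C x) = HahnSeries.C x := fun a x => by
    rw [RingHom.comp_apply, (hJ a).1, powL_C]
  have hX : ∀ a, ((powL _ hm).comp (J a)) RatFunc.X = expand a (Fintype.card F - 1) := fun a => by
    rw [RingHom.comp_apply, (hJ a).2, powL_expand, mul_one]
  refine ⟨c, ⟨fun a ζ hζ => ?_, fun ζ hζ => ?_⟩, fix_EX θ c y w _ _ hf' hy hw hσ hσ'⟩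
  · refine local_EX θ c y w _ _ hf' hy hw hS hσ a _ (hC a) (hX a) _ ?_ (fun y1 _ h2 => ?_) ζ hζ
    · rw [hom_algebraMap _ _ _ (hC a) (hX a), order_eval₂_expand_coe a _ hm f hf]
    · apply exists_as_root _ hq (card_cast_eq_zero θ)
      refine Reg.mul (reg_of_order_EX ?_) (reg_of_order_EX (by rw [h2]; positivity))
      rcases eq_or_ne h 0 with rfl | hh
      · simp
      · rw [hom_algebraMap _ _ _ (hC a) (hX a), order_eval₂_expand_coe a _ hm h hh]
        positivity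
  · refine local_EX θ c y w _ _ hf' hy hw hS hσ ∞ _ (hC ∞) (hX ∞) _ ?_ (fun y1 h1 _ => ?_) ζ hζ
    · rw [hom_algebraMap _ _ _ (hC ∞) (hX ∞), order_eval₂_expand_infty _ hm f hf, mul_neg]
    · refine ⟨powL _ hm V * y1, ?_⟩
      have h6 : y1 ^ Fintype.card F = y1 ^ (Fintype.card F - 1) * y1 := by
        rw [← pow_succ, Nat.sub_add_cancel hq.le]
      rw [RingHom.comp_apply] at h1
      rw [RingHom.comp_apply, ← hV, map_sub, map_mul, map_pow, mul_pow, h6, h1]
      ring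

theorem exists_affLab (θ : F →+* k) (f : k[X]) (hf : f ≠ 0) :
    ∃ c : Cover k (Aff F), AffLab θ c f := by
  obtain ⟨J, hJ⟩ := exists_isCharts k
  have hq : 1 < Fintype.card F := Fintype.one_lt_card
  obtain ⟨c, h1, -⟩ := exists_affLab_of_sol hJ θ f 0 hf 0 (by
    rw [zero_pow (by omega), zero_mul, sub_zero, map_zero, map_zero])
  exact ⟨c, h1⟩

theorem exists_affLab_noFix (θ : F →+* k) (f : k[X]) (hf : f.Monic)
    (h1 : Fintype.card F ≤ f.natDegree) (h2 : f.natDegree ≤ 2 * (Fintype.card F - 1))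
    (hκ : f.coeff (Fintype.card F - 1) ≠ 0)
    (hm : ∀ a : k, f.rootMultiplicity a < Fintype.card F - 1) :
    ∃ c : Cover k (Aff F), AffLab θ c f ∧ ¬ Aff.HasFix c.ι.range := by
  obtain ⟨J, hJ⟩ := exists_isCharts k
  obtain ⟨h, V, hh, hd, hV⟩ := hJ.exists_sol_infty θ f hf h1 h2 hκ
  obtain ⟨c, h3, h4⟩ := exists_affLab_of_sol hJ θ f h hf.ne_zero V hV
  refine ⟨c, h3, fun hfix => ?_⟩
  obtain ⟨r, hr⟩ := h4 hfix
  exact no_rational_sol _ Fintype.one_lt_card f h hf.ne_zero hh hd hm r hr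

end Pool.Agent.Adm
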