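import Pool.Agent.Adm.VF4

/-! Solutions at infinity and nonexistence of rational solutions. -/

namespace Pool.Agent.Adm

open scoped OnePoint
open Polynomial

variable {k F : Type} [Field k] [IsAlgClosed k] [Field F] [Fintype F]
  {J : OnePoint k → RatFunc k →+* LaurentSeries k}

theorem frob_EX1 {R : Type} [CommRing R] (ψ : F →+* R) (x y : R) :
    (x + y) ^ Fintype.card F = x ^ Fintype.card F + y ^ Fintype.card F := by
  obtain ⟨p, hp, n, hpr, hn⟩ := FiniteField.card' F
  obtain ⟨r, hr⟩ := exists_add_pow_prime_pow_eq hpr x y n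
  have : (p : R) = 0 := by rw [← map_natCast ψ, CharP.cast_eq_zero, map_zero]
  rw [hn, hr, this]
  ring

omit [IsAlgClosed k] in
theorem small_sol_EX1 (m : ℕ) (a B : PowerSeries k) (hB : PowerSeries.constantCoeff B = 0) :
    ∃ σ : PowerSeries k, σ - a * σ ^ (m + 2) = B := by
  have hm : (X ^ (m + 2) - (X ^ (m + 1) - C (a * B ^ (m + 1))) : (PowerSeries k)[X]).Monic := by
    refine monic_X_pow_sub ?_
    rw [degree_X_pow_sub_C (Nat.succ_pos m)]
    exact_mod_cast Nat.lt_succ_self _
  obtain ⟨Z, hZ, h1⟩ := HenselianRing.is_henselian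
    (I := Ideal.span {(PowerSeries.X : PowerSeries k)}) _ hm 1
    (by
      rw [Ideal.mem_span_singleton, PowerSeries.X_dvd_iff]
      simp [hB])
    (by
      have : (derivative (X ^ (m + 2) - (X ^ (m + 1) - C (a * B ^ (m + 1))) :
          (PowerSeries k)[X])).eval 1 = 1 := by
        simp only [derivative_sub, derivative_X_pow, derivative_C, eval_sub, eval_mul, eval_C,
          eval_pow, eval_X, one_pow, eval_zero]
        push_cast
        ring
      rw [this, map_one]
      exact isUnit_one)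
  rw [Ideal.mem_span_singleton, PowerSeries.X_dvd_iff, map_sub, map_one, sub_eq_zero] at h1
  have hu : IsUnit Z := by rw [PowerSeries.isUnit_iff_constantCoeff, h1]; exact isUnit_one
  obtain ⟨Y, hY⟩ := hu.exists_right_inv
  simp only [IsRoot, eval_sub, eval_pow, eval_X, eval_C] at hZ
  have h2 : Z ^ (m + 1) * Y ^ (m + 1) = 1 := by rw [← mul_pow, hY, one_pow]
  refine ⟨B * Y, ?_⟩
  linear_combination (-B * Y ^ (m + 2)) * hZ + (B * Z * Y - B * Y) * h2 + B * hY

theorem exists_ps_sol (θ : F →+* k) (a b : PowerSeries k) :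
    ∃ ρ : PowerSeries k, ρ - a * ρ ^ Fintype.card F = b := by
  have hq : 2 ≤ Fintype.card F := Fintype.one_lt_card
  obtain ⟨r, hr⟩ := IsSepClosed.exists_root_C_mul_X_pow_add_C_mul_X_add_C (n := Fintype.card F)
    (-PowerSeries.constantCoeff a) 1 (-PowerSeries.constantCoeff b)
    (by rw [← map_natCast θ, FiniteField.cast_card_eq_zero, map_zero]) hq one_ne_zero
  obtain ⟨σ, hσ⟩ := small_sol_EX1 (Fintype.card F - 2) a
    (b - PowerSeries.C r + a * PowerSeries.C r ^ Fintype.card F) (by
      simp only [map_add, map_sub, map_mul, map_pow, PowerSeries.constantCoeff_C]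
      linear_combination -hr)
  rw [Nat.sub_add_cancel hq] at hσ
  refine ⟨PowerSeries.C r + σ, ?_⟩
  rw [frob_EX1 (PowerSeries.C.comp θ)]
  linear_combination hσ

omit [IsAlgClosed k] in
theorem Reg.ps_EX1 {x : LaurentSeries k} (hx : Reg x) :
    ∃ ρ : PowerSeries k, HahnSeries.ofPowerSeries ℤ k ρ = x := by
  refine ⟨PowerSeries.mk fun n => x.coeff n, ?_⟩
  ext n
  rw [PowerSeries.coeff_coe]
  split_ifs with h
  · exact (hx n h).symm
  · rw [PowerSeries.coeff_mk, Int.natAbs_of_nonneg (not_lt.1 h)]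

omit [IsAlgClosed k] in
theorem coeff_iter_EX1 (q : ℕ) : ∀ (f : k[X]) (n : ℕ), (divX^[q] f).coeff n = f.coeff (n + q) := by
  induction q with
  | zero => intro f n; rfl
  | succ q ih => intro f n; rw [Function.iterate_succ_apply, ih, coeff_divX, add_assoc]

theorem IsCharts.exists_sol_infty (hJ : IsCharts J) (θ : F →+* k) (f : k[X]) (hf : f.Monic)
    (h1 : Fintype.card F ≤ f.natDegree) (h2 : f.natDegree ≤ 2 * (Fintype.card F - 1))
    (hκ : f.coeff (Fintype.card F - 1) ≠ 0) :
    ∃ (h : k[X]) (V : LaurentSeries k), h ≠ 0 ∧ h.natDegree < f.natDegree ∧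
      V ^ Fintype.card F * J ∞ (algebraMap k[X] (RatFunc k) f) - V =
        J ∞ (algebraMap k[X] (RatFunc k) h) := by
  have hq : 2 ≤ Fintype.card F := Fintype.one_lt_card
  have hs := exists_ps_sol θ
  have hfr := frob_EX1 (R := LaurentSeries k) (HahnSeries.C.comp θ)
  obtain ⟨m, hm⟩ : ∃ m, Fintype.card F = m + 2 := ⟨_, (Nat.sub_add_cancel hq).symm⟩
  rw [hm] at h1 h2 hκ hs hfr ⊢
  obtain ⟨c, hc⟩ := IsAlgClosed.exists_pow_nat_eq (f.coeff (m + 1))⁻¹ (Nat.succ_pos m)
  have hκ' : f.coeff (m + 1) ≠ 0 := hκ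
  have hc0 : c ≠ 0 := by
    rintro rfl
    exact inv_ne_zero hκ' (by rw [← hc]; simp)
  set h : k[X] := C (c ^ (m + 2)) * divX^[m + 2] f with hh
  have hco : ∀ n, h.coeff n = c ^ (m + 2) * f.coeff (n + (m + 2)) := fun n => by
    rw [hh, coeff_C_mul, coeff_iter_EX1]
  set x := J ∞ (algebraMap k[X] (RatFunc k) f) with hx
  set y := J ∞ (algebraMap k[X] (RatFunc k) h) with hy
  obtain ⟨a, ha⟩ := Reg.ps_EX1 (x := HahnSeries.single (2 * (m + 1) : ℤ) 1 * x) (fun n hn => by
    rw [HahnSeries.coeff_single_mul, hx, hJ.coeff_infty, if_pos (by omega),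
      coeff_eq_zero_of_natDegree_lt (by omega), mul_zero])
  obtain ⟨b, hb⟩ := Reg.ps_EX1 (x := HahnSeries.single (-2 : ℤ) 1 *
      (HahnSeries.single (m + 2 : ℤ) (c ^ (m + 2)) * x - y - HahnSeries.single (1 : ℤ) c))
    (fun n hn => by
      rw [HahnSeries.coeff_single_mul, HahnSeries.coeff_sub, HahnSeries.coeff_sub,
        HahnSeries.coeff_single_mul, hx, hy, hJ.coeff_infty, hJ.coeff_infty, if_pos (by omega),
        one_mul]
      by_cases h3 : n = -1
      · subst h3
        have e : (-(-1 - -2 - (m + 2) : ℤ)).toNat = m + 1 := by omega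
        rw [if_neg (by omega), e, show (-1 - -2 : ℤ) = 1 by norm_num, HahnSeries.coeff_single_same,
          pow_succ, hc]
        field_simp
        ring
      · have e : (-(n - -2 - (m + 2) : ℤ)).toNat = (-(n - -2)).toNat + (m + 2) := by omega
        rw [if_pos (by omega), e, hco, HahnSeries.coeff_single_of_ne (by omega)]
        ring)
  obtain ⟨ρ, hρ⟩ := hs a b
  have hρ' := congrArg (HahnSeries.ofPowerSeries ℤ k) hρ
  rw [map_sub, map_mul, map_pow, ha, hb] at hρ'
  refine ⟨h, HahnSeries.single (1 : ℤ) c +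
    HahnSeries.single (2 : ℤ) 1 * HahnSeries.ofPowerSeries ℤ k ρ, fun h0 => ?_, ?_, ?_⟩
  · have := hco (f.natDegree - (m + 2))
    rw [h0, Nat.sub_add_cancel h1, coeff_natDegree, hf.leadingCoeff, coeff_zero, mul_one] at this
    exact pow_ne_zero _ hc0 this.symm
  · have : h.natDegree ≤ f.natDegree - 1 := natDegree_le_iff_coeff_eq_zero.2 (fun N hN => by
      rw [hco, coeff_eq_zero_of_natDegree_lt (by omega), mul_zero])
    omega
  · have e1 : (HahnSeries.single (2 : ℤ) (1 : k)) * HahnSeries.single (-2 : ℤ) 1 = 1 := by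
      rw [HahnSeries.single_mul_single]; simp
    have e2 : (HahnSeries.single (2 : ℤ) (1 : k)) ^ (m + 2) =
        HahnSeries.single (2 : ℤ) 1 * HahnSeries.single (2 * (m + 1) : ℤ) 1 := by
      rw [HahnSeries.single_mul_single, HahnSeries.single_pow, one_pow, one_mul]
      congr 2
      simp only [nsmul_eq_mul]
      push_cast
      ring
    have e3 : (HahnSeries.single (1 : ℤ) c) ^ (m + 2) =
        HahnSeries.single (m + 2 : ℤ) (c ^ (m + 2)) := by
      rw [HahnSeries.single_pow]
      congr 2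
      simp
    rw [hfr, mul_pow, e2, e3]
    linear_combination (-HahnSeries.single (2 : ℤ) (1 : k)) * hρ' -
      (HahnSeries.single (m + 2 : ℤ) (c ^ (m + 2)) * x - y - HahnSeries.single (1 : ℤ) c) * e1

theorem no_rational_sol (q : ℕ) (hq : 1 < q) (f h : k[X]) (hf : f ≠ 0) (hh : h ≠ 0)
    (hd : h.natDegree < f.natDegree) (hm : ∀ a : k, f.rootMultiplicity a < q - 1)
    (r : RatFunc k) :
    r ^ q * algebraMap k[X] (RatFunc k) f - r ≠ algebraMap k[X] (RatFunc k) h := by
  intro he
  obtain ⟨m, rfl⟩ : ∃ m, q = m + 1 := ⟨q - 1, by omega⟩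
  have hD : algebraMap k[X] (RatFunc k) r.denom ≠ 0 :=
    (map_ne_zero_iff _ (RatFunc.algebraMap_injective k)).2 r.denom_ne_zero
  have hr : algebraMap k[X] (RatFunc k) r.num = r * algebraMap k[X] (RatFunc k) r.denom :=
    (div_eq_iff hD).1 r.num_div_denom
  have key : r.num ^ (m + 1) * f - r.num * r.denom ^ m = h * r.denom ^ (m + 1) := by
    apply RatFunc.algebraMap_injective k
    simp only [map_sub, map_mul, map_pow, hr, ← he]
    ring
  have hdv : r.denom ^ m ∣ f := by
    refine (r.isCoprime_num_denom.symm.pow (m := m) (n := m + 1)).dvd_of_dvd_mul_left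
      ⟨r.num + h * r.denom, ?_⟩
    linear_combination key
  have h1 : r.denom = 1 := by
    by_contra h1
    obtain ⟨a, ha⟩ := IsAlgClosed.exists_root r.denom
      (fun h2 => h1 (r.monic_denom.degree_le_zero_iff_eq_one.1 h2.le))
    have := (le_rootMultiplicity_iff hf).2 ((pow_dvd_pow_of_dvd (dvd_iff_isRoot.2 ha) m).trans hdv)
    exact absurd (hm a) (not_lt.2 this)
  rw [h1, one_pow, one_pow, mul_one, mul_one] at key
  have hN : r.num ≠ 0 := fun h0 => hh (by rw [← key, h0]; simp)
  have h2 := natDegree_add_le h r.num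
  rw [← sub_eq_iff_eq_add.1 key, natDegree_mul (pow_ne_zero _ hN) hf, natDegree_pow] at h2
  have h3 : r.num.natDegree ≤ (m + 1) * r.num.natDegree := Nat.le_mul_of_pos_left _ (by omega)
  omega

end Pool.Agent.Adm
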