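import Pool.Agent.Adm.FC1

/-! A complete algebraically closed nonarchimedean field over a trivially valued field. -/

namespace Pool.Agent.Adm

open UniformSpace

/-- The property transported along the chain of fields. -/
def Good_FC (k C : Type) [Field k] [NormedField C] : Prop :=
  ∃ φ : k →+* C, (∀ x, ‖φ x‖ ≤ 1) ∧ ∃ t : C, t ≠ 0 ∧ ‖t‖ < 1

theorem Good_FC.map_FC {k C D : Type} [Field k] [NormedField C] [NormedField D]
    (h : Good_FC k C) (ψ : C →+* D) (hψ : ∀ x, ‖ψ x‖ = ‖x‖) : Good_FC k D := by
  obtain ⟨φ, h1, t, ht0, ht1⟩ := h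
  refine ⟨ψ.comp φ, fun x => ?_, ψ t, (map_ne_zero ψ).2 ht0, ?_⟩
  · rw [RingHom.comp_apply, hψ]; exact h1 x
  · rw [hψ]; exact ht1

theorem base_FC (k : Type) [Field k] :
    ∃ (K : Type) (_ : NormedField K) (_ : IsUltrametricDist K), Good_FC k K := by
  have he : (1 : NNReal) < 2 := by norm_num
  let v := (Polynomial.idealX k).valuation (RatFunc k)
  let g := WithZeroMulInt.toNNReal (e := 2) (ne_zero_of_lt he)
  have hg : StrictMono g := WithZeroMulInt.toNNReal_strictMono he
  have hmax : ∀ x y : RatFunc k, (g (v (x + y)) : ℝ) ≤ max (g (v x) : ℝ) (g (v y) : ℝ) := by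
    intro x y
    have h := v.map_add x y
    rcases le_total (v x) (v y) with h1 | h1
    · rw [max_eq_right h1] at h
      exact le_max_of_le_right (by exact_mod_cast hg.monotone h)
    · rw [max_eq_left h1] at h
      exact le_max_of_le_left (by exact_mod_cast hg.monotone h)
  let f : AbsoluteValue (RatFunc k) ℝ :=
    { toFun := fun x => (g (v x) : ℝ)
      map_mul' := fun x y => by simp only [map_mul, NNReal.coe_mul]
      nonneg' := fun x => NNReal.coe_nonneg _
      eq_zero' := fun x => by
        simp only [NNReal.coe_eq_zero, map_eq_zero]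
      add_le' := fun x y => by
        refine (hmax x y).trans (max_le ?_ ?_)
        · exact le_add_of_nonneg_right (NNReal.coe_nonneg _)
        · exact le_add_of_nonneg_left (NNReal.coe_nonneg _) }
  let _ : NormedField (RatFunc k) := f.toNormedField
  have hn : ∀ x : RatFunc k, ‖x‖ = (g (v x) : ℝ) := fun _ => rfl
  refine ⟨RatFunc k, inferInstance,
    IsUltrametricDist.isUltrametricDist_of_isNonarchimedean_norm hmax,
    (algebraMap (Polynomial k) (RatFunc k)).comp Polynomial.C, fun x => ?_,
    algebraMap (Polynomial k) (RatFunc k) Polynomial.X, ?_, ?_⟩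
  · rw [hn, RingHom.comp_apply]
    have h : v (algebraMap (Polynomial k) (RatFunc k) (Polynomial.C x)) ≤ 1 :=
      IsDedekindDomain.HeightOneSpectrum.valuation_le_one _ _
    have h2 := hg.monotone h
    rw [map_one] at h2
    exact_mod_cast h2
  · exact (map_ne_zero_iff _ (IsFractionRing.injective _ _)).2 Polynomial.X_ne_zero
  · rw [hn]
    have h : v (algebraMap (Polynomial k) (RatFunc k) Polynomial.X) < 1 := by
      refine (IsDedekindDomain.HeightOneSpectrum.valuation_lt_one_iff_mem _ _).2 ?_
      rw [Polynomial.idealX_span]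
      exact Ideal.mem_span_singleton_self _
    have h2 := hg h
    rw [map_one] at h2
    exact_mod_cast h2

theorem ultra_completion_FC (K : Type) [NormedField K] [IsUltrametricDist K] :
    IsUltrametricDist (Completion K) := by
  refine IsUltrametricDist.isUltrametricDist_of_isNonarchimedean_norm fun x y => ?_
  refine Completion.induction_on₂ x y ?_ fun a b => ?_
  · exact isClosed_le (by fun_prop) (by fun_prop)
  · rw [← Completion.coe_add, Completion.norm_coe, Completion.norm_coe, Completion.norm_coe]
    exact IsUltrametricDist.norm_add_le_max a b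

theorem completion_FC (k K : Type) [Field k] [NormedField K] (h : Good_FC k K) :
    Good_FC k (Completion K) :=
  h.map_FC Completion.coeRingHom fun x => Completion.norm_coe x

theorem closure_FC (k L : Type) [Field k] [i : NormedField L] [IsUltrametricDist L]
    [CompleteSpace L] (h : Good_FC k L) :
    ∃ (Ω : Type) (_ : NormedField Ω) (_ : IsUltrametricDist Ω) (_ : IsAlgClosed Ω),
      Good_FC k Ω := by
  let _ : NontriviallyNormedField L :=
    { i with
      non_trivial := by
        obtain ⟨_, _, t, ht0, ht1⟩ := h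
        refine ⟨t⁻¹, ?_⟩
        rw [norm_inv]
        exact (one_lt_inv₀ (norm_pos_iff.2 ht0)).2 ht1 }
  let _ : NormedField (AlgebraicClosure L) := spectralNorm.normedField L (AlgebraicClosure L)
  have hna : ∀ x y : AlgebraicClosure L, ‖x + y‖ ≤ max ‖x‖ ‖y‖ := isNonarchimedean_spectralNorm
  have hφ : ∀ x, ‖algebraMap L (AlgebraicClosure L) x‖ = ‖x‖ := spectralNorm_extends
  exact ⟨AlgebraicClosure L, inferInstance,
    IsUltrametricDist.isUltrametricDist_of_isNonarchimedean_norm hna, inferInstance,
    h.map_FC (algebraMap L _) hφ⟩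

theorem exists_bigField (k : Type) [Field k] :
    ∃ (C : Type) (_ : NormedField C) (_ : CompleteSpace C) (_ : IsUltrametricDist C)
      (_ : IsAlgClosed C) (φ : k →+* C), (∀ x, ‖φ x‖ ≤ 1) ∧ ∃ t : C, t ≠ 0 ∧ ‖t‖ < 1 := by
  obtain ⟨K, _, _, h0⟩ := base_FC k
  have := ultra_completion_FC K
  obtain ⟨Ω, _, _, _, h1⟩ := closure_FC k (Completion K) (completion_FC k K h0)
  have := ultra_completion_FC Ω
  exact ⟨Completion Ω, inferInstance, inferInstance, inferInstance,
    isAlgClosed_of_dense (K := Ω) Completion.coeRingHom Completion.denseRange_coe,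
    completion_FC k Ω h1⟩

end Pool.Agent.Adm
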