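import Mathlib

/-! The completion of an algebraically closed field is algebraically closed. -/

namespace Pool.Agent.Adm

open Polynomial in
theorem aux_FC1 {K L : Type} [Field K] [IsAlgClosed K] [NontriviallyNormedField L]
    [CompleteSpace L] [IsUltrametricDist L] [Algebra K L] (hi : DenseRange (algebraMap K L)) :
    IsAlgClosed L := by
  refine IsAlgClosed.of_exists_root _ fun f fmon firr => ?_
  have h0 : f.natDegree ≠ 0 := (Irreducible.natDegree_pos firr).ne'
  let F := f.SplittingField
  let : NormedField F := spectralNorm.normedField L F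
  let : NormedAlgebra L F := spectralNorm.normedAlgebra L F
  obtain ⟨a, ha⟩ : ∃ a : F, f.aeval a = 0 :=
    ⟨_, (eval_map_algebraMap ..).symm.trans (eval_rootOfSplits (SplittingField.splits f)
      (by simpa using degree_ne_of_natDegree_ne h0))⟩
  obtain ⟨x, rfl⟩ : a ∈ Set.range (algebraMap L F) := by
    rw [← (algebraMap_isometry L F).isClosedEmbedding.isClosed_range.closure_eq,
      Metric.mem_closure_iff]
    intro δ hδ
    have hε : (δ / (max ‖a‖ 1)) ^ f.natDegree / (f.natDegree + 1) > 0 := by positivity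
    obtain ⟨g, gmon, gdeg, gcoeff⟩ :=
      exists_monic_and_natDegree_eq_and_norm_map_algebraMap_coeff_sub_lt hi fmon hε
    obtain ⟨b, hb, hab⟩ := exists_aroots_norm_sub_lt_of_norm_coeff_sub_lt
      hε ha fmon (gmon.map _) (gdeg ▸ (g.natDegree_map _)) gcoeff
      (by simpa [Polynomial.map_map] using (IsAlgClosed.splits g).map ((algebraMap L F).comp _))
    rw [aroots_def, Splits.roots_map ((IsAlgClosed.splits g).map _), Multiset.mem_map] at hb
    refine ⟨b, hb.imp fun _ h => h.2, ?_⟩
    rw [← Real.rpow_natCast, ← mul_comm_div, div_self (by positivity), one_mul,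
      ← Real.rpow_mul (by positivity), mul_inv_cancel₀ (by simpa using h0), Real.rpow_one,
      div_mul_cancel₀ _ (by positivity)] at hab
    rwa [dist_eq_norm]
  exact ⟨x, (algebraMap L F).injective (by
    rwa [← aeval_algebraMap_apply_eq_algebraMap_eval, map_zero])⟩

theorem isAlgClosed_of_dense {K L : Type} [Field K] [IsAlgClosed K] [NormedField L]
    [CompleteSpace L] [IsUltrametricDist L] (φ : K →+* L) (h : DenseRange φ) : IsAlgClosed L := by
  by_cases hL : ∃ x : L, x ≠ 0 ∧ ‖x‖ ≠ 1
  · exact @aux_FC1 K L _ _ (.ofNormNeOne hL) ‹_› ‹_› φ.toAlgebra h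
  refine IsAlgClosed.of_ringEquiv K L (RingEquiv.ofBijective φ ⟨φ.injective, fun y => ?_⟩)
  obtain ⟨k, hk⟩ := Metric.denseRange_iff.1 h y 1 one_pos
  exact ⟨k, by_contra fun e => hL ⟨_, sub_ne_zero.2 (Ne.symm e), (dist_eq_norm y _ ▸ hk).ne⟩⟩

end Pool.Agent.Adm
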