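import Mathlib

/-! Computation of the Hasse coefficient. -/

namespace Pool.Agent.Adm

open Polynomial

variable {k : Type} [Field k]

theorem coeff_prod_pred {ι : Type} [Fintype ι] (a : ι → k) (n : ι → ℕ) (D : ℕ)
    (hD : ∑ i, n i = D + 1) :
    (∏ j, (X - C (a j)) ^ n j : k[X]).coeff D = -∑ i, (n i : k) * a i := by
  have hm : ∀ j, ((X - C (a j)) ^ n j : k[X]).Monic := fun j => (monic_X_sub_C _).pow _
  have hd : (∏ j, (X - C (a j)) ^ n j : k[X]).natDegree = D + 1 := by
    rw [natDegree_prod_of_monic _ _ fun j _ => hm j, ← hD]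
    exact Finset.sum_congr rfl fun j _ => by rw [natDegree_pow, natDegree_X_sub_C, mul_one]
  have h := Monic.nextCoeff_prod Finset.univ (fun j => ((X - C (a j)) ^ n j : k[X]))
    fun j _ => hm j
  rw [nextCoeff_of_natDegree_pos (by omega), hd, Nat.add_sub_cancel] at h
  rw [h, ← Finset.sum_neg_distrib]
  exact Finset.sum_congr rfl fun j _ => by
    rw [(monic_X_sub_C _).nextCoeff_pow, nextCoeff_X_sub_C, nsmul_eq_mul, mul_neg]

theorem coeff_mul_X_sub_one_pow (p : ℕ) [Fact p.Prime] [CharP k p] (r : ℕ) (hr : 0 < r)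
    (g : k[X]) (hg : g.natDegree ≤ p ^ r) :
    ((X - C 1) ^ (p ^ r - 2) * g).coeff (p ^ r - 1) = g.derivative.eval 1 := by
  have h2 : 2 ≤ p ^ r := (Fact.out : p.Prime).two_le.trans (Nat.le_self_pow hr.ne' p)
  obtain ⟨m, hm⟩ : ∃ m, p ^ r = m + 2 := ⟨p ^ r - 2, by omega⟩
  have hq : ((X - C 1) ^ (m + 2) : k[X]) = X ^ (m + 2) - 1 := by
    rw [← hm, sub_pow_char_pow, map_one, one_pow]
  have hmo : ((X - C 1) ^ 2 : k[X]).Monic := (monic_X_sub_C _).pow _
  have hd2 : ((X - C 1) ^ 2 : k[X]).natDegree = 2 := by rw [natDegree_pow, natDegree_X_sub_C]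
  have hne : ((X - C 1) ^ 2 : k[X]) ≠ 1 := fun h => by rw [h, natDegree_one] at hd2; omega
  have e1 := modByMonic_add_div g ((X - C 1) ^ 2 : k[X])
  have e2 : (g %ₘ (X - C 1) ^ 2).natDegree ≤ 1 := by
    have := natDegree_modByMonic_lt g hmo hne
    omega
  have e3 : (g /ₘ (X - C 1) ^ 2).natDegree ≤ m := by
    rw [natDegree_divByMonic g hmo, hd2]; omega
  rw [eq_X_add_C_of_natDegree_le_one e2] at e1
  generalize (g %ₘ (X - C 1) ^ 2).coeff 1 = a at e1
  generalize (g %ₘ (X - C 1) ^ 2).coeff 0 = b at e1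
  generalize g /ₘ (X - C 1) ^ 2 = h at e1 e3
  have hdm : ((X - C 1) ^ m : k[X]).natDegree = m := by
    rw [natDegree_pow, natDegree_X_sub_C, mul_one]
  have c1 : ((X - C 1) ^ m : k[X]).coeff m = 1 := by
    have := ((monic_X_sub_C (1 : k)).pow m).coeff_natDegree
    rwa [hdm] at this
  have c2 : ((X - C 1) ^ m : k[X]).coeff (m + 1) = 0 := coeff_eq_zero_of_natDegree_lt (by omega)
  have c3 : h.coeff (m + 1) = 0 := coeff_eq_zero_of_natDegree_lt (by omega)
  have e4 : (X - C 1) ^ m * g = C a * ((X - C 1) ^ m * X) + C b * (X - C 1) ^ m +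
      (X ^ (m + 2) * h - h) := by
    rw [← e1]
    linear_combination h * hq
  rw [hm, Nat.add_sub_cancel, show m + 2 - 1 = m + 1 from rfl, e4, ← e1]
  simp only [coeff_add, coeff_sub, coeff_C_mul, coeff_mul_X, c1, c2, c3, coeff_X_pow_mul']
  simp [derivative_pow]

/-- The coefficient when the point 1 carries the label q - 2. -/
theorem coeff_prod_one (p : ℕ) [Fact p.Prime] [CharP k p] (r : ℕ) (hr : 0 < r) {ι : Type}
    [Fintype ι] [DecidableEq ι] (a : ι → k) (ha : Function.Injective a) (n : ι → ℕ) (i0 : ι)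
    (h1 : a i0 = 1) (hn : n i0 = p ^ r - 2) (hD : ∑ i ∈ Finset.univ.erase i0, n i ≤ p ^ r) :
    (∏ j, (X - C (a j)) ^ n j : k[X]).coeff (p ^ r - 1) = 0 ↔
      ∑ i ∈ Finset.univ.erase i0, (n i : k) / (1 - a i) = 0 := by
  have hne : ∀ i ∈ Finset.univ.erase i0, 1 - a i ≠ 0 := fun i hi h =>
    (Finset.mem_erase.1 hi).1 (ha (by rw [h1]; exact (sub_eq_zero.1 h).symm))
  have key : ∀ s : Finset ι, (∀ i ∈ s, 1 - a i ≠ 0) →
      (derivative (∏ j ∈ s, (X - C (a j)) ^ n j : k[X])).eval 1 =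
        (∏ j ∈ s, (1 - a j) ^ n j) * ∑ i ∈ s, (n i : k) / (1 - a i) := by
    intro s
    induction s using Finset.induction_on with
    | empty => simp
    | insert i s hi ih =>
      intro hs
      have h0 := hs i (Finset.mem_insert_self _ _)
      rw [Finset.prod_insert hi, Finset.prod_insert hi, Finset.sum_insert hi, derivative_mul,
        eval_add, eval_mul, eval_mul, ih fun j hj => hs j (Finset.mem_insert_of_mem hj),
        derivative_X_sub_C_pow]
      simp only [eval_prod, eval_pow, eval_sub, eval_X, eval_C, eval_mul]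
      rcases n i with _ | m
      · simp
      · rw [Nat.add_sub_cancel]
        field_simp
        ring
  have hdeg : (∏ j ∈ Finset.univ.erase i0, (X - C (a j)) ^ n j : k[X]).natDegree ≤ p ^ r := by
    rw [natDegree_prod_of_monic _ _ fun j _ => (monic_X_sub_C _).pow _]
    refine le_trans (le_of_eq (Finset.sum_congr rfl fun j _ => ?_)) hD
    rw [natDegree_pow, natDegree_X_sub_C, mul_one]
  rw [← Finset.mul_prod_erase _ _ (Finset.mem_univ i0), h1, hn,
    coeff_mul_X_sub_one_pow p r hr _ hdeg, key _ hne, mul_eq_zero, or_iff_right]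
  exact Finset.prod_ne_zero_iff.2 fun i hi => pow_ne_zero _ (hne i hi)

end Pool.Agent.Adm
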