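import Pool.Agent.Adm.VF
import Pool.Agent.Adm.CDefs
import Pool.Agent.Adm.Kap

/-! Affine quotients of the lower curve of each step have a fixed point. -/

namespace Pool.Agent.Adm

open scoped OnePoint
open Polynomial

variable {k F : Type} [Field k] [IsAlgClosed k] [Field F] [Fintype F]

theorem fix1 (θ : F →+* k) (a : Fin 6 → k) (ha : Function.Injective a) (n : Fin 6 → ℕ)
    (h2 : ∑ i, n i ≤ 2 * (Fintype.card F - 1))
    (hκ : (∏ j, (X - C (a j)) ^ n j : k[X]).coeff (Fintype.card F - 1) = 0) (N : Fin 7 → ℤ)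
    (hN : ∀ i : Fin 6, N i.castSucc = n i) : AllFix θ (A1 a) N := by
  intro G _ d ψ hA hl
  obtain ⟨c, hT, htop, hd, -⟩ := hA
  have h := (c.vertex θ ψ a ha n (S7 a) hT ?_ ?_).2.1 (Or.inr ⟨h2, hκ⟩)
  · rwa [htop, ← MonoidHom.range_eq_map] at h
  · intro x hx
    rcases hx with hx | ⟨i, hi⟩
    · exact absurd hx (OnePoint.coe_ne_infty x)
    · exact ⟨i, OnePoint.coe_injective hi⟩
  · intro i
    refine ⟨_, _, _, hd i, ?_⟩
    have := hl i.castSucc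
    rw [hN i] at this
    exact this

/-- One component with special points 0, 1, infinity. -/
theorem vertex2_Fix5 {G : Type} [Group G] (c : Cover k G) (θ : F →+* k) (ψ : G →* Aff F)
    (n0 n1 : ℕ) (hT : c.Tame (S3 k))
    (h0 : ∃ e ζ g, c.Mono ((0 : k) : OnePoint k) e ζ g ∧
      Lab (Fintype.card F - 1) e ζ (θ (ψ g).u) (n0 : ℤ))
    (h1 : ∃ e ζ g, c.Mono ((1 : k) : OnePoint k) e ζ g ∧
      Lab (Fintype.card F - 1) e ζ (θ (ψ g).u) (n1 : ℤ)) :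
    (∀ e ζ g, c.Mono ∞ e ζ g →
      Lab (Fintype.card F - 1) e ζ⁻¹ (θ (ψ g).u) ((n0 : ℤ) + n1)) ∧
    ((n0 + n1 ≤ Fintype.card F - 1 ∨ (n0 + n1 = Fintype.card F ∧ (n1 : k) = 0)) →
        Aff.HasFix (c.ι.range.map ψ)) ∧
    (n0 + n1 = 0 → c.ι.range.map ψ = ⊥) := by
  have ha : Function.Injective (![0, 1] : Fin 2 → k) := by
    intro i j hij
    fin_cases i <;> fin_cases j <;> simp_all
  have hs : ∑ i, (![n0, n1] : Fin 2 → ℕ) i = n0 + n1 := by simp [Fin.sum_univ_two]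
  have hv := c.vertex θ ψ ![0, 1] ha ![n0, n1] (S3 k) hT ?_ ?_
  · rw [hs] at hv
    refine ⟨fun e ζ g hm => ?_, fun h => hv.2.1 ?_, hv.2.2⟩
    · have := (hv.1 e ζ g hm).inv
      rw [neg_neg] at this
      exact_mod_cast this
    · rcases h with h | ⟨h, hk⟩
      · exact Or.inl h
      · have hq : 1 < Fintype.card F := Fintype.one_lt_card
        refine Or.inr ⟨by omega, ?_⟩
        rw [coeff_prod_pred _ _ _ (by rw [hs]; omega)]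
        simp [Fin.sum_univ_two, hk]
  · intro x hx
    rcases hx with hx | hx | hx
    · exact ⟨0, (OnePoint.coe_injective hx).symm⟩
    · exact ⟨1, (OnePoint.coe_injective hx).symm⟩
    · exact absurd hx (OnePoint.coe_ne_infty x)
  · intro i
    fin_cases i
    · exact h0
    · exact h1

omit [IsAlgClosed k] [Fintype F] in
/-- An inertia generator with a nonzero label has nontrivial linear part. -/
theorem u_ne_one_Fix5 {G : Type} [Group G] {c : Cover k G} {a : OnePoint k} {e : ℕ} {ζ : k}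
    {g : G} (hm : c.Mono a e ζ g) (θ : F →+* k) (u : Fˣ) {m : ℕ} {n : ℤ}
    (h : Lab m e ζ (θ u) n) (h0 : 0 < n) (h1 : n < m) : u ≠ 1 := by
  rintro rfl
  rw [Units.val_one, map_one] at h
  have h2 := Lab.unique hm.1 hm.2.1 (lab_one m e ζ) h
  rw [Int.modEq_iff_dvd, sub_zero] at h2
  have := Int.le_of_dvd h0 h2
  omega

theorem fix5 (θ : F →+* k) (p : ℕ) (hp : p.Prime) (hF : Fintype.card F = p ^ 2) :
    AllFix θ (A5 k) ![(p : ℤ) ^ 2 - p - 1, 1, p, -1, 0, 0, 0] := by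
  intro G _ d ψ hA hl
  obtain ⟨c1, c2, c3, c4, c5, t1, t2, t3, t4, t5, ⟨e1, ζ1, g1, m1, m1'⟩, ⟨e2, ζ2, g2, m2, m2'⟩,
    ⟨e3, ζ3, g3, m3, m3'⟩, ⟨e4, ζ4, g4, m4, m4'⟩, htop, d0, d1, d2, d3, d4, d5, -⟩ := hA
  have hp2 : 2 ≤ p := hp.two_le
  have hpp : 2 * p ≤ p ^ 2 := by nlinarith
  have hpk : (p : k) = 0 := by
    have := card_cast_eq_zero θ
    rw [hF, Nat.cast_pow] at this
    exact pow_eq_zero_iff (two_ne_zero) |>.1 this
  obtain ⟨r, hr⟩ : ∃ r : ℕ, p ^ 2 = r + p + 1 := ⟨p ^ 2 - p - 1, by omega⟩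
  have hrz : (p : ℤ) ^ 2 = r + p + 1 := by exact_mod_cast hr
  have hm : Fintype.card F - 1 = r + p := by omega
  have l0 : Lab (Fintype.card F - 1) (d 0).1 (d 0).2.1 (θ (ψ (d 0).2.2).u) (r : ℤ) := by
    have := hl 0
    have e0 : (![(p : ℤ) ^ 2 - p - 1, 1, p, -1, 0, 0, 0] : Fin 7 → ℤ) 0 = r := by
      show (p : ℤ) ^ 2 - p - 1 = r
      omega
    rw [e0] at this
    exact this
  have l1 : Lab (Fintype.card F - 1) (d 1).1 (d 1).2.1 (θ (ψ (d 1).2.2).u) ((1 : ℕ) : ℤ) := hl 1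
  have l2 : Lab (Fintype.card F - 1) (d 2).1 (d 2).2.1 (θ (ψ (d 2).2.2).u) (p : ℤ) := hl 2
  have l3 : Lab (Fintype.card F - 1) (d 3).1 (d 3).2.1 (θ (ψ (d 3).2.2).u) (-1 : ℤ) := hl 3
  have l4 : Lab (Fintype.card F - 1) (d 4).1 (d 4).2.1 (θ (ψ (d 4).2.2).u) ((0 : ℕ) : ℤ) := hl 4
  have l5 : Lab (Fintype.card F - 1) (d 5).1 (d 5).2.1 (θ (ψ (d 5).2.2).u) ((0 : ℕ) : ℤ) := hl 5
  obtain ⟨s, hs⟩ : ∃ s : ℕ, r + p = s + 1 := ⟨r + p - 1, by omega⟩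
  have l3' : Lab (Fintype.card F - 1) (d 3).1 (d 3).2.1 (θ (ψ (d 3).2.2).u) (s : ℤ) := by
    refine l3.congr ?_
    rw [Int.modEq_iff_dvd, hm]
    exact ⟨1, by push_cast; omega⟩
  have v1 := vertex2_Fix5 c1 θ ψ r 1 t1 ⟨_, _, _, d0, l0⟩ ⟨_, _, _, d1, l1⟩
  have k1 : Lab (Fintype.card F - 1) e1 ζ1⁻¹ (θ (ψ g1).u) ((r + 1 : ℕ) : ℤ) := by
    exact_mod_cast v1.1 _ _ _ m1
  have v2 := vertex2_Fix5 c2 θ ψ (r + 1) p t2 ⟨_, _, _, m1', k1⟩ ⟨_, _, _, d2, l2⟩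
  have k2 : Lab (Fintype.card F - 1) e2 ζ2⁻¹ (θ (ψ g2).u) ((1 : ℕ) : ℤ) := by
    refine (v2.1 _ _ _ m2).congr ?_
    rw [Int.modEq_iff_dvd, hm]
    exact ⟨-1, by push_cast; omega⟩
  have v3 := vertex2_Fix5 c3 θ ψ 1 s t3 ⟨_, _, _, m2', k2⟩ ⟨_, _, _, d3, l3'⟩
  have k3 : Lab (Fintype.card F - 1) e3 ζ3⁻¹ (θ (ψ g3).u) ((0 : ℕ) : ℤ) := by
    refine (v3.1 _ _ _ m3).congr ?_
    rw [Int.modEq_iff_dvd, hm]
    exact ⟨-1, by push_cast; omega⟩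
  have v4 := vertex2_Fix5 c4 θ ψ 0 0 t4 ⟨_, _, _, m3', k3⟩ ⟨_, _, _, d4, l4⟩
  have k4 : Lab (Fintype.card F - 1) e4 ζ4⁻¹ (θ (ψ g4).u) ((0 : ℕ) : ℤ) := by
    exact_mod_cast v4.1 _ _ _ m4
  have v5 := vertex2_Fix5 c5 θ ψ 0 0 t5 ⟨_, _, _, m4', k4⟩ ⟨_, _, _, d5, l5⟩
  have f1 := v1.2.1 (Or.inl (by omega))
  have f2 := v2.2.1 (Or.inr ⟨by omega, hpk⟩)
  have f3 := v3.2.1 (Or.inl (by omega))
  have u1 : (ψ g1).u ≠ 1 := u_ne_one_Fix5 m1' θ _ k1 (by omega) (by omega)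
  have u2 : (ψ g2).u ≠ 1 := u_ne_one_Fix5 m2' θ _ k2 (by omega) (by omega)
  have f12 := f1.sup f2 (ψ g1) (Subgroup.mem_map_of_mem ψ m1.mem_range)
    (Subgroup.mem_map_of_mem ψ m1'.mem_range) u1
  have f123 := f12.sup f3 (ψ g2)
    (Subgroup.mem_sup_right (Subgroup.mem_map_of_mem ψ m2.mem_range))
    (Subgroup.mem_map_of_mem ψ m2'.mem_range) u2
  rw [MonoidHom.range_eq_map, ← htop, Subgroup.map_sup, Subgroup.map_sup, Subgroup.map_sup,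
    Subgroup.map_sup, v4.2.2 rfl, v5.2.2 rfl, sup_bot_eq, sup_bot_eq]
  exact f123

end Pool.Agent.Adm
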