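import Pool.Agent.Adm.New1
import Pool.Agent.Adm.Fix5

/-! The three smooth steps of the chain. -/

namespace Pool.Agent.Adm

open Polynomial

variable {k F : Type} [Field k] [Field F] [Fintype F]

theorem update_injective {k' : Type} [Field k'] (φ : k →+* k') (a : Fin 6 → k)
    (ha : Function.Injective a) (i0 : Fin 6) (t : k') (ht : t ∉ Set.range φ) :
    Function.Injective (Function.update (fun i => φ (a i)) i0 (φ (a i0) + t)) := by
  have key : ∀ j, φ (a i0) + t ≠ φ (a j) := fun j h =>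
    ht ⟨a j - a i0, by rw [map_sub, ← h]; ring⟩
  intro i j hij
  by_cases hi : i = i0 <;> by_cases hj : j = i0
  · rw [hi, hj]
  · subst hi
    rw [Function.update_self, Function.update_of_ne hj] at hij
    exact absurd hij (key j)
  · subst hj
    rw [Function.update_self, Function.update_of_ne hi] at hij
    exact absurd hij.symm (key i)
  · rw [Function.update_of_ne hi, Function.update_of_ne hj] at hij
    exact ha (φ.injective hij)

theorem charP_of_card (θ : F →+* k) (p : ℕ) (hp : p.Prime) (hF : Fintype.card F = p ^ 2) :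
    CharP k p := by
  have h := card_cast_eq_zero θ
  rw [hF, Nat.cast_pow] at h
  have h0 : (p : k) = 0 := pow_eq_zero_iff (two_ne_zero) |>.1 h
  haveI := Fact.mk hp
  exact (CharP.charP_iff_prime_eq_zero hp).2 h0

variable [IsAlgClosed k]

theorem new32 (θ : F →+* k) (p : ℕ) (hp : p.Prime) (hF : Fintype.card F = p ^ 2)
    (a : Fin 6 → k) (ha : Function.Injective a) (h0 : a 0 = 0) (h3 : a 3 = 1) :
    NewCov θ (A1 a) ![(p : ℤ) ^ 2 - p - 1, 0, 1, p, 0, 0, -(p : ℤ) ^ 2] := by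
  haveI := charP_of_card θ p hp hF
  have h2 := hp.two_le
  have hpp : p + 2 ≤ p ^ 2 := by nlinarith
  have hs : ∑ i, (![p ^ 2 - p - 1, 0, 1, p, 0, 0] : Fin 6 → ℕ) i = p ^ 2 := by
    simp [Fin.sum_univ_six]; omega
  refine new1 θ a ha ![p ^ 2 - p - 1, 0, 1, p, 0, 0] ?_ ?_ ?_ ?_ _ ?_ ?_
  · intro i; rw [hF]; fin_cases i <;> simp <;> omega
  · rw [hs, hF]
  · rw [hs, hF]; omega
  · rw [hF, coeff_prod_pred a _ (p ^ 2 - 1) (by rw [hs]; omega)]
    have : a 2 ≠ 0 := fun h => by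
      have := ha (h.trans h0.symm)
      exact absurd this (by decide)
    simpa [Fin.sum_univ_six, h0, h3] using this
  · intro i
    fin_cases i <;> simp
    rw [Nat.sub_sub, Nat.cast_sub (by omega)]; push_cast; ring
  · rw [hs]; simp

omit [IsAlgClosed k] in
theorem sum_erase3 (g : Fin 6 → k) :
    ∑ i ∈ Finset.univ.erase (3 : Fin 6), g i = g 0 + g 1 + g 2 + g 4 + g 5 := by
  rw [← add_left_inj (g 3), Finset.sum_erase_add _ _ (Finset.mem_univ _), Fin.sum_univ_six]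
  ring

theorem sum_erase3' (g : Fin 6 → ℕ) :
    ∑ i ∈ Finset.univ.erase (3 : Fin 6), g i = g 0 + g 1 + g 2 + g 4 + g 5 := by
  rw [← add_left_inj (g 3), Finset.sum_erase_add _ _ (Finset.mem_univ _), Fin.sum_univ_six]
  ring

/-- Labels of the first relation. -/
def n21 (p : ℕ) : Fin 6 → ℕ := ![(p - 1) ^ 2, 0, p - 1, p ^ 2 - 2, 0, p - 1]

/-- Labels of the second relation. -/
def n10 (p : ℕ) : Fin 6 → ℕ := ![0, p - 1, (p - 1) ^ 2, p ^ 2 - 2, p - 1, 1]

/-- Extension of the labels to the point at infinity. -/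
def ext7 (n : Fin 6 → ℕ) : Fin 7 → ℤ := Fin.snoc (fun i => (n i : ℤ)) (-((∑ i, n i : ℕ) : ℤ))

theorem ext7_castSucc (n : Fin 6 → ℕ) (i : Fin 6) : ext7 n i.castSucc = n i := by
  simp [ext7]

theorem ext7_last (n : Fin 6 → ℕ) : ext7 n 6 = -((∑ i, n i : ℕ) : ℤ) :=
  Fin.snoc_last (α := fun _ => ℤ) _ _

omit [IsAlgClosed k] in
theorem kappa21 (p : ℕ) [Fact p.Prime] [CharP k p] (a : Fin 6 → k) (ha : Function.Injective a)
    (h3 : a 3 = 1) :
    (∏ j, (X - C (a j)) ^ n21 p j : k[X]).coeff (p ^ 2 - 1) = 0 ↔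
      1 / (1 - a 0) - 1 / (1 - a 2) - 1 / (1 - a 5) = 0 := by
  have h2 := (Fact.out : p.Prime).two_le
  obtain ⟨r, rfl⟩ : ∃ r, p = r + 1 := ⟨p - 1, by omega⟩
  have hr : (r : k) = -1 := by
    have := CharP.cast_eq_zero k (r + 1)
    push_cast at this
    linear_combination this
  rw [coeff_prod_one (r + 1) 2 two_pos a ha (n21 (r + 1)) 3 h3 (by simp [n21])
    (by rw [sum_erase3']; simp [n21]; nlinarith), sum_erase3]
  simp only [n21, Nat.add_sub_cancel]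
  simp [hr]
  constructor <;> intro h <;> linear_combination h

omit [IsAlgClosed k] in
theorem kappa10 (p : ℕ) [Fact p.Prime] [CharP k p] (a : Fin 6 → k) (ha : Function.Injective a)
    (h3 : a 3 = 1) :
    (∏ j, (X - C (a j)) ^ n10 p j : k[X]).coeff (p ^ 2 - 1) = 0 ↔
      1 / (1 - a 2) + 1 / (1 - a 5) - 1 / (1 - a 1) - 1 / (1 - a 4) = 0 := by
  have h2 := (Fact.out : p.Prime).two_le
  obtain ⟨r, rfl⟩ : ∃ r, p = r + 1 := ⟨p - 1, by omega⟩
  have hr : (r : k) = -1 := by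
    have := CharP.cast_eq_zero k (r + 1)
    push_cast at this
    linear_combination this
  rw [coeff_prod_one (r + 1) 2 two_pos a ha (n10 (r + 1)) 3 h3 (by simp [n10])
    (by rw [sum_erase3']; simp [n10]; nlinarith), sum_erase3]
  simp only [n10, Nat.add_sub_cancel]
  simp [hr]
  constructor <;> intro h <;> linear_combination h

theorem sum_n21 (p : ℕ) (h2 : 2 ≤ p) : ∑ i, n21 p i = 2 * (p ^ 2 - 1) - 1 := by
  obtain ⟨r, rfl⟩ : ∃ r, p = r + 2 := ⟨p - 2, by omega⟩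
  have e1 : (r + 2) ^ 2 = r * r + 4 * r + 4 := by ring
  have e2 : (r + 2 - 1) ^ 2 = r * r + 2 * r + 1 := by
    rw [show r + 2 - 1 = r + 1 from rfl]; ring
  simp only [n21, Fin.sum_univ_six, e1, e2]
  simp
  omega

theorem sum_n10 (p : ℕ) (h2 : 2 ≤ p) : ∑ i, n10 p i = 2 * (p ^ 2 - 1) := by
  obtain ⟨r, rfl⟩ : ∃ r, p = r + 2 := ⟨p - 2, by omega⟩
  have e1 : (r + 2) ^ 2 = r * r + 4 * r + 4 := by ring
  have e2 : (r + 2 - 1) ^ 2 = r * r + 2 * r + 1 := by
    rw [show r + 2 - 1 = r + 1 from rfl]; ring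
  simp only [n10, Fin.sum_univ_six, e1, e2]
  simp
  omega

theorem n21_lt (p : ℕ) (h2 : 2 ≤ p) (i : Fin 6) : n21 p i < p ^ 2 - 1 := by
  obtain ⟨r, rfl⟩ : ∃ r, p = r + 2 := ⟨p - 2, by omega⟩
  have e1 : (r + 2) ^ 2 = r * r + 4 * r + 4 := by ring
  have e2 : (r + 2 - 1) ^ 2 = r * r + 2 * r + 1 := by
    rw [show r + 2 - 1 = r + 1 from rfl]; ring
  fin_cases i <;> simp only [n21, e1, e2] <;> simp <;> omega

theorem n10_lt (p : ℕ) (h2 : 2 ≤ p) (i : Fin 6) : n10 p i < p ^ 2 - 1 := by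
  obtain ⟨r, rfl⟩ : ∃ r, p = r + 2 := ⟨p - 2, by omega⟩
  have e1 : (r + 2) ^ 2 = r * r + 4 * r + 4 := by ring
  have e2 : (r + 2 - 1) ^ 2 = r * r + 2 * r + 1 := by
    rw [show r + 2 - 1 = r + 1 from rfl]; ring
  fin_cases i <;> simp only [n10, e1, e2] <;> simp <;> omega

theorem fix21 (θ : F →+* k) (p : ℕ) (hp : p.Prime) (hF : Fintype.card F = p ^ 2)
    (a : Fin 6 → k) (ha : Function.Injective a) (h3 : a 3 = 1)
    (h : 1 / (1 - a 0) - 1 / (1 - a 2) - 1 / (1 - a 5) = 0) : AllFix θ (A1 a) (ext7 (n21 p)) := by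
  haveI := charP_of_card θ p hp hF
  haveI := Fact.mk hp
  refine fix1 θ a ha (n21 p) ?_ ?_ _ (ext7_castSucc _)
  · rw [sum_n21 p hp.two_le, hF]; omega
  · rw [hF]; exact (kappa21 p a ha h3).2 h

theorem new21 (θ : F →+* k) (p : ℕ) (hp : p.Prime) (hF : Fintype.card F = p ^ 2)
    (a : Fin 6 → k) (ha : Function.Injective a) (h3 : a 3 = 1)
    (h : 1 / (1 - a 0) - 1 / (1 - a 2) - 1 / (1 - a 5) ≠ 0) : NewCov θ (A1 a) (ext7 (n21 p)) := by
  haveI := charP_of_card θ p hp hF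
  haveI := Fact.mk hp
  have h2 := hp.two_le
  have hpp : 4 ≤ p ^ 2 := by nlinarith
  refine new1 θ a ha (n21 p) ?_ ?_ ?_ ?_ _ (ext7_castSucc _) (ext7_last _)
  · intro i; rw [hF]; exact n21_lt p h2 i
  · rw [sum_n21 p h2, hF]; omega
  · rw [sum_n21 p h2, hF]; omega
  · rw [hF]; exact fun h' => h ((kappa21 p a ha h3).1 h')

theorem fix10 (θ : F →+* k) (p : ℕ) (hp : p.Prime) (hF : Fintype.card F = p ^ 2)
    (a : Fin 6 → k) (ha : Function.Injective a) (h3 : a 3 = 1)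
    (h : 1 / (1 - a 2) + 1 / (1 - a 5) - 1 / (1 - a 1) - 1 / (1 - a 4) = 0) :
    AllFix θ (A1 a) (ext7 (n10 p)) := by
  haveI := charP_of_card θ p hp hF
  haveI := Fact.mk hp
  refine fix1 θ a ha (n10 p) ?_ ?_ _ (ext7_castSucc _)
  · rw [sum_n10 p hp.two_le, hF]
  · rw [hF]; exact (kappa10 p a ha h3).2 h

theorem new10 (θ : F →+* k) (p : ℕ) (hp : p.Prime) (hF : Fintype.card F = p ^ 2)
    (a : Fin 6 → k) (ha : Function.Injective a) (h3 : a 3 = 1)
    (h : 1 / (1 - a 2) + 1 / (1 - a 5) - 1 / (1 - a 1) - 1 / (1 - a 4) ≠ 0) :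
    NewCov θ (A1 a) (ext7 (n10 p)) := by
  haveI := charP_of_card θ p hp hF
  haveI := Fact.mk hp
  have h2 := hp.two_le
  have hpp : 4 ≤ p ^ 2 := by nlinarith
  refine new1 θ a ha (n10 p) ?_ ?_ ?_ ?_ _ (ext7_castSucc _) (ext7_last _)
  · intro i; rw [hF]; exact n10_lt p h2 i
  · rw [sum_n10 p h2, hF]; omega
  · rw [sum_n10 p h2, hF]
  · rw [hF]; exact fun h' => h ((kappa10 p a ha h3).1 h')

end Pool.Agent.Adm
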