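import Pool.Agent.Adm.VF
import Pool.Agent.Adm.CDefs
import Pool.Agent.Adm.Kap

/-! Affine quotients of the lower curve of each step have a fixed point. -/

namespace Pool.Agent.Adm

open scoped OnePoint
open Polynomial

variable {k F : Type} [Field k] [IsAlgClosed k] [Field F] [Fintype F]

omit [IsAlgClosed k] [Fintype F] in
theorem u_ne_one_Fix3 (θ : F →+* k) {m e : ℕ} {ζ : k} (he : 0 < e) (hζ : IsPrimitiveRoot ζ e)
    (u : Fˣ) (n : ℕ) (h0 : 0 < n) (h1 : n < m) (h : Lab m e ζ (θ u) n) : u ≠ 1 := by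
  rintro rfl
  have h2 : Lab m e ζ (θ ((1 : Fˣ) : F)) 0 := by
    rw [Units.val_one, map_one]
    exact lab_one m e ζ
  have h3 := (Lab.unique he hζ h2 h).dvd
  rw [sub_zero] at h3
  have h4 : m ∣ n := by exact_mod_cast h3
  exact absurd (Nat.le_of_dvd h0 h4) (by omega)

omit [IsAlgClosed k] in
theorem inj2_Fix3 : Function.Injective (![0, 1] : Fin 2 → k) := by
  intro i j h
  fin_cases i <;> fin_cases j <;> simp_all

omit [IsAlgClosed k] in
theorem inj3_Fix3 (x y : k) (hx : x ≠ 0) (hy : y ≠ 0) (hxy : x ≠ y) :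
    Function.Injective (![0, x, y] : Fin 3 → k) := by
  intro i j h
  fin_cases i <;> fin_cases j <;> simp_all [eq_comm]

theorem fix3 (θ : F →+* k) (p : ℕ) (hp : p.Prime) (hF : Fintype.card F = p ^ 2) (s s' : k)
    (h0 : s ≠ 0) (h1 : s ≠ 1) (h0' : s' ≠ 0) (h1' : s' ≠ 1) :
    AllFix θ (A3 s s') ![(p : ℤ) ^ 2 - p - 1, 0, 1, p, 0, 0, -(p : ℤ) ^ 2] := by
  intro G _ d ψ hA hL
  obtain ⟨c1, c3, c4, t1, t3, t4, ⟨e, ζ, g, g1, g3⟩, ⟨e', ζ', g', g3', g4⟩, hsup, m0, m1, m2, m3,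
    m4, m5, -⟩ := hA
  have hp2 := hp.two_le
  have hpk : (p : k) = 0 := by
    have := card_cast_eq_zero θ
    rw [hF, Nat.cast_pow] at this
    exact pow_eq_zero_iff (two_ne_zero) |>.1 this
  obtain ⟨N, hN⟩ : ∃ N : ℕ, p ^ 2 = N + p + 1 := by
    refine ⟨p ^ 2 - p - 1, ?_⟩
    have : p + 1 ≤ p ^ 2 := by nlinarith
    omega
  have hNZ : (p : ℤ) ^ 2 - p - 1 = N := by
    have : ((p ^ 2 : ℕ) : ℤ) = ((N + p + 1 : ℕ) : ℤ) := by rw [hN]
    push_cast at this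
    linarith
  have hm : Fintype.card F - 1 = N + p := by omega
  have L0 := hL 0
  have L1 := hL 1
  have L2 := hL 2
  have L3 := hL 3
  have L4 := hL 4
  have L5 := hL 5
  simp only [LabD, MonoidHom.comp_apply, Aff.lin_apply, hNZ] at L0 L1 L2 L3 L4 L5
  -- first component
  obtain ⟨a1, b1, -⟩ := c1.vertex θ ψ ![0, s, 1] (inj3_Fix3 s 1 h0 one_ne_zero h1) ![N, 0, 1]
    (S4 s) t1 (by
      intro x hx
      simp only [S4, Set.mem_insert_iff, Set.mem_singleton_iff, OnePoint.some_eq_iff,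
        OnePoint.coe_ne_infty, or_false] at hx
      rcases hx with rfl | rfl | rfl
      exacts [⟨0, rfl⟩, ⟨2, rfl⟩, ⟨1, rfl⟩])
    (by
      intro i
      fin_cases i
      exacts [⟨_, _, _, m0, L0⟩, ⟨_, _, _, m1, L1⟩, ⟨_, _, _, m2, L2⟩])
  have s1 : ∑ i, (![N, 0, 1] : Fin 3 → ℕ) i = N + 1 := by simp [Fin.sum_univ_three]
  rw [s1] at a1 b1
  have f1 := b1 (Or.inl (by omega))
  have l3 : Lab (Fintype.card F - 1) e ζ⁻¹ (θ (ψ g).u) ((N + 1 : ℕ) : ℤ) := by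
    have := (a1 _ _ _ g1).inv
    rwa [neg_neg] at this
  -- middle component
  obtain ⟨a3, b3, -⟩ := c3.vertex θ ψ ![0, 1] inj2_Fix3 ![N + 1, p]
    (S3 k) t3 (by
      intro x hx
      simp only [S3, Set.mem_insert_iff, Set.mem_singleton_iff, OnePoint.some_eq_iff,
        OnePoint.coe_ne_infty, or_false] at hx
      rcases hx with rfl | rfl
      exacts [⟨0, rfl⟩, ⟨1, rfl⟩])
    (by
      intro i
      fin_cases i
      exacts [⟨_, _, _, g3, l3⟩, ⟨_, _, _, m3, L3⟩])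
  have s3 : ∑ i, (![N + 1, p] : Fin 2 → ℕ) i = Fintype.card F - 1 + 1 := by
    rw [Fin.sum_univ_two, hm]
    simp only [Matrix.cons_val_zero, Matrix.cons_val_one]
    omega
  have f3 := b3 (Or.inr ⟨by rw [s3]; omega, by
    rw [coeff_prod_pred _ _ _ s3]
    simp [Fin.sum_univ_two, hpk]⟩)
  rw [s3] at a3
  have l4 : Lab (Fintype.card F - 1) e' ζ'⁻¹ (θ (ψ g').u) ((1 : ℕ) : ℤ) := by
    have := (a3 _ _ _ g3').inv
    rw [neg_neg] at this
    refine this.congr ?_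
    push_cast
    exact Int.modEq_iff_dvd.2 ⟨-1, by ring⟩
  -- last component
  obtain ⟨-, b4, -⟩ := c4.vertex θ ψ ![0, 1, s'] (inj3_Fix3 1 s' one_ne_zero h0' h1'.symm)
    ![1, 0, 0] (S4 s') t4 (by
      intro x hx
      simp only [S4, Set.mem_insert_iff, Set.mem_singleton_iff, OnePoint.some_eq_iff,
        OnePoint.coe_ne_infty, or_false] at hx
      rcases hx with rfl | rfl | rfl
      exacts [⟨0, rfl⟩, ⟨1, rfl⟩, ⟨2, rfl⟩])
    (by
      intro i
      fin_cases i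
      exacts [⟨_, _, _, g4, l4⟩, ⟨_, _, _, m4, L4⟩, ⟨_, _, _, m5, L5⟩])
  have s4 : ∑ i, (![1, 0, 0] : Fin 3 → ℕ) i = 1 := by simp [Fin.sum_univ_three]
  rw [s4] at b4
  have f4 := b4 (Or.inl (by omega))
  have u3 : (ψ g).u ≠ 1 := u_ne_one_Fix3 θ g3.1 g3.2.1 _ (N + 1) (by omega) (by omega) l3
  have u4 : (ψ g').u ≠ 1 := u_ne_one_Fix3 θ g4.1 g4.2.1 _ 1 (by omega) (by omega) l4
  have f13 := f1.sup f3 (ψ g) (Subgroup.mem_map_of_mem ψ g1.mem_range)
    (Subgroup.mem_map_of_mem ψ g3.mem_range) u3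
  have f134 := f13.sup f4 (ψ g') (Subgroup.mem_sup_right (Subgroup.mem_map_of_mem ψ g3'.mem_range))
    (Subgroup.mem_map_of_mem ψ g4.mem_range) u4
  rw [← Subgroup.map_sup, ← Subgroup.map_sup, hsup, ← MonoidHom.range_eq_map] at f134
  exact f134

end Pool.Agent.Adm
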