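import Pool.Agent.Adm.H1

/-! Reparametrisation at infinity. -/

namespace Pool.Agent.Adm

theorem rescale_expand_TR0 {k : Type} [Field k] (e : ℕ) (he : e ≠ 0) (ζ : k) (hζ : ζ ^ e = 1)
    (v : PowerSeries k) :
    PowerSeries.rescale ζ (PowerSeries.expand e he v) = PowerSeries.expand e he v := by
  ext n
  rw [PowerSeries.coeff_rescale, PowerSeries.coeff_expand]
  split_ifs with h
  · obtain ⟨m, rfl⟩ := h
    rw [pow_mul, hζ, one_pow, one_mul]
  · rw [mul_zero]

theorem exists_phi_TR0 {k : Type} [Field k] [IsAlgClosed k] (e : ℕ) (he : (e : k) ≠ 0) (b : k) :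
    ∃ φ : PowerSeries k, PowerSeries.constantCoeff φ = 0 ∧ φ ≠ 0 ∧
      φ ^ e * (1 + PowerSeries.C b * PowerSeries.X ^ e) = PowerSeries.X ^ e ∧
      ∀ ζ : k, ζ ^ e = 1 → PowerSeries.rescale ζ φ = ζ • φ := by
  have he0 : e ≠ 0 := by
    rintro rfl
    exact he (by simp)
  have hu : PowerSeries.constantCoeff (1 + PowerSeries.C b * PowerSeries.X : PowerSeries k) ≠ 0 := by
    simp
  obtain ⟨v, hv⟩ := exists_pow_eq_ps e he
    ((1 + PowerSeries.C b * PowerSeries.X : PowerSeries k)⁻¹)
    (by rw [PowerSeries.constantCoeff_inv]; exact inv_ne_zero hu)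
  have h1 : v ^ e * (1 + PowerSeries.C b * PowerSeries.X) = 1 := by
    rw [hv]; exact PowerSeries.inv_mul_cancel _ hu
  have h2 : (PowerSeries.expand e he0 v) ^ e * (1 + PowerSeries.C b * PowerSeries.X ^ e) = 1 := by
    have := congrArg (PowerSeries.expand e he0) h1
    rwa [map_mul, map_pow, map_add, map_one, map_mul, PowerSeries.expand_C,
      PowerSeries.expand_X] at this
  refine ⟨PowerSeries.X * PowerSeries.expand e he0 v, by simp, ?_, ?_, ?_⟩
  · refine mul_ne_zero PowerSeries.X_ne_zero ?_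
    intro h0
    rw [h0, zero_pow he0, zero_mul] at h2
    exact zero_ne_one h2
  · rw [mul_pow, mul_assoc, h2, mul_one]
  · intro ζ hζ
    rw [map_mul, rescale_expand_TR0 e he0 ζ hζ, PowerSeries.rescale_X, PowerSeries.smul_eq_C_mul,
      mul_assoc]

/-- A reparametrisation of k((z)) sending z^(-e) to z^(-e) + b, commuting with z ↦ ζ z. -/
theorem exists_reparam {k : Type} [Field k] [IsAlgClosed k] (e : ℕ) (he : (e : k) ≠ 0) (b : k) :
    ∃ Φ : LaurentSeries k →+* LaurentSeries k, (∀ c, Φ (HahnSeries.C c) = HahnSeries.C c) ∧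
      Φ (HahnSeries.single (-(e : ℤ)) 1) = HahnSeries.single (-(e : ℤ)) 1 + HahnSeries.C b ∧
      ∀ (ζ : k) (h : ζ ≠ 0), ζ ^ e = 1 → ∀ x, Φ (scL ζ h x) = scL ζ h (Φ x) := by
  obtain ⟨φ, hφ0, hφne, hφe, hφζ⟩ := exists_phi_TR0 e he b
  have hs : PowerSeries.HasSubst φ := PowerSeries.HasSubst.of_constantCoeff_zero' hφ0
  let S : PowerSeries k →+* PowerSeries k :=
    (PowerSeries.substAlgHom (R := k) hs : PowerSeries k →ₐ[k] PowerSeries k)
  have hS : ∀ f, S f = PowerSeries.subst φ f := fun f =>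
    congrFun (PowerSeries.coe_substAlgHom (R := k) hs) f
  have hSX : S PowerSeries.X = φ := by rw [hS, PowerSeries.subst_X hs]
  have hSC : ∀ c : k, S (PowerSeries.C c) = PowerSeries.C c := fun c => by
    rw [hS, PowerSeries.subst_C]; rfl
  let ι : PowerSeries k →+* LaurentSeries k := HahnSeries.ofPowerSeries ℤ k
  have hι : Function.Injective ι := HahnSeries.ofPowerSeries_injective
  have hιφ : ι φ ≠ 0 := fun h0 => hφne (hι (by rw [h0, map_zero]))
  have hunit : ∀ y : Submonoid.powers (PowerSeries.X : PowerSeries k),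
      IsUnit ((ι.comp S) y) := by
    rintro ⟨y, n, rfl⟩
    simp only [RingHom.comp_apply, map_pow, hSX]
    exact (pow_ne_zero n hιφ).isUnit
  let Φ : LaurentSeries k →+* LaurentSeries k := IsLocalization.lift hunit
  have hΦ : ∀ f : PowerSeries k, Φ (ι f) = ι (S f) := fun f =>
    IsLocalization.lift_eq hunit f
  have hιC : ∀ c : k, ι (PowerSeries.C c) = HahnSeries.C c := fun c =>
    HahnSeries.ofPowerSeries_C c
  have hιX : ι (PowerSeries.X ^ e) = HahnSeries.single (e : ℤ) 1 :=
    HahnSeries.ofPowerSeries_X_pow e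
  have hinv : (HahnSeries.single (-(e : ℤ)) 1 : LaurentSeries k) * ι (PowerSeries.X ^ e) = 1 := by
    rw [hιX, HahnSeries.single_mul_single]
    simp
  refine ⟨Φ, fun c => ?_, ?_, fun ζ h hζ => ?_⟩
  · rw [← hιC, hΦ, hSC]
  · have h1 : Φ (HahnSeries.single (-(e : ℤ)) 1) * ι φ ^ e = 1 := by
      have := congrArg Φ hinv
      rwa [map_mul, Φ.map_one, hΦ, map_pow S, hSX, map_pow ι] at this
    have h2 : ι φ ^ e * (1 + HahnSeries.C b * ι (PowerSeries.X ^ e)) = ι (PowerSeries.X ^ e) := by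
      have := congrArg ι hφe
      rwa [map_mul, map_pow ι φ, map_add, map_one, map_mul, hιC] at this
    apply mul_right_cancel₀ (pow_ne_zero e hιφ)
    rw [h1]
    linear_combination (-(HahnSeries.single (-(e : ℤ)) 1 : LaurentSeries k)) * h2 +
      (HahnSeries.C b * ι φ ^ e - 1) * hinv
  · have hsc : ∀ f : PowerSeries k, scL ζ h (ι f) = ι (PowerSeries.rescale ζ f) := fun f =>
      scL_coe ζ h f
    have hz : PowerSeries.HasSubst (ζ • PowerSeries.X : PowerSeries k) :=
      PowerSeries.HasSubst.smul_X' ζ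
    have key : ∀ f : PowerSeries k,
        S (PowerSeries.rescale ζ f) = PowerSeries.rescale ζ (S f) := by
      intro f
      rw [hS, hS, PowerSeries.rescale_eq_subst ζ f, PowerSeries.rescale_eq_subst,
        PowerSeries.subst_comp_subst_apply hz hs, PowerSeries.subst_comp_subst_apply hs hz,
        ← PowerSeries.rescale_eq_subst ζ φ, hφζ ζ hζ, PowerSeries.subst_smul hs,
        PowerSeries.subst_X hs]
    have : Φ.comp (scL ζ h) = (scL ζ h).comp Φ := by
      apply IsLocalization.ringHom_ext (Submonoid.powers (PowerSeries.X : PowerSeries k))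
      refine RingHom.ext fun f => ?_
      change Φ (scL ζ h (ι f)) = scL ζ h (Φ (ι f))
      rw [hsc, hΦ, hΦ, hsc, key]
    exact fun x => DFunLike.congr_fun this x

end Pool.Agent.Adm
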