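import Pool.Agent.Adm.GA
import Pool.Agent.Adm.TR0

/-! Translation of the coordinate. -/

namespace Pool.Agent.Adm

open scoped OnePoint

theorem exists_shift_TR {k : Type} [Field k] (b : k) :
    ∃ f : RatFunc k →+* RatFunc k, (∀ c, f (RatFunc.C c) = RatFunc.C c) ∧
      f RatFunc.X = RatFunc.X + RatFunc.C b := by
  refine exists_ratFunc_hom RatFunc.C _ fun P hP h => ?_
  have e : P.eval₂ RatFunc.C (RatFunc.X + RatFunc.C b) =
      algebraMap (Polynomial k) (RatFunc k) (P.comp (Polynomial.X + Polynomial.C b)) := by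
    rw [Polynomial.comp, Polynomial.hom_eval₂]
    congr 1
    simp
  rw [e, map_eq_zero_iff _ (IsFractionRing.injective _ _),
    Polynomial.comp_X_add_C_eq_zero_iff] at h
  exact hP h

theorem exists_equiv_TR {k : Type} [Field k] (b : k) :
    ∃ τ : RatFunc k ≃+* RatFunc k, (∀ c, τ (RatFunc.C c) = RatFunc.C c) ∧
      τ RatFunc.X = RatFunc.X + RatFunc.C b := by
  obtain ⟨f, f1, f2⟩ := exists_shift_TR b
  obtain ⟨g, g1, g2⟩ := exists_shift_TR (-b)
  refine ⟨RingEquiv.ofRingHom f g ?_ ?_, f1, f2⟩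
  · refine ratFunc_hom_ext _ _ (fun c => by simp [f1, g1]) ?_
    rw [RingHom.comp_apply, g2, map_add, f2, f1, map_neg, add_neg_cancel_right, RingHom.id_apply]
  · refine ratFunc_hom_ext _ _ (fun c => by simp [f1, g1]) ?_
    rw [RingHom.comp_apply, f2, map_add, g2, g1, map_neg, neg_add_cancel_right, RingHom.id_apply]

/-- A copy of a type. -/
def Copy_TR (L : Type) : Type := L

instance field_Copy_TR (L : Type) [Field L] : Field (Copy_TR L) := inferInstanceAs (Field L)

theorem exists_twist_TR {k G : Type} [Field k] [Group G] (c : Cover k G)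
    (τ : RatFunc k ≃+* RatFunc k) :
    ∃ (c' : Cover k G) (e : c'.L ≃+* c.L),
      (∀ r, e (algebraMap (RatFunc k) c'.L r) = algebraMap (RatFunc k) c.L (τ r)) ∧
      c'.ι.range ≤ c.ι.range ∧
      ∀ σ : c.L ≃ₐ[RatFunc k] c.L, ∃ σ' : c'.L ≃ₐ[RatFunc k] c'.L,
        c'.ι σ' = c.ι σ ∧ ∀ x, e (σ' x) = σ (e x) := by
  let e : Copy_TR c.L ≃+* c.L := RingEquiv.refl c.L
  let alg : Algebra (RatFunc k) (Copy_TR c.L) :=
    (e.symm.toRingHom.comp ((algebraMap (RatFunc k) c.L).comp τ.toRingHom)).toAlgebra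
  have ha : ∀ r, e (algebraMap (RatFunc k) (Copy_TR c.L) r) = algebraMap (RatFunc k) c.L (τ r) :=
    fun _ => rfl
  have he : (algebraMap (RatFunc k) (Copy_TR c.L)).comp (τ.symm : RatFunc k →+* RatFunc k) =
      (e.symm : c.L →+* Copy_TR c.L).comp (algebraMap (RatFunc k) c.L) := by
    ext r
    apply e.injective
    simp [ha]
  have fin : FiniteDimensional (RatFunc k) (Copy_TR c.L) :=
    Module.Finite.of_equiv_equiv τ.symm e.symm he
  have gal : IsGalois (RatFunc k) (Copy_TR c.L) := IsGalois.of_equiv_equiv he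
  let m : (Copy_TR c.L ≃ₐ[RatFunc k] Copy_TR c.L) →* (c.L ≃ₐ[RatFunc k] c.L) :=
    { toFun := fun σ =>
        { e.symm.trans (σ.toRingEquiv.trans e) with
          commutes' := fun r => by
            obtain ⟨r, rfl⟩ := τ.surjective r
            exact congrArg e (σ.commutes r) }
      map_one' := rfl
      map_mul' := fun _ _ => rfl }
  refine ⟨{ L := Copy_TR c.L, ι := c.ι.comp m }, e, ha, ?_, fun σ => ⟨?_, ?_, ?_⟩⟩
  · rintro _ ⟨σ, rfl⟩
    exact ⟨m σ, rfl⟩
  · exact { e.trans (σ.toRingEquiv.trans e.symm) with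
      commutes' := fun r => congrArg e.symm (σ.commutes (τ r)) }
  · rfl
  · exact fun _ => rfl

theorem Cover.exists_translate' {k G : Type} [Field k] [Group G] (c : Cover k G) (b : k) :
    ∃ c' : Cover k G, c'.ι.range = c.ι.range ∧
      ∀ (W : Type) [CommRing W] (ψ : k →+* W) (u : W) (s : W →+* W) (g : G),
        c.RMono ψ u s g → c'.RMono ψ (u + ψ b) s g := by
  obtain ⟨τ, t1, t2⟩ := exists_equiv_TR b
  obtain ⟨c', e, h1, h2, h3⟩ := exists_twist_TR c τ
  refine ⟨c', le_antisymm h2 ?_, ?_⟩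
  · rintro _ ⟨σ, rfl⟩
    obtain ⟨σ', h4, -⟩ := h3 σ
    exact ⟨σ', h4⟩
  · rintro W _ ψ u s g ⟨j, j1, j2, σ, j3, j4⟩
    obtain ⟨σ', h4, h5⟩ := h3 σ
    refine ⟨j.comp e.toRingHom, fun x => ?_, ?_, σ', h4.trans j3, fun x => ?_⟩
    · show j (e _) = _
      rw [h1, t1, j1]
    · show j (e _) = _
      rw [h1, t2, map_add, map_add, j1, j2]
    · show j (e _) = s (j (e x))
      rw [h5, j4]

theorem Cover.exists_translate {k G : Type} [Field k] [IsAlgClosed k] [Group G] (c : Cover k G)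
    (b : k) :
    ∃ c' : Cover k G, c'.ι.range = c.ι.range ∧
      (∀ (a : k) e ζ g, c.Mono (a : OnePoint k) e ζ g → c'.Mono ((a + b : k) : OnePoint k) e ζ g) ∧
      ∀ e ζ g, c.Mono ∞ e ζ g → c'.Mono ∞ e ζ g := by
  obtain ⟨c', h1, h2⟩ := c.exists_translate' b
  refine ⟨c', h1, fun a e ζ g h => Cover.RMono.mono h.1 h.2.1 ?_,
    fun e ζ g h => Cover.RMono.mono h.1 h.2.1 ?_⟩
  · have h3 := h2 _ _ _ _ _ h.rmono
    have h4 : expand (a : OnePoint k) e + HahnSeries.C b = expand ((a + b : k) : OnePoint k) e := by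
      simp only [expand, OnePoint.elim_some, map_add]
      ring
    rwa [h4] at h3
  · have he : (e : k) ≠ 0 := by
      have : NeZero e := ⟨h.1.ne'⟩
      exact (h.2.1.neZero' (n := e)).out
    obtain ⟨Φ, p1, p2, p3⟩ := exists_reparam e he (-b)
    have h3 := h2 _ _ _ _ _ (h.rmono.comp Φ (scL ζ (h.2.1.ne_zero h.1.ne'))
      (p3 ζ _ h.2.1.pow_eq_one))
    have h4 : Φ.comp HahnSeries.C = HahnSeries.C := RingHom.ext p1
    have h5 : Φ (expand ∞ e) + HahnSeries.C b = expand ∞ e := by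
      simp only [expand, OnePoint.elim_infty]
      rw [p2, map_neg, neg_add_cancel_right]
    rwa [h4, h5] at h3

end Pool.Agent.Adm
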