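import Pool.Agent.Adm.S1
import Pool.Agent.Adm.TR

/-! Lifting coverings to smooth curves. -/

namespace Pool.Agent.Adm

open scoped OnePoint

theorem translate_Lift2 {k G : Type} [Field k] [IsAlgClosed k] [Group G] (c : Cover k G) (b : k)
    {S S' : Set (OnePoint k)} (hT : c.Tame S) (h0 : ∞ ∈ S')
    (h : ∀ a : k, (a : OnePoint k) ∈ S → ((a + b : k) : OnePoint k) ∈ S') :
    ∃ c' : Cover k G, c'.ι.range = c.ι.range ∧ c'.Tame S' ∧
      (∀ (a : k) d, c.MD a d → c'.MD (a + b : k) d) ∧ ∀ d, c.MD ∞ d → c'.MD ∞ d := by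
  obtain ⟨c', h1, h2, h3⟩ := c.exists_translate b
  refine ⟨c', h1, fun x => ?_, fun a d => h2 a _ _ _, fun d => h3 _ _ _⟩
  induction x using OnePoint.rec with
  | infty =>
    obtain ⟨e, ζ, g, m, -⟩ := hT ∞
    exact ⟨e, ζ, g, h3 _ _ _ m, fun hn => absurd h0 hn⟩
  | coe x =>
    obtain ⟨y, rfl⟩ : ∃ y, x = y + b := ⟨x - b, (sub_add_cancel x b).symm⟩
    obtain ⟨e, ζ, g, m, n⟩ := hT y
    exact ⟨e, ζ, g, h2 _ _ _ _ m, fun hn => n fun hy => hn (h y hy)⟩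

theorem mem_S7_Lift2 {k : Type} [Field k] (a : Fin 6 → k) (i : Fin 6) {x : k} (h : x = a i) :
    (x : OnePoint k) ∈ S7 a := .inr ⟨i, by rw [h]⟩

variable {k C : Type} [Field k] [IsAlgClosed k] [NormedField C] [CompleteSpace C]
  [IsUltrametricDist C] [IsAlgClosed C]

theorem lifts32 (φ : k →+* C) (hφ : ∀ x, ‖φ x‖ ≤ 1) (tA tB : C) (hA0 : tA ≠ 0) (hA : ‖tA‖ < 1)
    (hB0 : tB ≠ 0) (hB : ‖tB‖ < 1) (s s' : k) (hs' : s' ≠ 0) :
    Lifts φ (A3 s s') (A1 ![0, tA * φ s, tA, 1, tB⁻¹, φ s' / tB]) := by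
  rintro G _ _ d ⟨c1, c3, c4, T1, T3, T4, g1, g2, hG, m0, m1, m2, m3, m4, m5, m6⟩
  obtain ⟨c, h1, h2, h3, h4, h5, h6⟩ := smooth_top φ hφ tA tB hA0 hA hB0 hB c1 c3 c4 hG g1 g2
  refine ⟨c, fun x => ?_, h1, fun i => ?_, h5 _ _ _ m6⟩
  · induction x using OnePoint.rec with
    | infty => exact ⟨_, _, _, h5 _ _ _ m6, fun hn => absurd (.inl rfl) hn⟩
    | coe x =>
      by_cases a1 : ∃ y, x = tA * φ y
      · obtain ⟨y, rfl⟩ := a1
        obtain ⟨e, ζ, g, m, n⟩ := T1 y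
        refine ⟨e, _, g, h2 _ _ _ _ m, fun hn => n fun hy => hn ?_⟩
        simp only [S4, Set.mem_insert_iff, Set.mem_singleton_iff, OnePoint.coe_eq_coe,
          OnePoint.coe_ne_infty, or_false] at hy
        rcases hy with rfl | rfl | rfl
        · exact mem_S7_Lift2 _ 0 (by simp)
        · exact mem_S7_Lift2 _ 2 (by simp)
        · exact mem_S7_Lift2 _ 1 (by simp)
      by_cases a2 : ∃ y, x = φ y
      · obtain ⟨y, rfl⟩ := a2
        have y0 : y ≠ 0 := fun e => a1 ⟨0, by simp [e]⟩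
        obtain ⟨e, ζ, g, m, n⟩ := T3 y
        refine ⟨e, _, g, h3 _ _ _ _ y0 m, fun hn => n fun hy => hn ?_⟩
        simp only [S3, Set.mem_insert_iff, Set.mem_singleton_iff, OnePoint.coe_eq_coe,
          OnePoint.coe_ne_infty, or_false, y0, false_or] at hy
        exact mem_S7_Lift2 _ 3 (by simp [hy])
      by_cases a3 : ∃ y, x = φ y / tB
      · obtain ⟨y, rfl⟩ := a3
        have y0 : y ≠ 0 := fun e => a1 ⟨0, by simp [e]⟩
        obtain ⟨e, ζ, g, m, n⟩ := T4 y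
        refine ⟨e, _, g, h4 _ _ _ _ y0 m, fun hn => n fun hy => hn ?_⟩
        simp only [S4, Set.mem_insert_iff, Set.mem_singleton_iff, OnePoint.coe_eq_coe,
          OnePoint.coe_ne_infty, or_false, y0, false_or] at hy
        rcases hy with rfl | rfl
        · exact mem_S7_Lift2 _ 4 (by simp)
        · exact mem_S7_Lift2 _ 5 (by simp)
      exact ⟨1, 1, 1, h6 x (not_exists.1 a1) (not_exists.1 a2) (not_exists.1 a3), fun _ => rfl⟩
  · have n0 := h2 _ _ _ _ m0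
    have n2 := h2 _ _ _ _ m2
    have n3 := h3 _ _ _ _ one_ne_zero m3
    have n4 := h4 _ _ _ _ one_ne_zero m4
    rw [map_zero, mul_zero] at n0
    rw [map_one, mul_one] at n2
    rw [map_one] at n3
    rw [map_one, one_div] at n4
    fin_cases i
    exacts [n0, h2 _ _ _ _ m1, n2, n3, n4, h4 _ _ _ _ hs' m5]

theorem lifts_move (φ : k →+* C) (hφ : ∀ x, ‖φ x‖ ≤ 1) (t : C) (h0 : t ≠ 0) (ht : ‖t‖ < 1)
    (a : Fin 6 → k) (ha : Function.Injective a) (i0 : Fin 6) :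
    Lifts φ (A1 a) (A1 (Function.update (fun i => φ (a i)) i0 (φ (a i0) + t))) := by
  rintro G _ _ d ⟨c, T, hG, m, m6⟩
  obtain ⟨c1, r1, T1, m1, n1⟩ := translate_Lift2 c (-a i0) (S' := S7 fun i => a i + -a i0) T
    (.inl rfl) fun x hx => by
      obtain ⟨i, hi⟩ := hx.resolve_left (OnePoint.coe_ne_infty x)
      exact mem_S7_Lift2 _ i (by rw [OnePoint.coe_eq_coe.1 hi])
  obtain ⟨c2, r2, T2, m2, n2, k2⟩ := move_zero φ hφ t h0 ht c1 _ T1 (.inl rfl) (d i0.castSucc) (d 6)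
    (add_neg_cancel (a i0) ▸ m1 _ _ (m i0)) (n1 _ m6)
  have e : ∀ i, φ (a i + -a i0) + φ (a i0) = φ (a i) := fun i => by simp
  obtain ⟨c3, r3, T3, m3, n3⟩ := translate_Lift2 c2 (φ (a i0))
    (S' := S7 (Function.update (fun i => φ (a i)) i0 (φ (a i0) + t))) T2 (.inl rfl) fun x hx => by
      rcases hx.resolve_left (OnePoint.coe_ne_infty x) with hx | ⟨y, y0, hy, hx⟩
      · exact mem_S7_Lift2 _ i0 (by rw [OnePoint.coe_eq_coe.1 hx, Function.update_self, add_comm])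
      · obtain ⟨i, hi⟩ := hy.resolve_left (OnePoint.coe_ne_infty y)
        obtain rfl := OnePoint.coe_eq_coe.1 hi
        refine mem_S7_Lift2 _ i ?_
        rw [OnePoint.coe_eq_coe.1 hx, e, Function.update_of_ne (by rintro rfl; simp at y0)]
  refine ⟨c3, T3, r3.trans (r2.trans (r1.trans hG)), fun i => ?_, n3 _ n2⟩
  by_cases hi : i = i0
  · subst hi
    rw [Function.update_self, add_comm]
    exact m3 _ _ m2
  · rw [Function.update_of_ne hi, ← e]
    exact m3 _ _ (k2 _ _ (fun h => hi (ha (add_neg_eq_zero.1 h))) (m1 _ _ (m i)))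

end Pool.Agent.Adm
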