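import Pool.Agent.Adm.CDefs
import Pool.Agent.Adm.LabL

/-! Strictness of a step, and chains in the space of fundamental groups. -/

namespace Pool.Agent.Adm

/-- The finite quotients of Y are finite quotients of X. -/
def QLe {p n : ℕ} (Y X : StableCurve p n) : Prop :=
  ∀ (G : Type) [Group G] [Finite G], Y.HasCover G → X.HasCover G

theorem qle_of_lifts {p : ℕ} {k k' : Type} [Field k] [Field k'] {Y X : StableCurve p 7}
    {A : AdmP k} {A' : AdmP k'} (hY : Describes Y A) (hX : Describes X A') (φ : k →+* k')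
    (hl : Lifts φ A A') : QLe Y X := by
  intro G _ _ h
  obtain ⟨d, hd⟩ := (hY G).1 h
  exact (hX G).2 ⟨_, hl G d hd⟩

/-- Characters that are linear parts of affine actions without a fixed point. -/
def nfSetStrict (F : Type) [Field F] (G : Type) [Group G] : Set (G →* Fˣ) :=
  {χ | ∃ ψ : G →* Aff F, Aff.lin.comp ψ = χ ∧ ¬ Aff.HasFix ψ.range}

theorem not_qle {p : ℕ} {k k' F : Type} [Field k] [Field k'] [Field F] [Fintype F]
    {Y X : StableCurve p 7} {A : AdmP k} {A' : AdmP k'} (hY : Describes Y A)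
    (hX : Describes X A') (φ : k →+* k') (hl : Lifts φ A A') (θ : F →+* k) (n : Fin 7 → ℤ)
    (hfix : AllFix θ A n) (hnew : NewCov (φ.comp θ) A' n)
    (hne : ∃ (G : Type) (_ : Group G) (_ : Finite G), Y.HasCover G) (N : ℕ)
    (hb : ∀ (G : Type) [Group G] [Finite G], Y.HasCover G → Nat.card (G →* Fˣ) ≤ N) :
    ¬ QLe X Y := by
  intro hq
  classical
  let P : ℕ → Prop := fun m => ∃ (G : Type) (_ : Group G) (_ : Finite G), Y.HasCover G ∧
    (nfSetStrict F G).ncard = m
  have hP : ∀ m, P m → m ≤ N := by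
    rintro m ⟨G, _, _, h, rfl⟩
    have : Finite (G →* Fˣ) := DFunLike.finite _
    exact (Set.ncard_le_card _).trans (hb G h)
  obtain ⟨G1, i1, i2, h1⟩ := hne
  have hP1 : P (nfSetStrict F G1).ncard := ⟨G1, i1, i2, h1, rfl⟩
  have hmax := Nat.findGreatest_spec (hP _ hP1) hP1
  obtain ⟨G, _, _, hG, hGe⟩ := hmax
  obtain ⟨d, hd⟩ := (hY G).1 hG
  obtain ⟨H, _, _, pr, ψ, d', hd', hsurj, hnf, hlab⟩ := hnew G _ (hl G d hd)
  have hH : Y.HasCover H := hq H ((hX H).2 ⟨d', hd'⟩)
  have hPH : P (nfSetStrict F H).ncard := ⟨H, _, inferInstance, hH, rfl⟩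
  have hle := Nat.le_findGreatest (hP _ hPH) hPH
  rw [← hGe] at hle
  have : Finite (H →* Fˣ) := DFunLike.finite _
  have hinj : Function.Injective fun χ : G →* Fˣ => χ.comp pr := by
    intro a b hab
    ext g
    obtain ⟨h, rfl⟩ := hsurj g
    exact congrArg Units.val (DFunLike.congr_fun hab h)
  have hsub : (fun χ : G →* Fˣ => χ.comp pr) '' nfSetStrict F G ⊂ nfSetStrict F H := by
    constructor
    · rintro _ ⟨χ, ⟨ψ0, rfl, h0⟩, rfl⟩
      refine ⟨ψ0.comp pr, rfl, ?_⟩
      rintro ⟨β, hβ⟩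
      refine h0 ⟨β, ?_⟩
      rintro _ ⟨g, rfl⟩
      obtain ⟨h, rfl⟩ := hsurj g
      exact hβ _ ⟨h, rfl⟩
    · intro hc
      obtain ⟨χ, ⟨ψ0, rfl, h0⟩, he⟩ := hc (⟨ψ, rfl, hnf⟩ : Aff.lin.comp ψ ∈ nfSetStrict F H)
      refine h0 (hfix G d ψ0 hd fun i => ?_)
      exact (lab_map_iff φ).1 (hlab _ he i)
  have hlt := Set.ncard_lt_ncard hsub (Set.toFinite _)
  rw [Set.ncard_image_of_injective _ hinj] at hlt
  omega

/-- The class of a curve. -/
def clsStrict {p n : ℕ} (X : StableCurve p n) : PiBar p n := Quot.mk _ X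

theorem mem_U_Strict {p n : ℕ} (X : StableCurve p n) (G : Type) [Group G] [Finite G] :
    clsStrict X ∈ U p n G ↔ X.HasCover G := by
  constructor
  · rintro ⟨X', h, hX'⟩
    have hw : ∀ A B : StableCurve p n,
        (∀ (G : Type) [Group G] [Finite G], A.HasCover G ↔ B.HasCover G) →
        A.HasCover G = B.HasCover G := fun A B hAB => propext (hAB G)
    have : X'.HasCover G = X.HasCover G :=
      congrArg (Quot.lift (fun A : StableCurve p n => A.HasCover G) hw) h
    exact this ▸ hX'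
  · intro h
    exact ⟨X, rfl, h⟩

theorem specializes_iff_Strict {p n : ℕ} (Y X : StableCurve p n) :
    clsStrict X ⤳ clsStrict Y ↔ QLe Y X := by
  rw [specializes_iff_forall_open]
  constructor
  · intro h G _ _ hG
    refine (mem_U_Strict X G).1 (h _ ?_ ((mem_U_Strict Y G).2 hG))
    exact TopologicalSpace.GenerateOpen.basic _ ⟨G, _, inferInstance, rfl⟩
  · intro h s hs
    induction hs with
    | basic s hs =>
      obtain ⟨G, _, _, rfl⟩ := hs
      intro hG
      exact (mem_U_Strict X G).2 (h G ((mem_U_Strict Y G).1 hG))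
    | univ => exact fun _ => Set.mem_univ _
    | inter s t _ _ h1 h2 => exact fun hm => ⟨h1 hm.1, h2 hm.2⟩
    | sUnion S _ ih =>
      rintro ⟨t, ht, hm⟩
      exact ⟨t, ht, ih t ht hm⟩

theorem le_krullDim_of_chain {p n r : ℕ} (x : Fin (r + 1) → StableCurve p n)
    (h1 : ∀ i : Fin r, QLe (x i.castSucc) (x i.succ))
    (h2 : ∀ i : Fin r, ¬ QLe (x i.succ) (x i.castSucc)) :
    (r : WithBot ℕ∞) ≤ topologicalKrullDim (PiBar p n) := by
  let f : Fin (r + 1) → TopologicalSpace.IrreducibleCloseds (PiBar p n) := fun i =>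
    ⟨closure {clsStrict (x i)}, isIrreducible_singleton.closure, isClosed_closure⟩
  have hle : ∀ i j, f i ≤ f j ↔ QLe (x i) (x j) := by
    intro i j
    rw [← specializes_iff_Strict, specializes_iff_closure_subset]
    rfl
  let s : LTSeries (TopologicalSpace.IrreducibleCloseds (PiBar p n)) :=
    ⟨r, f, fun i => lt_of_le_not_ge ((hle _ _).2 (h1 i)) fun h => h2 i ((hle _ _).1 h)⟩
  exact Order.LTSeries.length_le_krullDim s

end Pool.Agent.Adm
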