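import Pool.Agent.Adm.T2

/-! Laurent series over a trivially valued subfield converge on circles of radius less than one;
rationality criterion. -/

namespace Pool.Agent.Adm

open Filter Topology

noncomputable section

namespace T

variable {k C : Type} [Field k] [NormedField C] [CompleteSpace C] [IsUltrametricDist C]

theorem tendsto_toNat_T3 : Tendsto Int.toNat atTop atTop :=
  tendsto_atTop_atTop.2 fun b => ⟨b, fun a ha => by omega⟩

theorem coeff_mul_T3 (x y : LaurentSeries k) (n : ℤ) :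
    ∃ s : Finset ℤ, (x * y).coeff n = ∑ i ∈ s, x.coeff i * y.coeff (n - i) ∧
      ∀ i ∉ s, x.coeff i = 0 ∨ y.coeff (n - i) = 0 := by
  refine ⟨(Finset.antidiagonal x.isPWO_support y.isPWO_support n).image Prod.fst, ?_, ?_⟩
  · rw [HahnSeries.coeff_mul, Finset.sum_image]
    · refine Finset.sum_congr rfl fun ij hij => ?_
      rw [Finset.mem_antidiagonal] at hij
      rw [← hij.2.2, add_sub_cancel_left]
    · intro a ha b hb hab
      rw [Finset.mem_coe, Finset.mem_antidiagonal] at ha hb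
      refine Prod.ext hab ?_
      have h1 := ha.2.2
      have h2 := hb.2.2
      omega
  · intro i hi
    by_contra h
    rw [not_or] at h
    refine hi (Finset.mem_image.2 ⟨(i, n - i), ?_, rfl⟩)
    rw [Finset.mem_antidiagonal]
    exact ⟨h.1, h.2, by simp⟩

theorem tendsto_emb (φ : k →+* C) (hφ : ∀ x, ‖φ x‖ ≤ 1) (γ : C) (hγ : ‖γ‖ < 1)
    (x : LaurentSeries k) :
    Tendsto (fun n : ℤ => γ ^ n * φ (x.coeff n)) cofinite (𝓝 0) := by
  rw [Int.cofinite_eq, tendsto_sup]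
  constructor
  · refine tendsto_const_nhds.congr' ?_
    filter_upwards [eventually_lt_atBot x.order] with n hn
    rw [HahnSeries.coeff_eq_zero_of_lt_order hn, map_zero, mul_zero]
  · have h1 : Tendsto (fun n : ℤ => ‖γ‖ ^ n.toNat) atTop (𝓝 0) :=
      (tendsto_pow_atTop_nhds_zero_of_lt_one (norm_nonneg γ) hγ).comp tendsto_toNat_T3
    refine squeeze_zero_norm' ?_ h1
    filter_upwards [eventually_ge_atTop (0 : ℤ)] with n hn
    rw [norm_mul, norm_zpow, ← zpow_natCast, Int.toNat_of_nonneg hn]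
    exact mul_le_of_le_one_right (zpow_nonneg (norm_nonneg γ) n) (hφ _)

/-- The substitution z ↦ γ V. -/
def emb (φ : k →+* C) (hφ : ∀ x, ‖φ x‖ ≤ 1) (γ : C) (h0 : γ ≠ 0) (hγ : ‖γ‖ < 1) :
    LaurentSeries k →+* T C where
  toFun x := mk (fun n => γ ^ n * φ (x.coeff n)) (tendsto_emb φ hφ γ hγ x)
  map_one' := by
    ext n
    by_cases hn : n = 0 <;> simp [hn, coeff_one, HahnSeries.coeff_one]
  map_zero' := by ext n; simp
  map_add' := by intro x y; ext n; simp [mul_add]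
  map_mul' := by
    intro x y
    ext n
    obtain ⟨s, h1, h2⟩ := coeff_mul_T3 x y n
    rw [coeff_mul, tsum_eq_sum (s := s)]
    · simp only [coeff_mk]
      rw [h1, map_sum, Finset.mul_sum]
      refine Finset.sum_congr rfl fun i _ => ?_
      have h3 : γ ^ n = γ ^ i * γ ^ (n - i) := by rw [← zpow_add₀ h0, add_sub_cancel]
      rw [h3, map_mul]
      ring
    · intro i hi
      rcases h2 i hi with h | h <;> simp [h]

@[simp] theorem coeff_emb (φ : k →+* C) (hφ : ∀ x, ‖φ x‖ ≤ 1) (γ : C) (h0 : γ ≠ 0) (hγ : ‖γ‖ < 1)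
    (x : LaurentSeries k) (n : ℤ) : (emb φ hφ γ h0 hγ x).coeff n = γ ^ n * φ (x.coeff n) := rfl

theorem emb_single (φ : k →+* C) (hφ : ∀ x, ‖φ x‖ ≤ 1) (γ : C) (h0 : γ ≠ 0) (hγ : ‖γ‖ < 1)
    (n : ℤ) (c : k) : emb φ hφ γ h0 hγ (HahnSeries.single n c) = mono n (γ ^ n * φ c) := by
  ext m
  by_cases hm : m = n <;> simp [hm, coeff_mono, HahnSeries.coeff_single]

theorem emb_C (φ : k →+* C) (hφ : ∀ x, ‖φ x‖ ≤ 1) (γ : C) (h0 : γ ≠ 0) (hγ : ‖γ‖ < 1) (c : k) :
    emb φ hφ γ h0 hγ (HahnSeries.C c) = cst (φ c) := by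
  rw [HahnSeries.C_apply, emb_single, cst_apply, zpow_zero, one_mul]

omit [CompleteSpace C] [IsUltrametricDist C] in
theorem norm_phi (φ : k →+* C) (hφ : ∀ x, ‖φ x‖ ≤ 1) (c : k) (hc : c ≠ 0) : ‖φ c‖ = 1 := by
  refine le_antisymm (hφ c) ?_
  have h1 : ‖φ c‖ * ‖φ c⁻¹‖ = 1 := by rw [← norm_mul, ← map_mul, mul_inv_cancel₀ hc, map_one, norm_one]
  calc (1 : ℝ) = ‖φ c‖ * ‖φ c⁻¹‖ := h1.symm
    _ ≤ ‖φ c‖ := mul_le_of_le_one_right (norm_nonneg _) (hφ _)

theorem emb_scL (φ : k →+* C) (hφ : ∀ x, ‖φ x‖ ≤ 1) (γ : C) (h0 : γ ≠ 0) (hγ : ‖γ‖ < 1)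
    (ζ : k) (hζ : ζ ≠ 0) (x : LaurentSeries k) :
    emb φ hφ γ h0 hγ (scL ζ hζ x) = sc (φ ζ) (norm_phi φ hφ ζ hζ) (emb φ hφ γ h0 hγ x) := by
  ext n
  simp only [coeff_emb, scL_coeff, coeff_sc, map_mul, map_zpow₀]
  ring

end T

end

end Pool.Agent.Adm
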