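import Pool.Agent.Adm.Fin1
import Pool.Agent.Adm.Lift2
import Pool.Agent.Adm.FC
import Pool.Agent.Adm.T3
import Pool.Agent.Adm.Strict
import Pool.Agent.Adm.Bridge
import Pool.Agent.Adm.Fix3

/-! The upper half of the chain: from the three-component curve to smooth curves. -/

namespace Pool.Agent.Adm

theorem notMem_range_of_norm_lt {k C : Type} [Field k] [NormedField C] (φ : k →+* C)
    (hφ : ∀ x, ‖φ x‖ ≤ 1) (t : C) (h0 : t ≠ 0) (ht : ‖t‖ < 1) : t ∉ Set.range φ := by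
  rintro ⟨x, rfl⟩
  have hx : x ≠ 0 := fun h => h0 (by rw [h, map_zero])
  rw [T.norm_phi φ hφ x hx] at ht
  exact lt_irrefl _ ht

theorem a2_injective {C : Type} [NormedField C] (t μ : C) (h0 : t ≠ 0) (ht : ‖t‖ < 1)
    (hμ : ‖μ‖ = 1) (h1 : μ ≠ 1) :
    Function.Injective ![0, t * μ, t, 1, (t * μ)⁻¹, μ / (t * μ)] := by
  have hμ0 : μ ≠ 0 := fun h => by simp [h] at hμ
  have hpos : 0 < ‖t‖ := norm_pos_iff.2 h0
  have hinv : 1 < ‖t‖⁻¹ := (one_lt_inv₀ hpos).2 ht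
  have n1 : ‖t * μ‖ = ‖t‖ := by rw [norm_mul, hμ, mul_one]
  have n4 : ‖(t * μ)⁻¹‖ = ‖t‖⁻¹ := by rw [norm_inv, n1]
  have n5 : ‖μ / (t * μ)‖ = ‖t‖⁻¹ := by rw [norm_div, n1, hμ, one_div]
  have d12 : t * μ ≠ t := fun h => h1 (mul_left_cancel₀ h0 (h.trans (mul_one t).symm))
  have d45 : (t * μ)⁻¹ ≠ μ / (t * μ) := fun h => by
    rw [div_eq_mul_inv] at h
    exact h1 (mul_right_cancel₀ (inv_ne_zero (mul_ne_zero h0 hμ0)) (h.symm.trans (one_mul _).symm))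
  have ne : ∀ x y : C, ‖x‖ ≠ ‖y‖ → x ≠ y := fun x y h e => h (by rw [e])
  have e01 : (0 : C) ≠ t * μ := ne _ _ (by rw [n1, norm_zero]; linarith)
  have e02 : (0 : C) ≠ t := h0.symm
  have e03 : (0 : C) ≠ 1 := zero_ne_one
  have e04 : (0 : C) ≠ (t * μ)⁻¹ := ne _ _ (by rw [n4, norm_zero]; linarith)
  have e05 : (0 : C) ≠ μ / (t * μ) := ne _ _ (by rw [n5, norm_zero]; linarith)
  have e13 : t * μ ≠ 1 := ne _ _ (by rw [n1, norm_one]; linarith)
  have e14 : t * μ ≠ (t * μ)⁻¹ := ne _ _ (by rw [n4, n1]; linarith)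
  have e15 : t * μ ≠ μ / (t * μ) := ne _ _ (by rw [n5, n1]; linarith)
  have e23 : t ≠ 1 := ne _ _ (by rw [norm_one]; linarith)
  have e24 : t ≠ (t * μ)⁻¹ := ne _ _ (by rw [n4]; linarith)
  have e25 : t ≠ μ / (t * μ) := ne _ _ (by rw [n5]; linarith)
  have e34 : (1 : C) ≠ (t * μ)⁻¹ := ne _ _ (by rw [n4, norm_one]; linarith)
  have e35 : (1 : C) ≠ μ / (t * μ) := ne _ _ (by rw [n5, norm_one]; linarith)
  intro i j hij
  fin_cases i <;> fin_cases j <;>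
    first
    | rfl
    | (exfalso
       simp only [Fin.reduceFinMk, Matrix.cons_val] at hij
       first
       | exact e01 hij | exact e02 hij | exact e03 hij | exact e04 hij | exact e05 hij
       | exact d12 hij | exact e13 hij | exact e14 hij | exact e15 hij | exact e23 hij
       | exact e24 hij | exact e25 hij | exact e34 hij | exact e35 hij | exact d45 hij
       | exact e01 hij.symm | exact e02 hij.symm | exact e03 hij.symm | exact e04 hij.symm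
       | exact e05 hij.symm | exact d12 hij.symm | exact e13 hij.symm | exact e14 hij.symm
       | exact e15 hij.symm | exact e23 hij.symm | exact e24 hij.symm | exact e25 hij.symm
       | exact e34 hij.symm | exact e35 hij.symm | exact d45 hij.symm)

theorem inv_pair {C : Type} [Field C] (u : C) (h0 : u ≠ 0) (h1 : u ≠ 1) :
    1 / (1 - u) + 1 / (1 - u⁻¹) = 1 := by
  have h2 : 1 - u ≠ 0 := sub_ne_zero.2 h1.symm
  have h3 : 1 - u⁻¹ ≠ 0 := sub_ne_zero.2 fun h => h1 (by rw [← inv_inv u, ← h, inv_one])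
  have h4 : u - 1 ≠ 0 := sub_ne_zero.2 h1
  field_simp
  ring

theorem bound_A1 {k F : Type} [Field k] [IsAlgClosed k] [Field F] [Fintype F] (θ : F →+* k)
    (a : Fin 6 → k) (G : Type) [Group G] (d : Fin 7 → Dat k G) (h : A1 a G d) :
    Nat.card (G →* Fˣ) ≤ Fintype.card F ^ 6 := by
  obtain ⟨c, hT, hc, -⟩ := h
  refine (c.card_hom_le θ hc a (S7 a) hT ?_).2
  intro x hx
  rcases hx with hx | ⟨i, hi⟩
  · exact absurd hx (OnePoint.coe_ne_infty x)
  · exact ⟨i, OnePoint.coe_injective hi⟩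

theorem upper_chain {k F : Type} [Field k] [IsAlgClosed k] [Field F] [Fintype F] (θ : F →+* k)
    (p : ℕ) (hp : p.Prime) (hF : Fintype.card F = p ^ 2) (μ : k) (h0 : μ ≠ 0) (h1 : μ ≠ 1)
    (X3 : StableCurve p 7) (hX3 : Describes X3 (A3 μ μ))
    (hne : ∃ (G : Type) (_ : Group G) (_ : Finite G), X3.HasCover G) :
    ∃ X2 X1 X0 : StableCurve p 7, QLe X3 X2 ∧ QLe X2 X1 ∧ QLe X1 X0 ∧ ¬ QLe X2 X3 ∧
      ¬ QLe X1 X2 ∧ ¬ QLe X0 X1 ∧
      ∀ (G : Type) [Group G] [Finite G], X0.HasCover G →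
        Nat.card (G →* Fˣ) ≤ Fintype.card F ^ 6 := by
  obtain ⟨C2, _, _, _, _, φ2, hφ2, t, ht0, ht⟩ := exists_bigField k
  have nμ : ‖φ2 μ‖ = 1 := T.norm_phi φ2 hφ2 μ h0
  have hμ0 : φ2 μ ≠ 0 := (map_ne_zero φ2).2 h0
  have hμ1 : φ2 μ ≠ 1 := fun h => h1 (φ2.injective (h.trans (map_one φ2).symm))
  have htB : ‖t * φ2 μ‖ < 1 := by rwa [norm_mul, nμ, mul_one]
  have l32 := lifts32 φ2 hφ2 t (t * φ2 μ) ht0 ht (mul_ne_zero ht0 hμ0) htB μ μ h0
  have i2 := a2_injective t (φ2 μ) ht0 ht nμ hμ1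
  set a2 : Fin 6 → C2 := ![0, t * φ2 μ, t, 1, (t * φ2 μ)⁻¹, φ2 μ / (t * φ2 μ)] with ha2
  have b0 : a2 0 = 0 := rfl
  have b3 : a2 3 = 1 := rfl
  have b4 : a2 4 = (a2 1)⁻¹ := rfl
  have b5 : a2 5 = (a2 2)⁻¹ := by
    change φ2 μ / (t * φ2 μ) = t⁻¹
    field_simp
  have c1 : a2 1 ≠ 0 := fun h => absurd (i2 (h.trans b0.symm)) (by decide)
  have c2 : a2 2 ≠ 0 := fun h => absurd (i2 (h.trans b0.symm)) (by decide)
  have c1' : a2 1 ≠ 1 := fun h => absurd (i2 (h.trans b3.symm)) (by decide)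
  have c2' : a2 2 ≠ 1 := fun h => absurd (i2 (h.trans b3.symm)) (by decide)
  have p1 := inv_pair _ c1 c1'
  have p2 := inv_pair _ c2 c2'
  rw [← b4] at p1
  rw [← b5] at p2
  clear_value a2
  obtain ⟨C1, _, _, _, _, φ1, hφ1, t1, ht10, ht1⟩ := exists_bigField C2
  have l21 := lifts_move φ1 hφ1 t1 ht10 ht1 a2 i2 0
  have i1 := update_injective φ1 a2 i2 0 t1 (notMem_range_of_norm_lt φ1 hφ1 t1 ht10 ht1)
  set a1 := Function.update (fun i => φ1 (a2 i)) 0 (φ1 (a2 0) + t1) with ha1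
  have d0 : a1 0 = t1 := by rw [ha1, Function.update_self, b0, map_zero, zero_add]
  have d : ∀ i, i ≠ 0 → a1 i = φ1 (a2 i) := fun i hi => by rw [ha1, Function.update_of_ne hi]
  have d3 : a1 3 = 1 := by rw [d 3 (by decide), b3, map_one]
  have q1 : 1 / (1 - a1 1) + 1 / (1 - a1 4) = 1 := by
    rw [d 1 (by decide), d 4 (by decide)]
    simpa using congrArg φ1 p1
  have q2 : 1 / (1 - a1 2) + 1 / (1 - a1 5) = 1 := by
    rw [d 2 (by decide), d 5 (by decide)]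
    simpa using congrArg φ1 p2
  clear_value a1
  obtain ⟨C0, _, _, _, _, φ0, hφ0, t0, ht00, ht0'⟩ := exists_bigField C1
  have l10 := lifts_move φ0 hφ0 t0 ht00 ht0' a1 i1 2
  have i0 := update_injective φ0 a1 i1 2 t0 (notMem_range_of_norm_lt φ0 hφ0 t0 ht00 ht0')
  set a0 := Function.update (fun i => φ0 (a1 i)) 2 (φ0 (a1 2) + t0) with ha0
  have f2 : a0 2 = φ0 (a1 2) + t0 := by rw [ha0, Function.update_self]
  have f : ∀ i, i ≠ 2 → a0 i = φ0 (a1 i) := fun i hi => by rw [ha0, Function.update_of_ne hi]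
  have f3 : a0 3 = 1 := by rw [f 3 (by decide), d3, map_one]
  have r1 : 1 / (1 - a0 1) + 1 / (1 - a0 4) = 1 := by
    rw [f 1 (by decide), f 4 (by decide)]
    simpa using congrArg φ0 q1
  have r2 : 1 / (1 - φ0 (a1 2)) + 1 / (1 - a0 5) = 1 := by
    rw [f 5 (by decide)]
    simpa using congrArg φ0 q2
  clear_value a0
  haveI := charP_of_card (φ2.comp θ) p hp hF
  haveI := charP_of_card (φ1.comp (φ2.comp θ)) p hp hF
  haveI := charP_of_card (φ0.comp (φ1.comp (φ2.comp θ))) p hp hF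
  obtain ⟨X2, hX2⟩ := exists_curve1 p a2 i2
  obtain ⟨X1, hX1⟩ := exists_curve1 p a1 i1
  obtain ⟨X0, hX0⟩ := exists_curve1 p a0 i0
  have g32 := qle_of_lifts hX3 hX2 φ2 l32
  have g21 := qle_of_lifts hX2 hX1 φ1 l21
  have g10 := qle_of_lifts hX1 hX0 φ0 l10
  have hb : ∀ (G : Type) [Group G] [Finite G], X0.HasCover G →
      Nat.card (G →* Fˣ) ≤ Fintype.card F ^ 6 := by
    intro G _ _ h
    obtain ⟨d, hd⟩ := (hX0 G).1 h
    exact bound_A1 (φ0.comp (φ1.comp (φ2.comp θ))) a0 G d hd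
  obtain ⟨G0, _, _, hG0⟩ := hne
  refine ⟨X2, X1, X0, g32, g21, g10, ?_, ?_, ?_, hb⟩
  · exact not_qle hX3 hX2 φ2 l32 θ _ (fix3 θ p hp hF μ μ h0 h1 h0 h1)
      (new32 _ p hp hF a2 i2 b0 b3) ⟨G0, _, inferInstance, hG0⟩ _
      fun G _ _ h => hb G (g10 G (g21 G (g32 G h)))
  · refine not_qle hX2 hX1 φ1 l21 (φ2.comp θ) _ (fix21 _ p hp hF a2 i2 b3 ?_)
      (new21 _ p hp hF a1 i1 d3 ?_) ⟨G0, _, inferInstance, g32 G0 hG0⟩ _
      fun G _ _ h => hb G (g10 G (g21 G h))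
    · rw [b0, sub_zero, div_one]
      linear_combination -p2
    · intro h
      have h2 : 1 / (1 - a1 0) = 1 := by linear_combination h + q2
      rw [d0, one_div, inv_eq_one, sub_eq_self] at h2
      exact ht10 h2
  · refine not_qle hX1 hX0 φ0 l10 (φ1.comp (φ2.comp θ)) _ (fix10 _ p hp hF a1 i1 d3 ?_)
      (new10 _ p hp hF a0 i0 f3 ?_) ⟨G0, _, inferInstance, g21 G0 (g32 G0 hG0)⟩ _
      fun G _ _ h => hb G (g10 G h)
    · linear_combination q2 - q1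
    · intro h
      have h2 : 1 / (1 - a0 2) = 1 / (1 - φ0 (a1 2)) := by linear_combination h + r1 - r2
      rw [one_div, one_div, inv_inj, f2, sub_right_inj, add_eq_left] at h2
      exact ht00 h2

end Pool.Agent.Adm
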