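import Pool.Agent.Adm.VF
import Pool.Agent.Adm.CDefs
import Pool.Agent.Adm.Kap
import Pool.Agent.Adm.LabL

/-! Affine quotients of the lower curve of each step have a fixed point. -/

namespace Pool.Agent.Adm

open scoped OnePoint
open Polynomial

variable {k F : Type} [Field k] [IsAlgClosed k] [Field F] [Fintype F]

theorem vert_Fix4 {G : Type} [Group G] (c : Cover k G) (θ : F →+* k) (ψ : G →* Aff F)
    (hT : c.Tame (S3 k)) (n0 n1 : ℕ)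
    (h0 : ∃ e ζ g, c.Mono ((0 : k) : OnePoint k) e ζ g ∧
      Lab (Fintype.card F - 1) e ζ (θ (ψ g).u) n0)
    (h1 : ∃ e ζ g, c.Mono ((1 : k) : OnePoint k) e ζ g ∧
      Lab (Fintype.card F - 1) e ζ (θ (ψ g).u) n1) :
    (∀ e ζ g, c.Mono ∞ e ζ g →
      Lab (Fintype.card F - 1) e ζ (θ (ψ g).u) (-((n0 + n1 : ℕ) : ℤ))) ∧
    ((n0 + n1 ≤ Fintype.card F - 1 ∨ (n0 + n1 = Fintype.card F ∧ (n1 : k) = 0)) →
      Aff.HasFix (c.ι.range.map ψ)) := by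
  have hq : 1 < Fintype.card F := Fintype.one_lt_card
  obtain ⟨a1, a2, -⟩ := c.vertex θ ψ ![0, 1]
    (by
      intro i j h
      fin_cases i <;> fin_cases j <;> simp_all)
    ![n0, n1] _ hT
    (by
      intro x hx
      simp only [S3, Set.mem_insert_iff, OnePoint.coe_eq_coe, Set.mem_singleton_iff,
        OnePoint.coe_ne_infty, or_false] at hx
      rcases hx with rfl | rfl
      · exact ⟨0, rfl⟩
      · exact ⟨1, rfl⟩)
    (by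
      intro i
      fin_cases i
      · exact h0
      · exact h1)
  have hs : ∑ i, (![n0, n1] : Fin 2 → ℕ) i = n0 + n1 := by simp [Fin.sum_univ_two]
  rw [hs] at a1 a2
  refine ⟨a1, fun h => a2 (h.imp_right fun h => ⟨by omega, ?_⟩)⟩
  rw [coeff_prod_pred _ _ _ (by rw [hs]; omega)]
  simp [Fin.sum_univ_two, h.2]

omit [IsAlgClosed k] in
theorem glue_Fix4 {G : Type} [Group G] {c c' : Cover k G} (θ : F →+* k) (ψ : G →* Aff F)
    (hg : Glue c c') (N : ℕ)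
    (h : ∀ e ζ g, c.Mono ∞ e ζ g → Lab (Fintype.card F - 1) e ζ (θ (ψ g).u) (-(N : ℤ))) :
    (∃ e ζ g, c'.Mono ((0 : k) : OnePoint k) e ζ g ∧
      Lab (Fintype.card F - 1) e ζ (θ (ψ g).u) N) ∧
    (0 < N → N < Fintype.card F - 1 →
      ∃ g, g ∈ c.ι.range.map ψ ∧ g ∈ c'.ι.range.map ψ ∧ g.u ≠ 1) := by
  obtain ⟨e, ζ, g, m1, m2⟩ := hg
  have h1 := (h e ζ g m1).inv
  rw [neg_neg] at h1
  refine ⟨⟨e, ζ⁻¹, g, m2, h1⟩, fun h2 h3 => ⟨ψ g, ⟨g, m1.mem_range, rfl⟩, ⟨g, m2.mem_range, rfl⟩,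
    fun hu => ?_⟩⟩
  rw [hu, Units.val_one, map_one] at h1
  have h4 := Int.modEq_iff_dvd.1 (Lab.unique m2.1 m2.2.1 (lab_one _ _ _) h1)
  rw [sub_zero] at h4
  have := Nat.le_of_dvd h2 (Int.natCast_dvd_natCast.1 h4)
  omega

theorem fix4 (θ : F →+* k) (p : ℕ) (hp : p.Prime) (hF : Fintype.card F = p ^ 2) (s : k)
    (h0 : s ≠ 0) (h1 : s ≠ 1) :
    AllFix θ (A4 s) ![0, 0, 0, (p : ℤ) ^ 2 - p - 1, 1, p, -1] := by
  rintro G _ d ψ ⟨c1, c3, c4, c5, t1, t3, t4, t5, g1, g3, g4, htop, m0, m1, m2, m3, m4, m5, -⟩ hl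
  have hp2 := hp.two_le
  have hpp : p + 2 ≤ p ^ 2 := by nlinarith
  obtain ⟨r, hr⟩ : ∃ r, p ^ 2 = p + 2 + r := Nat.exists_eq_add_of_le hpp
  have hpk : (p : k) = 0 := by
    have := card_cast_eq_zero θ
    rw [hF, Nat.cast_pow] at this
    exact pow_eq_zero_iff (two_ne_zero) |>.1 this
  have e3 : (p : ℤ) ^ 2 - p - 1 = ((r + 1 : ℕ) : ℤ) := by
    have : ((p ^ 2 : ℕ) : ℤ) = ((p + 2 + r : ℕ) : ℤ) := by rw [hr]
    push_cast at this ⊢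
    linarith
  obtain ⟨a1, -, b1⟩ := c1.vertex θ ψ ![0, s, 1]
    (by
      intro i j h
      fin_cases i <;> fin_cases j <;> simp_all [eq_comm])
    (fun _ => 0) _ t1
    (by
      intro x hx
      simp only [S4, Set.mem_insert_iff, OnePoint.coe_eq_coe, Set.mem_singleton_iff,
        OnePoint.coe_ne_infty, or_false] at hx
      rcases hx with rfl | rfl | rfl
      · exact ⟨0, rfl⟩
      · exact ⟨2, rfl⟩
      · exact ⟨1, rfl⟩)
    (by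
      intro i
      fin_cases i
      · exact ⟨_, _, _, m0, hl 0⟩
      · exact ⟨_, _, _, m1, hl 1⟩
      · exact ⟨_, _, _, m2, hl 2⟩)
  rw [Finset.sum_const_zero] at a1 b1
  obtain ⟨l3, -⟩ := glue_Fix4 θ ψ g1 0 a1
  obtain ⟨a3, b3⟩ := vert_Fix4 c3 θ ψ t3 0 (r + 1) l3 ⟨_, _, _, m3, e3 ▸ hl 3⟩
  obtain ⟨l4, n4⟩ := glue_Fix4 θ ψ g3 _ a3
  obtain ⟨a4, b4⟩ := vert_Fix4 c4 θ ψ t4 _ 1 l4 ⟨_, _, _, m4, hl 4⟩
  obtain ⟨l5, n5⟩ := glue_Fix4 θ ψ g4 _ a4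
  obtain ⟨-, b5⟩ := vert_Fix4 c5 θ ψ t5 _ p l5 ⟨_, _, _, m5, hl 5⟩
  obtain ⟨x, x1, x2, x3⟩ := n4 (by omega) (by omega)
  obtain ⟨y, y1, y2, y3⟩ := n5 (by omega) (by omega)
  rw [MonoidHom.range_eq_map, ← htop, Subgroup.map_sup, Subgroup.map_sup, Subgroup.map_sup, b1 rfl,
    bot_sup_eq]
  exact ((b3 (Or.inl (by omega))).sup (b4 (Or.inl (by omega))) x x1 x2 x3).sup
    (b5 (Or.inr ⟨by omega, hpk⟩)) y (Subgroup.mem_sup_right y1) y2 y3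

end Pool.Agent.Adm
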