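import Pool.Agent.Adm.S1
import Pool.Agent.Adm.BC

/-! Lifting coverings along the nodal part of the chain. -/

namespace Pool.Agent.Adm

open scoped OnePoint

theorem Cover.exists_bc {k k' G : Type} [Field k] [IsAlgClosed k] [Field k'] [IsAlgClosed k']
    [Group G] (c : Cover k G) (φ : k →+* k') (S : Set (OnePoint k)) (hT : c.Tame S) :
    ∃ c' : Cover k' G, c'.ι.range = c.ι.range ∧ c'.Tame (OnePoint.map φ '' S) ∧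
      ∀ a e ζ g, c.Mono a e ζ g → c'.Mono (a.map φ) e (φ ζ) g := by
  obtain ⟨c', h1, h2, h3⟩ := c.exists_baseChange φ (by
    obtain ⟨e, ζ, g, h, -⟩ := hT ∞
    exact ⟨_, e, ζ, g, h⟩)
  refine ⟨c', h1, fun a => ?_, h2⟩
  by_cases ha : ∃ b : OnePoint k, b.map φ = a
  · obtain ⟨b, rfl⟩ := ha
    obtain ⟨e, ζ, g, h, h'⟩ := hT b
    exact ⟨e, _, g, h2 _ _ _ _ h, fun hb => h' fun hb' => hb ⟨b, hb', rfl⟩⟩
  · induction a using OnePoint.rec with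
    | infty => exact absurd ⟨∞, rfl⟩ ha
    | coe x => exact ⟨1, 1, 1, h3 x (by rintro ⟨y, rfl⟩; exact ha ⟨y, rfl⟩), fun _ => rfl⟩

theorem S3_Lift1 {k k' : Type} [Field k] [Field k'] (φ : k →+* k') :
    OnePoint.map φ '' S3 k = S3 k' := by
  simp [S3, Set.image_insert_eq]

theorem S4_Lift1 {k k' : Type} [Field k] [Field k'] (φ : k →+* k') (s : k) :
    OnePoint.map φ '' S4 s = S4 (φ s) := by
  simp [S4, Set.image_insert_eq]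

theorem bc_Lift1 {k k' G : Type} [Field k] [IsAlgClosed k] [Field k'] [IsAlgClosed k']
    [Group G] (c : Cover k G) (φ : k →+* k') {S : Set (OnePoint k)} (hT : c.Tame S) :
    ∃ c' : Cover k' G, c'.ι.range = c.ι.range ∧ c'.Tame (OnePoint.map φ '' S) ∧
      (∀ {e ζ g}, c.Mono ((0 : k) : OnePoint k) e ζ g →
        c'.Mono ((0 : k') : OnePoint k') e (φ ζ) g) ∧
      (∀ {e ζ g}, c.Mono ((1 : k) : OnePoint k) e ζ g →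
        c'.Mono ((1 : k') : OnePoint k') e (φ ζ) g) ∧
      (∀ {e ζ g}, c.Mono ∞ e ζ g → c'.Mono ∞ e (φ ζ) g) ∧
      ∀ {x : k} {e ζ g}, c.Mono x e ζ g → c'.Mono (φ x : k') e (φ ζ) g := by
  obtain ⟨c', h1, h2, h3⟩ := c.exists_bc φ S hT
  refine ⟨c', h1, h2, fun h => ?_, fun h => ?_, fun h => h3 _ _ _ _ h, fun h => h3 _ _ _ _ h⟩
  · simpa using h3 _ _ _ _ h
  · simpa using h3 _ _ _ _ h

variable {k C : Type} [Field k] [IsAlgClosed k] [NormedField C] [CompleteSpace C]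
  [IsUltrametricDist C] [IsAlgClosed C]

theorem lifts54 (φ : k →+* C) (hφ : ∀ x, ‖φ x‖ ≤ 1) (t : C) (h0 : t ≠ 0) (ht : ‖t‖ < 1) :
    Lifts φ (A5 k) (A4 t) := by
  rintro G _ _ d ⟨c1, c2, c3, c4, c5, T1, T2, T3, T4, T5, g12, ⟨e, ζ, g, m1, m2⟩,
    ⟨e', ζ', g', m3, m4⟩, ⟨e'', ζ'', g'', m5, m6⟩, hr, d0, d1, d2, d3, d4, d5, d6⟩
  obtain ⟨c, r1, U1, a0, a1, a2, a3⟩ := smooth_left φ hφ t h0 ht c1 c2 T1 T2 g12 e ζ g m1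
  obtain ⟨c3', r3, U3, x0, x1, x2, -⟩ := bc_Lift1 c3 φ T3
  obtain ⟨c4', r4, U4, y0, y1, y2, -⟩ := bc_Lift1 c4 φ T4
  obtain ⟨c5', r5, U5, z0, z1, z2, -⟩ := bc_Lift1 c5 φ T5
  rw [S3_Lift1] at U3 U4 U5
  exact ⟨c, c3', c4', c5', U1, U3, U4, U5, ⟨e, _, g, a3, map_inv₀ φ ζ ▸ x0 m2⟩,
    ⟨e', _, g', x2 m3, map_inv₀ φ ζ' ▸ y0 m4⟩, ⟨e'', _, g'', y2 m5, map_inv₀ φ ζ'' ▸ z0 m6⟩,
    by rw [r1, r3, r4, r5, hr], a0 _ d0, a1 _ d1, a2 _ d2, x1 d3, y1 d4, z1 d5, z2 d6⟩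

theorem lifts43 (φ : k →+* C) (hφ : ∀ x, ‖φ x‖ ≤ 1) (t : C) (h0 : t ≠ 0) (ht : ‖t‖ < 1) (s : k)
    {k' : Type} [Field k'] [IsAlgClosed k'] (ψA : k →+* k') (ψB : C →+* k')
    (hψ : ∀ (ζ : k) (e : ℕ), 0 < e → ζ ^ e = 1 → ψA ζ = ψB (φ ζ)) :
    Lifts ψA (A4 s) (A3 (ψA s) (ψB t⁻¹)) := by
  rintro G _ _ d ⟨c1, c3, c4, c5, T1, T3, T4, T5, ⟨e, ζ, g, m1, m2⟩,
    ⟨e', ζ', g', m3, m4⟩, g45, hr, d0, d1, d2, d3, d4, d5, d6⟩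
  have H : ∀ {c : Cover k G} {a e ζ g} {c' : Cover k' G} {a'}, c.Mono a e ζ g →
      c'.Mono a' e (ψB (φ ζ)) g → c'.Mono a' e (ψA ζ) g := fun h h' => by
    rwa [hψ _ _ h.1 h.2.1.pow_eq_one]
  obtain ⟨c, r4, U4, a0, a1, a2, a3⟩ := smooth_right φ hφ t h0 ht c4 c5 T4 T5 g45 e' ζ'⁻¹ g' m4
  obtain ⟨c1', r1, U1, x0, x1, x2, x3⟩ := bc_Lift1 c1 ψA T1
  obtain ⟨c3', r3, U3, y0, y1, y2, -⟩ := bc_Lift1 c3 ψA T3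
  obtain ⟨c4', r5, U5, z0, z1, z2, z3⟩ := bc_Lift1 c ψB U4
  rw [S3_Lift1] at U3
  rw [S4_Lift1] at U1 U5
  exact ⟨c1', c3', c4', U1, U3, U5, ⟨e, _, g, x2 m1, map_inv₀ ψA ζ ▸ y0 m2⟩,
    ⟨e', _, g', y2 m3, map_inv₀ ψA ζ' ▸ H m4 (z0 a0)⟩,
    by rw [r1, r3, r5, r4, ← sup_assoc, hr], x0 d0, x3 d1, x1 d2, y1 d3, H d4 (z1 (a1 _ d4)),
    H d5 (z3 (a2 _ d5)), H d6 (z2 (a3 _ d6))⟩

end Pool.Agent.Adm
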