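import Pool.Agent.Adm.VFa

/-! Affine coverings of one component with prescribed labels. -/

namespace Pool.Agent.Adm

open scoped OnePoint
open Polynomial

variable {k G F : Type} [Field k] [IsAlgClosed k] [Group G] [Field F] [Fintype F]

omit [IsAlgClosed k] in
theorem rootMultiplicity_prod_X_sub_C {ι : Type} [Fintype ι] (a : ι → k)
    (ha : Function.Injective a) (n : ι → ℕ) :
    (∀ i, (∏ j, (X - C (a j)) ^ n j : k[X]).rootMultiplicity (a i) = n i) ∧
      (∀ x, x ∉ Set.range a → (∏ j, (X - C (a j)) ^ n j : k[X]).rootMultiplicity x = 0) ∧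
      (∏ j, (X - C (a j)) ^ n j : k[X]).natDegree = ∑ j, n j ∧
      (∏ j, (X - C (a j)) ^ n j : k[X]).Monic := by
  classical
  have hm : ∀ s : Finset ι, (∏ j ∈ s, (X - C (a j)) ^ n j : k[X]).Monic := fun s =>
    monic_prod_of_monic _ _ fun j _ => (monic_X_sub_C _).pow _
  have h0 : ∀ (s : Finset ι) (x : k), (∀ j ∈ s, x ≠ a j) →
      (∏ j ∈ s, (X - C (a j)) ^ n j : k[X]).rootMultiplicity x = 0 := fun s x h => by
    refine rootMultiplicity_eq_zero ?_
    rw [IsRoot.def, eval_prod]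
    refine Finset.prod_ne_zero_iff.2 fun j hj => ?_
    rw [eval_pow, eval_sub, eval_X, eval_C]
    exact pow_ne_zero _ (sub_ne_zero.2 (h j hj))
  refine ⟨fun i => ?_, fun x hx => h0 _ x fun j _ e => hx ⟨j, e.symm⟩, ?_, hm _⟩
  · rw [← Finset.prod_erase_mul _ _ (Finset.mem_univ i),
      rootMultiplicity_mul_X_sub_C_pow (hm _).ne_zero,
      h0 _ _ fun j hj e => (Finset.mem_erase.1 hj).1 (ha e).symm, zero_add]
  · rw [natDegree_prod_of_monic _ _ fun j _ => (monic_X_sub_C _).pow _]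
    exact Finset.sum_congr rfl fun j _ => by
      rw [(monic_X_sub_C _).natDegree_pow, natDegree_X_sub_C, mul_one]

theorem Cover.vertex (c : Cover k G) (θ : F →+* k) (ψ : G →* Aff F) {ι : Type} [Fintype ι]
    (a : ι → k) (ha : Function.Injective a) (n : ι → ℕ) (S : Set (OnePoint k)) (hT : c.Tame S)
    (hS : ∀ x : k, (x : OnePoint k) ∈ S → x ∈ Set.range a)
    (hl : ∀ i, ∃ e ζ g, c.Mono (a i : OnePoint k) e ζ g ∧
      Lab (Fintype.card F - 1) e ζ (θ (ψ g).u) (n i)) :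
    (∀ e ζ g, c.Mono ∞ e ζ g →
      Lab (Fintype.card F - 1) e ζ (θ (ψ g).u) (-((∑ i, n i : ℕ) : ℤ))) ∧
    ((∑ i, n i ≤ Fintype.card F - 1 ∨ (∑ i, n i ≤ 2 * (Fintype.card F - 1) ∧
      (∏ j, (X - C (a j)) ^ n j : k[X]).coeff (Fintype.card F - 1) = 0)) →
        Aff.HasFix (c.ι.range.map ψ)) ∧
    (∑ i, n i = 0 → c.ι.range.map ψ = ⊥) := by
  obtain ⟨h1, h2, h3, h4⟩ := rootMultiplicity_prod_X_sub_C a ha n
  rw [← h3]
  refine c.vertex_poly θ ψ _ h4.ne_zero ((hT ∞).imp fun _ h => h.imp fun _ h =>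
    h.imp fun _ h => h.1) fun x => ?_
  by_cases hx : x ∈ Set.range a
  · obtain ⟨i, rfl⟩ := hx
    rw [h1]
    exact hl i
  · obtain ⟨e, ζ, g, h5, h6⟩ := hT x
    refine ⟨e, ζ, g, h5, ?_⟩
    rw [h2 x hx, h6 fun h => hx (hS x h), map_one, Aff.one_u, Units.val_one, map_one]
    exact lab_one _ _ _

/-- Characters of a connected tame covering of the line are bounded in number. -/
theorem Cover.card_hom_le (c : Cover k G) (θ : F →+* k) (hc : c.ι.range = ⊤) {r : ℕ}
    (a : Fin r → k) (S : Set (OnePoint k)) (hT : c.Tame S)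
    (hS : ∀ x : k, (x : OnePoint k) ∈ S → x ∈ Set.range a) :
    Finite (G →* Fˣ) ∧ Nat.card (G →* Fˣ) ≤ Fintype.card F ^ r := by
  choose e ζ g hm hg using hT
  have hi : Function.Injective fun (χ : G →* Fˣ) (i : Fin r) => (χ (g (a i)) : F) := by
    intro χ χ' h
    have h1 := (c.vertex_poly θ (Aff.inl.comp (χ / χ')) 1 one_ne_zero ⟨_, _, _, hm ∞⟩
      fun x => ⟨_, _, _, hm x, ?_⟩).2.2 natDegree_one
    · ext y : 1
      have h2 : (Aff.inl.comp (χ / χ')) y ∈ c.ι.range.map (Aff.inl.comp (χ / χ')) :=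
        Subgroup.mem_map_of_mem _ (hc ▸ Subgroup.mem_top y)
      rw [h1, Subgroup.mem_bot] at h2
      exact div_eq_one.1 (congrArg Aff.u h2)
    · have h2 : ((Aff.inl.comp (χ / χ')) (g x)).u = 1 := by
        by_cases hx : x ∈ Set.range a
        · obtain ⟨i, rfl⟩ := hx
          exact div_eq_one.2 (Units.ext (congrFun h i))
        · rw [hg x fun h => hx (hS x h), map_one, Aff.one_u]
      rw [h2, Units.val_one, map_one, ← C_1, rootMultiplicity_C]
      exact lab_one _ _ _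
  refine ⟨Finite.of_injective _ hi, (Nat.card_le_card_of_injective _ hi).trans_eq ?_⟩
  rw [Nat.card_fun, Nat.card_eq_fintype_card, Nat.card_eq_fintype_card, Fintype.card_fin]

end Pool.Agent.Adm
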