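import Pool.Agent.Adm.VP
import Pool.Agent.Adm.VF
import Pool.Agent.Adm.Kap
import Pool.Agent.Adm.LabL

/-! New affine quotients on the upper curve of a step. -/

namespace Pool.Agent.Adm

open scoped OnePoint
open Polynomial

variable {k F : Type} [Field k] [IsAlgClosed k] [Field F] [Fintype F]

theorem Good.md_New3 {G : Type} [Group G] {θ : F →+* k} {c1 : Cover k G}
    {c : Cover k (G × Aff F)} {f : k[X]} (h : Good θ c1 c f) {a : OnePoint k} {d : Dat k G}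
    (hd : c1.MD a d) (H : Subgroup (G × Aff F)) (hH : c.ι.range ≤ H) (n : ℤ)
    (hn : labAt f a ≡ n [ZMOD (Fintype.card F - 1 : ℕ)]) :
    ∃ d' : Dat k H, (c.restr H hH).MD a d' ∧
      ∀ χ : G →* Fˣ, χ.comp ((MonoidHom.fst G (Aff F)).comp H.subtype) =
        Aff.lin.comp ((MonoidHom.snd G (Aff F)).comp H.subtype) →
        LabD (Fintype.card F - 1) θ χ d n := by
  obtain ⟨d', h1, h2, h3⟩ := h.md hd
  refine ⟨(d'.1, d'.2.1, ⟨d'.2.2, hH (Cover.Mono.mem_range h1)⟩), Cover.Mono.restr h1 H hH, ?_⟩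
  intro χ hχ
  refine Lab.congr (h3 χ ?_) hn
  rw [← h2]
  exact DFunLike.congr_fun hχ ⟨d'.2.2, hH (Cover.Mono.mem_range h1)⟩

omit [IsAlgClosed k] in
theorem labAt_one_New3 (a : OnePoint k) : labAt (1 : k[X]) a = 0 := by
  induction a using OnePoint.rec with
  | infty => simp [labAt]
  | coe b => simp [labAt, rootMultiplicity_eq_zero]

omit [IsAlgClosed k] in
theorem labAt_pow_New3 (N : ℕ) :
    labAt ((X - C 1) ^ N : k[X]) ∞ = -(N : ℤ) ∧
      labAt ((X - C 1) ^ N : k[X]) ((1 : k) : OnePoint k) = N ∧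
      ∀ b : k, b ≠ 1 → labAt ((X - C 1) ^ N : k[X]) (b : OnePoint k) = 0 := by
  refine ⟨?_, ?_, fun b hb => ?_⟩
  · show -(((X - C 1) ^ N : k[X]).natDegree : ℤ) = _
    rw [natDegree_pow, natDegree_X_sub_C, mul_one]
  · show ((((X - C 1) ^ N : k[X]).rootMultiplicity 1 : ℕ) : ℤ) = _
    rw [rootMultiplicity_X_sub_C_pow]
  · show ((((X - C 1) ^ N : k[X]).rootMultiplicity b : ℕ) : ℤ) = _
    rw [rootMultiplicity_eq_zero, Nat.cast_zero]
    simp only [IsRoot.def, eval_pow, eval_sub, eval_X, eval_C]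
    exact pow_ne_zero _ (sub_ne_zero.2 hb)

theorem exists_four_New3 (θ : F →+* k) (p : ℕ) (hp : p.Prime) (hF : Fintype.card F = p ^ 2)
    (N : ℕ) (hN : N + 1 + p = p ^ 2) (s' : k) (h0 : s' ≠ 0) (h1 : s' ≠ 1) :
    ∃ (f : k[X]) (c : Cover k (Aff F)), AffLab θ c f ∧ ¬ Aff.HasFix c.ι.range ∧
      labAt f ∞ = -((p : ℤ) ^ 2) ∧ labAt f ((0 : k) : OnePoint k) = N ∧
      labAt f ((1 : k) : OnePoint k) = 1 ∧ labAt f (s' : OnePoint k) = p ∧
      ∀ b : k, b ≠ 0 → b ≠ 1 → b ≠ s' → labAt f (b : OnePoint k) = 0 := by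
  have hp2 := hp.two_le
  have hpk : (p : k) = 0 := by
    have := card_cast_eq_zero θ
    rw [hF, Nat.cast_pow] at this
    exact pow_eq_zero_iff (two_ne_zero) |>.1 this
  have ha : Function.Injective ![0, 1, s'] := by
    intro i j hij
    fin_cases i <;> fin_cases j <;> simp_all [eq_comm]
  have hsum : ∑ j, ![N, 1, p] j = p ^ 2 := by
    rw [Fin.sum_univ_three]
    exact hN
  obtain ⟨r1, r2, r3, r4⟩ := rootMultiplicity_prod_X_sub_C ![0, 1, s'] ha ![N, 1, p]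
  have hq : p + 2 ≤ p ^ 2 := by nlinarith
  have hc := coeff_prod_pred ![0, 1, s'] ![N, 1, p] (p ^ 2 - 1) (by rw [hsum]; omega)
  have r0 : ∀ b : k, b ≠ 0 → b ≠ 1 → b ≠ s' → b ∉ Set.range ![0, 1, s'] := by
    rintro b hb0 hb1 hb2 ⟨i, rfl⟩
    fin_cases i <;> simp_all
  obtain ⟨c, hc1, hc2⟩ := exists_affLab_noFix θ _ r4 (by rw [r3, hsum, hF])
    (by rw [r3, hsum, hF]; omega) (by
      rw [hF, hc, Fin.sum_univ_three]
      simp [hpk]) (by
      intro b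
      rw [hF]
      by_cases hb : b ∈ Set.range ![0, 1, s']
      · obtain ⟨i, rfl⟩ := hb
        rw [r1]
        fin_cases i
        · show N < _
          omega
        · show 1 < _
          omega
        · show p < _
          omega
      · rw [r2 b hb]
        omega)
  refine ⟨_, c, hc1, hc2, ?_, ?_, ?_, ?_, fun b hb0 hb1 hb2 => ?_⟩
  · show -((natDegree _ : ℕ) : ℤ) = _
    rw [r3, hsum, Nat.cast_pow]
  · exact congrArg (Nat.cast : ℕ → ℤ) (r1 0)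
  · exact congrArg (Nat.cast : ℕ → ℤ) (r1 1)
  · exact congrArg (Nat.cast : ℕ → ℤ) (r1 2)
  · exact congrArg (Nat.cast : ℕ → ℤ) (r2 b (r0 b hb0 hb1 hb2))

theorem new3 (θ : F →+* k) (p : ℕ) (hp : p.Prime) (hF : Fintype.card F = p ^ 2) (s s' : k)
    (h0 : s' ≠ 0) (h1 : s' ≠ 1) :
    NewCov θ (A3 s s') ![0, 0, 0, (p : ℤ) ^ 2 - p - 1, 1, p, -1] := by
  intro G _ _ d hA
  obtain ⟨c1, c3, c4, t1, t3, t4, g13, g34, hsup, m0, m1, m2, m3, m4, m5, m6⟩ := hA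
  have hp2 := hp.two_le
  have hq : p + 2 ≤ p ^ 2 := by nlinarith
  obtain ⟨N, hN⟩ : ∃ N, N + 1 + p = p ^ 2 := ⟨p ^ 2 - p - 1, by omega⟩
  have hNz : (N : ℤ) = (p : ℤ) ^ 2 - p - 1 := by
    have : ((N + 1 + p : ℕ) : ℤ) = ((p ^ 2 : ℕ) : ℤ) := by rw [hN]
    push_cast at this
    linarith
  obtain ⟨f4, a4, hl4, hn4, l1, l2, l3, l4, l5⟩ := exists_four_New3 θ p hp hF N hN s' h0 h1
  obtain ⟨a1, hl1⟩ := exists_affLab θ (1 : k[X]) one_ne_zero
  obtain ⟨a3, hl3⟩ := exists_affLab θ ((X - C 1) ^ N : k[X]) (pow_ne_zero _ (X_sub_C_ne_zero 1))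
  obtain ⟨k1, k2, k3⟩ := labAt_pow_New3 (k := k) N
  obtain ⟨e1, G1, -⟩ := exists_good θ c1 a1 _ hl1
  obtain ⟨e3', G3', -⟩ := exists_good θ c3 a3 _ hl3
  obtain ⟨e4', G4', n4'⟩ := exists_good θ c4 a4 _ hl4
  obtain ⟨e3, G3, u13, -⟩ := G1.glue G3' g13 (by
    rw [labAt_one_New3, k3 0 zero_ne_one, add_zero])
  obtain ⟨e4, G4, u34, n4⟩ := G3.glue G4' g34 (by rw [k1, l2, neg_add_cancel])
  have T1 : e1.Tame (S4 s) := G1.tame t1 fun a _ => by rw [labAt_one_New3]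
  have T3 : e3.Tame (S3 k) := G3.tame t3 fun a ha => by
    induction a using OnePoint.rec with
    | infty => exact absurd (by simp [S3]) ha
    | coe b =>
      rw [k3 b]
      rintro rfl
      exact ha (by simp [S3])
  have T4 : e4.Tame (S4 s') := G4.tame t4 fun a ha => by
    induction a using OnePoint.rec with
    | infty => exact absurd (by simp [S4]) ha
    | coe b =>
      rw [l5 b] <;> rintro rfl <;> exact ha (by simp [S4])
  obtain ⟨H, hH⟩ : ∃ H, H = e1.ι.range ⊔ e3.ι.range ⊔ e4.ι.range := ⟨_, rfl⟩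
  have H1 : e1.ι.range ≤ H := hH ▸ le_sup_of_le_left le_sup_left
  have H3 : e3.ι.range ≤ H := hH ▸ le_sup_of_le_left le_sup_right
  have H4 : e4.ι.range ≤ H := hH ▸ le_sup_right
  obtain ⟨d0, x0, y0⟩ := G1.md_New3 m0 H H1 0 (by rw [labAt_one_New3])
  obtain ⟨d1, x1, y1⟩ := G1.md_New3 m1 H H1 0 (by rw [labAt_one_New3])
  obtain ⟨d2, x2, y2⟩ := G1.md_New3 m2 H H1 0 (by rw [labAt_one_New3])
  obtain ⟨d3, x3, y3⟩ := G3.md_New3 m3 H H3 ((p : ℤ) ^ 2 - p - 1) (by rw [k2, hNz])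
  obtain ⟨d4, x4, y4⟩ := G4.md_New3 m4 H H4 1 (by rw [l3])
  obtain ⟨d5, x5, y5⟩ := G4.md_New3 m5 H H4 p (by rw [l4])
  obtain ⟨d6, x6, y6⟩ := G4.md_New3 m6 H H4 (-1) (by
    rw [l1, hF, Int.modEq_iff_dvd, Nat.cast_sub (by omega)]
    exact ⟨1, by push_cast; ring⟩)
  refine ⟨H, inferInstance, inferInstance, (MonoidHom.fst G (Aff F)).comp H.subtype,
    (MonoidHom.snd G (Aff F)).comp H.subtype, ![d0, d1, d2, d3, d4, d5, d6],
    ⟨e1.restr H H1, e3.restr H H3, e4.restr H H4, T1.restr H H1, T3.restr H H3, T4.restr H H4,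
      u13.restr H H1 H3, u34.restr H H3 H4, ?_, x0, x1, x2, x3, x4, x5, x6⟩, ?_, ?_, ?_⟩
  · rw [Cover.restr_range, Cover.restr_range, Cover.restr_range,
      ← Subgroup.subgroupOf_sup H1 H3, ← Subgroup.subgroupOf_sup (sup_le H1 H3) H4, ← hH,
      Subgroup.subgroupOf_self]
  · rw [← MonoidHom.range_eq_top, MonoidHom.range_comp, Subgroup.range_subtype, hH,
      Subgroup.map_sup, Subgroup.map_sup, G1.1, G3.1, G4.1, hsup]
  · rw [MonoidHom.range_comp, Subgroup.range_subtype]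
    exact fun hf => n4 (n4' hn4) (hf.mono (Subgroup.map_mono H4))
  · intro χ hχ i
    fin_cases i
    · exact y0 χ hχ
    · exact y1 χ hχ
    · exact y2 χ hχ
    · exact y3 χ hχ
    · exact y4 χ hχ
    · exact y5 χ hχ
    · exact y6 χ hχ

end Pool.Agent.Adm
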