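import Pool.Agent.Adm.VP
import Pool.Agent.Adm.VF
import Pool.Agent.Adm.Kap

/-! New affine quotients on the upper curve of a step. -/

namespace Pool.Agent.Adm

open scoped OnePoint
open Polynomial

variable {k F : Type} [Field k] [IsAlgClosed k] [Field F] [Fintype F]

theorem md_New4 {G : Type} [Group G] {θ : F →+* k} {c1 : Cover k G} {c : Cover k (G × Aff F)}
    {f : k[X]} (h : Good θ c1 c f) {a : OnePoint k} {d : Dat k G} (hd : c1.MD a d)
    (H : Subgroup (G × Aff F)) (hH : c.ι.range ≤ H) (n : ℤ)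
    (hn : labAt f a ≡ n [ZMOD (Fintype.card F - 1 : ℕ)]) :
    ∃ d' : Dat k H, (c.restr H hH).MD a d' ∧ ∀ χ : G →* Fˣ,
      χ.comp ((MonoidHom.fst G (Aff F)).comp H.subtype) =
        Aff.lin.comp ((MonoidHom.snd G (Aff F)).comp H.subtype) →
      LabD (Fintype.card F - 1) θ χ d n := by
  obtain ⟨d', h1, h2, h3⟩ := h.md hd
  refine ⟨(d'.1, d'.2.1, ⟨d'.2.2, hH (Cover.Mono.mem_range h1)⟩), Cover.Mono.restr h1 H hH,
    fun χ hχ => Lab.congr (h3 χ ?_) hn⟩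
  rw [← h2]
  exact DFunLike.congr_fun hχ ⟨d'.2.2, hH (Cover.Mono.mem_range h1)⟩

omit [IsAlgClosed k] in
theorem labAt_one_New4 (a : OnePoint k) : labAt (1 : k[X]) a = 0 := by
  induction a using OnePoint.rec with
  | infty => simp [labAt]
  | coe b =>
    have : (1 : k[X]).rootMultiplicity b = 0 :=
      rootMultiplicity_eq_zero (by simp [IsRoot])
    simp [labAt, this]

omit [IsAlgClosed k] in
theorem labAt_coe_New4 (f : k[X]) (b : k) :
    labAt f (b : OnePoint k) = (f.rootMultiplicity b : ℤ) := rfl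

omit [IsAlgClosed k] in
theorem labAt_infty_New4 (f : k[X]) : labAt f ∞ = -(f.natDegree : ℤ) := rfl

omit [IsAlgClosed k] in
theorem labAt_out_New4 {ι : Type} [Fintype ι] (a : ι → k) (ha : Function.Injective a) (n : ι → ℕ)
    (S : Set (OnePoint k)) (h0 : ∞ ∈ S) (h1 : ∀ i, (a i : OnePoint k) ∈ S) (m : ℤ) :
    ∀ x, x ∉ S → labAt (∏ j, (X - C (a j)) ^ n j : k[X]) x ≡ 0 [ZMOD m] := by
  intro x hx
  induction x using OnePoint.rec with
  | infty => exact absurd h0 hx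
  | coe b =>
    rw [labAt_coe_New4, (rootMultiplicity_prod_X_sub_C a ha n).2.1 b
      (by rintro ⟨i, rfl⟩; exact hx (h1 i))]
    rfl

theorem new4 (θ : F →+* k) (p : ℕ) (hp : p.Prime) (hF : Fintype.card F = p ^ 2) (s : k)
    (h0 : s ≠ 0) (h1 : s ≠ 1) :
    NewCov θ (A4 s) ![(p : ℤ) ^ 2 - p - 1, 1, p, -1, 0, 0, 0] := by
  rintro G _ _ d ⟨c1, c3, c4, c5, T1, T3, T4, T5, g13, g34, g45, htop, m0, m1, m2, m3, m4, m5, m6⟩
  have hp2 : 2 ≤ p := hp.two_le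
  have hq : p + 2 ≤ p ^ 2 := by nlinarith
  have hpk : (p : k) = 0 := by
    have := card_cast_eq_zero θ
    rw [hF, Nat.cast_pow] at this
    exact pow_eq_zero_iff two_ne_zero |>.1 this
  have hm : ((Fintype.card F - 1 : ℕ) : ℤ) = (p : ℤ) ^ 2 - 1 := by
    rw [hF, Nat.cast_sub (by omega)]; push_cast; ring
  have ha : Function.Injective (![0, s, 1] : Fin 3 → k) := by
    intro i j hij
    fin_cases i <;> fin_cases j <;> simp_all [eq_comm]
  have hb : Function.Injective (![0, 1] : Fin 2 → k) := by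
    intro i j hij
    fin_cases i <;> fin_cases j <;> simp_all
  have o1 := labAt_out_New4 ![0, s, 1] ha ![p ^ 2 - p - 1, 1, p] (S4 s) (by simp [S4])
    (fun i => by fin_cases i <;> simp [S4]) (Fintype.card F - 1 : ℕ)
  have o3 := labAt_out_New4 ![0, 1] hb ![1, p ^ 2 - 2] (S3 k) (by simp [S3])
    (fun i => by fin_cases i <;> simp [S3]) (Fintype.card F - 1 : ℕ)
  obtain ⟨r1, r2, r3, r4⟩ := rootMultiplicity_prod_X_sub_C ![0, s, 1] ha ![p ^ 2 - p - 1, 1, p]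
  obtain ⟨s1, -, s3, s4⟩ := rootMultiplicity_prod_X_sub_C ![0, 1] hb ![1, p ^ 2 - 2]
  have hs : ∑ j, (![p ^ 2 - p - 1, 1, p] : Fin 3 → ℕ) j = p ^ 2 := by
    rw [Fin.sum_univ_three]
    change p ^ 2 - p - 1 + 1 + p = p ^ 2
    omega
  have hs' : ∑ j, (![1, p ^ 2 - 2] : Fin 2 → ℕ) j = p ^ 2 - 1 := by
    rw [Fin.sum_univ_two]
    change 1 + (p ^ 2 - 2) = p ^ 2 - 1
    omega
  have hκ := coeff_prod_pred ![0, s, 1] ![p ^ 2 - p - 1, 1, p] (p ^ 2 - 1) (by rw [hs]; omega)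
  rw [hs] at r3
  rw [hs'] at s3
  generalize (∏ j, (X - C ((![0, s, 1] : Fin 3 → k) j)) ^
    (![p ^ 2 - p - 1, 1, p] : Fin 3 → ℕ) j : k[X]) = f1 at o1 r1 r2 r3 r4 hκ
  generalize (∏ j, (X - C ((![0, 1] : Fin 2 → k) j)) ^
    (![1, p ^ 2 - 2] : Fin 2 → ℕ) j : k[X]) = f3 at o3 s1 s3 s4
  have e0 : f1.rootMultiplicity 0 = p ^ 2 - p - 1 := r1 0
  have e1 : f1.rootMultiplicity s = 1 := r1 1
  have e2 : f1.rootMultiplicity 1 = p := r1 2
  have e3 : f3.rootMultiplicity 0 = 1 := s1 0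
  have e4 : f3.rootMultiplicity 1 = p ^ 2 - 2 := s1 1
  obtain ⟨b1, l1, n1⟩ := exists_affLab_noFix θ f1 r4 (by omega) (by omega)
    (by rw [hF, hκ, Fin.sum_univ_three]; simpa [hpk] using h0) (fun x => by
      by_cases hx : x ∈ Set.range (![0, s, 1] : Fin 3 → k)
      · obtain ⟨i, rfl⟩ := hx
        rw [r1, hF]
        fin_cases i
        · change p ^ 2 - p - 1 < p ^ 2 - 1
          omega
        · change 1 < p ^ 2 - 1
          omega
        · change p < p ^ 2 - 1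
          omega
      · rw [r2 x hx]; omega)
  obtain ⟨b3, l3⟩ := exists_affLab θ f3 s4.ne_zero
  obtain ⟨b4, l4⟩ := exists_affLab θ (1 : k[X]) one_ne_zero
  obtain ⟨u1, G1, N1⟩ := exists_good θ c1 b1 f1 l1
  obtain ⟨u3', G3', -⟩ := exists_good θ c3 b3 f3 l3
  obtain ⟨u4', G4', -⟩ := exists_good θ c4 b4 1 l4
  obtain ⟨u5', G5', -⟩ := exists_good θ c5 b4 1 l4
  obtain ⟨u3, G3, k13, -⟩ := G1.glue G3' g13 (by
    rw [labAt_infty_New4, labAt_coe_New4, r3, e3, hm]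
    exact Int.modEq_zero_iff_dvd.2 ⟨-1, by push_cast; ring⟩)
  obtain ⟨u4, G4, k34, -⟩ := G3.glue G4' g34 (by
    rw [labAt_infty_New4, labAt_one_New4, s3, hF]
    exact Int.modEq_zero_iff_dvd.2 ⟨-1, by ring⟩)
  obtain ⟨u5, G5, k45, -⟩ := G4.glue G5' g45 (by
    rw [labAt_one_New4, labAt_one_New4, add_zero])
  have o4 : ∀ x, x ∉ S3 k → labAt (1 : k[X]) x ≡ 0 [ZMOD (Fintype.card F - 1 : ℕ)] :=
    fun x _ => by rw [labAt_one_New4]
  obtain ⟨H, hH⟩ : ∃ H, H = u1.ι.range ⊔ u3.ι.range ⊔ u4.ι.range ⊔ u5.ι.range := ⟨_, rfl⟩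
  have i134 : u1.ι.range ⊔ u3.ι.range ⊔ u4.ι.range ≤ H := hH ▸ le_sup_left
  have i13 : u1.ι.range ⊔ u3.ι.range ≤ H := le_sup_left.trans i134
  have i1 : u1.ι.range ≤ H := le_sup_left.trans i13
  have i3 : u3.ι.range ≤ H := le_sup_right.trans i13
  have i4 : u4.ι.range ≤ H := le_sup_right.trans i134
  have i5 : u5.ι.range ≤ H := hH ▸ le_sup_right
  obtain ⟨d0, x0, y0⟩ := md_New4 G1 m0 H i1 ((p : ℤ) ^ 2 - p - 1) (by
    rw [labAt_coe_New4, e0, Nat.cast_sub (show 1 ≤ p ^ 2 - p by omega),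
      Nat.cast_sub (show p ≤ p ^ 2 by omega), Nat.cast_pow, Nat.cast_one])
  obtain ⟨d1, x1, y1⟩ := md_New4 G1 m1 H i1 1 (by rw [labAt_coe_New4, e1]; rfl)
  obtain ⟨d2, x2, y2⟩ := md_New4 G1 m2 H i1 p (by rw [labAt_coe_New4, e2])
  obtain ⟨d3, x3, y3⟩ := md_New4 G3 m3 H i3 (-1) (by
    rw [labAt_coe_New4, e4, hm, Nat.cast_sub (by omega)]
    exact (Int.modEq_iff_dvd.2 ⟨-1, by push_cast; ring⟩))
  obtain ⟨d4, x4, y4⟩ := md_New4 G4 m4 H i4 0 (by rw [labAt_one_New4])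
  obtain ⟨d5, x5, y5⟩ := md_New4 G5 m5 H i5 0 (by rw [labAt_one_New4])
  obtain ⟨d6, x6, y6⟩ := md_New4 G5 m6 H i5 0 (by rw [labAt_one_New4])
  refine ⟨H, inferInstance, inferInstance, (MonoidHom.fst G (Aff F)).comp H.subtype,
    (MonoidHom.snd G (Aff F)).comp H.subtype, ![d0, d1, d2, d3, d4, d5, d6],
    ⟨u1.restr H i1, u3.restr H i3, u4.restr H i4, u5.restr H i5, (G1.tame T1 o1).restr H i1,
      (G3.tame T3 o3).restr H i3, (G4.tame T4 o4).restr H i4, (G5.tame T5 o4).restr H i5,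
      k13.restr H i1 i3, k34.restr H i3 i4, k45.restr H i4 i5, ?_, x0, x1, x2, x3, x4, x5, x6⟩,
    ?_, fun hf => N1 n1 (hf.mono ?_), fun χ hχ i => ?_⟩
  · rw [Cover.restr_range, Cover.restr_range, Cover.restr_range, Cover.restr_range,
      ← Subgroup.subgroupOf_sup i1 i3, ← Subgroup.subgroupOf_sup i13 i4,
      ← Subgroup.subgroupOf_sup i134 i5, ← hH, Subgroup.subgroupOf_self]
  · rw [← MonoidHom.range_eq_top, MonoidHom.range_comp, Subgroup.range_subtype, hH,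
      Subgroup.map_sup, Subgroup.map_sup, Subgroup.map_sup, G1.1, G3.1, G4.1, G5.1, htop]
  · rw [MonoidHom.range_comp, Subgroup.range_subtype]
    exact Subgroup.map_mono i1
  · fin_cases i
    exacts [y0 χ hχ, y1 χ hχ, y2 χ hχ, y3 χ hχ, y4 χ hχ, y5 χ hχ, y6 χ hχ]

end Pool.Agent.Adm
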