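import Pool.Agent.Adm.Fin2
import Pool.Agent.Adm.Lift1
import Pool.Agent.Adm.New3
import Pool.Agent.Adm.New4
import Pool.Agent.Adm.Fix4

/-! The chain of length five. -/

namespace Pool.Agent.Adm

open scoped OnePoint

theorem exists_A5_trivial (k : Type) [Field k] : ∃ d, A5 k PUnit d := by
  obtain ⟨c, -, hc⟩ := exists_trivial_cover k PUnit
  have h : ∀ a, c.Mono a 1 1 1 := fun a => hc a 1 1 one_pos IsPrimitiveRoot.one
  have hT : c.Tame (S3 k) := fun a => ⟨1, 1, 1, h a, fun _ => rfl⟩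
  have hG : Glue c c := ⟨1, 1, 1, h _, by rw [inv_one]; exact h _⟩
  exact ⟨fun _ => (1, 1, 1), c, c, c, c, c, hT, hT, hT, hT, hT, hG, hG, hG, hG,
    Subsingleton.elim _ _, h _, h _, h _, h _, h _, h _, h _⟩

theorem exists_chain5 (p : ℕ) (hp : p.Prime) :
    ∃ x : Fin (5 + 1) → StableCurve p 7, (∀ i : Fin 5, QLe (x i.castSucc) (x i.succ)) ∧
      ∀ i : Fin 5, ¬ QLe (x i.succ) (x i.castSucc) := by
  haveI := Fact.mk hp
  letI : Fintype (GaloisField p 2) := Fintype.ofFinite _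
  have hF : Fintype.card (GaloisField p 2) = p ^ 2 := by
    rw [← Nat.card_eq_fintype_card, GaloisField.card p 2 two_ne_zero]
  let θ : GaloisField p 2 →+* AlgebraicClosure (ZMod p) :=
    (IsAlgClosed.lift : GaloisField p 2 →ₐ[ZMod p] AlgebraicClosure (ZMod p)).toRingHom
  obtain ⟨C4, _, _, _, _, φ4, hφ4, s, hs0, hs⟩ := exists_bigField (AlgebraicClosure (ZMod p))
  obtain ⟨C3, _, _, _, _, φ3, hφ3, t, ht0, ht⟩ := exists_bigField C4
  have hs1 : s ≠ 1 := fun h => by simp [h] at hs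
  have ht' : t⁻¹ ∉ Set.range (φ3.comp φ4) := by
    rintro ⟨x, hx⟩
    refine notMem_range_of_norm_lt φ3 hφ3 t ht0 ht ⟨(φ4 x)⁻¹, ?_⟩
    rw [map_inv₀, ← inv_inv t, ← hx]
    rfl
  obtain ⟨k3, _, _, ψA, ψB, hψ, hμ⟩ := exists_amalgam φ4 (φ3.comp φ4) s t⁻¹
    (notMem_range_of_norm_lt φ4 hφ4 s hs0 hs) ht'
  have l54 := lifts54 φ4 hφ4 s hs0 hs
  have l43 := lifts43 φ3 hφ3 t ht0 ht s ψA ψB (fun ζ e he h => by
    obtain ⟨x, rfl⟩ := root_mem_range φ4 ζ e he h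
    exact hψ x)
  rw [← hμ] at l43
  have hμ0 : ψA s ≠ 0 := (map_ne_zero ψA).2 hs0
  have hμ1 : ψA s ≠ 1 := fun h => hs1 (ψA.injective (h.trans (map_one ψA).symm))
  haveI := charP_of_card (φ4.comp θ) p hp hF
  haveI := charP_of_card (ψA.comp (φ4.comp θ)) p hp hF
  obtain ⟨X5, hX5⟩ := exists_curve5 (AlgebraicClosure (ZMod p)) p
  obtain ⟨X4, hX4⟩ := exists_curve4 p s hs0 hs1
  obtain ⟨X3, hX3⟩ := exists_curve3 p (ψA s) (ψA s) hμ0 hμ1 hμ0 hμ1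
  have g54 := qle_of_lifts hX5 hX4 φ4 l54
  have g43 := qle_of_lifts hX4 hX3 ψA l43
  have h5 : X5.HasCover PUnit := (hX5 PUnit).2 (exists_A5_trivial _)
  obtain ⟨X2, X1, X0, g32, g21, g10, n32, n21, n10, hb⟩ :=
    upper_chain (ψA.comp (φ4.comp θ)) p hp hF (ψA s) hμ0 hμ1 X3 hX3
      ⟨PUnit, _, inferInstance, g43 _ (g54 _ h5)⟩
  have n54 : ¬ QLe X4 X5 :=
    not_qle hX5 hX4 φ4 l54 θ _ (fix5 θ p hp hF) (new4 _ p hp hF s hs0 hs1)
      ⟨PUnit, _, inferInstance, h5⟩ _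
      fun G _ _ h => hb G (g10 G (g21 G (g32 G (g43 G (g54 G h)))))
  have n43 : ¬ QLe X3 X4 :=
    not_qle hX4 hX3 ψA l43 (φ4.comp θ) _ (fix4 _ p hp hF s hs0 hs1)
      (new3 _ p hp hF _ _ hμ0 hμ1) ⟨PUnit, _, inferInstance, g54 _ h5⟩ _
      fun G _ _ h => hb G (g10 G (g21 G (g32 G (g43 G h))))
  exact ⟨![X5, X4, X3, X2, X1, X0], fun i => by fin_cases i <;> assumption,
    fun i => by fin_cases i <;> assumption⟩

theorem five_le_krullDim (p : ℕ) (hp : p.Prime) :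
    (5 : WithBot ℕ∞) ≤ topologicalKrullDim (PiBar p 7) := by
  obtain ⟨x, h1, h2⟩ := exists_chain5 p hp
  have := le_krullDim_of_chain (r := 5) x h1 h2
  exact_mod_cast this

end Pool.Agent.Adm
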