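import Pool.Agent.Adm.LB

/-! Consequences of the Hensel lemma in Laurent series fields. -/

namespace Pool.Agent.Adm

open Polynomial

variable {k : Type} [Field k]

/-- Simple roots of the reduction lift. -/
theorem lift_root_H2 (P : (PowerSeries k)[X]) (hP : P.Monic) (a : k)
    (h1 : (P.map (PowerSeries.constantCoeff (R := k))).eval a = 0)
    (h2 : (P.map (PowerSeries.constantCoeff (R := k))).derivative.eval a ≠ 0) :
    ∃ v : PowerSeries k, P.eval v = 0 ∧ PowerSeries.constantCoeff v = a := by
  have key : ∀ Q : (PowerSeries k)[X], PowerSeries.constantCoeff (Q.eval (PowerSeries.C a)) =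
      (Q.map (PowerSeries.constantCoeff (R := k))).eval a := fun Q => by
    rw [eval_map, ← Polynomial.eval₂_at_apply]
    simp
  have hH : HenselianRing (PowerSeries k) (Ideal.span {PowerSeries.X}) := inferInstance
  obtain ⟨v, hv, hv'⟩ := hH.is_henselian P hP (PowerSeries.C a)
    (by rw [Ideal.mem_span_singleton, PowerSeries.X_dvd_iff, key, h1])
    (by
      refine IsUnit.map _ ?_
      rw [PowerSeries.isUnit_iff_constantCoeff, key, ← derivative_map]
      exact h2.isUnit)
  refine ⟨v, hv, ?_⟩
  rw [Ideal.mem_span_singleton, PowerSeries.X_dvd_iff, map_sub, sub_eq_zero] at hv'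
  simpa using hv'

/-- Hensel: a monic polynomial over k[[z]] with separable reduction splits. -/
theorem splits_of_separable_reduction [IsAlgClosed k] (P : (PowerSeries k)[X]) (hP : P.Monic)
    (hsep : (P.map (PowerSeries.constantCoeff (R := k))).Separable) :
    (P.map (HahnSeries.ofPowerSeries ℤ k)).Splits := by
  classical
  set Q := P.map (PowerSeries.constantCoeff (R := k)) with hQ
  have hQm : Q.Monic := hP.map _
  have h : ∀ a : k, ∃ v : PowerSeries k, a ∈ Q.roots →
      P.eval v = 0 ∧ PowerSeries.constantCoeff v = a := fun a => by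
    by_cases ha : a ∈ Q.roots
    · have h1 : Q.eval a = 0 := (mem_roots hQm.ne_zero).1 ha
      have h2 : Q.derivative.eval a ≠ 0 := by
        simpa using hsep.aeval_derivative_ne_zero (x := a) (by simpa using h1)
      obtain ⟨v, hv⟩ := lift_root_H2 P hP a h1 h2
      exact ⟨v, fun _ => hv⟩
    · exact ⟨0, fun h => absurd h ha⟩
  choose v hv using h
  have hR : (P.map (HahnSeries.ofPowerSeries ℤ k)).Monic := hP.map _
  rw [splits_iff_card_roots]
  refine le_antisymm (card_roots' _) ?_
  rw [hP.natDegree_map, ← hP.natDegree_map (PowerSeries.constantCoeff (R := k)), ← hQ,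
    (IsAlgClosed.splits Q).natDegree_eq_card_roots,
    ← Multiset.toFinset_card_of_nodup (nodup_roots hsep)]
  refine le_trans ?_ (Multiset.toFinset_card_le _)
  refine Finset.card_le_card_of_injOn (fun a => HahnSeries.ofPowerSeries ℤ k (v a)) ?_ ?_
  · intro a ha
    have ha' : a ∈ Q.roots := by simpa using ha
    simp only [Finset.mem_coe, Multiset.mem_toFinset]
    rw [mem_roots hR.ne_zero, IsRoot.def, eval_map, Polynomial.eval₂_at_apply, (hv a ha').1,
      map_zero]
  · intro a ha b hb hab
    have ha' : a ∈ Q.roots := by simpa using ha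
    have hb' : b ∈ Q.roots := by simpa using hb
    rw [← (hv a ha').2, ← (hv b hb').2, HahnSeries.ofPowerSeries_injective hab]

theorem exists_pow_eq_ps [IsAlgClosed k] (m : ℕ) (hm : (m : k) ≠ 0) (u : PowerSeries k)
    (hu : PowerSeries.constantCoeff u ≠ 0) : ∃ v : PowerSeries k, v ^ m = u := by
  have hm0 : m ≠ 0 := by
    rintro rfl
    simp at hm
  obtain ⟨a, ha⟩ := IsAlgClosed.exists_pow_nat_eq (PowerSeries.constantCoeff u)
    (Nat.pos_of_ne_zero hm0)
  have ha0 : a ≠ 0 := by
    rintro rfl
    rw [zero_pow hm0] at ha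
    exact hu ha.symm
  obtain ⟨v, hv, -⟩ := lift_root_H2 (X ^ m - C u) (monic_X_pow_sub_C u hm0) a
    (by simp [ha]) (by simp [derivative_X_pow, hm, ha0])
  exact ⟨v, by simpa [sub_eq_zero] using hv⟩

theorem exists_pow_eq [IsAlgClosed k] (m : ℕ) (hm : (m : k) ≠ 0) (x : LaurentSeries k)
    (hd : (m : ℤ) ∣ x.order) : ∃ y : LaurentSeries k, y ^ m = x := by
  have hm0 : m ≠ 0 := by
    rintro rfl
    simp at hm
  by_cases hx : x = 0
  · exact ⟨0, by rw [hx, zero_pow hm0]⟩
  obtain ⟨d, hd⟩ := hd
  have hu : PowerSeries.constantCoeff x.powerSeriesPart ≠ 0 := by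
    rw [← PowerSeries.coeff_zero_eq_constantCoeff_apply, LaurentSeries.powerSeriesPart_coeff]
    simpa using HahnSeries.coeff_order_eq_zero.not.2 hx
  obtain ⟨v, hv⟩ := exists_pow_eq_ps m hm _ hu
  refine ⟨HahnSeries.single d 1 * (v : LaurentSeries k), ?_⟩
  rw [mul_pow, ← map_pow (HahnSeries.ofPowerSeries ℤ k), hv, HahnSeries.single_pow,
    one_pow, nsmul_eq_mul, ← hd,
    LaurentSeries.single_order_mul_powerSeriesPart]

/-- Artin-Schreier equations with regular right-hand side are solvable. -/
theorem exists_as_root [IsAlgClosed k] (q : ℕ) (hq : 1 < q) (hq0 : (q : k) = 0)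
    (x : LaurentSeries k) (hx : ∀ n < 0, x.coeff n = 0) : ∃ w : LaurentSeries k, w ^ q - w = x := by
  set u : PowerSeries k := PowerSeries.mk fun n => x.coeff n with hu
  have hux : (u : LaurentSeries k) = x := by
    ext n
    rw [PowerSeries.coeff_coe]
    split_ifs with h
    · exact (hx n h).symm
    · rw [hu, PowerSeries.coeff_mk, Int.natAbs_of_nonneg (not_lt.1 h)]
  have hmon : ∀ {R : Type} [CommRing R] [Nontrivial R] (c : R),
      (X ^ q - (X + C c) : R[X]).Monic ∧ (X ^ q - (X + C c) : R[X]).degree = q := fun c => by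
    have h : (X + C c).degree < (q : WithBot ℕ) := by
      rw [degree_X_add_C]
      exact_mod_cast hq
    refine ⟨monic_X_pow_sub h, ?_⟩
    rw [degree_sub_eq_left_of_degree_lt (by rwa [degree_X_pow]), degree_X_pow]
  obtain ⟨a, ha⟩ := IsAlgClosed.exists_root (X ^ q - (X + C (PowerSeries.constantCoeff u)))
    (by
      rw [(hmon _).2]
      exact_mod_cast (by omega : q ≠ 0))
  obtain ⟨v, hv, -⟩ := lift_root_H2 (X ^ q - (X + C u)) (hmon u).1 a
    (by simpa using ha) (by simp [derivative_X_pow, hq0])
  refine ⟨(v : LaurentSeries k), ?_⟩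
  have h : v ^ q - v = u := by
    have : v ^ q - (v + u) = 0 := by simpa using hv
    linear_combination this
  rw [← hux, ← h, map_sub, map_pow]

end Pool.Agent.Adm
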