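import Pool.Agent.Adm.PDefs

/-! Extension of scalars of induced Galois algebras. -/

namespace Pool.Agent.Adm

open scoped TensorProduct

theorem exists_pkg_Ind2 {F M Q G : Type} [CommRing F] [CommRing M] [Algebra F M] [CommRing Q]
    [Fintype G] (θ : F →+* Q) (b : G → M) (hb : ∀ m, ∃ v : G → F, m = ∑ l, v l • b l)
    (R : G → M →ₐ[F] M) :
    ∃ pk : Pkg Q G, ∀ (W : Type) [CommRing W] (f : Q →+* W) (g : M →+* W),
      (∀ x, g (algebraMap F M x) = f (θ x)) →
      ∃ Γ : pk.N →+* W, (∀ q, Γ (pk.i q) = f q) ∧ (∀ l, Γ (pk.b l) = g (b l)) ∧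
        ∀ (t : G) (T : W →+* W), (∀ q, T (f q) = f q) → (∀ m, T (g m) = g (R t m)) →
          ∀ n, Γ (pk.ρ t n) = T (Γ n) := by
  letI : Algebra F Q := θ.toAlgebra
  have hspan : ∀ n : Q ⊗[F] M, ∃ v : G → Q,
      n = ∑ l, (Algebra.TensorProduct.includeLeftRingHom (v l) : Q ⊗[F] M) *
        ((1 : Q) ⊗ₜ[F] b l) := by
    intro n
    induction n using TensorProduct.induction_on with
    | zero => exact ⟨0, by simp⟩
    | tmul q m =>
      obtain ⟨v, rfl⟩ := hb m
      refine ⟨fun l => v l • q, ?_⟩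
      rw [TensorProduct.tmul_sum]
      refine Finset.sum_congr rfl fun l _ => ?_
      rw [Algebra.TensorProduct.includeLeftRingHom_apply, Algebra.TensorProduct.tmul_mul_tmul,
        mul_one, one_mul, TensorProduct.smul_tmul]
    | add x y hx hy =>
      obtain ⟨v, rfl⟩ := hx
      obtain ⟨w, rfl⟩ := hy
      refine ⟨v + w, ?_⟩
      rw [← Finset.sum_add_distrib]
      refine Finset.sum_congr rfl fun l _ => ?_
      rw [Pi.add_apply, map_add, add_mul]
  refine ⟨{ N := Q ⊗[F] M
            i := Algebra.TensorProduct.includeLeftRingHom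
            b := fun l => (1 : Q) ⊗ₜ[F] b l
            ρ := fun t => (Algebra.TensorProduct.map (AlgHom.id F Q) (R t)).toRingHom
            span := hspan
            ρ_i := fun t q => by simp }, ?_⟩
  intro W _ f g hg
  letI : Algebra F W := (f.comp θ).toAlgebra
  let f' : Q →ₐ[F] W := { f with commutes' := fun _ => rfl }
  let g' : M →ₐ[F] W := { g with commutes' := hg }
  have hl : ∀ (q : Q) (m : M),
      Algebra.TensorProduct.lift f' g' (fun _ _ => Commute.all _ _) (q ⊗ₜ[F] m) = f q * g m :=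
    fun q m => Algebra.TensorProduct.lift_tmul _ _ _ q m
  refine ⟨(Algebra.TensorProduct.lift f' g' (fun _ _ => Commute.all _ _)).toRingHom, ?_, ?_, ?_⟩
  · intro q
    exact (hl q 1).trans (by rw [map_one, mul_one])
  · intro l
    exact (hl 1 (b l)).trans (by rw [map_one, one_mul])
  · intro t T h1 h2 n
    show Algebra.TensorProduct.lift f' g' (fun _ _ => Commute.all _ _)
      (Algebra.TensorProduct.map (AlgHom.id F Q) (R t) n) =
        T (Algebra.TensorProduct.lift f' g' (fun _ _ => Commute.all _ _) n)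
    induction n using TensorProduct.induction_on with
    | zero => rw [map_zero, map_zero, map_zero]
    | tmul q m =>
      rw [Algebra.TensorProduct.map_tmul, hl, hl, map_mul, h1, h2, AlgHom.id_apply]
    | add x y hx hy => rw [map_add, map_add, map_add, map_add, hx, hy]

variable {k G : Type} [Field k] [Group G] [Fintype G] [DecidableEq G]

/-- The induced algebra as an algebra of equivariant functions. -/
def Cover.indAlg_Ind2 (c : Cover k G) : Subalgebra (RatFunc k) (G → c.L) where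
  carrier := {f | ∀ (σ : c.L ≃ₐ[RatFunc k] c.L) (h : G), f (c.ι σ * h) = σ (f h)}
  mul_mem' := fun {a b} ha hb σ h => by
    rw [Pi.mul_apply, Pi.mul_apply, ha, hb, map_mul]
  add_mem' := fun {a b} ha hb σ h => by
    rw [Pi.add_apply, Pi.add_apply, ha, hb, map_add]
  algebraMap_mem' := fun r σ h => (σ.commutes r).symm

/-- Right translation on the induced algebra. -/
def Cover.trans_Ind2 (c : Cover k G) (t : G) :
    c.indAlg_Ind2 →ₐ[RatFunc k] c.indAlg_Ind2 where
  toFun f := ⟨fun h => f.1 (h * t), fun σ h => by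
    show f.1 (c.ι σ * h * t) = σ (f.1 (h * t))
    rw [mul_assoc]
    exact f.2 σ (h * t)⟩
  map_one' := rfl
  map_mul' _ _ := rfl
  map_zero' := rfl
  map_add' _ _ := rfl
  commutes' _ := rfl

theorem Cover.span_Ind2 (c : Cover k G) (P : Matrix G G c.L) (hP : c.IndBasis P)
    (f : G → c.L) (hf : f ∈ c.indAlg_Ind2) :
    ∃ v : G → RatFunc k, ∀ h, f h = ∑ l, v l • P h l := by
  have hinj : Function.Injective P.mulVec := Matrix.mulVec_injective_iff_isUnit.2 hP.1
  obtain ⟨w, hw⟩ := Matrix.mulVec_surjective_iff_isUnit.2 hP.1 f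
  have hfix : ∀ (σ : c.L ≃ₐ[RatFunc k] c.L) (l : G), σ (w l) = w l := by
    intro σ
    have : P.mulVec (fun l => σ (w l)) = P.mulVec w := by
      rw [hw]
      funext h
      obtain ⟨h', rfl⟩ : ∃ h', h = c.ι σ * h' := ⟨(c.ι σ)⁻¹ * h, by simp⟩
      rw [hf σ h', ← hw]
      simp only [Matrix.mulVec, dotProduct, map_sum, map_mul, hP.2]
    exact fun l => congrFun (hinj this) l
  have hr : ∀ l, ∃ x : RatFunc k, algebraMap (RatFunc k) c.L x = w l := fun l =>
    (IsGalois.mem_range_algebraMap_iff_fixed (w l)).2 fun σ => hfix σ l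
  choose v hv using hr
  refine ⟨v, fun h => ?_⟩
  rw [← hw]
  simp only [Matrix.mulVec, dotProduct, Algebra.smul_def, hv]
  exact Finset.sum_congr rfl fun l _ => mul_comm _ _

/-- The package obtained by extending scalars of the induced algebra along θ. -/
theorem Cover.exists_pkg (c : Cover k G) (P : Matrix G G c.L) (hP : c.IndBasis P) {Q : Type}
    [CommRing Q] (θ : RatFunc k →+* Q) :
    ∃ pk : Pkg Q G, ∀ (W : Type) [CommRing W] (ψ : Q →+* W) (j : c.L →+* W),
      (∀ f, j (algebraMap (RatFunc k) c.L f) = ψ (θ f)) →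
      ∃ Γ : pk.N →+* (G → W), pk.Real ψ (P.map j) Γ := by
  obtain ⟨pk, hpk⟩ := exists_pkg_Ind2 (F := RatFunc k) (M := c.indAlg_Ind2) θ
    (fun l => ⟨fun h => P h l, fun σ h => hP.2 σ h l⟩) (by
      intro m
      obtain ⟨v, hv⟩ := c.span_Ind2 P hP m.1 m.2
      refine ⟨v, Subtype.ext (funext fun h => ?_)⟩
      rw [hv h, AddSubmonoidClass.coe_finsetSum, Finset.sum_apply]
      rfl) c.trans_Ind2
  refine ⟨pk, fun W _ ψ j hj => ?_⟩
  obtain ⟨Γ, h1, h2, h3⟩ := hpk (G → W) (RingHom.pi fun _ => ψ)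
    (RingHom.pi fun h => j.comp ((Pi.evalRingHom (fun _ : G => c.L) h).comp
      c.indAlg_Ind2.val.toRingHom)) (fun x => funext fun _ => hj x)
  refine ⟨Γ, fun q h => by rw [h1]; rfl, fun l h => by rw [h2]; rfl, fun t n h => ?_⟩
  rw [h3 t (RingHom.pi fun h => Pi.evalRingHom (fun _ : G => W) (h * t)) (fun _ => rfl)
    (fun _ => rfl) n]
  rfl

end Pool.Agent.Adm
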