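import Pool.Agent.Adm.PDefs

/-! Idempotents and equivariance. -/

namespace Pool.Agent.Adm

variable {k G : Type} [Field k] [Group G] [Fintype G] [DecidableEq G]

omit [DecidableEq G] in
theorem real_sum_Ind3 {Q W : Type} [CommRing Q] [CommRing W] {pk : Pkg Q G} {ψ : Q →+* W}
    {P : Matrix G G W} {Γ : pk.N →+* (G → W)} (hΓ : pk.Real ψ P Γ) (v : G → Q) (h : G) :
    Γ (∑ l, pk.i (v l) * pk.b l) h = ∑ l, P h l * ψ (v l) := by
  rw [map_sum, Finset.sum_apply]
  refine Finset.sum_congr rfl fun l _ => ?_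
  rw [map_mul, Pi.mul_apply, hΓ.1, hΓ.2.1, mul_comm]

/-- An idempotent coming from the package is a union of cosets of the decomposition group, and
it is the same in every realisation. -/
theorem Cover.idem_invariant (c : Cover k G) (P : Matrix G G c.L) (hP : c.IndBasis P) {Q E : Type}
    [CommRing Q] [Field E] (θ : RatFunc k →+* Q) (pk : Pkg Q G) (α : Q →+* E)
    (hα : Function.Injective α) (J : c.L →+* E)
    (hJ : ∀ f, J (algebraMap (RatFunc k) c.L f) = α (θ f))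
    (hrat : ∀ l q, J l = α q → ∃ f, algebraMap (RatFunc k) c.L f = l)
    (Γ : pk.N →+* (G → E)) (hΓ : pk.Real α (P.map J) Γ) (n : pk.N) (S : Set G)
    (h1 : ∀ h ∈ S, Γ n h = 1) (h0 : ∀ h ∉ S, Γ n h = 0) :
    (∀ r ∈ c.ι.range, ∀ h, r * h ∈ S ↔ h ∈ S) ∧
      ∀ (E' : Type) [Field E'] (α' : Q →+* E') (J' : c.L →+* E') (Γ' : pk.N →+* (G → E')),
        (∀ f, J' (algebraMap (RatFunc k) c.L f) = α' (θ f)) → pk.Real α' (P.map J') Γ' →
        (∀ h ∈ S, Γ' n h = 1) ∧ ∀ h ∉ S, Γ' n h = 0 := by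
  classical
  obtain ⟨v, rfl⟩ := pk.span n
  obtain ⟨w, hw⟩ := (Matrix.mulVec_surjective_iff_isUnit.2 hP.1)
    fun h => if h ∈ S then (1 : c.L) else 0
  have hw' : ∀ h, ∑ l, P h l * w l = if h ∈ S then (1 : c.L) else 0 := congrFun hw
  have e1 : (fun l => J (w l)) = fun l => α (v l) := by
    refine Matrix.mulVec_injective_of_isUnit (hP.1.map J.mapMatrix) (funext fun h => ?_)
    have a1 : ∑ l, J (P h l) * J (w l) = if h ∈ S then 1 else 0 := by
      simp only [← map_mul, ← map_sum, hw']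
      split_ifs <;> simp
    have a2 : ∑ l, J (P h l) * α (v l) = if h ∈ S then 1 else 0 := by
      refine (real_sum_Ind3 hΓ v h).symm.trans ?_
      split_ifs with hh
      · exact h1 h hh
      · exact h0 h hh
    exact a1.trans a2.symm
  choose f hf using fun l => hrat (w l) (v l) (congrFun e1 l)
  have e2 : ∀ l, v l = θ (f l) := fun l => hα (by rw [← hJ, hf]; exact (congrFun e1 l).symm)
  refine ⟨?_, fun E' _ α' J' Γ' hJ' hΓ' => ?_⟩
  · rintro _ ⟨σ, rfl⟩ h
    have a1 : (if c.ι σ * h ∈ S then (1 : c.L) else 0) = σ (if h ∈ S then (1 : c.L) else 0) := by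
      rw [← hw', ← hw', map_sum]
      refine Finset.sum_congr rfl fun l _ => ?_
      rw [map_mul, hP.2, ← hf, AlgEquiv.commutes]
    by_cases a2 : h ∈ S <;> by_cases a3 : c.ι σ * h ∈ S <;> simp_all
  · have a1 : ∀ h, Γ' (∑ l, pk.i (v l) * pk.b l) h = J' (if h ∈ S then (1 : c.L) else 0) := by
      intro h
      rw [real_sum_Ind3 hΓ', ← hw', map_sum]
      refine Finset.sum_congr rfl fun l _ => ?_
      rw [map_mul, ← hf, hJ', e2, Matrix.map_apply]
    exact ⟨fun h hh => by rw [a1, if_pos hh, map_one], fun h hh => by rw [a1, if_neg hh, map_zero]⟩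

/-- Equivariance of evaluation at the identity. -/
theorem Cover.real_equivariant (c : Cover k G) (P : Matrix G G c.L) (hP : c.IndBasis P)
    {Q W : Type} [CommRing Q] [CommRing W] (pk : Pkg Q G) (ψ : Q →+* W) (j : c.L →+* W)
    (Γ : pk.N →+* (G → W)) (hΓ : pk.Real ψ (P.map j) Γ) (s : W →+* W) (hs : ∀ q, s (ψ q) = ψ q)
    (σ : c.L ≃ₐ[RatFunc k] c.L) (hσ : ∀ x, j (σ x) = s (j x)) (n : pk.N) :
    Γ (pk.ρ (c.ι σ) n) 1 = s (Γ n 1) := by
  obtain ⟨v, rfl⟩ := pk.span n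
  rw [hΓ.2.2, real_sum_Ind3 hΓ, real_sum_Ind3 hΓ, map_sum]
  refine Finset.sum_congr rfl fun l _ => ?_
  rw [map_mul, hs, Matrix.map_apply, Matrix.map_apply, ← hσ, ← hP.2, one_mul, mul_one]

end Pool.Agent.Adm
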