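import Pool.Agent.Adm.PDefs

/-! Bases of induced Galois algebras and transition matrices. -/

namespace Pool.Agent.Adm

variable {k G : Type} [Field k] [Group G] [Fintype G] [DecidableEq G]

/-- The equivariant functions span all functions from G to L. -/
theorem Cover.span_inv_Ind1 (c : Cover k G) :
    Submodule.span c.L {v : G → c.L | ∀ (σ : c.L ≃ₐ[RatFunc k] c.L) (h : G),
      v (c.ι σ * h) = σ (v h)} = ⊤ := by
  classical
  by_contra hne
  obtain ⟨φ, hφ0, hφ⟩ := Submodule.exists_le_ker_of_lt_top _ (lt_top_iff_ne_top.2 hne)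
  apply hφ0
  apply LinearMap.ext
  intro v
  have hli : LinearIndependent c.L
      (fun σ : c.L ≃ₐ[RatFunc k] c.L => ((σ : c.L →* c.L) : c.L → c.L)) := by
    refine (linearIndependent_monoidHom c.L c.L).comp
      (fun σ : c.L ≃ₐ[RatFunc k] c.L => (σ : c.L →* c.L)) ?_
    intro σ τ hστ
    apply AlgEquiv.ext
    intro x
    exact DFunLike.congr_fun hστ x
  have key := Fintype.linearIndependent_iff.1 hli
    (fun σ => φ (fun h => σ (v ((c.ι σ)⁻¹ * h)))) ?_ 1
  · have h1 : (fun h => (1 : c.L ≃ₐ[RatFunc k] c.L) (v ((c.ι 1)⁻¹ * h))) = v := by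
      funext h
      simp
    simp only [h1] at key
    simpa using key
  · funext lam
    have hmem : (∑ σ : c.L ≃ₐ[RatFunc k] c.L, σ lam • fun h => σ (v ((c.ι σ)⁻¹ * h))) ∈
        {v : G → c.L | ∀ (σ : c.L ≃ₐ[RatFunc k] c.L) (h : G), v (c.ι σ * h) = σ (v h)} := by
      intro τ h
      simp only [Finset.sum_apply, Pi.smul_apply, smul_eq_mul, map_sum, map_mul]
      refine (Fintype.sum_equiv (Equiv.mulLeft τ) _ _ ?_).symm
      intro σ
      simp [mul_assoc]
    have h0 := hφ (Submodule.subset_span hmem)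
    rw [LinearMap.mem_ker, map_sum] at h0
    simp only [map_smul, smul_eq_mul] at h0
    simp only [Finset.sum_apply, Pi.smul_apply, smul_eq_mul, Pi.zero_apply]
    rw [← h0]
    refine Finset.sum_congr rfl ?_
    intro σ _
    rw [mul_comm]
    rfl

theorem Cover.exists_indBasis (c : Cover k G) : ∃ P : Matrix G G c.L, c.IndBasis P := by
  obtain ⟨b, hbW, hspan, hli⟩ := exists_linearIndependent c.L
    {v : G → c.L | ∀ (σ : c.L ≃ₐ[RatFunc k] c.L) (h : G), v (c.ι σ * h) = σ (v h)}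
  rw [c.span_inv_Ind1] at hspan
  have hsp : ⊤ ≤ Submodule.span c.L (Set.range ((↑) : b → (G → c.L))) := by
    rw [Subtype.range_coe, hspan]
  let B : Module.Basis b c.L (G → c.L) := Module.Basis.mk hli hsp
  let e : G ≃ b := (Pi.basisFun c.L G).indexEquiv B
  refine ⟨Matrix.of fun h i => (e i : G → c.L) h, ?_, ?_⟩
  · rw [← Matrix.linearIndependent_cols_iff_isUnit]
    exact hli.comp e e.injective
  · intro σ h i
    exact hbW (e i).2 σ h

/-- The solution of an equivariant linear system is fixed. -/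
theorem fixed_Ind1 {R' : Type} [CommRing R'] (s : R' →+* R') (g : G) (M1 M2 A : Matrix G G R')
    (hu : IsUnit M2) (h1 : ∀ h i, M1 (g * h) i = s (M1 h i))
    (h2 : ∀ h i, M2 (g * h) i = s (M2 h i)) (hA : M2 * A = M1) : ∀ i j, s (A i j) = A i j := by
  have h3 : M2 * A.map s = M2 * A := by
    rw [hA]
    ext h j
    obtain ⟨h', rfl⟩ : ∃ h', g * h' = h := ⟨g⁻¹ * h, by simp⟩
    rw [h1, ← hA, Matrix.mul_apply, Matrix.mul_apply, map_sum]
    refine Finset.sum_congr rfl ?_
    intro l _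
    rw [map_mul, h2, Matrix.map_apply]
  have h4 := hu.mul_left_cancel h3
  intro i j
  have := congrFun (congrFun h4 i) j
  rwa [Matrix.map_apply] at this

/-- Transition matrix between two induced algebras on a circle. -/
theorem exists_transition (c1 c2 : Cover k G) (P1 : Matrix G G c1.L) (P2 : Matrix G G c2.L)
    (h1 : c1.IndBasis P1) (h2 : c2.IndBasis P2) {R R' : Type} [CommRing R] [CommRing R']
    (p : R →+* R') (hp : Function.Injective p) (s : R' →+* R')
    (hs : ∀ x, s x = x → ∃ y, p y = x) (J1 : c1.L →+* R') (J2 : c2.L →+* R')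
    (σ1 : c1.L ≃ₐ[RatFunc k] c1.L) (σ2 : c2.L ≃ₐ[RatFunc k] c2.L) (hσ : c1.ι σ1 = c2.ι σ2)
    (hJ1 : ∀ x, J1 (σ1 x) = s (J1 x)) (hJ2 : ∀ x, J2 (σ2 x) = s (J2 x)) :
    ∃ A : Matrix G G R, IsUnit A ∧ P1.map J1 = P2.map J2 * A.map p := by
  have hu1 : IsUnit (P1.map J1) := h1.1.map J1.mapMatrix
  have hu2 : IsUnit (P2.map J2) := h2.1.map J2.mapMatrix
  have he1 : ∀ h i, (P1.map J1) (c2.ι σ2 * h) i = s ((P1.map J1) h i) := by
    intro h i
    rw [Matrix.map_apply, Matrix.map_apply, ← hσ, h1.2, hJ1]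
  have he2 : ∀ h i, (P2.map J2) (c2.ι σ2 * h) i = s ((P2.map J2) h i) := by
    intro h i
    rw [Matrix.map_apply, Matrix.map_apply, h2.2, hJ2]
  obtain ⟨u1, hu1'⟩ := hu1
  obtain ⟨u2, hu2'⟩ := hu2
  have hA : P2.map J2 * ((u2⁻¹ * u1 : (Matrix G G R')ˣ) : Matrix G G R') = P1.map J1 := by
    rw [← hu1', ← hu2', ← Units.val_mul, mul_inv_cancel_left]
  have hB : P1.map J1 * ((u1⁻¹ * u2 : (Matrix G G R')ˣ) : Matrix G G R') = P2.map J2 := by
    rw [← hu1', ← hu2', ← Units.val_mul, mul_inv_cancel_left]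
  have hfA := fixed_Ind1 s _ _ _ _ ⟨u2, hu2'⟩ he1 he2 hA
  have hfB := fixed_Ind1 s _ _ _ _ ⟨u1, hu1'⟩ he2 he1 hB
  choose A hAp using fun i j => hs _ (hfA i j)
  choose B hBp using fun i j => hs _ (hfB i j)
  have hA' : (Matrix.of A).map p = ((u2⁻¹ * u1 : (Matrix G G R')ˣ) : Matrix G G R') := by
    ext i j
    exact hAp i j
  have hB' : (Matrix.of B).map p = ((u1⁻¹ * u2 : (Matrix G G R')ˣ) : Matrix G G R') := by
    ext i j
    exact hBp i j
  have hinj : Function.Injective (fun M : Matrix G G R => M.map p) := Matrix.map_injective hp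
  have hAB : Matrix.of A * Matrix.of B = 1 := by
    apply hinj
    simp only
    rw [Matrix.map_mul, hA', hB', ← Units.val_mul, Matrix.map_one _ p.map_zero p.map_one]
    simp
  have hBA : Matrix.of B * Matrix.of A = 1 := by
    apply hinj
    simp only
    rw [Matrix.map_mul, hA', hB', ← Units.val_mul, Matrix.map_one _ p.map_zero p.map_one]
    simp
  refine ⟨Matrix.of A, ⟨⟨Matrix.of A, Matrix.of B, hAB, hBA⟩, rfl⟩, ?_⟩
  rw [hA', hA]

end Pool.Agent.Adm
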