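import Pool.Agent.Adm.TR

/-! The Kummer covering branched at b and at infinity. -/

namespace Pool.Agent.Adm

open scoped OnePoint
open Polynomial

theorem root_KB {W : Type} [Field W] {e : ℕ} (he : 0 < e) {η : W} (hη : IsPrimitiveRoot η e)
    {w y : W} (hw : w ≠ 0) (h : y ^ e = w ^ e) : ∃ i : ℕ, y = η ^ i * w := by
  have : NeZero e := ⟨he.ne'⟩
  obtain ⟨i, -, hi⟩ := hη.eq_pow_of_pow_eq_one (ξ := y / w)
    (by rw [div_pow, h, div_self (pow_ne_zero _ hw)])
  exact ⟨i, by rw [hi, div_mul_cancel₀ _ hw]⟩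

theorem pow_KB {W G : Type} [Field W] [Group G] {e : ℕ} (he : 0 < e) {η : W}
    (hη : IsPrimitiveRoot η e) {g : G} (hg : g ^ e = 1) {i j : ℕ} (h : η ^ i = η ^ j) :
    g ^ i = g ^ j := by
  rw [pow_eq_pow_mod i hη.pow_eq_one, pow_eq_pow_mod j hη.pow_eq_one] at h
  rw [pow_eq_pow_mod i hg, pow_eq_pow_mod j hg, hη.pow_inj (Nat.mod_lt _ he) (Nat.mod_lt _ he) h]

theorem cover_KB {k G : Type} [Field k] [Group G] (e : ℕ) (he : 0 < e)
    (ζ : k) (hζ : IsPrimitiveRoot ζ e) (g : G) (hg : g ^ e = 1) :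
    ∃ c : Cover k G, c.ι.range ≤ Subgroup.zpowers g ∧
      ∀ (a : OnePoint k) (d : ℕ) (hd : 0 < d) (ξ : k) (hξ : IsPrimitiveRoot ξ d)
        (y : LaurentSeries k) (m : ℕ), y ^ e = expand a d →
        scL ξ (hξ.ne_zero hd.ne') y = HahnSeries.C ζ ^ m * y → c.Mono a d ξ (g ^ m) := by
  have : NeZero e := ⟨he.ne'⟩
  have hζK : IsPrimitiveRoot (RatFunc.C ζ) e :=
    hζ.map_of_injective (RatFunc.C (K := k)).injective
  let P : (RatFunc k)[X] := X ^ e - C RatFunc.X
  have hsep : P.Separable := separable_X_pow_sub_C _ hζK.neZero'.out RatFunc.X_ne_zero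
  have : IsGalois (RatFunc k) P.SplittingField := IsGalois.of_separable_splitting_field hsep
  have hroot : ∀ s ∈ P.rootSet P.SplittingField,
      s ^ e = algebraMap (RatFunc k) P.SplittingField RatFunc.X := fun s hs => by
    have := (mem_rootSet.1 hs).2
    simpa [P, sub_eq_zero] using this
  obtain ⟨w, hw⟩ : ∃ w : P.SplittingField,
      w ^ e = algebraMap (RatFunc k) P.SplittingField RatFunc.X := by
    obtain ⟨w, hw⟩ := (SplittingField.splits P).exists_eval_eq_zero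
      (by rw [degree_map, degree_X_pow_sub_C he]; exact_mod_cast he.ne')
    exact ⟨w, by simpa [P, sub_eq_zero] using hw⟩
  have hw0 : w ≠ 0 := by
    rintro rfl
    rw [zero_pow he.ne', eq_comm, map_eq_zero] at hw
    exact RatFunc.X_ne_zero hw
  have hζL := hζK.map_of_injective (algebraMap (RatFunc k) P.SplittingField).injective
  have hex : ∀ σ : P.SplittingField ≃ₐ[RatFunc k] P.SplittingField, ∃ i : ℕ,
      σ w = algebraMap (RatFunc k) P.SplittingField (RatFunc.C ζ) ^ i * w := fun σ =>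
    root_KB he hζL hw0 (by rw [← map_pow, hw, AlgEquiv.commutes])
  choose ix hix using hex
  let ι : (P.SplittingField ≃ₐ[RatFunc k] P.SplittingField) →* G :=
    MonoidHom.mk' (fun σ => g ^ ix σ) fun σ τ => by
      rw [← pow_add]
      refine pow_KB he hζL hg (mul_right_cancel₀ hw0 ?_)
      rw [← hix, AlgEquiv.mul_apply, hix τ, map_mul, map_pow, AlgEquiv.commutes, hix σ, pow_add]
      ring
  refine ⟨{ L := P.SplittingField, ι := ι }, ?_, fun a d hd ξ hξ y m hy hs => ?_⟩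
  · rintro _ ⟨σ, rfl⟩
    exact Subgroup.npow_mem_zpowers g _
  obtain ⟨j0, hC, hX⟩ := exists_chart a d hd
  have hy0 : y ≠ 0 := by
    rintro rfl
    rw [zero_pow he.ne', ← hX, eq_comm, map_eq_zero] at hy
    exact RatFunc.X_ne_zero hy
  have hζW : IsPrimitiveRoot (HahnSeries.C ζ : LaurentSeries k) e :=
    hζ.map_of_injective HahnSeries.C_injective
  obtain ⟨j, hj⟩ := exists_extension (L := P.SplittingField) j0 (P.rootSet P.SplittingField)
    (IntermediateField.adjoin_eq_top_of_algebra _ _ (SplittingField.adjoin_rootSet P))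
    fun J hJ s hs => by
      obtain ⟨i, hi⟩ := root_KB he (hζW.map_of_injective
        (algebraMap _ (AlgebraicClosure (LaurentSeries k))).injective) (y := J s)
        ((_root_.map_ne_zero (algebraMap _ (AlgebraicClosure (LaurentSeries k)))).2 hy0)
        (by rw [← map_pow, hroot s hs, hJ, hX, ← hy, map_pow])
      exact ⟨HahnSeries.C ζ ^ i * y, by rw [hi, map_mul, map_pow]⟩
  obtain ⟨σ, h1, h2⟩ := Cover.exists_mono_of_chart { L := P.SplittingField, ι := ι } a d hd ξ hξ j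
    (fun x => (hj _).trans (hC x)) ((hj _).trans hX)
  obtain ⟨i, hi⟩ := root_KB he hζW hy0 (y := j w) (by rw [← map_pow, hw, hj, hX, hy])
  have h3 : j (σ w) = scL ξ (hξ.ne_zero hd.ne') (j w) := h2 w
  rw [hix σ, map_mul, map_pow, hj, hC, hi, map_mul, map_pow, scL_C, hs, mul_left_comm] at h3
  have h4 : g ^ ix σ = g ^ m := pow_KB he hζW hg (mul_right_cancel₀ hy0
    (mul_left_cancel₀ (pow_ne_zero _ (hζW.ne_zero he.ne')) h3))
  rw [← h4]
  exact h1

theorem exists_kummer0 {k G : Type} [Field k] [IsAlgClosed k] [Group G] (e : ℕ) (he : 0 < e)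
    (ζ : k) (hζ : IsPrimitiveRoot ζ e) (g : G) (hg : g ^ e = 1) :
    ∃ c : Cover k G, c.ι.range ≤ Subgroup.zpowers g ∧ c.Mono ((0 : k) : OnePoint k) e ζ g ∧
      c.Mono ∞ e ζ⁻¹ g ∧ ∀ a : k, a ≠ 0 → c.Mono (a : OnePoint k) 1 1 1 := by
  obtain ⟨c, h1, h2⟩ := cover_KB e he ζ hζ g hg
  refine ⟨c, h1, ?_, ?_, fun a ha => ?_⟩
  · have := h2 ((0 : k) : OnePoint k) e he ζ hζ (HahnSeries.single 1 1) 1
      (by simp [expand, HahnSeries.single_pow]) (by simp [scL_single, HahnSeries.C_apply])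
    rwa [pow_one] at this
  · have := h2 ∞ e he ζ⁻¹ hζ.inv (HahnSeries.single (-1) 1) 1
      (by simp [expand, HahnSeries.single_pow]) (by simp [scL_single, HahnSeries.C_apply])
    rwa [pow_one] at this
  · have : NeZero e := ⟨he.ne'⟩
    have h3 := order_eval₂_expand_coe a 1 one_pos X X_ne_zero
    rw [eval₂_X, rootMultiplicity_eq_zero (by simpa using ha)] at h3
    obtain ⟨y, hy⟩ := exists_pow_eq e hζ.neZero'.out (expand (a : OnePoint k) 1) (by simp [h3])
    have := h2 a 1 one_pos 1 IsPrimitiveRoot.one y 0 hy (by simp)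
    rwa [pow_zero] at this

theorem exists_kummer {k G : Type} [Field k] [IsAlgClosed k] [Group G] (e : ℕ) (he : 0 < e)
    (ζ : k) (hζ : IsPrimitiveRoot ζ e) (g : G) (hg : g ^ e = 1) (b : k) :
    ∃ c : Cover k G, c.ι.range ≤ Subgroup.zpowers g ∧ c.Mono (b : OnePoint k) e ζ g ∧
      c.Mono ∞ e ζ⁻¹ g ∧ ∀ a : k, a ≠ b → c.Mono (a : OnePoint k) 1 1 1 := by
  obtain ⟨c, h1, h2, h3, h4⟩ := exists_kummer0 e he ζ hζ g hg
  obtain ⟨c', k1, k2, k3⟩ := c.exists_translate b
  refine ⟨c', k1 ▸ h1, ?_, k3 _ _ _ h3, fun a ha => ?_⟩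
  · simpa using k2 _ _ _ _ h2
  · simpa using k2 _ _ _ _ (h4 (a - b) (sub_ne_zero.2 ha))

end Pool.Agent.Adm
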