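import Pool.Agent.Adm.Defs

/-! Basic ring homomorphisms of Laurent series fields, relative monodromy, auxiliary notions. -/

namespace Pool.Agent.Adm

open scoped OnePoint
open HahnSeries

noncomputable section

variable {k k' : Type} [Field k] [Field k']

/-- The substitution z ↦ ζ z. -/
def scL (ζ : k) (h : ζ ≠ 0) : LaurentSeries k →+* LaurentSeries k where
  toFun x := ⟨fun n => ζ ^ n * x.coeff n, x.isPWO_support.mono (by
    intro n hn
    simp only [Function.mem_support, ne_eq, mul_eq_zero, not_or] at hn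
    exact hn.2)⟩
  map_one' := by
    ext n
    by_cases hn : n = 0 <;> simp [hn, coeff_one]
  map_zero' := by ext n; simp
  map_add' x y := by ext n; simp [mul_add]
  map_mul' x y := by
    ext n
    have hs : ∀ w : LaurentSeries k, (⟨fun n => ζ ^ n * w.coeff n, w.isPWO_support.mono (by
        intro n hn
        simp only [Function.mem_support, ne_eq, mul_eq_zero, not_or] at hn
        exact hn.2)⟩ : LaurentSeries k).support = w.support := by
      intro w
      ext m
      simp [zpow_ne_zero _ h]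
    simp only [coeff_mul, hs, Finset.mul_sum]
    refine Finset.sum_congr rfl ?_
    intro ij hij
    rw [Finset.mem_antidiagonal] at hij
    rw [← hij.2.2, zpow_add₀ h]
    ring

@[simp] theorem scL_coeff (ζ : k) (h : ζ ≠ 0) (x : LaurentSeries k) (n : ℤ) :
    (scL ζ h x).coeff n = ζ ^ n * x.coeff n := rfl

theorem scL_single (ζ : k) (h : ζ ≠ 0) (n : ℤ) (c : k) :
    scL ζ h (single n c) = single n (ζ ^ n * c) := by
  ext m
  by_cases hm : m = n <;> simp [hm, coeff_single]

@[simp] theorem scL_C (ζ : k) (h : ζ ≠ 0) (c : k) : scL ζ h (C c) = C c := by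
  rw [C_apply, scL_single]; simp

theorem scL_scL (ζ ξ : k) (h : ζ ≠ 0) (h' : ξ ≠ 0) (x : LaurentSeries k) :
    scL ζ h (scL ξ h' x) = scL (ζ * ξ) (mul_ne_zero h h') x := by
  ext n; simp [mul_zpow, mul_assoc]

@[simp] theorem scL_one (x : LaurentSeries k) : scL (1 : k) one_ne_zero x = x := by
  ext n; simp

/-- Coefficientwise extension of scalars. -/
def mapL (φ : k →+* k') : LaurentSeries k →+* LaurentSeries k' where
  toFun x := x.map φ
  map_one' := HahnSeries.map_one φ.toMonoidWithZeroHom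
  map_zero' := by ext n; simp
  map_add' x y := by ext n; simp
  map_mul' x y := HahnSeries.map_mul φ.toNonUnitalRingHom

@[simp] theorem mapL_coeff (φ : k →+* k') (x : LaurentSeries k) (n : ℤ) :
    (mapL φ x).coeff n = φ (x.coeff n) := rfl

theorem mapL_single (φ : k →+* k') (n : ℤ) (c : k) : mapL φ (single n c) = single n (φ c) := by
  ext m
  by_cases hm : m = n <;> simp [hm, coeff_single]

@[simp] theorem mapL_C (φ : k →+* k') (c : k) : mapL φ (C c) = C (φ c) := by
  rw [C_apply, mapL_single, C_apply]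

theorem mapL_scL (φ : k →+* k') (ζ : k) (h : ζ ≠ 0) (x : LaurentSeries k) :
    mapL φ (scL ζ h x) = scL (φ ζ) ((map_ne_zero φ).2 h) (mapL φ x) := by
  ext n; simp

theorem mapL_expand (φ : k →+* k') (a : OnePoint k) (e : ℕ) :
    mapL φ (expand a e) = expand (a.map φ) e := by
  induction a using OnePoint.rec with
  | infty => simp [expand, mapL_single]
  | coe b => simp [expand, mapL_single]

/-- The substitution z ↦ z^e. -/
def powL (e : ℕ) (he : 0 < e) : LaurentSeries k →+* LaurentSeries k :=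
  embDomainRingHom (AddMonoidHom.mulLeft (e : ℤ))
    (fun a b hab => mul_left_cancel₀ (by exact_mod_cast he.ne' : (e : ℤ) ≠ 0) hab)
    (fun a b => by
      have : (0 : ℤ) < e := by exact_mod_cast he
      simp only [AddMonoidHom.coe_mulLeft]
      exact mul_le_mul_iff_right₀ this)

theorem powL_coeff_mul (e : ℕ) (he : 0 < e) (x : LaurentSeries k) (n : ℤ) :
    (powL e he x).coeff (e * n) = x.coeff n := by
  simp only [powL, embDomainRingHom_apply]
  exact embDomain_coeff (f := ⟨⟨_, _⟩, _⟩) (x := x) (a := n)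

theorem powL_coeff_of_not_dvd (e : ℕ) (he : 0 < e) (x : LaurentSeries k) (n : ℤ)
    (hn : ¬ (e : ℤ) ∣ n) : (powL e he x).coeff n = 0 := by
  simp only [powL, embDomainRingHom_apply]
  apply embDomain_of_notMem_range
  rintro ⟨m, hm⟩
  exact hn ⟨m, hm.symm⟩

theorem powL_single (e : ℕ) (he : 0 < e) (n : ℤ) (c : k) :
    powL e he (single n c) = single (e * n) c := by
  ext m
  by_cases hm : (e : ℤ) ∣ m
  · obtain ⟨l, rfl⟩ := hm
    rw [powL_coeff_mul]
    have : (e : ℤ) ≠ 0 := by exact_mod_cast he.ne'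
    by_cases hl : l = n
    · simp [hl]
    · rw [coeff_single_of_ne hl, coeff_single_of_ne (fun h => hl (mul_left_cancel₀ this h))]
  · rw [powL_coeff_of_not_dvd _ _ _ _ hm, coeff_single_of_ne]
    rintro rfl
    exact hm (dvd_mul_right _ _)

@[simp] theorem powL_C (e : ℕ) (he : 0 < e) (c : k) : powL e he (C c) = C c := by
  rw [C_apply, powL_single]; simp

theorem powL_expand (e : ℕ) (he : 0 < e) (a : OnePoint k) (d : ℕ) :
    powL e he (expand a d) = expand a (e * d) := by
  induction a using OnePoint.rec with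
  | infty => simp [expand, powL_single]
  | coe b => simp [expand, powL_single]

theorem scL_powL (e : ℕ) (he : 0 < e) (ζ : k) (h : ζ ≠ 0) (x : LaurentSeries k) :
    scL ζ h (powL e he x) = powL e he (scL (ζ ^ e) (pow_ne_zero _ h) x) := by
  ext m
  by_cases hm : (e : ℤ) ∣ m
  · obtain ⟨l, rfl⟩ := hm
    rw [scL_coeff, powL_coeff_mul, powL_coeff_mul, scL_coeff, zpow_mul, zpow_natCast]
  · rw [scL_coeff, powL_coeff_of_not_dvd _ _ _ _ hm, powL_coeff_of_not_dvd _ _ _ _ hm, mul_zero]

theorem scL_expand (a : OnePoint k) (e : ℕ) (ζ : k) (h : ζ ≠ 0) (hζ : ζ ^ e = 1) :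
    scL ζ h (expand a e) = expand a e := by
  induction a using OnePoint.rec with
  | infty => simp [expand, scL_single, hζ]
  | coe b => simp [expand, scL_single, hζ]

/-- A series fixed by z ↦ ζ z, ζ a primitive e-th root of unity, is a series in z^e. -/
theorem exists_powL_of_scL (e : ℕ) (he : 0 < e) (ζ : k) (hζ : IsPrimitiveRoot ζ e)
    (x : LaurentSeries k) (hx : scL ζ (hζ.ne_zero he.ne') x = x) : ∃ y, powL e he y = x := by
  have h0 : (0 : ℤ) < e := by exact_mod_cast he
  refine ⟨HahnSeries.ofSuppBddBelow (fun n => x.coeff (e * n)) ?_, ?_⟩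
  · refine ⟨min x.order 0, fun n hn => ?_⟩
    have h1 : x.order ≤ e * n := order_le_of_coeff_ne_zero hn
    by_contra h2
    push Not at h2
    have h3 : n < x.order := lt_of_lt_of_le h2 (min_le_left _ _)
    have h4 : n < 0 := lt_of_lt_of_le h2 (min_le_right _ _)
    nlinarith
  · ext m
    by_cases hm : (e : ℤ) ∣ m
    · obtain ⟨l, rfl⟩ := hm
      rw [powL_coeff_mul]
      rfl
    · rw [powL_coeff_of_not_dvd _ _ _ _ hm]
      have h1 := congrArg (fun w : LaurentSeries k => w.coeff m) hx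
      simp only [scL_coeff] at h1
      by_contra h2
      have h3 : ζ ^ m = 1 := mul_right_cancel₀ (Ne.symm h2) (by rw [h1, one_mul])
      exact hm ((hζ.zpow_eq_one_iff_dvd m).1 h3)

/-- Two ring homomorphisms out of k(X) agreeing on constants and on X agree. -/
theorem ratFunc_hom_ext {W : Type} [CommRing W] (f g : RatFunc k →+* W)
    (hC : ∀ c, f (RatFunc.C c) = g (RatFunc.C c)) (hX : f RatFunc.X = g RatFunc.X) : f = g := by
  apply IsLocalization.ringHom_ext (nonZeroDivisors (Polynomial k))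
  apply Polynomial.ringHom_ext
  · intro c; simpa using hC c
  · simpa using hX

theorem hom_algebraMap {W : Type} [CommRing W] (f : RatFunc k →+* W) (φ : k →+* W) (u : W)
    (hC : ∀ c, f (RatFunc.C c) = φ c) (hX : f RatFunc.X = u) (P : Polynomial k) :
    f (algebraMap (Polynomial k) (RatFunc k) P) = P.eval₂ φ u := by
  have : f.comp (algebraMap (Polynomial k) (RatFunc k)) = Polynomial.eval₂RingHom φ u := by
    apply Polynomial.ringHom_ext
    · intro c; simpa using hC c
    · simpa using hX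
  exact DFunLike.congr_fun this P

/-- Existence of a homomorphism out of k(X) at a transcendental element. -/
theorem exists_ratFunc_hom {W : Type} [Field W] (φ : k →+* W) (u : W)
    (h : ∀ P : Polynomial k, P ≠ 0 → P.eval₂ φ u ≠ 0) :
    ∃ f : RatFunc k →+* W, (∀ c, f (RatFunc.C c) = φ c) ∧ f RatFunc.X = u := by
  have hφ : nonZeroDivisors (Polynomial k) ≤
      (nonZeroDivisors W).comap (Polynomial.eval₂RingHom φ u) := by
    intro P hP
    exact mem_nonZeroDivisors_of_ne_zero (h P (nonZeroDivisors.ne_zero hP))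
  refine ⟨RatFunc.liftRingHom _ hφ, fun c => ?_, ?_⟩
  · have := RatFunc.liftRingHom_apply_div _ hφ (Polynomial.C c) 1
    simpa using this
  · have := RatFunc.liftRingHom_apply_div _ hφ Polynomial.X 1
    simpa using this

variable {G : Type} [Group G]

/-- Monodromy relative to a ring W with an endomorphism s. -/
def Cover.RMono (c : Cover k G) {W : Type} [CommRing W] (φ : k →+* W) (u : W) (s : W →+* W)
    (g : G) : Prop :=
  ∃ j : c.L →+* W, (∀ x : k, j (algebraMap (RatFunc k) c.L (RatFunc.C x)) = φ x) ∧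
    j (algebraMap (RatFunc k) c.L RatFunc.X) = u ∧
    ∃ σ : c.L ≃ₐ[RatFunc k] c.L, c.ι σ = g ∧ ∀ x, j (σ x) = s (j x)

theorem Cover.Mono.rmono {c : Cover k G} {a : OnePoint k} {e : ℕ} {ζ : k} {g : G}
    (h : c.Mono a e ζ g) : c.RMono HahnSeries.C (expand a e) (scL ζ (h.2.1.ne_zero h.1.ne')) g := by
  obtain ⟨he, hζ, j, h1, h2, σ, h3, h4⟩ := h
  exact ⟨j, h1, h2, σ, h3, fun x => by ext n; exact h4 x n⟩

theorem Cover.RMono.mono {c : Cover k G} {a : OnePoint k} {e : ℕ} {ζ : k} {g : G} (he : 0 < e)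
    (hζ : IsPrimitiveRoot ζ e)
    (h : c.RMono HahnSeries.C (expand a e) (scL ζ (hζ.ne_zero he.ne')) g) : c.Mono a e ζ g := by
  obtain ⟨j, h1, h2, σ, h3, h4⟩ := h
  exact ⟨he, hζ, j, h1, h2, σ, h3, fun x n => by rw [h4, scL_coeff]⟩

theorem Cover.RMono.comp {c : Cover k G} {W W' : Type} [CommRing W] [CommRing W'] {φ : k →+* W}
    {u : W} {s : W →+* W} {g : G} (h : c.RMono φ u s g) (Ψ : W →+* W') (s' : W' →+* W')
    (hs : ∀ x, Ψ (s x) = s' (Ψ x)) : c.RMono (Ψ.comp φ) (Ψ u) s' g := by
  obtain ⟨j, h1, h2, σ, h3, h4⟩ := h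
  exact ⟨Ψ.comp j, fun x => by simp [h1], by simp [h2], σ, h3, fun x => by simp [h4, hs]⟩

theorem Cover.Mono.mem_range {c : Cover k G} {a : OnePoint k} {e : ℕ} {ζ : k} {g : G}
    (h : c.Mono a e ζ g) : g ∈ c.ι.range := by
  obtain ⟨-, -, -, -, -, σ, h3, -⟩ := h
  exact ⟨σ, h3⟩

theorem Cover.Mono.pow_eq_one {c : Cover k G} {a : OnePoint k} {e : ℕ} {ζ : k} {g : G}
    (h : c.Mono a e ζ g) : g ^ e = 1 := by
  obtain ⟨he, hζ, j, h1, h2, σ, h3, h4⟩ := h
  have h5 : ∀ (i : ℕ) (x : c.L) (n : ℤ), (j ((σ ^ i) x)).coeff n = (ζ ^ i) ^ n * (j x).coeff n := by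
    intro i
    induction i with
    | zero => intro x n; simp
    | succ i ih =>
      intro x n
      rw [pow_succ', AlgEquiv.mul_apply, h4, ih, pow_succ', mul_zpow, mul_assoc]
  have h6 : σ ^ e = 1 := by
    ext x
    apply j.injective
    ext n
    rw [h5, hζ.pow_eq_one]
    simp
  rw [← h3, ← map_pow, h6, map_one]

/-- Push a covering forward along a group homomorphism. -/
def Cover.map {H : Type} [Group H] (c : Cover k G) (f : G →* H) : Cover k H :=
  { c with ι := f.comp c.ι }

theorem Cover.map_range {H : Type} [Group H] (c : Cover k G) (f : G →* H) :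
    (c.map f).ι.range = c.ι.range.map f := MonoidHom.range_comp f c.ι

theorem Cover.Mono.map {H : Type} [Group H] {c : Cover k G} {a : OnePoint k} {e : ℕ} {ζ : k}
    {g : G} (h : c.Mono a e ζ g) (f : G →* H) : (c.map f).Mono a e ζ (f g) := by
  obtain ⟨he, hζ, j, h1, h2, σ, h3, h4⟩ := h
  exact ⟨he, hζ, j, h1, h2, σ, by rw [← h3]; rfl, h4⟩

/-- Restrict the group of a covering to a subgroup containing the image. -/
def Cover.restr (c : Cover k G) (H : Subgroup G) (h : c.ι.range ≤ H) : Cover k H :=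
  { c with ι := c.ι.codRestrict H (fun σ => h ⟨σ, rfl⟩) }

theorem Cover.restr_range (c : Cover k G) (H : Subgroup G) (h : c.ι.range ≤ H) :
    (c.restr H h).ι.range = c.ι.range.subgroupOf H := by
  ext x
  constructor
  · rintro ⟨σ, rfl⟩; exact ⟨σ, rfl⟩
  · rintro ⟨σ, hσ⟩; exact ⟨σ, Subtype.ext hσ⟩

theorem Cover.Mono.restr {c : Cover k G} {a : OnePoint k} {e : ℕ} {ζ : k} {g : G}
    (hm : c.Mono a e ζ g) (H : Subgroup G) (h : c.ι.range ≤ H) :
    (c.restr H h).Mono a e ζ ⟨g, h hm.mem_range⟩ := by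
  obtain ⟨he, hζ, j, h1, h2, σ, h3, h4⟩ := hm
  exact ⟨he, hζ, j, h1, h2, σ, Subtype.ext h3, h4⟩

/-- Tame everywhere, unramified outside S. -/
def Cover.Tame (c : Cover k G) (S : Set (OnePoint k)) : Prop :=
  ∀ a, ∃ e ζ g, c.Mono a e ζ g ∧ (a ∉ S → g = 1)

/-- The point at infinity of c is glued to the point zero of c'. -/
def Glue (c c' : Cover k G) : Prop :=
  ∃ e ζ g, c.Mono ∞ e ζ g ∧ c'.Mono ((0 : k) : OnePoint k) e ζ⁻¹ g

/-- Local monodromy data. -/
abbrev Dat (k G : Type) : Type := ℕ × k × G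

/-- Monodromy with packaged data. -/
def Cover.MD (c : Cover k G) (a : OnePoint k) (d : Dat k G) : Prop := c.Mono a d.1 d.2.1 d.2.2

/-- Extension of scalars on monodromy data. -/
def Dat.map (φ : k →+* k') (d : Dat k G) : Dat k' G := (d.1, φ d.2.1, d.2.2)

end

end Pool.Agent.Adm
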