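import Pool.Agent.Adm.ADefs

/-! Lemmas on labels and on the affine group. -/

namespace Pool.Agent.Adm

variable {k : Type} [Field k]

theorem Lab.unique {m e : ℕ} {ζ c : k} {n n' : ℤ} (he : 0 < e) (hζ : IsPrimitiveRoot ζ e)
    (h : Lab m e ζ c n) (h' : Lab m e ζ c n') : n ≡ n' [ZMOD m] := by
  obtain ⟨r, t, h1, h2⟩ := h
  obtain ⟨r', t', h1', h2'⟩ := h'
  have hz : ζ ≠ 0 := hζ.ne_zero he.ne'
  have h3 : ζ ^ (r' - r) = 1 := by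
    rw [zpow_sub₀ hz, ← h2, ← h2', div_self]
    rw [h2]
    exact zpow_ne_zero _ hz
  obtain ⟨s, hs⟩ := (hζ.zpow_eq_one_iff_dvd _).1 h3
  have he' : (e : ℤ) ≠ 0 := by exact_mod_cast he.ne'
  rw [Int.modEq_iff_dvd]
  refine ⟨s - t' + t, mul_left_cancel₀ he' ?_⟩
  linear_combination h1 - h1' + (m : ℤ) * hs

theorem Lab.congr {m e : ℕ} {ζ c : k} {n n' : ℤ} (h : Lab m e ζ c n) (hn : n ≡ n' [ZMOD m]) :
    Lab m e ζ c n' := by
  obtain ⟨r, t, h1, h2⟩ := h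
  obtain ⟨s, hs⟩ := Int.modEq_iff_dvd.1 hn
  exact ⟨r, t - s, by linear_combination h1 - (e : ℤ) * hs, h2⟩

theorem Lab.inv {m e : ℕ} {ζ c : k} {n : ℤ} (h : Lab m e ζ c n) : Lab m e ζ⁻¹ c (-n) := by
  obtain ⟨r, t, h1, h2⟩ := h
  exact ⟨-r, -t, by linear_combination -h1, by rw [h2, inv_zpow', neg_neg]⟩

theorem Lab.of_inv {m e : ℕ} {ζ c : k} {n : ℤ} (h : Lab m e ζ⁻¹ c n) : Lab m e ζ c (-n) := by
  have := h.inv
  rwa [inv_inv] at this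

theorem lab_one (m e : ℕ) (ζ : k) : Lab m e ζ 1 0 := ⟨0, 0, by simp, by simp⟩

theorem Lab.eq_one {m e : ℕ} {ζ c : k} {n : ℤ} (hm : 0 < m) (hζ : ζ ^ e = 1)
    (h : Lab m e ζ c n) (hn : n ≡ 0 [ZMOD m]) : c = 1 := by
  obtain ⟨r, t, h1, h2⟩ := h
  obtain ⟨s, hs⟩ := Int.modEq_iff_dvd.1 hn
  have hm' : (m : ℤ) ≠ 0 := by exact_mod_cast hm.ne'
  have h3 : r = e * (t - s) := mul_left_cancel₀ hm' (by linear_combination h1 - (e : ℤ) * hs)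
  rw [h2, h3, zpow_mul, zpow_natCast, hζ, one_zpow]

theorem exists_lab {m e : ℕ} {ζ c : k} (hm : 0 < m) (he : 0 < e) (hζ : IsPrimitiveRoot ζ e)
    (h1 : c ^ e = 1) (h2 : c ^ m = 1) : ∃ n : ℕ, n < m ∧ Lab m e ζ c n := by
  have : NeZero e := ⟨he.ne'⟩
  obtain ⟨i, -, rfl⟩ := hζ.eq_pow_of_pow_eq_one h1
  rw [← pow_mul] at h2
  obtain ⟨N, hN⟩ := hζ.dvd_of_pow_eq_one _ h2
  refine ⟨N % m, Nat.mod_lt _ hm, i, (N / m : ℕ), ?_, by rw [zpow_natCast]⟩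
  have h3 : N % m + m * (N / m) = N := Nat.mod_add_div N m
  have h4 : m * i = e * (N % m + m * (N / m)) := by rw [h3, mul_comm, hN]
  exact_mod_cast h4

theorem lab_map_iff {k' : Type} [Field k'] (φ : k →+* k') {m e : ℕ} {ζ c : k} {n : ℤ} :
    Lab m e (φ ζ) (φ c) n ↔ Lab m e ζ c n := by
  constructor
  · rintro ⟨r, t, h1, h2⟩
    exact ⟨r, t, h1, φ.injective (by rw [h2, map_zpow₀])⟩
  · rintro ⟨r, t, h1, h2⟩
    exact ⟨r, t, h1, by rw [h2, map_zpow₀]⟩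

theorem lab_of_root {m e : ℕ} {ξ c : k} {n : ℤ} (hm : 0 < m) (he : 0 < e)
    (hξ : IsPrimitiveRoot ξ (e * m)) (h1 : c ^ e = 1) (h2 : c = (ξ ^ e) ^ n) :
    Lab m e (ξ ^ m) c n := by
  have h3 : ξ ^ ((e : ℤ) * n * e) = 1 := by
    rw [zpow_mul, zpow_mul, zpow_natCast, zpow_natCast, ← h2, h1]
  obtain ⟨r, hr⟩ := (hξ.zpow_eq_one_iff_dvd _).1 h3
  have he' : (e : ℤ) ≠ 0 := by exact_mod_cast he.ne'
  have h4 : (e : ℤ) * n = m * r := mul_left_cancel₀ he' (by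
    push_cast at hr
    linear_combination hr)
  refine ⟨r, 0, by linear_combination -h4, ?_⟩
  rw [h2, ← zpow_natCast, ← zpow_mul, h4, zpow_mul, zpow_natCast]

theorem exists_root_lift [IsAlgClosed k] {m e : ℕ} {ζ : k} (hm : (m : k) ≠ 0) (he : 0 < e)
    (hζ : IsPrimitiveRoot ζ e) : ∃ ξ : k, IsPrimitiveRoot ξ (e * m) ∧ ξ ^ m = ζ := by
  have : NeZero e := ⟨he.ne'⟩
  have hm0 : m ≠ 0 := by rintro rfl; simp at hm
  have hek : (e : k) ≠ 0 := (hζ.neZero' (n := e)).ne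
  have : NeZero ((e * m : ℕ) : k) := ⟨by push_cast; exact mul_ne_zero hek hm⟩
  have : NeZero (e * m) := ⟨mul_ne_zero he.ne' hm0⟩
  obtain ⟨ξ0, h0⟩ := HasEnoughRootsOfUnity.exists_primitiveRoot k (e * m)
  have h1 : IsPrimitiveRoot (ξ0 ^ m) e :=
    h0.pow (Nat.pos_of_ne_zero (mul_ne_zero he.ne' hm0)) (mul_comm _ _)
  obtain ⟨i, -, hi, rfl⟩ := (h1.isPrimitiveRoot_iff).1 hζ
  obtain ⟨u, hu⟩ := ZMod.unitsMap_surjective (dvd_mul_right e m) (ZMod.unitOfCoprime i hi)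
  have hc : Nat.Coprime (u : ZMod (e * m)).val (e * m) := ZMod.val_coe_unit_coprime u
  refine ⟨ξ0 ^ (u : ZMod (e * m)).val, h0.pow_of_coprime _ hc, ?_⟩
  have h2 : (((u : ZMod (e * m)).val : ℕ) : ZMod e) = (i : ZMod e) := by
    have := congrArg (fun x : (ZMod e)ˣ => (x : ZMod e)) hu
    simp only [ZMod.unitsMap_val, ZMod.coe_unitOfCoprime] at this
    rw [← this, ZMod.natCast_val]
  rw [ZMod.natCast_eq_natCast_iff'] at h2
  rw [← pow_mul, mul_comm, pow_mul, ← pow_mod_orderOf, ← h1.eq_orderOf, h2]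
  conv_rhs => rw [← pow_mod_orderOf, ← h1.eq_orderOf]

end Pool.Agent.Adm
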