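import Pool.Agent.Adm.VP
import Pool.Agent.Adm.VF
import Pool.Agent.Adm.Kap

/-! New affine quotients on the upper curve of a step. -/

namespace Pool.Agent.Adm

open scoped OnePoint
open Polynomial

variable {k F : Type} [Field k] [IsAlgClosed k] [Field F] [Fintype F]

omit [IsAlgClosed k] [Fintype F] in
theorem md_restr_New1 {G : Type} [Group G] {c : Cover k G} {a : OnePoint k} {d : Dat k G}
    (hd : c.MD a d) :
    (c.restr c.ι.range le_rfl).MD a (d.1, d.2.1, ⟨d.2.2, Cover.Mono.mem_range hd⟩) :=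
  Cover.Mono.restr hd c.ι.range le_rfl

theorem new1 (θ : F →+* k) (a : Fin 6 → k) (ha : Function.Injective a) (n : Fin 6 → ℕ)
    (hn : ∀ i, n i < Fintype.card F - 1) (h1 : Fintype.card F ≤ ∑ i, n i)
    (h2 : ∑ i, n i ≤ 2 * (Fintype.card F - 1))
    (hκ : (∏ j, (X - C (a j)) ^ n j : k[X]).coeff (Fintype.card F - 1) ≠ 0) (N : Fin 7 → ℤ)
    (hN : ∀ i : Fin 6, N i.castSucc = n i) (hN6 : N 6 = -((∑ i, n i : ℕ) : ℤ)) :
    NewCov θ (A1 a) N := by
  intro G _ _ d hA
  obtain ⟨c1, hT, hr, hd, hd6⟩ := hA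
  obtain ⟨r1, r2, r3, r4⟩ := rootMultiplicity_prod_X_sub_C a ha n
  generalize (∏ j, (X - C (a j)) ^ n j : k[X]) = f at hκ r1 r2 r3 r4
  have hm : ∀ x : k, f.rootMultiplicity x < Fintype.card F - 1 := by
    intro x
    by_cases hx : x ∈ Set.range a
    · obtain ⟨i, rfl⟩ := hx
      rw [r1 i]
      exact hn i
    · rw [r2 x hx]
      exact lt_of_le_of_lt (Nat.zero_le _) (hn 0)
  obtain ⟨c2, hc2, hnf⟩ := exists_affLab_noFix θ f r4 (r3 ▸ h1) (r3 ▸ h2) hκ hm
  obtain ⟨c, hg, hnf'⟩ := exists_good θ c1 c2 f hc2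
  have hcT : c.Tame (S7 a) := by
    refine hg.tame hT fun x hx => ?_
    induction x using OnePoint.rec with
    | infty => exact absurd (Set.mem_insert _ _) hx
    | coe y =>
      have hy : y ∉ Set.range a := by
        rintro ⟨i, rfl⟩
        exact hx (Set.mem_insert_of_mem _ ⟨i, rfl⟩)
      have : labAt f (y : OnePoint k) = 0 := by
        show ((f.rootMultiplicity y : ℕ) : ℤ) = 0
        rw [r2 y hy]
        rfl
      rw [this]
  let pt : Fin 7 → OnePoint k := Fin.lastCases ∞ fun i => (a i : OnePoint k)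
  have hp1 : ∀ i : Fin 6, pt i.castSucc = (a i : OnePoint k) := fun i => by
    simp only [pt, Fin.lastCases_castSucc]
  have hp6 : pt 6 = ∞ := Fin.lastCases_last
  have hall : ∀ i, c1.MD (pt i) (d i) ∧ labAt f (pt i) = N i := by
    intro i
    refine Fin.lastCases ?_ (fun j => ?_) i
    · change c1.MD (pt 6) (d 6) ∧ labAt f (pt 6) = N 6
      rw [hp6, hN6]
      refine ⟨hd6, ?_⟩
      show -((f.natDegree : ℕ) : ℤ) = _
      rw [r3]
    · rw [hp1, hN]
      refine ⟨hd j, ?_⟩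
      show ((f.rootMultiplicity (a j) : ℕ) : ℤ) = _
      rw [r1]
  choose d' hd1 hd2 hd3 using fun i => hg.md (hall i).1
  refine ⟨c.ι.range, inferInstance, inferInstance,
    (MonoidHom.fst G (Aff F)).comp c.ι.range.subtype,
    (MonoidHom.snd G (Aff F)).comp c.ι.range.subtype,
    fun i => ((d' i).1, (d' i).2.1, ⟨(d' i).2.2, Cover.Mono.mem_range (hd1 i)⟩),
    ⟨c.restr c.ι.range le_rfl, hcT.restr _ _, ?_, fun i => ?_, ?_⟩, ?_, ?_, ?_⟩
  · rw [Cover.restr_range, Subgroup.subgroupOf_self]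
  · rw [← hp1]
    exact md_restr_New1 (hd1 i.castSucc)
  · rw [← hp6]
    exact md_restr_New1 (hd1 6)
  · intro g
    have hmem : g ∈ c.ι.range.map (MonoidHom.fst G (Aff F)) := by
      rw [hg.1, hr]
      exact Subgroup.mem_top g
    obtain ⟨x, hx, rfl⟩ := hmem
    exact ⟨⟨x, hx⟩, rfl⟩
  · rw [MonoidHom.range_comp, Subgroup.range_subtype]
    exact hnf' hnf
  · intro χ hχ i
    rw [← (hall i).2]
    refine hd3 i χ ?_
    rw [← hd2 i]
    exact DFunLike.congr_fun hχ ⟨(d' i).2.2, Cover.Mono.mem_range (hd1 i)⟩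

end Pool.Agent.Adm
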