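import Pool.Agent.Adm.PDefs
import Pool.Agent.Adm.GA0

/-! Abstract patching of three packages along two fields. -/

namespace Pool.Agent.Adm

section aux
variable {G : Type} [Group G] [Fintype G] [DecidableEq G]

theorem real_cmb_P2 {Q W : Type} [CommRing Q] [CommRing W] {pk : Pkg Q G} {ψ : Q →+* W}
    {P : Matrix G G W} {Γ : pk.N →+* (G → W)} (h : pk.Real ψ P Γ) (v : G → Q) :
    Γ (∑ l, pk.i (v l) * pk.b l) = P.mulVec (fun l => ψ (v l)) := by
  funext g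
  rw [map_sum, Finset.sum_apply]
  refine Finset.sum_congr rfl fun l _ => ?_
  rw [map_mul, Pi.mul_apply, h.1, h.2.1, mul_comm]

theorem real_inj_P2 {Q W : Type} [CommRing Q] [CommRing W] {pk : Pkg Q G} {ψ : Q →+* W}
    {P : Matrix G G W} {Γ : pk.N →+* (G → W)} (h : pk.Real ψ P Γ) (hψ : Function.Injective ψ)
    (hP : IsUnit P) : Function.Injective Γ := by
  rw [injective_iff_map_eq_zero]
  intro n hn
  obtain ⟨v, rfl⟩ := pk.span n
  rw [real_cmb_P2 h, ← P.mulVec_zero] at hn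
  have h1 := Matrix.mulVec_injective_of_isUnit hP hn
  refine Finset.sum_eq_zero fun l _ => ?_
  have h2 : v l = 0 := hψ (by rw [map_zero]; exact congrFun h1 l)
  rw [h2, map_zero, zero_mul]

/-- Change of generators of a package. -/
def Pkg.chg_P2 {Q : Type} [CommRing Q] (pk : Pkg Q G) (U : Matrix G G Q) (hU : IsUnit U) :
    Pkg Q G where
  N := pk.N
  i := pk.i
  b := fun l => ∑ j, pk.i (U j l) * pk.b j
  ρ := pk.ρ
  span := fun n => by
    obtain ⟨w, rfl⟩ := pk.span n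
    obtain ⟨v, rfl⟩ := Matrix.mulVec_surjective_iff_isUnit.2 hU w
    refine ⟨v, ?_⟩
    simp only [Matrix.mulVec, dotProduct, map_sum, map_mul, Finset.sum_mul, Finset.mul_sum]
    rw [Finset.sum_comm]
    exact Finset.sum_congr rfl fun _ _ => Finset.sum_congr rfl fun _ _ => by ring
  ρ_i := pk.ρ_i

theorem real_chg_P2 {Q W : Type} [CommRing Q] [CommRing W] {pk : Pkg Q G} {ψ : Q →+* W}
    {P : Matrix G G W} {Γ : pk.N →+* (G → W)} (h : pk.Real ψ P Γ) (U : Matrix G G Q)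
    (hU : IsUnit U) : (pk.chg_P2 U hU).Real ψ (P * U.map ψ) Γ :=
  ⟨h.1, fun l g => congrFun (real_cmb_P2 h (fun j => U j l)) g, h.2.2⟩

theorem abs_P2 {K B E : Type} [Field K] [CommRing B] [Algebra K B] [Field E]
    (Φ : B →+* (G → E)) (hΦ : Function.Injective Φ) (σ : G → B →+* B)
    (hσ : ∀ g x h, Φ (σ g x) h = Φ x (h * g))
    (hK : ∀ r h h', Φ (algebraMap K B r) h = Φ (algebraMap K B r) h') (b : G → B)
    (P : Matrix G G E) (hP : IsUnit P) (hb : ∀ l h, Φ (b l) h = P h l)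
    (hs : ∀ x, ∃ r : G → K, x = ∑ l, algebraMap K B (r l) * b l)
    (hc : ∀ (x : B) (S : Set G), (∀ h ∈ S, Φ x h = 1) → (∀ h ∉ S, Φ x h = 0) →
      S = ∅ ∨ S = Set.univ) :
    IsField B ∧ Module.Finite K B ∧ Module.finrank K B ≤ Nat.card G ∧
      ∃ ρ : G →* (B ≃ₐ[K] B), Function.Injective ρ ∧ ∀ g x, ρ g x = σ g x := by
  have hsp : Submodule.span K (Set.range b) = ⊤ := by
    rw [eq_top_iff]
    intro x _
    obtain ⟨r, rfl⟩ := hs x
    refine Submodule.sum_mem _ fun l _ => ?_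
    rw [← Algebra.smul_def]
    exact Submodule.smul_mem _ _ (Submodule.subset_span ⟨l, rfl⟩)
  have hfin : Module.Finite K B := ⟨Submodule.fg_def.2 ⟨_, Set.finite_range b, hsp⟩⟩
  have : Nontrivial B := Φ.domain_nontrivial
  have : IsReduced B := isReduced_of_injective Φ hΦ
  have e1 : ∀ x, σ 1 x = x := fun x => hΦ (funext fun h => by rw [hσ, mul_one])
  have e2 : ∀ g g' x, σ (g * g') x = σ g (σ g' x) := fun g g' x =>
    hΦ (funext fun h => by rw [hσ, hσ, hσ, mul_assoc])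
  have e3 : ∀ g r, σ g (algebraMap K B r) = algebraMap K B r := fun g r =>
    hΦ (funext fun h => by rw [hσ]; exact hK r _ _)
  let τ : G → B →ₐ[K] B := fun g => { σ g with commutes' := e3 g }
  let ρ : G →* (B ≃ₐ[K] B) :=
    { toFun := fun g => AlgEquiv.ofAlgHom (τ g) (τ g⁻¹)
        (AlgHom.ext fun x => (e2 g g⁻¹ x).symm.trans (by rw [mul_inv_cancel]; exact e1 x))
        (AlgHom.ext fun x => (e2 g⁻¹ g x).symm.trans (by rw [inv_mul_cancel]; exact e1 x))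
      map_one' := AlgEquiv.ext e1
      map_mul' := fun g g' => AlgEquiv.ext (e2 g g') }
  refine ⟨isField_of_reduced (K := K) fun x hx => ?_, hfin, ?_, ρ, ?_, fun _ _ => rfl⟩
  · have h1 : ∀ h, Φ x h ≠ 1 → Φ x h = 0 := fun h k => by
      have h2 : Φ x h * Φ x h = Φ x h := by rw [← Pi.mul_apply, ← map_mul, hx]
      by_contra k'
      exact k (mul_left_cancel₀ k' (by rw [h2, mul_one]))
    rcases hc x {h | Φ x h = 1} (fun _ k => k) h1 with k | k
    · refine Or.inl (hΦ (funext fun h => ?_))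
      rw [map_zero]
      exact h1 h fun k' => (Set.ext_iff.1 k h).1 k'
    · refine Or.inr (hΦ (funext fun h => ?_))
      rw [map_one]
      exact (Set.ext_iff.1 k h).2 trivial
  · rw [Nat.card_eq_fintype_card]
    exact finrank_le_of_span_eq_top hsp
  · rw [injective_iff_map_eq_one]
    intro g hg
    have h1 : ∀ l, P g l = P 1 l := fun l => by
      have h2 : σ g (b l) = b l := DFunLike.congr_fun hg (b l)
      rw [← hb, ← hb, ← one_mul g, ← hσ, h2]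
    have h3 := Matrix.vecMul_injective_of_isUnit hP
      (a₁ := Pi.single g 1) (a₂ := Pi.single 1 1) (by
        funext l
        simp only [Matrix.single_one_vecMul, Matrix.row_apply]
        exact h1 l)
    by_contra k
    have h4 := congrFun h3 g
    rw [Pi.single_eq_same, Pi.single_eq_of_ne k] at h4
    exact one_ne_zero h4

theorem core_P2 {K QA QM QB E1 E2 : Type} [Field K]
    [CommRing QA] [CommRing QM] [CommRing QB] [Field E1] [Field E2]
    (κA : K →+* QA) (κM : K →+* QM) (κB : K →+* QB) (α : QA →+* E1) (μ1 : QM →+* E1)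
    (μ2 : QM →+* E2) (β : QB →+* E2) (hα : Function.Injective α) (hμ1 : Function.Injective μ1)
    (hβ : Function.Injective β)
    (hc1 : ∀ r, α (κA r) = μ1 (κM r)) (hc2 : ∀ r, μ2 (κM r) = β (κB r))
    (hint : ∀ a m b, α a = μ1 m → μ2 m = β b → ∃ r, κM r = m)
    (pA : Pkg QA G) (pM : Pkg QM G) (pB : Pkg QB G) (P1 : Matrix G G E1)
    (P2 : Matrix G G E2) (u1 : IsUnit P1) (u2 : IsUnit P2)
    (ΓA : pA.N →+* (G → E1)) (ΓM1 : pM.N →+* (G → E1))
    (ΓM2 : pM.N →+* (G → E2)) (ΓB : pB.N →+* (G → E2)) (hA : pA.Real α P1 ΓA)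
    (hM1 : pM.Real μ1 P1 ΓM1) (hM2 : pM.Real μ2 P2 ΓM2) (hB : pB.Real β P2 ΓB)
    (hconn : ∀ (a : pA.N) (m : pM.N) (b : pB.N) (S : Set G), ΓA a = ΓM1 m → ΓM2 m = ΓB b →
      (∀ h ∈ S, ΓM1 m h = 1) → (∀ h ∉ S, ΓM1 m h = 0) → S = ∅ ∨ S = Set.univ) :
    ∃ (B : Type) (_ : Field B) (_ : Algebra K B) (_ : FiniteDimensional K B) (_ : IsGalois K B)
      (ρ : G ≃* (B ≃ₐ[K] B)) (lA : B →+* pA.N) (lM : B →+* pM.N) (lB : B →+* pB.N),
      (∀ r, lA (algebraMap K B r) = pA.i (κA r)) ∧ (∀ r, lM (algebraMap K B r) = pM.i (κM r)) ∧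
      (∀ r, lB (algebraMap K B r) = pB.i (κB r)) ∧ (∀ g x, lA (ρ g x) = pA.ρ g (lA x)) ∧
      (∀ g x, lM (ρ g x) = pM.ρ g (lM x)) ∧ ∀ g x, lB (ρ g x) = pB.ρ g (lB x) := by
  let T := pA.N × pM.N × pB.N
  let fA : T →+* pA.N := RingHom.fst _ _
  let fM : T →+* pM.N := (RingHom.fst _ _).comp (RingHom.snd _ _)
  let fB : T →+* pB.N := (RingHom.snd _ _).comp (RingHom.snd _ _)
  let B : Subring T := (ΓA.comp fA).eqLocus (ΓM1.comp fM) ⊓ (ΓM2.comp fM).eqLocus (ΓB.comp fB)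
  have mem : ∀ x : T, x ∈ B ↔ ΓA x.1 = ΓM1 x.2.1 ∧ ΓM2 x.2.1 = ΓB x.2.2 := fun _ => Iff.rfl
  let Φ : B →+* (G → E1) := ΓM1.comp (fM.comp B.subtype)
  have hΦ : Function.Injective Φ := by
    rw [injective_iff_map_eq_zero]
    rintro ⟨⟨a, m, b⟩, hx⟩ h0
    obtain ⟨k1, k2⟩ := (mem _).1 hx
    have h0' : ΓM1 m = 0 := h0
    have j1 : m = 0 := real_inj_P2 hM1 hμ1 u1 (by rw [h0', map_zero])
    have j2 : a = 0 := real_inj_P2 hA hα u1 (by rw [map_zero, ← h0']; exact k1)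
    have j3 : b = 0 := real_inj_P2 hB hβ u2 (by
      rw [map_zero, ← map_zero ΓM2, ← j1]; exact k2.symm)
    subst j1 j2 j3
    rfl
  let ι : K →+* B := ((pA.i.comp κA).prod ((pM.i.comp κM).prod (pB.i.comp κB))).codRestrict B
    fun r => (mem _).2 ⟨funext fun h => (hA.1 _ h).trans ((hc1 r).trans (hM1.1 _ h).symm),
      funext fun h => (hM2.1 _ h).trans ((hc2 r).trans (hB.1 _ h).symm)⟩
  let : Algebra K B := ι.toAlgebra
  let σ : G → B →+* B := fun g =>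
    (((pA.ρ g).prodMap ((pM.ρ g).prodMap (pB.ρ g))).comp B.subtype).codRestrict B fun x =>
      (mem _).2 ⟨funext fun h => (hA.2.2 g _ h).trans
          ((congrFun ((mem _).1 x.2).1 _).trans (hM1.2.2 g _ h).symm),
        funext fun h => (hM2.2.2 g _ h).trans
          ((congrFun ((mem _).1 x.2).2 _).trans (hB.2.2 g _ h).symm)⟩
  let b : G → B := fun l => ⟨(pA.b l, pM.b l, pB.b l), (mem _).2
    ⟨funext fun h => (hA.2.1 l h).trans (hM1.2.1 l h).symm,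
      funext fun h => (hM2.2.1 l h).trans (hB.2.1 l h).symm⟩⟩
  obtain ⟨hF, hfin, hrk, ρ, hρ, hρσ⟩ := abs_P2 (K := K) Φ hΦ σ (fun g x h => hM1.2.2 g _ h)
    (fun r h h' => (hM1.1 _ h).trans (hM1.1 _ h').symm) b P1 u1 (fun l h => hM1.2.1 l h)
    (by
      rintro ⟨⟨a, m, b'⟩, hx⟩
      obtain ⟨k1, k2⟩ := (mem _).1 hx
      obtain ⟨vA, rfl⟩ := pA.span a
      obtain ⟨vM, rfl⟩ := pM.span m
      obtain ⟨vB, rfl⟩ := pB.span b'
      simp only [real_cmb_P2 hA, real_cmb_P2 hM1, real_cmb_P2 hM2, real_cmb_P2 hB] at k1 k2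
      have j1 := Matrix.mulVec_injective_of_isUnit u1 k1
      have j2 := Matrix.mulVec_injective_of_isUnit u2 k2
      choose r hr using fun l => hint (vA l) (vM l) (vB l) (congrFun j1 l) (congrFun j2 l)
      refine ⟨r, hΦ ?_⟩
      rw [map_sum]
      refine (map_sum ΓM1 _ _).trans (Finset.sum_congr rfl fun l _ => ?_)
      rw [← hr l]
      rfl)
    (fun x S => hconn x.1.1 x.1.2.1 x.1.2.2 S ((mem _).1 x.2).1 ((mem _).1 x.2).2)
  let : Field B := hF.toField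
  obtain ⟨hG, hbij⟩ := galois_of_action ρ hρ hrk
  exact ⟨B, inferInstance, inferInstance, hfin, hG, MulEquiv.ofBijective ρ hbij,
    fA.comp B.subtype, fM.comp B.subtype, fB.comp B.subtype, fun _ => rfl, fun _ => rfl,
    fun _ => rfl, fun g x => congrArg (fun z : B => z.1.1) (hρσ g x),
    fun g x => congrArg (fun z : B => z.1.2.1) (hρσ g x),
    fun g x => congrArg (fun z : B => z.1.2.2) (hρσ g x)⟩

end aux

theorem patch_abstract {K G QA QM QB E1 E2 : Type} [Field K] [Group G] [Fintype G]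
    [DecidableEq G] [CommRing QA] [CommRing QM] [CommRing QB] [Field E1] [Field E2]
    (κA : K →+* QA) (κM : K →+* QM) (κB : K →+* QB) (α : QA →+* E1) (μ1 : QM →+* E1)
    (μ2 : QM →+* E2) (β : QB →+* E2) (hα : Function.Injective α) (hμ1 : Function.Injective μ1)
    (hμ2 : Function.Injective μ2) (hβ : Function.Injective β)
    (hc1 : ∀ r, α (κA r) = μ1 (κM r)) (hc2 : ∀ r, μ2 (κM r) = β (κB r))
    (hint : ∀ a m b, α a = μ1 m → μ2 m = β b → ∃ r, κM r = m)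
    (pA : Pkg QA G) (pM : Pkg QM G) (pB : Pkg QB G) (PA PM1 : Matrix G G E1)
    (PM2 PB : Matrix G G E2) (uA : IsUnit PA) (uM1 : IsUnit PM1) (uM2 : IsUnit PM2)
    (uB : IsUnit PB) (ΓA : pA.N →+* (G → E1)) (ΓM1 : pM.N →+* (G → E1))
    (ΓM2 : pM.N →+* (G → E2)) (ΓB : pB.N →+* (G → E2)) (hA : pA.Real α PA ΓA)
    (hM1 : pM.Real μ1 PM1 ΓM1) (hM2 : pM.Real μ2 PM2 ΓM2) (hB : pB.Real β PB ΓB)
    (UA : Matrix G G QA) (UM : Matrix G G QM) (UB : Matrix G G QB) (vA : IsUnit UA)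
    (vM : IsUnit UM) (vB : IsUnit UB) (h1 : PA * UA.map α = PM1 * UM.map μ1)
    (h2 : PM2 * UM.map μ2 = PB * UB.map β)
    (hconn : ∀ (a : pA.N) (m : pM.N) (b : pB.N) (S : Set G), ΓA a = ΓM1 m → ΓM2 m = ΓB b →
      (∀ h ∈ S, ΓM1 m h = 1) → (∀ h ∉ S, ΓM1 m h = 0) → S = ∅ ∨ S = Set.univ) :
    ∃ (B : Type) (_ : Field B) (_ : Algebra K B) (_ : FiniteDimensional K B) (_ : IsGalois K B)
      (ρ : G ≃* (B ≃ₐ[K] B)) (lA : B →+* pA.N) (lM : B →+* pM.N) (lB : B →+* pB.N),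
      (∀ r, lA (algebraMap K B r) = pA.i (κA r)) ∧ (∀ r, lM (algebraMap K B r) = pM.i (κM r)) ∧
      (∀ r, lB (algebraMap K B r) = pB.i (κB r)) ∧ (∀ g x, lA (ρ g x) = pA.ρ g (lA x)) ∧
      (∀ g x, lM (ρ g x) = pM.ρ g (lM x)) ∧ ∀ g x, lB (ρ g x) = pB.ρ g (lB x) := by
  have _ := hμ2
  have _ := uA
  have _ := uB
  have a1 := real_chg_P2 hA UA vA
  have a2 := real_chg_P2 hB UB vB
  rw [h1] at a1
  rw [← h2] at a2
  exact core_P2 κA κM κB α μ1 μ2 β hα hμ1 hβ hc1 hc2 hint (pA.chg_P2 UA vA) (pM.chg_P2 UM vM)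
    (pB.chg_P2 UB vB) _ _ (uM1.mul (vM.map μ1.mapMatrix)) (uM2.mul (vM.map μ2.mapMatrix))
    ΓA ΓM1 ΓM2 ΓB a1 (real_chg_P2 hM1 UM vM) (real_chg_P2 hM2 UM vM) a2 hconn

end Pool.Agent.Adm
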