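import Pool.Agent.Adm.P2
import Pool.Agent.Adm.Ind

/-! Patching of three coverings. -/

namespace Pool.Agent.Adm

/-- Monodromy data of c pass to c' through every chart of Q. -/
def Transfer {k C G Q : Type} [Field k] [Field C] [Group G] [CommRing Q] (c : Cover k G)
    (c' : Cover C G) (θ : RatFunc k →+* RatFunc C) (κ : RatFunc C →+* Q) : Prop :=
  ∀ (W : Type) [CommRing W] (ψ : Q →+* W) (s : W →+* W) (φ : k →+* W) (φ' : C →+* W) (u u' : W)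
    (g : G), (∀ q, s (ψ q) = ψ q) → (∀ x, ψ (κ (θ (RatFunc.C x))) = φ x) →
    ψ (κ (θ RatFunc.X)) = u → (∀ x, ψ (κ (RatFunc.C x)) = φ' x) → ψ (κ RatFunc.X) = u' →
    c.RMono φ u s g → c'.RMono φ' u' s g

theorem transfer_P3 {k C G Q : Type} [Field k] [Field C] [Group G] [Fintype G] [DecidableEq G]
    [CommRing Q] (c : Cover k G) (c' : Cover C G) (θ : RatFunc k →+* RatFunc C)
    (κ : RatFunc C →+* Q) (P : Matrix G G c.L) (hP : c.IndBasis P) (pk : Pkg Q G)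
    (hpk : ∀ (W : Type) [CommRing W] (ψ : Q →+* W) (j : c.L →+* W),
      (∀ f, j (algebraMap (RatFunc k) c.L f) = ψ (κ.comp θ f)) →
      ∃ Γ : pk.N →+* (G → W), pk.Real ψ (P.map j) Γ)
    (l : c'.L →+* pk.N) (hl : ∀ r, l (algebraMap (RatFunc C) c'.L r) = pk.i (κ r))
    (hρ : ∀ g, ∃ σ, c'.ι σ = g ∧ ∀ x, l (σ x) = pk.ρ g (l x)) : Transfer c c' θ κ := by
  rintro W _ ψ s φ φ' u u' g hs h1 h2 h3 h4 ⟨j, j1, j2, σ, rfl, hσ⟩
  have e : j.comp (algebraMap (RatFunc k) c.L) = ψ.comp (κ.comp θ) :=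
    ratFunc_hom_ext _ _ (fun x => (j1 x).trans (h1 x).symm) (j2.trans h2.symm)
  obtain ⟨Γ, hΓ⟩ := hpk W ψ j fun f => DFunLike.congr_fun e f
  obtain ⟨σ', e1, e2⟩ := hρ (c.ι σ)
  refine ⟨(Pi.evalRingHom (fun _ : G => W) 1).comp (Γ.comp l), fun x => ?_, ?_, σ', e1, fun x => ?_⟩
  · show Γ (l _) 1 = _
    rw [hl, hΓ.1, h3]
  · show Γ (l _) 1 = _
    rw [hl, hΓ.1, h4]
  · show Γ (l _) 1 = s (Γ (l x) 1)
    rw [e2]
    exact c.real_equivariant P hP pk ψ j Γ hΓ s hs σ hσ _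

open scoped Pointwise in
theorem conn_P3 {G : Type} [Group G] (H1 H2 H3 : Subgroup G) (hG : H1 ⊔ H2 ⊔ H3 = ⊤) (S : Set G)
    (h1 : ∀ r ∈ H1, ∀ h, r * h ∈ S ↔ h ∈ S) (h2 : ∀ r ∈ H2, ∀ h, r * h ∈ S ↔ h ∈ S)
    (h3 : ∀ r ∈ H3, ∀ h, r * h ∈ S ↔ h ∈ S) : S = ∅ ∨ S = Set.univ := by
  have h : (⊤ : Subgroup G) ≤ MulAction.stabilizer G S := by
    rw [← hG]
    exact sup_le (sup_le (fun r hr => MulAction.mem_stabilizer_set.2 (h1 r hr))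
      fun r hr => MulAction.mem_stabilizer_set.2 (h2 r hr))
      fun r hr => MulAction.mem_stabilizer_set.2 (h3 r hr)
  rcases S.eq_empty_or_nonempty with h0 | ⟨x, hx⟩
  · exact Or.inl h0
  refine Or.inr (Set.eq_univ_of_forall fun y => ?_)
  have := (MulAction.mem_stabilizer_set.1 (h (Subgroup.mem_top (y * x⁻¹))) x).2 hx
  rwa [smul_eq_mul, inv_mul_cancel_right] at this

theorem patch3 {k C G QA QM QB E1 E2 : Type} [Field k] [Field C] [Group G] [Fintype G]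
    [DecidableEq G] [CommRing QA] [CommRing QM] [CommRing QB] [Field E1] [Field E2]
    (cA cM cB : Cover k G) (hG : cA.ι.range ⊔ cM.ι.range ⊔ cB.ι.range = ⊤)
    (θA θM θB : RatFunc k →+* RatFunc C) (κA : RatFunc C →+* QA) (κM : RatFunc C →+* QM)
    (κB : RatFunc C →+* QB) (α : QA →+* E1) (μ1 : QM →+* E1) (μ2 : QM →+* E2) (β : QB →+* E2)
    (hα : Function.Injective α) (hμ1 : Function.Injective μ1) (hμ2 : Function.Injective μ2)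
    (hβ : Function.Injective β) (hc1 : ∀ r, α (κA r) = μ1 (κM r))
    (hc2 : ∀ r, μ2 (κM r) = β (κB r))
    (hint : ∀ a m b, α a = μ1 m → μ2 m = β b → ∃ r, κM r = m)
    (JA : cA.L →+* E1) (JM1 : cM.L →+* E1) (JM2 : cM.L →+* E2) (JB : cB.L →+* E2)
    (hJA : ∀ f, JA (algebraMap (RatFunc k) cA.L f) = α (κA (θA f)))
    (hJM1 : ∀ f, JM1 (algebraMap (RatFunc k) cM.L f) = μ1 (κM (θM f)))
    (hJM2 : ∀ f, JM2 (algebraMap (RatFunc k) cM.L f) = μ2 (κM (θM f)))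
    (hJB : ∀ f, JB (algebraMap (RatFunc k) cB.L f) = β (κB (θB f)))
    (ratA : ∀ l q, JA l = α q → ∃ f, algebraMap (RatFunc k) cA.L f = l)
    (ratM : ∀ l q, JM1 l = μ1 q → ∃ f, algebraMap (RatFunc k) cM.L f = l)
    (ratB : ∀ l q, JB l = β q → ∃ f, algebraMap (RatFunc k) cB.L f = l)
    (PA : Matrix G G cA.L) (PM : Matrix G G cM.L) (PB : Matrix G G cB.L) (bA : cA.IndBasis PA)
    (bM : cM.IndBasis PM) (bB : cB.IndBasis PB) (UA : Matrix G G QA) (UM : Matrix G G QM)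
    (UB : Matrix G G QB) (vA : IsUnit UA) (vM : IsUnit UM) (vB : IsUnit UB)
    (h1 : PA.map JA * UA.map α = PM.map JM1 * UM.map μ1)
    (h2 : PM.map JM2 * UM.map μ2 = PB.map JB * UB.map β) :
    ∃ c : Cover C G, c.ι.range = ⊤ ∧ Transfer cA c θA κA ∧ Transfer cM c θM κM ∧
      Transfer cB c θB κB := by
  obtain ⟨pA, hpA⟩ := cA.exists_pkg PA bA (κA.comp θA)
  obtain ⟨pM, hpM⟩ := cM.exists_pkg PM bM (κM.comp θM)
  obtain ⟨pB, hpB⟩ := cB.exists_pkg PB bB (κB.comp θB)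
  obtain ⟨ΓA, hA⟩ := hpA E1 α JA hJA
  obtain ⟨ΓM1, hM1⟩ := hpM E1 μ1 JM1 hJM1
  obtain ⟨ΓM2, hM2⟩ := hpM E2 μ2 JM2 hJM2
  obtain ⟨ΓB, hB⟩ := hpB E2 β JB hJB
  obtain ⟨B, _, _, _, _, ρ, lA, lM, lB, a1, a2, a3, b1, b2, b3⟩ :=
    patch_abstract κA κM κB α μ1 μ2 β hα hμ1 hμ2 hβ hc1 hc2 hint pA pM pB (PA.map JA) (PM.map JM1)
      (PM.map JM2) (PB.map JB) (bA.1.map JA.mapMatrix) (bM.1.map JM1.mapMatrix)
      (bM.1.map JM2.mapMatrix) (bB.1.map JB.mapMatrix) ΓA ΓM1 ΓM2 ΓB hA hM1 hM2 hB UA UM UB vA vM vB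
      h1 h2 (fun a m b S e1 e2 s1 s0 => by
        obtain ⟨iM, t⟩ := cM.idem_invariant PM bM (κM.comp θM) pM μ1 hμ1 JM1 hJM1 ratM ΓM1 hM1 m S
          s1 s0
        obtain ⟨t1, t0⟩ := t E2 μ2 JM2 ΓM2 hJM2 hM2
        rw [← e1] at s1 s0
        rw [e2] at t1 t0
        exact conn_P3 _ _ _ hG S
          (cA.idem_invariant PA bA (κA.comp θA) pA α hα JA hJA ratA ΓA hA a S s1 s0).1 iM
          (cB.idem_invariant PB bB (κB.comp θB) pB β hβ JB hJB ratB ΓB hB b S t1 t0).1)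
  let c : Cover C G := { L := B, ι := ρ.symm.toMonoidHom }
  have hc : ∀ g, c.ι (ρ g) = g := fun g => ρ.symm_apply_apply g
  exact ⟨c, MonoidHom.range_eq_top.2 fun g => ⟨ρ g, hc g⟩,
    transfer_P3 cA c θA κA PA bA pA hpA lA a1 fun g => ⟨ρ g, hc g, b1 g⟩,
    transfer_P3 cM c θM κM PM bM pM hpM lM a2 fun g => ⟨ρ g, hc g, b2 g⟩,
    transfer_P3 cB c θB κB PB bB pB hpB lB a3 fun g => ⟨ρ g, hc g, b3 g⟩⟩

end Pool.Agent.Adm
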