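import Pool.Agent.Adm.LB

/-! Notions used in the algebraic patching argument. -/

namespace Pool.Agent.Adm

variable {k G : Type} [Field k] [Group G] [Fintype G] [DecidableEq G]

/-- The columns of P form a basis of the G-Galois algebra induced from the covering c. -/
def Cover.IndBasis (c : Cover k G) (P : Matrix G G c.L) : Prop :=
  IsUnit P ∧ ∀ (σ : c.L ≃ₐ[RatFunc k] c.L) (h i : G), P (c.ι σ * h) i = σ (P h i)

/-- A Q-algebra N generated as a module by elements b indexed by G, with endomorphisms ρ g. -/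
structure Pkg (Q G : Type) [CommRing Q] [Fintype G] : Type 1 where
  N : Type
  [ring : CommRing N]
  i : Q →+* N
  b : G → N
  ρ : G → N →+* N
  span : ∀ n : N, ∃ v : G → Q, n = ∑ l, i (v l) * b l
  ρ_i : ∀ g q, ρ g (i q) = i q

attribute [instance] Pkg.ring

/-- Γ realises the package in functions on G with values in W. -/
def Pkg.Real {Q W : Type} [CommRing Q] [CommRing W] (pk : Pkg Q G) (ψ : Q →+* W)
    (P : Matrix G G W) (Γ : pk.N →+* (G → W)) : Prop :=
  (∀ q h, Γ (pk.i q) h = ψ q) ∧ (∀ l h, Γ (pk.b l) h = P h l) ∧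
    ∀ g n h, Γ (pk.ρ g n) h = Γ n (h * g)

end Pool.Agent.Adm
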