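import Pool.Agent.Adm.GA

/-! Compositum of two coverings. -/

namespace Pool.Agent.Adm

open scoped OnePoint

/-- The compositum of two finite Galois extensions. -/
theorem exists_compositum_PR (F L1 L2 : Type) [Field F] [Field L1] [Field L2] [Algebra F L1]
    [Algebra F L2] [FiniteDimensional F L1] [FiniteDimensional F L2] [IsGalois F L1]
    [IsGalois F L2] :
    ∃ (L : Type) (_ : Field L) (_ : Algebra F L) (_ : FiniteDimensional F L) (_ : IsGalois F L)
      (f1 : L1 →ₐ[F] L) (f2 : L2 →ₐ[F] L),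
      ∀ K : IntermediateField F L, (∀ x, f1 x ∈ K) → (∀ x, f2 x ∈ K) → K = ⊤ := by
  let Ω := AlgebraicClosure F
  let g1 : L1 →ₐ[F] Ω := IsAlgClosed.lift
  let g2 : L2 →ₐ[F] Ω := IsAlgClosed.lift
  let e1 : L1 ≃ₐ[F] g1.fieldRange := AlgEquiv.ofInjectiveField g1
  let e2 : L2 ≃ₐ[F] g2.fieldRange := AlgEquiv.ofInjectiveField g2
  have : FiniteDimensional F g1.fieldRange := e1.toLinearEquiv.finiteDimensional
  have : FiniteDimensional F g2.fieldRange := e2.toLinearEquiv.finiteDimensional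
  have : IsGalois F g1.fieldRange := IsGalois.of_algEquiv e1
  have : IsGalois F g2.fieldRange := IsGalois.of_algEquiv e2
  let M : IntermediateField F Ω := g1.fieldRange ⊔ g2.fieldRange
  have hG : IsGalois F M := ⟨⟩
  refine ⟨M, inferInstance, inferInstance, inferInstance, hG,
    (IntermediateField.inclusion le_sup_left).comp e1.toAlgHom,
    (IntermediateField.inclusion le_sup_right).comp e2.toAlgHom, fun K h1 h2 => ?_⟩
  have h3 : M ≤ K.map M.val := by
    refine sup_le ?_ ?_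
    · rintro _ ⟨x, rfl⟩
      exact ⟨_, h1 x, rfl⟩
    · rintro _ ⟨x, rfl⟩
      exact ⟨_, h2 x, rfl⟩
  refine top_le_iff.1 fun x _ => ?_
  obtain ⟨y, hy, e⟩ := h3 x.2
  rwa [← show y = x from Subtype.ext e]

/-- Two embeddings which agree on the base extend to the compositum after a twist. -/
theorem exists_chart_PR {F L1 L2 L W : Type} [Field F] [Field L1] [Field L2] [Field L] [Field W]
    [Algebra F L1] [Algebra F L2] [Algebra F L] [FiniteDimensional F L] [Normal F L2]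
    (f1 : L1 →ₐ[F] L) (f2 : L2 →ₐ[F] L)
    (hK : ∀ K : IntermediateField F L, (∀ x, f1 x ∈ K) → (∀ x, f2 x ∈ K) → K = ⊤)
    (j1 : L1 →+* W) (j2 : L2 →+* W)
    (h : ∀ x, j1 (algebraMap F L1 x) = j2 (algebraMap F L2 x)) :
    ∃ (j : L →+* W) (τ : L2 ≃ₐ[F] L2), (∀ x, j (f1 x) = j1 x) ∧ ∀ x, j (f2 x) = j2 (τ x) := by
  let : Algebra L1 L := f1.toRingHom.toAlgebra
  have : IsScalarTower F L1 L := IsScalarTower.of_algebraMap_eq fun x => (f1.commutes x).symm
  have : Algebra.IsAlgebraic L1 L := Algebra.IsAlgebraic.tower_top (K := F) L1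
  have hS : IntermediateField.adjoin L1 (Set.range f2) = ⊤ := by
    have := hK ((IntermediateField.adjoin L1 (Set.range f2)).restrictScalars F)
      (fun x => (IntermediateField.adjoin L1 (Set.range f2)).algebraMap_mem x)
      (fun x => IntermediateField.subset_adjoin L1 _ ⟨x, rfl⟩)
    exact (IntermediateField.restrictScalars_eq_top_iff).1 this
  obtain ⟨j, hj⟩ := exists_extension j1 (Set.range f2) hS (fun J hJ => by
    rintro _ ⟨x, rfl⟩
    obtain ⟨σ, hσ⟩ := exists_aut_of_normal (F := F)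
      ((algebraMap W (AlgebraicClosure W)).comp j2) (J.comp f2.toRingHom) (fun y => by
        change J (f2 (algebraMap F L2 y)) = algebraMap W _ (j2 (algebraMap F L2 y))
        rw [← h, ← hJ, f2.commutes, ← f1.commutes]
        rfl)
    exact ⟨j2 (σ x), hσ x⟩)
  obtain ⟨τ, hτ⟩ := exists_aut_of_normal (F := F) j2 (j.comp f2.toRingHom) (fun y => by
    change j (f2 (algebraMap F L2 y)) = j2 (algebraMap F L2 y)
    rw [← h, ← hj, f2.commutes, ← f1.commutes]
    rfl)
  exact ⟨j, τ, hj, fun x => (hτ x).symm⟩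

/-- Restriction of automorphisms to a normal subextension. -/
theorem exists_restrict_PR {F L1 L : Type} [Field F] [Field L1] [Field L] [Algebra F L1]
    [Algebra F L] [Normal F L1] [Normal F L] (f : L1 →ₐ[F] L) :
    ∃ r : (L ≃ₐ[F] L) →* (L1 ≃ₐ[F] L1), Function.Surjective r ∧
      ∀ σ x, f (r σ x) = σ (f x) := by
  let : Algebra L1 L := f.toRingHom.toAlgebra
  have : IsScalarTower F L1 L := IsScalarTower.of_algebraMap_eq fun x => (f.commutes x).symm
  exact ⟨AlgEquiv.restrictNormalHom L1, AlgEquiv.restrictNormalHom_surjective L,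
    fun σ x => AlgEquiv.restrictNormal_commutes σ L1 x⟩

theorem exists_product {k G1 G2 : Type} [Field k] [Group G1] [Group G2] (c1 : Cover k G1)
    (c2 : Cover k G2) :
    ∃ c : Cover k (G1 × G2), c.ι.range.map (MonoidHom.fst G1 G2) = c1.ι.range ∧
      c.ι.range.map (MonoidHom.snd G1 G2) = c2.ι.range ∧
      ∀ (a : OnePoint k) (e1 e2 : ℕ) (ξ : k) (g1 : G1) (g2 : G2), IsPrimitiveRoot ξ (e1 * e2) →
        c1.Mono a e1 (ξ ^ e2) g1 → c2.Mono a e2 (ξ ^ e1) g2 →
        ∃ u : G2, c.Mono a (e1 * e2) ξ (g1, u⁻¹ * g2 * u) := by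
  obtain ⟨L, _, _, _, _, f1, f2, hK⟩ := exists_compositum_PR (RatFunc k) c1.L c2.L
  obtain ⟨r1, hr1, hf1⟩ := exists_restrict_PR f1
  obtain ⟨r2, hr2, hf2⟩ := exists_restrict_PR f2
  let c : Cover k (G1 × G2) := { L := L, ι := (c1.ι.comp r1).prod (c2.ι.comp r2) }
  refine ⟨c, ?_, ?_, ?_⟩
  · ext g
    constructor
    · rintro ⟨_, ⟨σ, rfl⟩, rfl⟩
      exact ⟨r1 σ, rfl⟩
    · rintro ⟨σ, rfl⟩
      obtain ⟨σ, rfl⟩ := hr1 σ
      exact ⟨_, ⟨σ, rfl⟩, rfl⟩
  · ext g
    constructor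
    · rintro ⟨_, ⟨σ, rfl⟩, rfl⟩
      exact ⟨r2 σ, rfl⟩
    · rintro ⟨σ, rfl⟩
      obtain ⟨σ, rfl⟩ := hr2 σ
      exact ⟨_, ⟨σ, rfl⟩, rfl⟩
  · intro a e1 e2 ξ g1 g2 hξ h1 h2
    have he1 := h1.1
    have he2 := h2.1
    have he : 0 < e1 * e2 := Nat.mul_pos he1 he2
    obtain ⟨j1, a1, b1, σ1, rfl, d1⟩ := h1.rmono
    obtain ⟨j2, a2, b2, σ2, rfl, d2⟩ := h2.rmono
    have hb : ((powL e2 he2).comp j1).comp (algebraMap (RatFunc k) c1.L) =
        ((powL e1 he1).comp j2).comp (algebraMap (RatFunc k) c2.L) :=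
      ratFunc_hom_ext _ _ (fun x => by simp only [RingHom.comp_apply, a1, a2, powL_C])
        (by simp [b1, b2, powL_expand, mul_comm])
    obtain ⟨j, τ, k1, k2⟩ := exists_chart_PR f1 f2 hK ((powL e2 he2).comp j1)
      ((powL e1 he1).comp j2) (fun x => DFunLike.congr_fun hb x)
    obtain ⟨σ, m, hσ⟩ := c.exists_mono_of_chart a (e1 * e2) he ξ hξ j
      (fun x => by
        change j (algebraMap (RatFunc k) L _) = _
        rw [← f1.commutes, k1]
        simp only [RingHom.comp_apply, a1, powL_C])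
      (by
        change j (algebraMap (RatFunc k) L _) = _
        rw [← f1.commutes, k1]
        simp [b1, powL_expand, mul_comm])
    have s1 : r1 σ = σ1 := by
      ext x
      apply ((powL e2 he2).comp j1).injective
      rw [← k1, hf1, hσ, k1]
      simp only [RingHom.comp_apply]
      rw [scL_powL, d1]
    have s2 : r2 σ = τ⁻¹ * σ2 * τ := by
      rw [mul_assoc, eq_inv_mul_iff_mul_eq]
      ext x
      apply ((powL e1 he1).comp j2).injective
      rw [AlgEquiv.mul_apply, AlgEquiv.mul_apply, ← k2, hf2, hσ, k2]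
      simp only [RingHom.comp_apply]
      rw [scL_powL, d2]
    refine ⟨c2.ι τ, ?_⟩
    have e : c.ι σ = (c1.ι σ1, (c2.ι τ)⁻¹ * c2.ι σ2 * c2.ι τ) := by
      change (c1.ι (r1 σ), c2.ι (r2 σ)) = _
      rw [s1, s2, map_mul, map_mul, map_inv]
    rwa [e] at m

end Pool.Agent.Adm
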