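import Pool.Agent.Adm.CDefs

/-! Chains of projective lines as stable curves. -/

namespace Pool.Agent.Adm

open scoped OnePoint

variable {k : Type} [Field k] [IsAlgClosed k] {p : ℕ} [CharP k p]

theorem isTree_Path (r : ℕ) : (SimpleGraph.pathGraph (r + 1)).IsTree := by
  refine ⟨SimpleGraph.pathGraph_connected r, ?_⟩
  have key : ∀ v w : Fin (r + 1), v.val + 1 = w.val →
      ¬ ((SimpleGraph.pathGraph (r + 1)).deleteEdges {s(v, w)}).Reachable v w := by
    intro v w hvw h
    have h2 : ∀ a b : Fin (r + 1),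
        ((SimpleGraph.pathGraph (r + 1)).deleteEdges {s(v, w)}).Reachable a b →
        a.val ≤ v.val → b.val ≤ v.val := by
      rintro a b ⟨p⟩
      induction p with
      | nil => exact id
      | @cons a c b hac p ih =>
        intro ha
        apply ih
        rw [SimpleGraph.deleteEdges_adj, SimpleGraph.pathGraph_adj, Set.mem_singleton_iff] at hac
        by_contra hc
        apply hac.2
        have e1 : a = v := Fin.ext (by omega)
        have e2 : c = w := Fin.ext (by omega)
        rw [e1, e2]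
    have := h2 v w h le_rfl
    omega
  rw [SimpleGraph.isAcyclic_iff_forall_adj_isBridge]
  intro v w h
  rcases SimpleGraph.pathGraph_adj.1 h with h | h
  · exact key v w h
  · rw [Sym2.eq_swap]
    exact key w v h

/-- The nodes of the chain. -/
def node_Path (k : Type) [Zero k] {r : ℕ} (v w : Fin (r + 1)) : OnePoint k :=
  if v < w then ∞ else ((0 : k) : OnePoint k)

theorem node_iff_Path {k : Type} [Zero k] {r : ℕ} (v : Fin (r + 1)) (a : OnePoint k) :
    (∃ w, (SimpleGraph.pathGraph (r + 1)).Adj v w ∧ node_Path k v w = a) ↔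
      (a = ((0 : k) : OnePoint k) ∧ v ≠ 0) ∨ (a = ∞ ∧ v ≠ Fin.last r) := by
  have hv := v.2
  constructor
  · rintro ⟨w, hw, rfl⟩
    have hw2 := w.2
    rcases SimpleGraph.pathGraph_adj.1 hw with h | h
    · refine Or.inr ⟨if_pos (by rw [Fin.lt_def]; omega), ?_⟩
      rintro rfl
      simp only [Fin.val_last] at h
      omega
    · refine Or.inl ⟨if_neg (by rw [Fin.lt_def]; omega), ?_⟩
      rintro rfl
      simp at h
  · rintro (⟨rfl, h⟩ | ⟨rfl, h⟩)
    · have h1 : v.val ≠ 0 := fun e => h (Fin.ext e)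
      refine ⟨⟨v.val - 1, by omega⟩, SimpleGraph.pathGraph_adj.2 (Or.inr (by simp; omega)), ?_⟩
      exact if_neg (by rw [Fin.lt_def]; simp)
    · have h1 : v.val ≠ r := fun e => h (Fin.ext e)
      refine ⟨⟨v.val + 1, by omega⟩, SimpleGraph.pathGraph_adj.2 (Or.inl rfl), ?_⟩
      exact if_pos (by rw [Fin.lt_def]; simp)

theorem stable_Path {k : Type} [Zero k] {r n : ℕ} (comp : Fin n → Fin (r + 1))
    (mark : Fin n → OnePoint k)
    (hinj : ∀ i j, comp i = comp j → mark i = mark j → i = j)
    (h0 : ∀ i, comp i ≠ 0 → mark i ≠ ((0 : k) : OnePoint k))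
    (hinf : ∀ i, comp i ≠ Fin.last r → mark i ≠ ∞) (v : Fin (r + 1)) :
    {a | (∃ w, (SimpleGraph.pathGraph (r + 1)).Adj v w ∧ node_Path k v w = a) ∨
      ∃ i, comp i = v ∧ mark i = a}.ncard = (Finset.univ.filter fun i => comp i = v).card +
      (if v = 0 then 0 else 1) + (if v = Fin.last r then 0 else 1) := by
  classical
  obtain ⟨M, hM⟩ : ∃ M, M = (Finset.univ.filter fun i => comp i = v).image mark := ⟨_, rfl⟩
  have hc : M.card = (Finset.univ.filter fun i => comp i = v).card := by
    rw [hM]
    apply Finset.card_image_of_injOn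
    intro i hi j hj e
    simp only [Finset.coe_filter, Finset.mem_univ, true_and, Set.mem_ofPred_eq] at hi hj
    exact hinj i j (hi.trans hj.symm) e
  have hm : ∀ a, a ∈ M ↔ ∃ i, comp i = v ∧ mark i = a := by
    intro a
    simp [hM]
  have m0 : v ≠ 0 → ((0 : k) : OnePoint k) ∉ M := fun hv h => by
    obtain ⟨i, h1, h2⟩ := (hm _).1 h
    exact h0 i (h1 ▸ hv) h2
  have m1 : v ≠ Fin.last r → (∞ : OnePoint k) ∉ M := fun hv h => by
    obtain ⟨i, h1, h2⟩ := (hm _).1 h
    exact hinf i (h1 ▸ hv) h2
  simp only [node_iff_Path, ← hm]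
  rw [← hc]
  by_cases a0 : v = 0 <;> by_cases a1 : v = Fin.last r
  · rw [if_pos a0, if_pos a1, add_zero, ← Set.ncard_coe_finset]
    congr 1
    ext a
    simp [a0, ← a1]
  · rw [if_pos a0, if_neg a1, add_zero, ← Finset.card_insert_of_notMem (m1 a1),
      ← Set.ncard_coe_finset]
    congr 1
    ext a
    simp only [Set.mem_ofPred_eq, Finset.coe_insert, Set.mem_insert_iff, Finset.mem_coe]
    tauto
  · rw [if_neg a0, if_pos a1, add_zero, ← Finset.card_insert_of_notMem (m0 a0),
      ← Set.ncard_coe_finset]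
    congr 1
    ext a
    simp only [Set.mem_ofPred_eq, Finset.coe_insert, Set.mem_insert_iff, Finset.mem_coe]
    tauto
  · have h3 : (∞ : OnePoint k) ∉ insert ((0 : k) : OnePoint k) M := by
      rw [Finset.mem_insert]
      rintro (h | h)
      · exact OnePoint.infty_ne_coe _ h
      · exact m1 a1 h
    rw [if_neg a0, if_neg a1, ← Finset.card_insert_of_notMem (m0 a0),
      ← Finset.card_insert_of_notMem h3, ← Set.ncard_coe_finset]
    congr 1
    ext a
    simp only [Set.mem_ofPred_eq, Finset.coe_insert, Set.mem_insert_iff, Finset.mem_coe]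
    tauto

theorem exists_pathCurve (r n : ℕ) (comp : Fin n → Fin (r + 1)) (mark : Fin n → OnePoint k)
    (hinj : ∀ i j, comp i = comp j → mark i = mark j → i = j)
    (h0 : ∀ i, comp i ≠ 0 → mark i ≠ ((0 : k) : OnePoint k))
    (hinf : ∀ i, comp i ≠ Fin.last r → mark i ≠ ∞)
    (hst : ∀ v : Fin (r + 1), 3 ≤ (Finset.univ.filter fun i => comp i = v).card +
      (if v = 0 then 0 else 1) + (if v = Fin.last r then 0 else 1)) :
    ∃ X : StableCurve p n, ∀ (G : Type) [Group G], X.HasCover G ↔
      ∃ c : Fin (r + 1) → Cover k G,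
        (∀ v, (c v).Tame {a | (a = ((0 : k) : OnePoint k) ∧ v ≠ 0) ∨ (a = ∞ ∧ v ≠ Fin.last r) ∨
          ∃ i, comp i = v ∧ mark i = a}) ∧
        (∀ v : Fin r, Glue (c v.castSucc) (c v.succ)) ∧ ⨆ v, (c v).ι.range = ⊤ := by
  let X : StableCurve p n :=
    { k := k
      V := Fin (r + 1)
      T := SimpleGraph.pathGraph (r + 1)
      tree := isTree_Path r
      node := node_Path k
      comp := comp
      mark := mark
      node_inj := by
        intro v w w' h h' e
        rw [SimpleGraph.pathGraph_adj] at h h'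
        unfold node_Path at e
        simp only [Fin.lt_def] at e
        split_ifs at e with a b b
        · exact Fin.ext (by omega)
        · exact absurd e (OnePoint.infty_ne_coe _)
        · exact absurd e (OnePoint.coe_ne_infty _)
        · exact Fin.ext (by omega)
      mark_inj := hinj
      mark_ne_node := by
        intro i w h e
        rcases (node_iff_Path (comp i) (mark i)).1 ⟨w, h, e.symm⟩ with ⟨a, b⟩ | ⟨a, b⟩
        · exact h0 i b a
        · exact hinf i b a
      stable := fun v => by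
        rw [stable_Path comp mark hinj h0 hinf v]
        exact hst v }
  refine ⟨X, fun G _ => exists_congr fun c => and_congr ?_ (and_congr ?_ Iff.rfl)⟩
  · refine forall_congr' fun v => forall_congr' fun a => ?_
    have hs : X.Special v a ↔ (a = ((0 : k) : OnePoint k) ∧ v ≠ 0) ∨ (a = ∞ ∧ v ≠ Fin.last r) ∨
        ∃ i, comp i = v ∧ mark i = a := by
      rw [← or_assoc, ← node_iff_Path]
      rfl
    rw [hs]
    rfl
  · have n1 : ∀ v : Fin r, X.node v.castSucc v.succ = ∞ := fun v => if_pos Fin.castSucc_lt_succ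
    have n2 : ∀ v : Fin r, X.node v.succ v.castSucc = ((0 : k) : OnePoint k) := fun v =>
      if_neg (not_lt.2 Fin.castSucc_lt_succ.le)
    constructor
    · intro h v
      have := h v.castSucc v.succ (SimpleGraph.pathGraph_adj.2 (Or.inl (by simp)))
      rw [n1, n2] at this
      exact this
    · intro h v w hvw
      have hv := v.2
      have hw := w.2
      rcases SimpleGraph.pathGraph_adj.1 hvw with e | e
      · obtain ⟨u, rfl, rfl⟩ : ∃ u : Fin r, v = u.castSucc ∧ w = u.succ :=
          ⟨⟨v.val, by omega⟩, Fin.ext rfl, Fin.ext e.symm⟩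
        rw [n1, n2]
        exact h u
      · obtain ⟨u, rfl, rfl⟩ : ∃ u : Fin r, w = u.castSucc ∧ v = u.succ :=
          ⟨⟨w.val, by omega⟩, Fin.ext rfl, Fin.ext e.symm⟩
        rw [n1, n2]
        obtain ⟨e, ζ, g, h1, h2⟩ := h u
        exact ⟨e, ζ⁻¹, g, h2, by rw [inv_inv]; exact h1⟩

end Pool.Agent.Adm
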