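import Pool.Agent.Adm.LB

/-! Discreteness and a rationality criterion. -/

namespace Pool.Agent.Adm

/-- A finite dimensional subspace over a trivially valued subfield is discrete. -/
theorem exists_discrete {k C : Type} [Field k] [NormedField C] [IsUltrametricDist C]
    (φ : k →+* C) (hφ : ∀ x, ‖φ x‖ ≤ 1) {ι : Type} (s : Finset ι) (d : ι → C) :
    ∃ δ : ℝ, 0 < δ ∧ ∀ x : ι → k, ‖∑ i ∈ s, d i * φ (x i)‖ < δ → ∑ i ∈ s, d i * φ (x i) = 0 := by
  classical
  have h1 : ∀ c : k, c ≠ 0 → ‖φ c‖ = 1 := fun c hc => by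
    have h2 : ‖φ c‖ * ‖φ c⁻¹‖ = 1 := by
      rw [← norm_mul, ← map_mul, mul_inv_cancel₀ hc, map_one, norm_one]
    nlinarith [hφ c, hφ c⁻¹, norm_nonneg (φ c), norm_nonneg (φ c⁻¹)]
  induction s using Finset.induction_on with
  | empty => exact ⟨1, one_pos, fun _ _ => Finset.sum_empty⟩
  | insert a s ha ih =>
    obtain ⟨δ, hδ, H⟩ := ih
    obtain ⟨δ', h0, h2, H'⟩ : ∃ δ', 0 < δ' ∧ δ' ≤ δ ∧ ∀ x : ι → k,
        ‖d a + ∑ i ∈ s, d i * φ (x i)‖ < δ' → d a + ∑ i ∈ s, d i * φ (x i) = 0 := by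
      by_cases h : ∀ x : ι → k,
          ‖d a + ∑ i ∈ s, d i * φ (x i)‖ < δ → d a + ∑ i ∈ s, d i * φ (x i) = 0
      · exact ⟨δ, hδ, le_rfl, h⟩
      push Not at h
      obtain ⟨y, hy, hy'⟩ := h
      refine ⟨_, norm_pos_iff.2 hy', hy.le, fun x hx => absurd hx ?_⟩
      have e : ∑ i ∈ s, d i * φ ((x - y) i) =
          (d a + ∑ i ∈ s, d i * φ (x i)) + -(d a + ∑ i ∈ s, d i * φ (y i)) := by
        simp only [Pi.sub_apply, map_sub, mul_sub, Finset.sum_sub_distrib]
        ring
      have h3 := H (x - y) (by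
        rw [e]
        exact (IsUltrametricDist.norm_add_le_max _ _).trans_lt
          (max_lt (hx.trans hy) (by rwa [norm_neg])))
      rw [e, add_neg_eq_zero] at h3
      rw [h3]
      exact lt_irrefl _
    refine ⟨δ', h0, fun x => ?_⟩
    rw [Finset.sum_insert ha]
    by_cases hx : x a = 0
    · rw [hx, map_zero, mul_zero, zero_add]
      exact fun h => H x (h.trans_le h2)
    · have e : d a * φ (x a) + ∑ i ∈ s, d i * φ (x i) =
          φ (x a) * (d a + ∑ i ∈ s, d i * φ ((x a)⁻¹ * x i)) := by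
        rw [mul_add, Finset.mul_sum, mul_comm]
        congr 1
        refine Finset.sum_congr rfl fun i _ => ?_
        rw [mul_left_comm, ← map_mul, mul_inv_cancel_left₀ hx]
      rw [e, norm_mul, h1 _ hx, one_mul]
      intro h
      rw [H' (fun i => (x a)⁻¹ * x i) h, mul_zero]

theorem single_zpow_T3b {k : Type} [Field k] (s m : ℤ) :
    (HahnSeries.single s 1 : LaurentSeries k) ^ m = HahnSeries.single (s * m) 1 := by
  rw [RatFunc.single_zpow s, RatFunc.single_zpow (s * m), zpow_mul]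

/-- Rationality criterion: a series in z^e over k killed in high degrees by a nonzero polynomial
in z^(±e) over a bigger field is a rational function of z^(±e) over k. -/
theorem rational_of_eventually {k C : Type} [Field k] [Field C] (φ : k →+* C) (e : ℕ) (he : 0 < e)
    (s s' : ℤ) (hs : s = e ∨ s = -e) (hs' : s' = e ∨ s' = -e) (j : RatFunc k →+* LaurentSeries k)
    (hC : ∀ c, j (RatFunc.C c) = HahnSeries.C c) (hX : j RatFunc.X = HahnSeries.single s 1)
    (x : LaurentSeries k) (hx : ∀ n : ℤ, ¬ (e : ℤ) ∣ n → x.coeff n = 0) (S : Finset ℕ)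
    (d : ℕ → C) (hd : ∃ i ∈ S, d i ≠ 0) (N : ℤ)
    (h : ∀ n, N < n → ∑ i ∈ S, d i * φ (x.coeff (n - i * s')) = 0) : ∃ f, j f = x := by
  classical
  let _ := φ.toAlgebra
  obtain ⟨i0, hi0, hd0⟩ := hd
  obtain ⟨lam, hl⟩ := not_forall.1 (mt (Module.forall_dual_apply_eq_zero_iff k (d i0)).1 hd0)
  have h1 : ∀ (n : ℤ) (c : k), (e : ℤ) ∣ n → HahnSeries.single n c ∈ j.fieldRange := by
    intro n c hn
    obtain ⟨m, rfl⟩ : s ∣ n := by
      rcases hs with rfl | rfl
      exacts [hn, neg_dvd.2 hn]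
    refine ⟨RatFunc.C c * RatFunc.X ^ m, ?_⟩
    rw [map_mul, map_zpow₀, hC, hX, single_zpow_T3b, HahnSeries.C_apply,
      HahnSeries.single_mul_single, zero_add, mul_one]
  have hes : (e : ℤ) ∣ s' := by
    rcases hs' with rfl | rfl
    exacts [dvd_rfl, dvd_neg.2 dvd_rfl]
  have hs0 : s' ≠ 0 := by rcases hs' with rfl | rfl <;> omega
  let D : LaurentSeries k := ∑ i ∈ S, HahnSeries.single (i * s') (lam (d i))
  have hD : D ∈ j.fieldRange := sum_mem fun i _ => h1 _ _ (hes.mul_left _)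
  have hD0 : D ≠ 0 := fun e0 => hl (by
    have := congrArg (fun y : LaurentSeries k => y.coeff (i0 * s')) e0
    simp only [D, HahnSeries.coeff_sum, HahnSeries.coeff_zero] at this
    rwa [Finset.sum_eq_single_of_mem i0 hi0 fun i _ hi => HahnSeries.coeff_single_of_ne fun e1 =>
      hi (Nat.cast_injective (mul_right_cancel₀ hs0 e1)).symm,
      HahnSeries.coeff_single_same] at this)
  have h2 : ∀ n, (D * x).coeff n = ∑ i ∈ S, lam (d i) * x.coeff (n - i * s') := fun n => by
    simp only [D, Finset.sum_mul, HahnSeries.coeff_sum, HahnSeries.coeff_single_mul]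
  have h3 : ∀ n, N < n → (D * x).coeff n = 0 := fun n hn => by
    have := congrArg lam (h n hn)
    rw [map_sum, map_zero] at this
    rw [h2, ← this]
    refine Finset.sum_congr rfl fun i _ => ?_
    rw [mul_comm, ← smul_eq_mul, ← map_smul, mul_comm (d i)]
    rfl
  have h4 : ∀ n, ¬ (e : ℤ) ∣ n → (D * x).coeff n = 0 := fun n hn => by
    rw [h2]
    refine Finset.sum_eq_zero fun i _ => ?_
    rw [hx _ fun h5 => hn ((dvd_sub_left (hes.mul_left _)).1 h5), mul_zero]
  have h5 : D * x = ∑ n ∈ Finset.Icc (D * x).order N, HahnSeries.single n ((D * x).coeff n) := by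
    ext m
    rw [HahnSeries.coeff_sum, Finset.sum_eq_single m (fun n _ hn =>
      HahnSeries.coeff_single_of_ne hn.symm) fun hm => ?_, HahnSeries.coeff_single_same]
    rw [HahnSeries.coeff_single_same]
    by_contra h6
    exact hm (Finset.mem_Icc.2 ⟨HahnSeries.order_le_of_coeff_ne_zero h6,
      not_lt.1 fun h7 => h6 (h3 m h7)⟩)
  have h6 : D * x ∈ j.fieldRange := by
    rw [h5]
    refine sum_mem fun n _ => ?_
    by_cases hn : (e : ℤ) ∣ n
    · exact h1 _ _ hn
    · rw [h4 n hn, map_zero]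
      exact zero_mem _
  have h7 := mul_mem (inv_mem hD) h6
  rwa [inv_mul_cancel_left₀ hD0] at h7

end Pool.Agent.Adm
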