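import Pool.Agent.Adm.AnDefs
import Pool.Agent.Adm.T3
import Pool.Agent.Adm.T3b

/-! Laurent series over k that are meromorphic on a disc or on the annulus are rational. -/

namespace Pool.Agent.Adm

open Filter Topology

variable {k C : Type} [Field k] [NormedField C] [CompleteSpace C] [IsUltrametricDist C]

theorem supp_Rat (e : ℕ) (he : 0 < e) (m : ℤ) (hm : m = e ∨ m = -e) (c : C) (hc : c ≠ 0)
    (F : T C) (d : Polynomial C) (hd : d ≠ 0) (r : T C)
    (h : F * d.eval₂ T.cst (T.mono m c) = T.pw e he r) (n : ℤ) (hn : ¬ (e : ℤ) ∣ n) :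
    F.coeff n = 0 := by
  have hem : (e : ℤ) ∣ m := by rcases hm with rfl | rfl <;> simp
  have hm0 : m ≠ 0 := by omega
  have ht : Tendsto (fun n : ℤ => if (e : ℤ) ∣ n then 0 else F.coeff n) cofinite (𝓝 0) := by
    refine squeeze_zero_norm (fun n => ?_) (tendsto_zero_iff_norm_tendsto_zero.1 F.tendsto_coeff)
    split_ifs <;> simp
  have h1 : d.eval₂ T.cst (T.mono m c) * T.mk _ ht = 0 := by
    ext l
    have hi : ∀ i : ℕ, (e : ℤ) ∣ l - i * m ↔ (e : ℤ) ∣ l := fun i =>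
      dvd_sub_left (hem.mul_left _)
    rw [T.coeff_eval₂_mul, T.coeff_zero]
    simp only [T.coeff_mk, hi]
    by_cases hl : (e : ℤ) ∣ l
    · simp [hl]
    · simp only [hl, if_false]
      rw [← T.coeff_eval₂_mul, mul_comm, h, T.coeff_pw, if_neg hl]
  have h2 := (mul_eq_zero.1 h1).resolve_left (T.eval₂_ne_zero d hd m hm0 c hc)
  have h3 := congrArg (fun f : T C => f.coeff n) h2
  simpa [hn] using h3

omit [CompleteSpace C] [IsUltrametricDist C] in
theorem lead_Rat (d : Polynomial C) (hd : d ≠ 0) (a : ℕ → C) (ha : ∀ i, a i ≠ 0) :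
    ∃ i ∈ d.support, d.coeff i * a i ≠ 0 := by
  obtain ⟨i, hi⟩ := Polynomial.support_nonempty.2 hd
  exact ⟨i, hi, mul_ne_zero (Polynomial.mem_support_iff.1 hi) (ha i)⟩

theorem rat_A (φ : k →+* C) (hφ : ∀ x, ‖φ x‖ ≤ 1) (γ : C) (h0 : γ ≠ 0) (hγ : ‖γ‖ < 1) (e : ℕ)
    (he : 0 < e) (c : C) (hc : c ≠ 0) (j : RatFunc k →+* LaurentSeries k)
    (hC : ∀ x, j (RatFunc.C x) = HahnSeries.C x)
    (hX : j RatFunc.X = HahnSeries.single (-(e : ℤ)) 1) (x : LaurentSeries k)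
    (d : Polynomial C) (hd : d ≠ 0) (r : T C) (hr : r ∈ T.Tp C)
    (h : T.flip (T.emb φ hφ γ h0 hγ x) * d.eval₂ T.cst (T.mono e c) = T.pw e he r) :
    ∃ f, j f = x := by
  have hx : ∀ n : ℤ, ¬ (e : ℤ) ∣ n → x.coeff n = 0 := by
    intro n hn
    have := supp_Rat e he e (Or.inl rfl) c hc _ d hd r h (-n) (by rwa [dvd_neg])
    simpa [zpow_ne_zero _ h0] using this
  refine rational_of_eventually φ e he _ (-(e : ℤ)) (Or.inr rfl) (Or.inr rfl) j hC hX x hx
    d.support (fun i => d.coeff i * (c ^ i * γ ^ ((i : ℤ) * e)))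
    (lead_Rat d hd _ fun i => mul_ne_zero (pow_ne_zero _ hc) (zpow_ne_zero _ h0)) 0 fun n hn => ?_
  have h1 := congrArg (fun f : T C => f.coeff (-n)) h
  have h2 : (T.pw e he r).coeff (-n) = 0 := by
    rw [T.coeff_pw]
    split_ifs with h3
    · exact hr _ (Int.ediv_neg_of_neg_of_pos (by omega) (by exact_mod_cast he))
    · rfl
  simp only [h2] at h1
  rw [mul_comm, T.coeff_eval₂_mul] at h1
  apply mul_left_cancel₀ (zpow_ne_zero n h0)
  rw [mul_zero, ← h1, Finset.mul_sum]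
  refine Finset.sum_congr rfl fun i _ => ?_
  rw [T.coeff_flip, T.coeff_emb, show -(-n - i * (e : ℤ)) = n + i * e by ring,
    show n - i * -(e : ℤ) = n + i * e by ring, zpow_add₀ h0]
  ring

theorem rat_M (φ : k →+* C) (hφ : ∀ x, ‖φ x‖ ≤ 1) (γ : C) (h0 : γ ≠ 0) (hγ : ‖γ‖ < 1) (e : ℕ)
    (he : 0 < e) (c2 : C) (hc : 1 ≤ ‖c2‖) (j : RatFunc k →+* LaurentSeries k)
    (hC : ∀ x, j (RatFunc.C x) = HahnSeries.C x)
    (hX : j RatFunc.X = HahnSeries.single (e : ℤ) 1) (x : LaurentSeries k)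
    (d : Polynomial C) (hd : d ≠ 0) (r : T C)
    (hr : Tendsto (fun n : ℤ => (c2 / γ ^ e) ^ n * r.coeff n) cofinite (𝓝 0))
    (h : T.emb φ hφ γ h0 hγ x * d.eval₂ T.cst (T.mono e (γ ^ e)) = T.pw e he r) :
    ∃ f, j f = x := by
  have hγe : γ ^ e ≠ 0 := pow_ne_zero _ h0
  have he' : (0 : ℤ) < e := by exact_mod_cast he
  have hx : ∀ n : ℤ, ¬ (e : ℤ) ∣ n → x.coeff n = 0 := by
    intro n hn
    have := supp_Rat e he e (Or.inl rfl) _ hγe _ d hd r h n hn
    simpa [zpow_ne_zero _ h0] using this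
  have key : ∀ n : ℤ, γ ^ n * ∑ i ∈ d.support, d.coeff i * φ (x.coeff (n - i * (e : ℤ))) =
      (T.pw e he r).coeff n := by
    intro n
    rw [← h, mul_comm (T.emb _ _ _ _ _ _), T.coeff_eval₂_mul, Finset.mul_sum]
    refine Finset.sum_congr rfl fun i _ => ?_
    have : γ ^ n = (γ ^ e) ^ i * γ ^ (n - i * (e : ℤ)) := by
      rw [← pow_mul, ← zpow_natCast, ← zpow_add₀ h0]
      congr 1
      push_cast
      ring
    rw [T.coeff_emb, this]
    ring
  obtain ⟨δ, hδ, hdis⟩ := exists_discrete φ hφ d.support d.coeff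
  have hfin : {m : ℤ | ¬ ‖(c2 / γ ^ e) ^ m * r.coeff m‖ < δ}.Finite := by
    have := (tendsto_zero_iff_norm_tendsto_zero.1 hr).eventually (gt_mem_nhds hδ)
    exact eventually_cofinite.1 this
  obtain ⟨M, hM⟩ := hfin.bddAbove
  obtain ⟨i0, hi0⟩ := Polynomial.support_nonempty.2 hd
  refine rational_of_eventually φ e he _ (e : ℤ) (Or.inl rfl) (Or.inl rfl) j hC hX x hx
    d.support d.coeff ⟨i0, hi0, Polynomial.mem_support_iff.1 hi0⟩ (e * max M 0) fun n hn => ?_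
  by_cases hd' : (e : ℤ) ∣ n
  · obtain ⟨m, rfl⟩ := hd'
    have hm : max M 0 < m := lt_of_mul_lt_mul_left hn he'.le
    have h1 : ‖(c2 / γ ^ e) ^ m * r.coeff m‖ < δ := by
      by_contra h2
      exact absurd (hM h2) (by omega)
    refine hdis (fun i => x.coeff (e * m - i * (e : ℤ))) (lt_of_le_of_lt ?_ h1)
    have h3 := key (e * m)
    rw [T.coeff_pw_mul] at h3
    rw [← h3, ← mul_assoc, zpow_mul, zpow_natCast, ← mul_zpow, div_mul_cancel₀ _ hγe, norm_mul,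
      norm_zpow]
    exact le_mul_of_one_le_left (norm_nonneg _) (one_le_zpow₀ hc (by omega))
  · have h3 := key n
    rw [T.coeff_pw, if_neg hd'] at h3
    exact (mul_eq_zero.1 h3).resolve_left (zpow_ne_zero _ h0)

theorem rat_B (φ : k →+* C) (hφ : ∀ x, ‖φ x‖ ≤ 1) (γ : C) (h0 : γ ≠ 0) (hγ : ‖γ‖ < 1) (e : ℕ)
    (he : 0 < e) (c : C) (hc : c ≠ 0) (j : RatFunc k →+* LaurentSeries k)
    (hC : ∀ x, j (RatFunc.C x) = HahnSeries.C x)
    (hX : j RatFunc.X = HahnSeries.single (e : ℤ) 1) (x : LaurentSeries k)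
    (d : Polynomial C) (hd : d ≠ 0) (r : T C) (hr : r ∈ T.Tm C)
    (h : T.emb φ hφ γ h0 hγ x * d.eval₂ T.cst (T.mono (-(e : ℤ)) c) = T.pw e he r) :
    ∃ f, j f = x := by
  have hx : ∀ n : ℤ, ¬ (e : ℤ) ∣ n → x.coeff n = 0 := by
    intro n hn
    have := supp_Rat e he _ (Or.inr rfl) c hc _ d hd r h n hn
    simpa [zpow_ne_zero _ h0] using this
  refine rational_of_eventually φ e he _ (-(e : ℤ)) (Or.inl rfl) (Or.inr rfl) j hC hX x hx
    d.support (fun i => d.coeff i * (c ^ i * γ ^ ((i : ℤ) * e)))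
    (lead_Rat d hd _ fun i => mul_ne_zero (pow_ne_zero _ hc) (zpow_ne_zero _ h0)) 0 fun n hn => ?_
  have h1 := congrArg (fun f : T C => f.coeff n) h
  have h2 : (T.pw e he r).coeff n = 0 := by
    rw [T.coeff_pw]
    split_ifs with h3
    · exact hr _ (Int.ediv_pos_of_pos_of_dvd hn (by positivity) h3)
    · rfl
  simp only [h2] at h1
  rw [mul_comm, T.coeff_eval₂_mul] at h1
  apply mul_left_cancel₀ (zpow_ne_zero n h0)
  rw [mul_zero, ← h1, Finset.mul_sum]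
  refine Finset.sum_congr rfl fun i _ => ?_
  rw [T.coeff_emb, show n - i * -(e : ℤ) = n + i * e by ring, zpow_add₀ h0]
  ring

end Pool.Agent.Adm
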