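import Pool.Agent.Adm.S2
import Pool.Agent.Adm.KB
import Pool.Agent.Adm.CDefs

/-! Smoothing one node, and moving a marked point. -/

namespace Pool.Agent.Adm

open scoped OnePoint

theorem tame_S1 {k C G : Type} [Field k] [Field C] [Group G] (φ : k →+* C) (tA tB : C)
    (c : Cover C G) (S : Set (OnePoint C))
    (hinf : ∃ e ζ g, c.Mono ∞ e ζ g ∧ (∞ ∉ S → g = 1))
    (hA : ∀ y : k, ∃ e ζ g, c.Mono ((tA * φ y : C) : OnePoint C) e ζ g ∧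
      (((tA * φ y : C) : OnePoint C) ∉ S → g = 1))
    (hM : ∀ y : k, y ≠ 0 → ∃ e ζ g, c.Mono ((φ y : C) : OnePoint C) e ζ g ∧
      (((φ y : C) : OnePoint C) ∉ S → g = 1))
    (hB : ∀ y : k, y ≠ 0 → ∃ e ζ g, c.Mono ((φ y / tB : C) : OnePoint C) e ζ g ∧
      (((φ y / tB : C) : OnePoint C) ∉ S → g = 1))
    (hr : ∀ x : C, (∀ y, x ≠ tA * φ y) → (∀ y, x ≠ φ y) → (∀ y, x ≠ φ y / tB) →
      c.Mono (x : OnePoint C) 1 1 1) : c.Tame S := by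
  intro a
  induction a using OnePoint.rec with
  | infty => exact hinf
  | coe x =>
    by_cases h1 : ∃ y, x = tA * φ y
    · obtain ⟨y, rfl⟩ := h1
      exact hA y
    by_cases h2 : ∃ y, x = φ y
    · obtain ⟨y, rfl⟩ := h2
      refine hM y ?_
      rintro rfl
      exact h1 ⟨0, by simp⟩
    by_cases h3 : ∃ y, x = φ y / tB
    · obtain ⟨y, rfl⟩ := h3
      refine hB y ?_
      rintro rfl
      exact h1 ⟨0, by simp⟩
    push Not at h1 h2 h3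
    exact ⟨1, 1, 1, hr x h1 h2 h3, fun _ => rfl⟩

theorem notMem_S3_S1 {k : Type} [Field k] {y : k} (h0 : y ≠ 0) (h1 : y ≠ 1) :
    (y : OnePoint k) ∉ S3 k := by
  simp [S3, h0, h1]

theorem le_range_S1 {k G : Type} [Field k] [Group G] {c c' : Cover k G} {a : OnePoint k} {e : ℕ}
    {ζ : k} {g : G} (h : c.Mono a e ζ g) (h' : c'.ι.range ≤ Subgroup.zpowers g) :
    c'.ι.range ≤ c.ι.range :=
  h'.trans ((Subgroup.zpowers_le (g := g)).2 h.mem_range)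

variable {k C G : Type} [Field k] [IsAlgClosed k] [NormedField C] [CompleteSpace C]
  [IsUltrametricDist C] [IsAlgClosed C] [Group G] [Finite G]

theorem smooth_left (φ : k →+* C) (hφ : ∀ x, ‖φ x‖ ≤ 1) (t : C) (h0 : t ≠ 0) (ht : ‖t‖ < 1)
    (c1 c2 : Cover k G) (T1 : c1.Tame (S3 k)) (T2 : c2.Tame (S3 k)) (h : Glue c1 c2) (e0 : ℕ)
    (ζ0 : k) (g0 : G) (hinf : c2.Mono ∞ e0 ζ0 g0) :
    ∃ c : Cover C G, c.ι.range = c1.ι.range ⊔ c2.ι.range ∧ c.Tame (S4 t) ∧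
      (∀ d, c1.MD (0 : k) d → c.MD (0 : C) (d.map φ)) ∧
      (∀ d, c1.MD (1 : k) d → c.MD t (d.map φ)) ∧
      (∀ d, c2.MD (1 : k) d → c.MD (1 : C) (d.map φ)) ∧ c.Mono ∞ e0 (φ ζ0) g0 := by
  obtain ⟨cB, b1, b2, b3, b4⟩ := exists_kummer0 e0 hinf.1 ζ0⁻¹ hinf.2.1.inv g0 hinf.pow_eq_one
  rw [inv_inv] at b3
  obtain ⟨c, r, mA, mM, mB, mI, mr⟩ :=
    smooth_two φ hφ t t h0 ht h0 ht c1 c2 cB h ⟨e0, ζ0, g0, hinf, b2⟩
  refine ⟨c, ?_, ?_, fun d hd => ?_, fun d hd => ?_, fun d hd => ?_, mI _ _ _ b3⟩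
  · rw [r]
    exact sup_eq_left.2 ((le_range_S1 hinf b1).trans le_sup_right)
  · refine tame_S1 φ t t c _ ⟨_, _, _, mI _ _ _ b3, fun hn => absurd (by simp [S4]) hn⟩
      (fun y => ?_) (fun y hy => ?_) (fun y hy => ?_) mr
    · obtain ⟨e, ζ, g, hm, hg⟩ := T1 y
      refine ⟨_, _, _, mA y e ζ g hm, fun hn => hg (notMem_S3_S1 ?_ ?_)⟩
      · rintro rfl
        exact hn (by simp [S4])
      · rintro rfl
        exact hn (by simp [S4])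
    · obtain ⟨e, ζ, g, hm, hg⟩ := T2 y
      refine ⟨_, _, _, mM y e ζ g hy hm, fun hn => hg (notMem_S3_S1 hy ?_)⟩
      rintro rfl
      exact hn (by simp [S4])
    · exact ⟨_, _, _, mB y _ _ _ hy (b4 y hy), fun _ => rfl⟩
  · simpa [Cover.MD, Dat.map] using mA 0 _ _ _ hd
  · simpa [Cover.MD, Dat.map] using mA 1 _ _ _ hd
  · simpa [Cover.MD, Dat.map] using mM 1 _ _ _ one_ne_zero hd

theorem smooth_right (φ : k →+* C) (hφ : ∀ x, ‖φ x‖ ≤ 1) (t : C) (h0 : t ≠ 0) (ht : ‖t‖ < 1)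
    (c1 c2 : Cover k G) (T1 : c1.Tame (S3 k)) (T2 : c2.Tame (S3 k)) (h : Glue c1 c2) (e0 : ℕ)
    (ζ0 : k) (g0 : G) (hz : c1.Mono ((0 : k) : OnePoint k) e0 ζ0 g0) :
    ∃ c : Cover C G, c.ι.range = c1.ι.range ⊔ c2.ι.range ∧ c.Tame (S4 t⁻¹) ∧
      c.Mono ((0 : C) : OnePoint C) e0 (φ ζ0) g0 ∧
      (∀ d, c1.MD (1 : k) d → c.MD (1 : C) (d.map φ)) ∧
      (∀ d, c2.MD (1 : k) d → c.MD (t⁻¹ : C) (d.map φ)) ∧
      ∀ d, c2.MD ∞ d → c.MD ∞ (d.map φ) := by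
  obtain ⟨cA, a1, a2, a3, a4⟩ := exists_kummer0 e0 hz.1 ζ0 hz.2.1 g0 hz.pow_eq_one
  obtain ⟨c, r, mA, mM, mB, mI, mr⟩ :=
    smooth_two φ hφ t t h0 ht h0 ht cA c1 c2 ⟨e0, ζ0⁻¹, g0, a3, by rwa [inv_inv]⟩ h
  have hz' : c.Mono ((0 : C) : OnePoint C) e0 (φ ζ0) g0 := by simpa using mA 0 _ _ _ a2
  refine ⟨c, ?_, ?_, hz', fun d hd => ?_, fun d hd => ?_, fun d hd => mI _ _ _ hd⟩
  · rw [r, sup_eq_right.2 (le_range_S1 hz a1)]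
  · obtain ⟨e', ζ', g', hm', -⟩ := T2 ∞
    refine tame_S1 φ t t c _ ⟨_, _, _, mI _ _ _ hm', fun hn => absurd (by simp [S4]) hn⟩
      (fun y => ?_) (fun y hy => ?_) (fun y hy => ?_) mr
    · by_cases hy : y = 0
      · subst hy
        exact ⟨_, _, _, mA 0 _ _ _ a2, fun hn => absurd (by simp [S4]) hn⟩
      · exact ⟨_, _, _, mA y _ _ _ (a4 y hy), fun _ => rfl⟩
    · obtain ⟨e, ζ, g, hm, hg⟩ := T1 y
      refine ⟨_, _, _, mM y e ζ g hy hm, fun hn => hg (notMem_S3_S1 hy ?_)⟩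
      rintro rfl
      exact hn (by simp [S4])
    · obtain ⟨e, ζ, g, hm, hg⟩ := T2 y
      refine ⟨_, _, _, mB y e ζ g hy hm, fun hn => hg (notMem_S3_S1 hy ?_)⟩
      rintro rfl
      exact hn (by simp [S4])
  · simpa [Cover.MD, Dat.map] using mM 1 _ _ _ one_ne_zero hd
  · simpa [Cover.MD, Dat.map] using mB 1 _ _ _ one_ne_zero hd

theorem move_zero (φ : k →+* C) (hφ : ∀ x, ‖φ x‖ ≤ 1) (t : C) (h0 : t ≠ 0) (ht : ‖t‖ < 1)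
    (c : Cover k G) (S : Set (OnePoint k)) (hT : c.Tame S) (hS : ∞ ∈ S) (d0 dinf : Dat k G)
    (hz : c.MD (0 : k) d0) (hinf : c.MD ∞ dinf) :
    ∃ c' : Cover C G, c'.ι.range = c.ι.range ∧
      c'.Tame {x | x = ∞ ∨ x = (t : OnePoint C) ∨
        ∃ y : k, y ≠ 0 ∧ (y : OnePoint k) ∈ S ∧ x = ((φ y : C) : OnePoint C)} ∧
      c'.MD t (d0.map φ) ∧ c'.MD ∞ (dinf.map φ) ∧
      ∀ (y : k) d, y ≠ 0 → c.MD y d → c'.MD (φ y : C) (d.map φ) := by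
  obtain ⟨e0, ζ0, g0⟩ := d0
  obtain ⟨e1, ζ1, g1⟩ := dinf
  have hz0 : c.Mono ((0 : k) : OnePoint k) e0 ζ0 g0 := hz
  have hi0 : c.Mono ∞ e1 ζ1 g1 := hinf
  obtain ⟨cA, a1, a2, a3, a4⟩ := exists_kummer e0 hz0.1 ζ0 hz0.2.1 g0 hz0.pow_eq_one 1
  obtain ⟨cB, b1, b2, b3, b4⟩ := exists_kummer0 e1 hi0.1 ζ1⁻¹ hi0.2.1.inv g1 hi0.pow_eq_one
  rw [inv_inv] at b3
  obtain ⟨c', r, mA, mM, mB, mI, mr⟩ :=
    smooth_two φ hφ t t h0 ht h0 ht cA c cB ⟨e0, ζ0⁻¹, g0, a3, by rwa [inv_inv]⟩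
      ⟨e1, ζ1, g1, hi0, b2⟩
  refine ⟨c', ?_, ?_, ?_, mI _ _ _ b3, fun y d hy hd => mM y _ _ _ hy hd⟩
  · rw [r, sup_eq_right.2 (le_range_S1 hz0 a1), sup_eq_left.2 (le_range_S1 hi0 b1)]
  · refine tame_S1 φ t t c' _ ⟨_, _, _, mI _ _ _ b3, fun hn => absurd (Or.inl rfl) hn⟩
      (fun y => ?_) (fun y hy => ?_) (fun y hy => ?_) mr
    · by_cases hy : y = 1
      · subst hy
        exact ⟨_, _, _, mA 1 _ _ _ a2, fun hn => absurd (Or.inr (Or.inl (by simp))) hn⟩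
      · exact ⟨_, _, _, mA y _ _ _ (a4 y hy), fun _ => rfl⟩
    · obtain ⟨e, ζ, g, hm, hg⟩ := hT y
      exact ⟨_, _, _, mM y e ζ g hy hm,
        fun hn => hg fun hy' => hn (Or.inr (Or.inr ⟨y, hy, hy', rfl⟩))⟩
    · exact ⟨_, _, _, mB y _ _ _ hy (b4 y hy), fun _ => rfl⟩
  · simpa [Cover.MD, Dat.map] using mA 1 _ _ _ a2

end Pool.Agent.Adm
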