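import Pool.Agent.Adm.LB

/-! Amalgamation of fields identifying two transcendental elements. -/

namespace Pool.Agent.Adm

open Polynomial in
theorem mem_range_TW {k0 k : Type} [Field k0] [IsAlgClosed k0] [Field k]
    (φ : k0 →+* k) (s : k) (P : Polynomial k0) (hP : P ≠ 0) (h : P.eval₂ φ s = 0) :
    s ∈ Set.range φ := by
  have h1 := (IsAlgClosed.splits P).eq_prod_roots
  rw [h1, eval₂_mul, eval₂_C, eval₂_multiset_prod, Multiset.map_map] at h
  rcases mul_eq_zero.1 h with h2 | h2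
  · exact absurd (φ.injective (h2.trans (map_zero φ).symm)) (leadingCoeff_ne_zero.2 hP)
  · obtain ⟨a, -, ha⟩ := Multiset.mem_map.1 (Multiset.prod_eq_zero_iff.1 h2)
    simp only [Function.comp_apply, eval₂_sub, eval₂_X, eval₂_C] at ha
    exact ⟨a, (sub_eq_zero.1 ha).symm⟩

theorem amalg_TW {E k1 k2 : Type} [Field E] [Field k1] [Field k2] (f1 : E →+* k1)
    (f2 : E →+* k2) :
    ∃ (k : Type) (_ : Field k) (_ : IsAlgClosed k) (ψ1 : k1 →+* k) (ψ2 : k2 →+* k),
      ∀ x, ψ1 (f1 x) = ψ2 (f2 x) := by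
  let _ : Algebra E k1 := f1.toAlgebra
  let _ : Algebra E k2 := f2.toAlgebra
  obtain ⟨M, hM⟩ := Ideal.exists_maximal (TensorProduct E k1 k2)
  let _ : Field (TensorProduct E k1 k2 ⧸ M) := Ideal.Quotient.field M
  refine ⟨AlgebraicClosure (TensorProduct E k1 k2 ⧸ M), inferInstance, inferInstance,
    (algebraMap _ _ : (TensorProduct E k1 k2 ⧸ M) →+* _).comp ((Ideal.Quotient.mk M).comp
      (Algebra.TensorProduct.includeLeftRingHom : k1 →+* TensorProduct E k1 k2)),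
    (algebraMap _ _ : (TensorProduct E k1 k2 ⧸ M) →+* _).comp ((Ideal.Quotient.mk M).comp
      (Algebra.TensorProduct.includeRight : k2 →ₐ[E] TensorProduct E k1 k2).toRingHom),
    fun x => ?_⟩
  have h1 : (Algebra.TensorProduct.includeLeftRingHom : k1 →+* TensorProduct E k1 k2) (f1 x) =
      (Algebra.TensorProduct.includeRight : k2 →ₐ[E] TensorProduct E k1 k2).toRingHom (f2 x) := by
    have e1 := (Algebra.TensorProduct.includeLeft :
      k1 →ₐ[E] TensorProduct E k1 k2).commutes x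
    have e2 := (Algebra.TensorProduct.includeRight :
      k2 →ₐ[E] TensorProduct E k1 k2).commutes x
    exact e1.trans e2.symm
  simp only [RingHom.comp_apply]
  rw [h1]

theorem exists_amalgam {k0 k1 k2 : Type} [Field k0] [IsAlgClosed k0] [Field k1] [Field k2]
    (φ1 : k0 →+* k1) (φ2 : k0 →+* k2) (s1 : k1) (s2 : k2) (h1 : s1 ∉ Set.range φ1)
    (h2 : s2 ∉ Set.range φ2) :
    ∃ (k : Type) (_ : Field k) (_ : IsAlgClosed k) (ψ1 : k1 →+* k) (ψ2 : k2 →+* k),
      (∀ x, ψ1 (φ1 x) = ψ2 (φ2 x)) ∧ ψ1 s1 = ψ2 s2 := by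
  obtain ⟨f1, a1, b1⟩ := exists_ratFunc_hom φ1 s1
    (fun P hP h => h1 (mem_range_TW φ1 s1 P hP h))
  obtain ⟨f2, a2, b2⟩ := exists_ratFunc_hom φ2 s2
    (fun P hP h => h2 (mem_range_TW φ2 s2 P hP h))
  obtain ⟨k, i1, i2, ψ1, ψ2, h⟩ := amalg_TW f1 f2
  refine ⟨k, i1, i2, ψ1, ψ2, fun x => ?_, ?_⟩
  · rw [← a1, ← a2, h]
  · rw [← b1, ← b2, h]

/-- Roots of unity come from an algebraically closed subfield. -/
theorem root_mem_range {k0 k : Type} [Field k0] [IsAlgClosed k0] [Field k] (φ : k0 →+* k) (ζ : k)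
    (e : ℕ) (he : 0 < e) (h : ζ ^ e = 1) : ζ ∈ Set.range φ := by
  refine mem_range_TW φ ζ (Polynomial.X ^ e - Polynomial.C 1)
    (Polynomial.X_pow_sub_C_ne_zero he 1) ?_
  rw [Polynomial.eval₂_sub, Polynomial.eval₂_X_pow, Polynomial.eval₂_C, map_one, h, sub_self]

/-- An element outside an algebraically closed subfield is transcendental. -/
theorem eval₂_ne_zero_of_notMem {k0 k : Type} [Field k0] [IsAlgClosed k0] [Field k]
    (φ : k0 →+* k) (s : k) (h : s ∉ Set.range φ) (P : Polynomial k0) (hP : P ≠ 0) :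
    P.eval₂ φ s ≠ 0 := fun h0 => h (mem_range_TW φ s P hP h0)

end Pool.Agent.Adm
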