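import Pool.Agent.Adm.GA
import Pool.Agent.Adm.TW

/-! Coverings are unramified at transcendental points. -/

namespace Pool.Agent.Adm

open Polynomial in
/-- A primitive element whose minimal polynomial has polynomial coefficients. -/
theorem exists_integral_primitive_TC {k L : Type} [Field k] [Field L] [Algebra (RatFunc k) L]
    [FiniteDimensional (RatFunc k) L] [Algebra.IsSeparable (RatFunc k) L] :
    ∃ (β : L) (Q : (k[X])[X]), IntermediateField.adjoin (RatFunc k) {β} = ⊤ ∧ Q.Monic ∧
      minpoly (RatFunc k) β = Q.map (algebraMap k[X] (RatFunc k)) := by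
  let _ : Algebra k[X] L :=
    ((algebraMap (RatFunc k) L).comp (algebraMap k[X] (RatFunc k))).toAlgebra
  have : IsScalarTower k[X] (RatFunc k) L := IsScalarTower.of_algebraMap_eq (fun _ => rfl)
  obtain ⟨β, hβ⟩ := Field.exists_primitive_element (RatFunc k) L
  have h1 : IsAlgebraic k[X] β :=
    (IsFractionRing.isAlgebraic_iff k[X] (RatFunc k) L).2 (Algebra.IsAlgebraic.isAlgebraic β)
  obtain ⟨D, hD, hI⟩ := h1.exists_integral_multiple
  refine ⟨D • β, minpoly k[X] (D • β), ?_, minpoly.monic hI,
    minpoly.isIntegrallyClosed_eq_field_fractions' (RatFunc k) hI⟩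
  rw [eq_top_iff, ← hβ, IntermediateField.adjoin_simple_le_iff]
  have h2 : algebraMap k[X] (RatFunc k) D ≠ 0 := by
    simpa using hD
  have h3 : β = (algebraMap k[X] (RatFunc k) D)⁻¹ • (D • β) := by
    rw [← algebraMap_smul (RatFunc k) D β, smul_smul, inv_mul_cancel₀ h2, one_smul]
  have h4 := IntermediateField.mem_adjoin_simple_self (RatFunc k) (D • β)
  have h5 := IntermediateField.smul_mem _ h4 (x := (algebraMap k[X] (RatFunc k) D)⁻¹)
  rwa [← h3] at h5

theorem Cover.rmono_transcendental {k k' G : Type} [Field k] [IsAlgClosed k] [Field k']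
    [IsAlgClosed k'] [Group G] (c : Cover k G) (φ : k →+* k') (x : k') (hx : x ∉ Set.range φ) :
    c.RMono ((HahnSeries.C : k' →+* LaurentSeries k').comp φ)
      (HahnSeries.C x + HahnSeries.single 1 1) (RingHom.id _) 1 := by
  obtain ⟨β, Q, hβ, hQ, hmin⟩ := exists_integral_primitive_TC (k := k) (L := c.L)
  have hev := eval₂_ne_zero_of_notMem φ x hx
  obtain ⟨f, hfC, hfX⟩ := exists_ratFunc_hom φ x hev
  let ψ : Polynomial k →+* PowerSeries k' :=
    Polynomial.eval₂RingHom ((PowerSeries.C : k' →+* PowerSeries k').comp φ)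
      (PowerSeries.C x + PowerSeries.X)
  have h1 : (PowerSeries.constantCoeff (R := k')).comp ψ =
      f.comp (algebraMap (Polynomial k) (RatFunc k)) := by
    apply Polynomial.ringHom_ext
    · intro a; simp [ψ, hfC]
    · simp [ψ, hfX]
  have h2 : (HahnSeries.ofPowerSeries ℤ k').comp ψ =
      Polynomial.eval₂RingHom ((HahnSeries.C : k' →+* LaurentSeries k').comp φ)
        (HahnSeries.C x + HahnSeries.single 1 1) := by
    apply Polynomial.ringHom_ext
    · intro a; simp [ψ, HahnSeries.ofPowerSeries_C]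
    · simp [ψ, HahnSeries.ofPowerSeries_C, HahnSeries.ofPowerSeries_X]
  have h3 : ∀ P : Polynomial k, P ≠ 0 →
      P.eval₂ ((HahnSeries.C : k' →+* LaurentSeries k').comp φ)
        (HahnSeries.C x + HahnSeries.single 1 1) ≠ 0 := by
    intro P hP h0
    have h4 : HahnSeries.ofPowerSeries ℤ k' (ψ P) = 0 := by
      rw [← h0]; exact DFunLike.congr_fun h2 P
    have h5 : ψ P = 0 := HahnSeries.ofPowerSeries_injective (Γ := ℤ) (by rw [h4, map_zero])
    have h6 := DFunLike.congr_fun h1 P
    simp only [RingHom.comp_apply] at h6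
    rw [h5, map_zero, hom_algebraMap f φ x hfC hfX] at h6
    exact hev P hP h6.symm
  obtain ⟨j0, hjC, hjX⟩ := exists_ratFunc_hom _ _ h3
  have h7 : j0.comp (algebraMap (Polynomial k) (RatFunc k)) =
      (HahnSeries.ofPowerSeries ℤ k').comp ψ := by
    rw [h2]
    exact RingHom.ext fun P => hom_algebraMap j0 _ _ hjC hjX P
  have hsep : ((Q.map ψ).map (PowerSeries.constantCoeff (R := k'))).Separable := by
    rw [Polynomial.map_map, h1, ← Polynomial.map_map, ← hmin]
    exact Polynomial.Separable.map (Algebra.IsSeparable.isSeparable (RatFunc k) β)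
  have hspl := splits_of_separable_reduction (Q.map ψ) (hQ.map ψ) hsep
  rw [Polynomial.map_map, ← h7, ← Polynomial.map_map, ← hmin] at hspl
  obtain ⟨j, hj⟩ := exists_extension (L := c.L) j0 {β} hβ (by
    intro J hJ s hs
    rw [Set.mem_singleton_iff] at hs
    subst hs
    have h8 : (minpoly (RatFunc k) s).map j0 ≠ 0 :=
      ((minpoly.monic (Algebra.IsIntegral.isIntegral s)).map j0).ne_zero
    refine hspl.mem_range_of_isRoot h8 ?_
    have h9 : (algebraMap (LaurentSeries k') (AlgebraicClosure (LaurentSeries k'))).comp j0 =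
        J.comp (algebraMap (RatFunc k) c.L) := RingHom.ext fun y => (hJ y).symm
    rw [Polynomial.IsRoot.def, Polynomial.map_map, h9, Polynomial.eval_map,
      ← Polynomial.hom_eval₂, ← Polynomial.aeval_def, minpoly.aeval, map_zero])
  exact ⟨j, fun y => by rw [hj, hjC], by rw [hj, hjX], 1, map_one _, fun y => rfl⟩

end Pool.Agent.Adm
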