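import Pool.Agent.Adm.S2a
import Pool.Agent.Adm.TC

/-! Smoothing two nodes at once. -/

namespace Pool.Agent.Adm

open scoped OnePoint

/-- A chart of Q in which the coordinate has the expansion U. -/
def ChartS2 {C Q : Type} [Field C] [CommRing Q] (κ : RatFunc C →+* Q) (U : LaurentSeries C) :
    Prop :=
  ∃ ψ : Q →+* LaurentSeries C, (∀ c, ψ (κ (RatFunc.C c)) = HahnSeries.C c) ∧
    ψ (κ RatFunc.X) = U ∧
    ∀ (ζ : C) (h : ζ ≠ 0), scL ζ h U = U → ∀ q, scL ζ h (ψ q) = ψ q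

theorem C_mul_single_S2 {C : Type} [Field C] (a s : C) (n : ℤ) :
    (HahnSeries.C a * HahnSeries.single n s : LaurentSeries C) = HahnSeries.single n (a * s) := by
  rw [HahnSeries.C_apply, HahnSeries.single_mul_single, zero_add]

theorem inv_single_S2 {C : Type} [Field C] (s : C) (hs : s ≠ 0) (n : ℤ) :
    (HahnSeries.single n s : LaurentSeries C)⁻¹ = HahnSeries.single (-n) s⁻¹ := by
  symm
  apply eq_inv_of_mul_eq_one_left
  rw [HahnSeries.single_mul_single, neg_add_cancel, inv_mul_cancel₀ hs]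
  rfl

theorem coe_ps_S2 {C : Type} [Field C] (x s : C) (e : ℕ) :
    ((PowerSeries.C x + PowerSeries.C s * PowerSeries.X ^ e : PowerSeries C) : LaurentSeries C) =
      HahnSeries.C x + HahnSeries.single (e : ℤ) s := by
  rw [map_add, map_mul, map_pow, HahnSeries.ofPowerSeries_C, HahnSeries.ofPowerSeries_C,
    HahnSeries.ofPowerSeries_X, HahnSeries.single_pow, C_mul_single_S2]
  simp

theorem cc_ps_S2 {C : Type} [Field C] (x s : C) (e : ℕ) (he : 0 < e) :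
    PowerSeries.constantCoeff
      (PowerSeries.C x + PowerSeries.C s * PowerSeries.X ^ e : PowerSeries C) = x := by
  simp [he.ne']

theorem eval₂_hom_S2 {k W W' : Type} [Field k] [Field W] [Field W'] (φ : k →+* W) (u : W)
    (j : W →+* W') (P : Polynomial k) (h : P.eval₂ (j.comp φ) (j u) ≠ 0) : P.eval₂ φ u ≠ 0 := by
  intro h0
  apply h
  rw [← Polynomial.hom_eval₂, h0, map_zero]

theorem exists_theta_S2 {k C : Type} [Field k] [Field C] (φ : k →+* C) (a : C) (ha : a ≠ 0) :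
    ∃ θ : RatFunc k →+* RatFunc C, (∀ x, θ (RatFunc.C x) = RatFunc.C (φ x)) ∧
      θ RatFunc.X = RatFunc.C a * RatFunc.X := by
  refine exists_ratFunc_hom ((RatFunc.C : C →+* RatFunc C).comp φ) (RatFunc.C a * RatFunc.X) ?_
  intro P hP
  obtain ⟨j, hC, hX⟩ := exists_chart (∞ : OnePoint C) 1 one_pos
  refine eval₂_hom_S2 _ _ j P ?_
  have h1 : j.comp ((RatFunc.C : C →+* RatFunc C).comp φ) =
      (HahnSeries.C : C →+* LaurentSeries C).comp φ := by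
    refine RingHom.ext fun x => ?_
    simp only [RingHom.comp_apply, hC]
  have h2 : j (RatFunc.C a * RatFunc.X) = HahnSeries.C 0 + HahnSeries.single (-1 : ℤ) a := by
    rw [map_mul, hC, hX, map_zero, zero_add]
    change HahnSeries.C a * HahnSeries.single (-((1 : ℕ) : ℤ)) 1 = _
    rw [C_mul_single_S2]
    simp
  rw [h1, h2, ← Polynomial.eval₂_map]
  exact eval₂_ne_zero_of_single 0 a ha (-1) (by decide) _ (Polynomial.map_ne_zero hP)

theorem eval₂_inv_S2 {C : Type} [Field C] (U : LaurentSeries C)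
    (hU : ∀ P : Polynomial C, P ≠ 0 → P.eval₂ HahnSeries.C U ≠ 0) (P : Polynomial C)
    (hP : P ≠ 0) : P.eval₂ HahnSeries.C U⁻¹ ≠ 0 := by
  obtain ⟨j, hC, hX⟩ := exists_ratFunc_hom HahnSeries.C U hU
  obtain ⟨j', hC', hX'⟩ := exists_chart (∞ : OnePoint C) 1 one_pos
  have h1 : j.comp (RatFunc.C : C →+* RatFunc C) = HahnSeries.C := RingHom.ext hC
  have h1' : j'.comp (RatFunc.C : C →+* RatFunc C) = HahnSeries.C := RingHom.ext hC'
  have h2 : P.eval₂ (RatFunc.C : C →+* RatFunc C) RatFunc.X⁻¹ ≠ 0 := by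
    refine eval₂_hom_S2 _ _ j' P ?_
    have h3 : j' RatFunc.X⁻¹ = HahnSeries.C 0 + HahnSeries.single (1 : ℤ) 1 := by
      rw [map_inv₀, hX', map_zero, zero_add]
      change (HahnSeries.single (-((1 : ℕ) : ℤ)) 1 : LaurentSeries C)⁻¹ = _
      rw [inv_single_S2 _ one_ne_zero]
      simp
    rw [h1', h3]
    exact eval₂_ne_zero_of_single 0 1 one_ne_zero 1 one_ne_zero P hP
  have h4 := (map_ne_zero j).2 h2
  rwa [Polynomial.hom_eval₂, h1, map_inv₀, hX] at h4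

section charts

variable {C : Type} [NormedField C] [CompleteSpace C] [IsUltrametricDist C] {c1 c2 : C}
  {e1 e2 : ℕ} {he1 : 0 < e1} {he2 : 0 < e2}

theorem chartA_S2 (an : AnPkg c1 c2 e1 e2 he1 he2) (x s : C) (hs : s ≠ 0) (e : ℕ) (he : 0 < e)
    (hx : ‖x‖ ≤ ‖c1‖) : ChartS2 an.κA (HahnSeries.C x + HahnSeries.single (e : ℤ) s) := by
  have := an.evA (PowerSeries.C x + PowerSeries.C s * PowerSeries.X ^ e)
    (by rwa [cc_ps_S2 x s e he])
    (by rw [coe_ps_S2]; exact eval₂_ne_zero_of_single x s hs e (by exact_mod_cast he.ne'))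
  rwa [coe_ps_S2] at this

theorem chartM_S2 (an : AnPkg c1 c2 e1 e2 he1 he2) (x s : C) (hs : s ≠ 0) (e : ℕ) (he : 0 < e)
    (hx : ‖c1‖ ≤ ‖x‖) (hx' : ‖x‖ ≤ ‖c2‖) :
    ChartS2 an.κM (HahnSeries.C x + HahnSeries.single (e : ℤ) s) := by
  have := an.evM (PowerSeries.C x + PowerSeries.C s * PowerSeries.X ^ e)
    (by rwa [cc_ps_S2 x s e he]) (by rwa [cc_ps_S2 x s e he])
    (by rw [coe_ps_S2]; exact eval₂_ne_zero_of_single x s hs e (by exact_mod_cast he.ne'))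
  rwa [coe_ps_S2] at this

theorem chartB0_S2 (an : AnPkg c1 c2 e1 e2 he1 he2) (u : PowerSeries C) (U : LaurentSeries C)
    (hu : (u : LaurentSeries C) = U⁻¹) (hx : ‖PowerSeries.constantCoeff u‖ ≤ ‖c2‖⁻¹)
    (hU : ∀ P : Polynomial C, P ≠ 0 → P.eval₂ HahnSeries.C U ≠ 0) : ChartS2 an.κB U := by
  obtain ⟨ψ, h1, h2, h3⟩ := an.evB u hx (by rw [hu]; exact eval₂_inv_S2 U hU)
  refine ⟨ψ, h1, by rw [h2, hu, inv_inv], fun ζ h hζ => h3 ζ h ?_⟩
  rw [hu, map_inv₀, hζ]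

theorem chartB_S2 (an : AnPkg c1 c2 e1 e2 he1 he2) (x s : C) (hs : s ≠ 0) (e : ℕ) (he : 0 < e)
    (hc : c2 ≠ 0) (hx : ‖c2‖ ≤ ‖x‖) :
    ChartS2 an.κB (HahnSeries.C x + HahnSeries.single (e : ℤ) s) := by
  have hc' : 0 < ‖c2‖ := norm_pos_iff.2 hc
  have hx0 : x ≠ 0 := norm_pos_iff.1 (hc'.trans_le hx)
  refine chartB0_S2 an (PowerSeries.C x + PowerSeries.C s * PowerSeries.X ^ e)⁻¹ _ ?_ ?_
    (eval₂_ne_zero_of_single x s hs e (by exact_mod_cast he.ne'))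
  · rw [← coe_ps_S2]
    apply eq_inv_of_mul_eq_one_left
    rw [← map_mul, PowerSeries.inv_mul_cancel _ (by rwa [cc_ps_S2 x s e he]), map_one]
  · rw [PowerSeries.constantCoeff_inv, cc_ps_S2 x s e he, norm_inv]
    exact inv_anti₀ hc' hx

theorem chartI_S2 (an : AnPkg c1 c2 e1 e2 he1 he2) (s : C) (hs : s ≠ 0) (e : ℕ) (he : 0 < e) :
    ChartS2 an.κB (HahnSeries.single (-(e : ℤ)) s) := by
  refine chartB0_S2 an (PowerSeries.C 0 + PowerSeries.C s⁻¹ * PowerSeries.X ^ e) _ ?_ ?_ ?_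
  · rw [coe_ps_S2, inv_single_S2 s hs, map_zero, zero_add, neg_neg]
  · rw [cc_ps_S2 _ _ e he, norm_zero]
    positivity
  · have := eval₂_ne_zero_of_single 0 s hs (-(e : ℤ)) (by
      rw [neg_ne_zero]; exact_mod_cast he.ne')
    rwa [map_zero, zero_add] at this

end charts

section transfer

variable {k C G Q : Type} [Field k] [Field C] [Group G] [CommRing Q] {c0 : Cover k G}
  {c : Cover C G} {θ : RatFunc k →+* RatFunc C} {κ : RatFunc C →+* Q} {φ : k →+* C} {a : C}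

theorem transfer_S2 (hT : Transfer c0 c θ κ) (hC : ∀ x, θ (RatFunc.C x) = RatFunc.C (φ x))
    (hX : θ RatFunc.X = RatFunc.C a * RatFunc.X) {U : LaurentSeries C} (hU : ChartS2 κ U)
    {ζ : C} (h : ζ ≠ 0) (hζ : scL ζ h U = U) {g : G}
    (hr : c0.RMono ((HahnSeries.C : C →+* LaurentSeries C).comp φ) (HahnSeries.C a * U)
      (scL ζ h) g) : c.RMono HahnSeries.C U (scL ζ h) g := by
  obtain ⟨ψ, h1, h2, h3⟩ := hU
  exact hT _ ψ (scL ζ h) _ _ _ U g (h3 ζ h hζ) (fun x => by rw [hC, h1]; rfl)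
    (by rw [hX, map_mul, map_mul, h1, h2]) h1 h2 hr

theorem rmono_map_S2 (φ : k →+* C) {b : OnePoint k} {e : ℕ} {ζ : k} {g : G}
    (hm : c0.Mono b e ζ g) (h : φ ζ ≠ 0) :
    c0.RMono ((HahnSeries.C : C →+* LaurentSeries C).comp φ) (expand (b.map φ) e)
      (scL (φ ζ) h) g := by
  have := hm.rmono.comp (mapL φ) (scL (φ ζ) h) (fun x => mapL_scL φ ζ _ x)
  have h1 : (mapL φ).comp (HahnSeries.C : k →+* LaurentSeries k) =
      (HahnSeries.C : C →+* LaurentSeries C).comp φ := RingHom.ext fun x => mapL_C φ x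
  rwa [h1, mapL_expand] at this

variable [IsAlgClosed C]

theorem point_S2 (hT : Transfer c0 c θ κ) (hC : ∀ x, θ (RatFunc.C x) = RatFunc.C (φ x))
    (hX : θ RatFunc.X = RatFunc.C a * RatFunc.X) (ha : a ≠ 0) (x : C) {e : ℕ} (he : 0 < e)
    {ζ : C} (hζ : IsPrimitiveRoot ζ e)
    (hU : ChartS2 κ (HahnSeries.C x + HahnSeries.single (e : ℤ) a⁻¹)) {g : G}
    (hr : c0.RMono ((HahnSeries.C : C →+* LaurentSeries C).comp φ)
      (HahnSeries.C (a * x) + HahnSeries.single (e : ℤ) 1) (scL ζ (hζ.ne_zero he.ne')) g) :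
    c.Mono (x : OnePoint C) e ζ g := by
  refine Cover.RMono.mono_of_scaled he hζ x a⁻¹ (inv_ne_zero ha)
    (transfer_S2 hT hC hX hU _ ?_ ?_)
  · rw [map_add, scL_C, scL_single, zpow_natCast, hζ.pow_eq_one, one_mul]
  · rwa [mul_add, C_mul_single_S2, ← map_mul, mul_inv_cancel₀ ha]

theorem point_alg_S2 (hT : Transfer c0 c θ κ) (hC : ∀ x, θ (RatFunc.C x) = RatFunc.C (φ x))
    (hX : θ RatFunc.X = RatFunc.C a * RatFunc.X) (ha : a ≠ 0) (x : C) (y : k) (hy : a * x = φ y)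
    (hU : ∀ e : ℕ, 0 < e → ChartS2 κ (HahnSeries.C x + HahnSeries.single (e : ℤ) a⁻¹))
    {e : ℕ} {ζ : k} {g : G} (hm : c0.Mono (y : OnePoint k) e ζ g) :
    c.Mono (x : OnePoint C) e (φ ζ) g := by
  have hζ : IsPrimitiveRoot (φ ζ) e := hm.2.1.map_of_injective φ.injective
  refine point_S2 hT hC hX ha x hm.1 hζ (hU e hm.1) ?_
  rw [hy]
  exact rmono_map_S2 φ hm _

theorem point_tr_S2 [IsAlgClosed k] (hT : Transfer c0 c θ κ)
    (hC : ∀ x, θ (RatFunc.C x) = RatFunc.C (φ x))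
    (hX : θ RatFunc.X = RatFunc.C a * RatFunc.X) (ha : a ≠ 0) (x : C) (hy : ∀ y, a * x ≠ φ y)
    (hU : ∀ e : ℕ, 0 < e → ChartS2 κ (HahnSeries.C x + HahnSeries.single (e : ℤ) a⁻¹)) :
    c.Mono (x : OnePoint C) 1 1 1 := by
  refine point_S2 hT hC hX ha x one_pos IsPrimitiveRoot.one (hU 1 one_pos) ?_
  have := c0.rmono_transcendental φ (a * x) (fun ⟨y, h⟩ => hy y h.symm)
  have h1 : scL (1 : C) one_ne_zero = RingHom.id _ := RingHom.ext scL_one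
  rw [← h1] at this
  exact this

theorem infty_S2 (hT : Transfer c0 c θ κ) (hC : ∀ x, θ (RatFunc.C x) = RatFunc.C (φ x))
    (hX : θ RatFunc.X = RatFunc.C a * RatFunc.X) (ha : a ≠ 0)
    (hU : ∀ e : ℕ, 0 < e → ChartS2 κ (HahnSeries.single (-(e : ℤ)) a⁻¹))
    {e : ℕ} {ζ : k} {g : G} (hm : c0.Mono ∞ e ζ g) : c.Mono ∞ e (φ ζ) g := by
  have hζ : IsPrimitiveRoot (φ ζ) e := hm.2.1.map_of_injective φ.injective
  refine Cover.RMono.mono_infty_of_scaled hm.1 hζ a⁻¹ (inv_ne_zero ha)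
    (transfer_S2 hT hC hX (hU e hm.1) _ ?_ ?_)
  · rw [scL_single, zpow_neg, zpow_natCast, hζ.pow_eq_one, inv_one, one_mul]
  · rw [C_mul_single_S2, mul_inv_cancel₀ ha]
    exact rmono_map_S2 φ hm _

end transfer

theorem smooth_top {k C G : Type} [Field k] [IsAlgClosed k] [NormedField C] [CompleteSpace C]
    [IsUltrametricDist C] [IsAlgClosed C] [Group G] [Finite G] (φ : k →+* C)
    (hφ : ∀ x, ‖φ x‖ ≤ 1) (tA tB : C) (hA0 : tA ≠ 0) (hA : ‖tA‖ < 1) (hB0 : tB ≠ 0)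
    (hB : ‖tB‖ < 1) (cA cM cB : Cover k G) (hG : cA.ι.range ⊔ cM.ι.range ⊔ cB.ι.range = ⊤)
    (h1 : Glue cA cM) (h2 : Glue cM cB) :
    ∃ c : Cover C G, c.ι.range = ⊤ ∧
      (∀ (y : k) e ζ g, cA.Mono (y : OnePoint k) e ζ g →
        c.Mono ((tA * φ y : C) : OnePoint C) e (φ ζ) g) ∧
      (∀ (y : k) e ζ g, y ≠ 0 → cM.Mono (y : OnePoint k) e ζ g →
        c.Mono ((φ y : C) : OnePoint C) e (φ ζ) g) ∧
      (∀ (y : k) e ζ g, y ≠ 0 → cB.Mono (y : OnePoint k) e ζ g →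
        c.Mono ((φ y / tB : C) : OnePoint C) e (φ ζ) g) ∧
      (∀ e ζ g, cB.Mono ∞ e ζ g → c.Mono ∞ e (φ ζ) g) ∧
      ∀ x : C, (∀ y, x ≠ tA * φ y) → (∀ y, x ≠ φ y) → (∀ y, x ≠ φ y / tB) →
        c.Mono (x : OnePoint C) 1 1 1 := by
  obtain ⟨θA, hAC, hAX⟩ := exists_theta_S2 φ tA⁻¹ (inv_ne_zero hA0)
  obtain ⟨θM, hMC, hMX⟩ := exists_theta_S2 φ 1 one_ne_zero
  obtain ⟨θB, hBC, hBX⟩ := exists_theta_S2 φ tB hB0
  obtain ⟨c1, c2, e1, e2, he1, he2, an, c, hc1, hc2, hc, TA, TM, TB⟩ :=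
    smooth_core φ hφ tA tB hA0 hA hB0 hB cA cM cB hG h1 h2 θA θM θB hAC hAX hMC
      (by rw [hMX, map_one, one_mul]) hBC hBX
  have n1 : ‖c1‖ ^ 2 = ‖tA‖ := by rw [← hc1, norm_pow]
  have n2 : ‖c2‖ ^ 2 * ‖tB‖ = 1 := by rw [← norm_pow, ← norm_mul, hc2, norm_one]
  have p1 : 0 ≤ ‖c1‖ := norm_nonneg _
  have p2 : 0 ≤ ‖c2‖ := norm_nonneg _
  have pB : 0 < ‖tB‖ := norm_pos_iff.2 hB0
  have l1 : ‖c1‖ ≤ 1 := by nlinarith
  have l2 : 1 ≤ ‖c2‖ := by
    by_contra h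
    have h' : ‖c2‖ < 1 := lt_of_not_ge h
    have h3 : ‖c2‖ ^ 2 ≤ 1 := by nlinarith
    nlinarith
  have hc20 : c2 ≠ 0 := norm_pos_iff.1 (by linarith)
  have iA : tA⁻¹⁻¹ ≠ 0 := inv_ne_zero (inv_ne_zero hA0)
  have iM : (1 : C)⁻¹ ≠ 0 := inv_ne_zero one_ne_zero
  have iB : tB⁻¹ ≠ 0 := inv_ne_zero hB0
  refine ⟨c, hc, fun y e ζ g hm => ?_, fun y e ζ g hy hm => ?_, fun y e ζ g hy hm => ?_,
    fun e ζ g hm => ?_, fun x xA xM xB => ?_⟩
  · refine point_alg_S2 TA hAC hAX (inv_ne_zero hA0) _ y (inv_mul_cancel_left₀ hA0 _)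
      (fun e he => chartA_S2 an _ _ iA e he ?_) hm
    rw [norm_mul, ← n1]
    have := hφ y
    have := norm_nonneg (φ y)
    have h3 : ‖c1‖ ^ 2 * ‖φ y‖ ≤ ‖c1‖ ^ 2 * 1 := by gcongr
    nlinarith
  · have := T.norm_phi φ hφ y hy
    exact point_alg_S2 TM hMC hMX one_ne_zero _ y (one_mul _)
      (fun e he => chartM_S2 an _ _ iM e he (by rwa [this]) (by rwa [this])) hm
  · refine point_alg_S2 TB hBC hBX hB0 _ y (mul_div_cancel₀ _ hB0)
      (fun e he => chartB_S2 an _ _ iB e he hc20 ?_) hm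
    rw [norm_div, T.norm_phi φ hφ y hy, le_div_iff₀ pB]
    have h3 : ‖c2‖ * ‖tB‖ * 1 ≤ ‖c2‖ * ‖tB‖ * ‖c2‖ := by gcongr
    nlinarith
  · exact infty_S2 TB hBC hBX hB0 (fun e he => chartI_S2 an _ iB e he) hm
  · rcases le_total ‖x‖ ‖c1‖ with hx | hx
    · refine point_tr_S2 TA hAC hAX (inv_ne_zero hA0) x (fun y hy => xA y ?_)
        (fun e he => chartA_S2 an _ _ iA e he hx)
      rw [← hy, mul_inv_cancel_left₀ hA0]
    · rcases le_total ‖x‖ ‖c2‖ with hx' | hx'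
      · refine point_tr_S2 TM hMC hMX one_ne_zero x (fun y hy => xM y ?_)
          (fun e he => chartM_S2 an _ _ iM e he hx hx')
        rw [← hy, one_mul]
      · refine point_tr_S2 TB hBC hBX hB0 x (fun y hy => xB y ?_)
          (fun e he => chartB_S2 an _ _ iB e he hc20 hx')
        rw [← hy, mul_div_cancel_left₀ _ hB0]

theorem Glue.restr_S2 {k G : Type} [Field k] [Group G] {c c' : Cover k G} (h : Glue c c')
    (H : Subgroup G) (hc : c.ι.range ≤ H) (hc' : c'.ι.range ≤ H) :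
    Glue (c.restr H hc) (c'.restr H hc') := by
  obtain ⟨e, ζ, g, h1, h2⟩ := h
  exact ⟨e, ζ, _, h1.restr H hc, h2.restr H hc'⟩

theorem smooth_two {k C G : Type} [Field k] [IsAlgClosed k] [NormedField C] [CompleteSpace C]
    [IsUltrametricDist C] [IsAlgClosed C] [Group G] [Finite G] (φ : k →+* C)
    (hφ : ∀ x, ‖φ x‖ ≤ 1) (tA tB : C) (hA0 : tA ≠ 0) (hA : ‖tA‖ < 1) (hB0 : tB ≠ 0)
    (hB : ‖tB‖ < 1) (cA cM cB : Cover k G) (h1 : Glue cA cM) (h2 : Glue cM cB) :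
    ∃ c : Cover C G, c.ι.range = cA.ι.range ⊔ cM.ι.range ⊔ cB.ι.range ∧
      (∀ (y : k) e ζ g, cA.Mono (y : OnePoint k) e ζ g →
        c.Mono ((tA * φ y : C) : OnePoint C) e (φ ζ) g) ∧
      (∀ (y : k) e ζ g, y ≠ 0 → cM.Mono (y : OnePoint k) e ζ g →
        c.Mono ((φ y : C) : OnePoint C) e (φ ζ) g) ∧
      (∀ (y : k) e ζ g, y ≠ 0 → cB.Mono (y : OnePoint k) e ζ g →
        c.Mono ((φ y / tB : C) : OnePoint C) e (φ ζ) g) ∧
      (∀ e ζ g, cB.Mono ∞ e ζ g → c.Mono ∞ e (φ ζ) g) ∧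
      ∀ x : C, (∀ y, x ≠ tA * φ y) → (∀ y, x ≠ φ y) → (∀ y, x ≠ φ y / tB) →
        c.Mono (x : OnePoint C) 1 1 1 := by
  obtain ⟨H, hH⟩ : ∃ H, H = cA.ι.range ⊔ cM.ι.range ⊔ cB.ι.range := ⟨_, rfl⟩
  have hAH : cA.ι.range ≤ H := hH ▸ le_sup_left.trans le_sup_left
  have hMH : cM.ι.range ≤ H := hH ▸ le_sup_right.trans le_sup_left
  have hBH : cB.ι.range ≤ H := hH ▸ le_sup_right
  have hG : (cA.restr H hAH).ι.range ⊔ (cM.restr H hMH).ι.range ⊔ (cB.restr H hBH).ι.range = ⊤ := by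
    apply Subgroup.map_injective H.subtype_injective
    rw [Cover.restr_range, Cover.restr_range, Cover.restr_range, Subgroup.map_sup,
      Subgroup.map_sup, Subgroup.map_subgroupOf_eq_of_le hAH, Subgroup.map_subgroupOf_eq_of_le hMH,
      Subgroup.map_subgroupOf_eq_of_le hBH, ← MonoidHom.range_eq_map, Subgroup.range_subtype, hH]
  obtain ⟨c, hc, mA, mM, mB, mI, mT⟩ := smooth_top φ hφ tA tB hA0 hA hB0 hB _ _ _ hG
    (h1.restr_S2 H hAH hMH) (h2.restr_S2 H hMH hBH)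
  refine ⟨c.map H.subtype, ?_, fun y e ζ g hm => (mA y e ζ _ (hm.restr H hAH)).map H.subtype,
    fun y e ζ g hy hm => (mM y e ζ _ hy (hm.restr H hMH)).map H.subtype,
    fun y e ζ g hy hm => (mB y e ζ _ hy (hm.restr H hBH)).map H.subtype,
    fun e ζ g hm => (mI e ζ _ (hm.restr H hBH)).map H.subtype,
    fun x xA xM xB => (mT x xA xM xB).map H.subtype⟩
  rw [Cover.map_range, hc, ← MonoidHom.range_eq_map, Subgroup.range_subtype, hH]

end Pool.Agent.Adm
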