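import Pool.Agent.Adm.An
import Pool.Agent.Adm.Rat
import Pool.Agent.Adm.P3

/-! Smoothing two nodes at once: construction of the covering. -/

namespace Pool.Agent.Adm

open scoped OnePoint

theorem node_S2a {k C G : Type} [Field k] [NormedField C] [CompleteSpace C]
    [IsUltrametricDist C] [IsAlgClosed C] [Group G] [Fintype G] [DecidableEq G] (φ : k →+* C)
    (hφ : ∀ x, ‖φ x‖ ≤ 1) (t : C) (h0 : t ≠ 0) (ht : ‖t‖ < 1) (c c' : Cover k G)
    (h : Glue c c') (P : Matrix G G c.L) (P' : Matrix G G c'.L) (hP : c.IndBasis P)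
    (hP' : c'.IndBasis P') :
    ∃ (e : ℕ) (he : 0 < e) (γ : C) (g0 : γ ≠ 0) (g1 : ‖γ‖ < 1) (j : c.L →+* LaurentSeries k)
      (j' : c'.L →+* LaurentSeries k), (γ ^ e) ^ 2 = t ∧
      (∀ x, j (algebraMap (RatFunc k) c.L (RatFunc.C x)) = HahnSeries.C x) ∧
      j (algebraMap (RatFunc k) c.L RatFunc.X) = HahnSeries.single (-(e : ℤ)) 1 ∧
      (∀ x, j' (algebraMap (RatFunc k) c'.L (RatFunc.C x)) = HahnSeries.C x) ∧
      j' (algebraMap (RatFunc k) c'.L RatFunc.X) = HahnSeries.single (e : ℤ) 1 ∧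
      (∃ A : Matrix G G (T C), IsUnit A ∧ P.map (T.flip.comp ((T.emb φ hφ γ g0 g1).comp j)) =
        P'.map ((T.emb φ hφ γ g0 g1).comp j') * A.map (T.pw e he)) ∧
      ∃ A : Matrix G G (T C), IsUnit A ∧ P'.map ((T.emb φ hφ γ g0 g1).comp j') =
        P.map (T.flip.comp ((T.emb φ hφ γ g0 g1).comp j)) * A.map (T.pw e he) := by
  obtain ⟨e, ζ, g, ⟨he, hζ, j, j1, j2, σ, j3, j4⟩, ⟨-, hζ', j', k1, k2, σ', k3, k4⟩⟩ := h
  obtain ⟨γ, hγ⟩ := IsAlgClosed.exists_pow_nat_eq t (n := e * 2) (by omega)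
  have g0 : γ ≠ 0 := by
    rintro rfl
    rw [zero_pow (by omega)] at hγ
    exact h0 hγ.symm
  have g1 : ‖γ‖ < 1 := by
    by_contra h1
    rw [← hγ, norm_pow] at ht
    exact absurd (one_le_pow₀ (not_lt.1 h1)) (not_le.2 ht)
  have hz : ζ⁻¹ ≠ 0 := hζ'.ne_zero he.ne'
  have hn : ‖φ ζ⁻¹‖ = 1 := T.norm_phi φ hφ _ hz
  have hs := T.exists_pw_of_sc e he (φ ζ⁻¹) hn (hζ'.map_of_injective φ.injective)
  have a1 : ∀ x, (T.flip.comp ((T.emb φ hφ γ g0 g1).comp j)) (σ x) =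
      T.sc (φ ζ⁻¹) hn ((T.flip.comp ((T.emb φ hφ γ g0 g1).comp j)) x) := by
    intro x
    ext n
    simp only [RingHom.comp_apply, T.coeff_flip, T.coeff_emb, T.coeff_sc, j4, map_mul, map_zpow₀,
      map_inv₀, inv_zpow']
    ring
  have a2 : ∀ x, ((T.emb φ hφ γ g0 g1).comp j') (σ' x) =
      T.sc (φ ζ⁻¹) hn (((T.emb φ hφ γ g0 g1).comp j') x) := by
    intro x
    ext n
    simp only [RingHom.comp_apply, T.coeff_emb, T.coeff_sc, k4, map_mul, map_zpow₀]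
    ring
  refine ⟨e, he, γ, g0, g1, j, j', by rw [← pow_mul, hγ], j1, j2, k1, ?_,
    exists_transition c c' P P' hP hP' (T.pw e he) (T.pw_injective e he) _ hs _ _ σ σ'
      (j3.trans k3.symm) a1 a2,
    exists_transition c' c P' P hP' hP (T.pw e he) (T.pw_injective e he) _ hs _ _ σ' σ
      (k3.trans j3.symm) a2 a1⟩
  rw [k2]
  simp [expand]

theorem agree_S2a {k C L Q : Type} [Field k] [NormedField C] [CompleteSpace C]
    [IsUltrametricDist C] [Field L] [Algebra (RatFunc k) L] [CommRing Q] (φ : k →+* C)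
    (J : L →+* T C) (e : ℤ) (a b c : C) (hab : b * c = a)
    (hC : ∀ x, J (algebraMap (RatFunc k) L (RatFunc.C x)) = T.cst (φ x))
    (hX : J (algebraMap (RatFunc k) L RatFunc.X) = T.mono e a)
    (θ : RatFunc k →+* RatFunc C) (tC : ∀ x, θ (RatFunc.C x) = RatFunc.C (φ x))
    (tX : θ RatFunc.X = RatFunc.C b * RatFunc.X) (κ : RatFunc C →+* Q)
    (α : Q →+* FractionRing (T C)) (aC : ∀ x, α (κ (RatFunc.C x)) = iT (T.cst x))
    (aX : α (κ RatFunc.X) = iT (T.mono e c)) (f : RatFunc k) :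
    (iT.comp J) (algebraMap (RatFunc k) L f) = α (κ (θ f)) := by
  have h : (iT.comp J).comp (algebraMap (RatFunc k) L) = α.comp (κ.comp θ) := by
    apply ratFunc_hom_ext
    · intro x
      simp only [RingHom.comp_apply]
      rw [hC, tC, aC]
    · simp only [RingHom.comp_apply]
      rw [hX, tX, map_mul, map_mul, aC, aX, ← map_mul, T.cst_apply, T.mono_mul_mono, zero_add, hab]
  exact DFunLike.congr_fun h f

theorem map_S2a {G L R R' : Type} [Fintype G] [CommRing L] [CommRing R] [CommRing R']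
    {L' : Type} [CommRing L'] (P : Matrix G G L) (P' : Matrix G G L') (J : L →+* R)
    (J' : L' →+* R) (p : R →+* R) (i : R →+* R') (A : Matrix G G R)
    (h : P.map J = P'.map J' * A.map p) :
    P.map (i.comp J) = P'.map (i.comp J') * A.map (i.comp p) := by
  have h1 := congrArg (fun M : Matrix G G R => M.map i) h
  simp only [Matrix.map_mul, Matrix.map_map] at h1
  exact h1

theorem smooth_core {k C G : Type} [Field k] [NormedField C] [CompleteSpace C]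
    [IsUltrametricDist C] [IsAlgClosed C] [Group G] [Finite G] (φ : k →+* C)
    (hφ : ∀ x, ‖φ x‖ ≤ 1) (tA tB : C) (hA0 : tA ≠ 0) (hA : ‖tA‖ < 1) (hB0 : tB ≠ 0)
    (hB : ‖tB‖ < 1) (cA cM cB : Cover k G) (hG : cA.ι.range ⊔ cM.ι.range ⊔ cB.ι.range = ⊤)
    (h1 : Glue cA cM) (h2 : Glue cM cB) (θA θM θB : RatFunc k →+* RatFunc C)
    (hAC : ∀ x, θA (RatFunc.C x) = RatFunc.C (φ x)) (hAX : θA RatFunc.X = RatFunc.C tA⁻¹ * RatFunc.X)
    (hMC : ∀ x, θM (RatFunc.C x) = RatFunc.C (φ x)) (hMX : θM RatFunc.X = RatFunc.X)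
    (hBC : ∀ x, θB (RatFunc.C x) = RatFunc.C (φ x)) (hBX : θB RatFunc.X = RatFunc.C tB * RatFunc.X) :
    ∃ (c1 c2 : C) (e1 e2 : ℕ) (he1 : 0 < e1) (he2 : 0 < e2) (an : AnPkg c1 c2 e1 e2 he1 he2)
      (c : Cover C G), c1 ^ 2 = tA ∧ c2 ^ 2 * tB = 1 ∧ c.ι.range = ⊤ ∧
      Transfer cA c θA an.κA ∧ Transfer cM c θM an.κM ∧ Transfer cB c θB an.κB := by
  classical
  have := Fintype.ofFinite G
  obtain ⟨PA, bA⟩ := cA.exists_indBasis
  obtain ⟨PM, bM⟩ := cM.exists_indBasis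
  obtain ⟨PB, bB⟩ := cB.exists_indBasis
  obtain ⟨e1, he1, γ, g0, g1, jA, jM, g2, a1, a2, m1, m2, ⟨A1, uA1, eA1⟩, -⟩ :=
    node_S2a φ hφ tA hA0 hA cA cM h1 PA PM bA bM
  obtain ⟨e2, he2, δ, d0, d1, jN, jB, d2, n1, n2, b1, b2, -, ⟨A2, uA2, eA2⟩⟩ :=
    node_S2a φ hφ tB hB0 hB cM cB h2 PM PB bM bB
  have ge : γ ^ e1 ≠ 0 := pow_ne_zero _ g0
  have de : δ ^ e2 ≠ 0 := pow_ne_zero _ d0
  have hc2 : 1 ≤ ‖(δ ^ e2)⁻¹‖ := by
    rw [norm_inv, norm_pow]
    exact (one_le_inv₀ (pow_pos (norm_pos_iff.2 d0) _)).2 (pow_le_one₀ (norm_nonneg _) d1.le)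
  have hc1 : ‖γ ^ e1‖ ≤ 1 := by
    rw [norm_pow]
    exact pow_le_one₀ (norm_nonneg _) g1.le
  obtain ⟨an⟩ := nonempty_anPkg (γ ^ e1) (δ ^ e2)⁻¹ ge (hc1.trans hc2) e1 e2 he1 he2
  obtain ⟨UA, UM, UB, vA, vM, vB, f1, f2⟩ := an.factor G A1 A2 uA1 uA2
  have hMX' : θM RatFunc.X = RatFunc.C (1 : C) * RatFunc.X := by rw [hMX, map_one, one_mul]
  have fl : ∀ x : C, T.flip (T.cst x) = T.cst x := fun x => by
    rw [T.cst_apply, T.flip_mono, neg_zero]
  have k1 : an.α.comp an.κA = an.μ1.comp an.κM :=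
    ratFunc_hom_ext _ _ (fun x => (an.α_C x).trans (an.μ1_C x).symm) (an.α_X.trans an.μ1_X.symm)
  have k2 : an.μ2.comp an.κM = an.β.comp an.κB :=
    ratFunc_hom_ext _ _ (fun x => (an.μ2_C x).trans (an.β_C x).symm) (an.μ2_X.trans an.β_X.symm)
  obtain ⟨c, r1, r2, r3, r4⟩ := patch3 cA cM cB hG θA θM θB an.κA an.κM an.κB an.α an.μ1 an.μ2 an.β
    an.α_inj an.μ1_inj an.μ2_inj an.β_inj (fun r => DFunLike.congr_fun k1 r)
    (fun r => DFunLike.congr_fun k2 r) an.inter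
    (iT.comp (T.flip.comp ((T.emb φ hφ γ g0 g1).comp jA)))
    (iT.comp ((T.emb φ hφ γ g0 g1).comp jM))
    (iT.comp (T.flip.comp ((T.emb φ hφ δ d0 d1).comp jN)))
    (iT.comp ((T.emb φ hφ δ d0 d1).comp jB))
    (agree_S2a φ _ e1 (γ ^ e1)⁻¹ tA⁻¹ (γ ^ e1) (by rw [← g2]; field_simp)
      (fun x => by simp only [RingHom.comp_apply]; rw [a1, T.emb_C, fl])
      (by
        simp only [RingHom.comp_apply]
        rw [a2, T.emb_single, T.flip_mono, neg_neg, map_one, mul_one, zpow_neg, zpow_natCast])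
      θA hAC hAX an.κA an.α an.α_C an.α_X)
    (agree_S2a φ _ e1 (γ ^ e1) 1 (γ ^ e1) (one_mul _)
      (fun x => by simp only [RingHom.comp_apply]; rw [m1, T.emb_C])
      (by
        simp only [RingHom.comp_apply]
        rw [m2, T.emb_single, map_one, mul_one, zpow_natCast])
      θM hMC hMX' an.κM an.μ1 an.μ1_C an.μ1_X)
    (agree_S2a φ _ e2 (δ ^ e2)⁻¹ 1 (δ ^ e2)⁻¹ (one_mul _)
      (fun x => by simp only [RingHom.comp_apply]; rw [n1, T.emb_C, fl])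
      (by
        simp only [RingHom.comp_apply]
        rw [n2, T.emb_single, T.flip_mono, neg_neg, map_one, mul_one, zpow_neg, zpow_natCast])
      θM hMC hMX' an.κM an.μ2 an.μ2_C an.μ2_X)
    (agree_S2a φ _ e2 (δ ^ e2) tB (δ ^ e2)⁻¹ (by rw [← d2]; field_simp)
      (fun x => by simp only [RingHom.comp_apply]; rw [b1, T.emb_C])
      (by
        simp only [RingHom.comp_apply]
        rw [b2, T.emb_single, map_one, mul_one, zpow_natCast])
      θB hBC hBX an.κB an.β an.β_C an.β_X)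
    (fun l q hl => by
      obtain ⟨d, hd, r, hr, h⟩ := an.fracA q
      rw [← hl, RingHom.comp_apply, ← map_mul] at h
      obtain ⟨f, hf⟩ := rat_A φ hφ γ g0 g1 e1 he1 _ ge (jA.comp (algebraMap (RatFunc k) cA.L)) a1
        a2 (jA l) d hd r hr (iT_inj_An h)
      exact ⟨f, jA.injective hf⟩)
    (fun l q hl => by
      obtain ⟨d, hd, r, hr, h⟩ := an.fracM q
      rw [← hl, RingHom.comp_apply, ← map_mul] at h
      obtain ⟨f, hf⟩ := rat_M φ hφ γ g0 g1 e1 he1 _ hc2 (jM.comp (algebraMap (RatFunc k) cM.L)) m1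
        m2 (jM l) d hd r hr (iT_inj_An h)
      exact ⟨f, jM.injective hf⟩)
    (fun l q hl => by
      obtain ⟨d, hd, r, hr, h⟩ := an.fracB q
      rw [← hl, RingHom.comp_apply, ← map_mul] at h
      obtain ⟨f, hf⟩ := rat_B φ hφ δ d0 d1 e2 he2 _ (inv_ne_zero (inv_ne_zero de))
        (jB.comp (algebraMap (RatFunc k) cB.L)) b1 b2 (jB l) d hd r hr (iT_inj_An h)
      exact ⟨f, jB.injective hf⟩)
    PA PM PB bA bM bB UA UM UB vA vM vB
    (by rw [map_S2a _ _ _ _ _ iT _ eA1, Matrix.mul_assoc, f1])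
    (by rw [map_S2a _ _ _ _ _ iT _ eA2, Matrix.mul_assoc, f2])
  exact ⟨γ ^ e1, (δ ^ e2)⁻¹, e1, e2, he1, he2, an, c, g2, by rw [← d2]; field_simp, r1, r2, r3, r4⟩

end Pool.Agent.Adm
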