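import Pool.Agent.Adm.LB

/-! The Banach ring T of Laurent series converging on the unit circle of a complete
nonarchimedean field. -/

namespace Pool.Agent.Adm

open Filter Topology

noncomputable section

/-- Two-sided sequences tending to zero. -/
def T (C : Type) [NormedField C] : Type := ZeroAtInftyContinuousMap ℤ C

namespace T

variable {C : Type} [NormedField C]

instance : NormedAddCommGroup (T C) :=
  inferInstanceAs (NormedAddCommGroup (ZeroAtInftyContinuousMap ℤ C))

instance [CompleteSpace C] : CompleteSpace (T C) :=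
  inferInstanceAs (CompleteSpace (ZeroAtInftyContinuousMap ℤ C))

/-- The n-th coefficient. -/
def coeff (f : T C) (n : ℤ) : C := (show ZeroAtInftyContinuousMap ℤ C from f) n

/-- Constructor from a sequence tending to zero. -/
def mk (f : ℤ → C) (hf : Tendsto f cofinite (𝓝 0)) : T C :=
  (⟨⟨f, continuous_of_discreteTopology⟩, by rwa [cocompact_eq_cofinite]⟩ :
    ZeroAtInftyContinuousMap ℤ C)

@[simp] theorem coeff_mk (f : ℤ → C) (hf : Tendsto f cofinite (𝓝 0)) (n : ℤ) :
    (mk f hf).coeff n = f n := rfl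

@[ext] theorem ext {f g : T C} (h : ∀ n, f.coeff n = g.coeff n) : f = g :=
  ZeroAtInftyContinuousMap.ext h

theorem tendsto_coeff (f : T C) : Tendsto f.coeff cofinite (𝓝 0) := by
  have := (show ZeroAtInftyContinuousMap ℤ C from f).zero_at_infty'
  rwa [cocompact_eq_cofinite] at this

@[simp] theorem coeff_zero (n : ℤ) : (0 : T C).coeff n = 0 := rfl
@[simp] theorem coeff_add (f g : T C) (n : ℤ) : (f + g).coeff n = f.coeff n + g.coeff n := rfl
@[simp] theorem coeff_neg (f : T C) (n : ℤ) : (-f).coeff n = -f.coeff n := rfl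
@[simp] theorem coeff_sub (f g : T C) (n : ℤ) : (f - g).coeff n = f.coeff n - g.coeff n := rfl

theorem coeff_sum {ι : Type*} (s : Finset ι) (f : ι → T C) (n : ℤ) :
    (∑ i ∈ s, f i).coeff n = ∑ i ∈ s, (f i).coeff n := by
  classical
  induction s using Finset.induction_on with
  | empty => simp
  | insert a s ha ih => rw [Finset.sum_insert ha, Finset.sum_insert ha, coeff_add, ih]

theorem norm_coeff_le (f : T C) (n : ℤ) : ‖f.coeff n‖ ≤ ‖f‖ :=
  BoundedContinuousFunction.norm_coe_le_norm
    (show ZeroAtInftyContinuousMap ℤ C from f).toBCF n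

theorem norm_le (f : T C) {r : ℝ} (hr : 0 ≤ r) (h : ∀ n, ‖f.coeff n‖ ≤ r) : ‖f‖ ≤ r :=
  (BoundedContinuousFunction.norm_le (f := (show ZeroAtInftyContinuousMap ℤ C from f).toBCF)
    hr).2 h

theorem continuous_coeff (n : ℤ) : Continuous fun f : T C => f.coeff n := by
  refine (LipschitzWith.of_dist_le_mul (K := 1) fun f g => ?_).continuous
  rw [dist_eq_norm, dist_eq_norm, ← coeff_sub]
  simpa using norm_coeff_le (f - g) n

/-- The monomial c V^n. -/
def mono (n : ℤ) (c : C) : T C :=
  mk (fun i => if i = n then c else 0) (by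
    refine tendsto_const_nhds.congr' ?_
    filter_upwards [(Set.finite_singleton n).compl_mem_cofinite] with i hi
    rw [if_neg (by simpa using hi)])

theorem coeff_mono (n : ℤ) (c : C) (i : ℤ) : (mono n c).coeff i = if i = n then c else 0 := rfl

variable [CompleteSpace C] [IsUltrametricDist C]

omit [CompleteSpace C] [IsUltrametricDist C] in
theorem tendsto_two_T1 (f g : T C) :
    Tendsto (fun p : ℤ × ℤ => f.coeff p.2 * g.coeff (p.1 - p.2)) cofinite (𝓝 0) := by
  have h1 : Function.Injective fun p : ℤ × ℤ => (p.2, p.1 - p.2) := by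
    rintro ⟨a, b⟩ ⟨c, d⟩ h
    simp only [Prod.mk.injEq] at h ⊢
    omega
  exact (tendsto_mul_cofinite_nhds_zero f.tendsto_coeff g.tendsto_coeff).comp h1.tendsto_cofinite

theorem summable_two_T1 (f g : T C) :
    Summable fun p : ℤ × ℤ => f.coeff p.2 * g.coeff (p.1 - p.2) :=
  NonarchimedeanAddGroup.summable_of_tendsto_cofinite_zero (tendsto_two_T1 f g)

omit [CompleteSpace C] [IsUltrametricDist C] in
theorem exists_max_T1 {a : ℤ → C} (ha : Tendsto a cofinite (𝓝 0)) :
    ∃ i, ∀ j, ‖a j‖ ≤ ‖a i‖ := by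
  by_cases h : ∀ j, a j = 0
  · exact ⟨0, fun j => by rw [h j, h 0]⟩
  · obtain ⟨i0, h0⟩ := not_forall.mp h
    have h1 : {j | ¬ ‖a j‖ < ‖a i0‖}.Finite :=
      eventually_cofinite.mp (ha.norm.eventually_lt_const (by simpa using h0))
    obtain ⟨i, hi, hm⟩ := Set.exists_max_image _ (fun j => ‖a j‖) h1 ⟨i0, lt_irrefl _⟩
    refine ⟨i, fun j => ?_⟩
    by_cases hj : ‖a j‖ < ‖a i0‖
    · exact hj.le.trans (not_lt.mp hi)
    · exact hm j hj

omit [CompleteSpace C] [IsUltrametricDist C] in
theorem exists_top_T1 {f : T C} (hf : f ≠ 0) : ∃ i, 0 < ‖f.coeff i‖ ∧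
    (∀ j, ‖f.coeff j‖ ≤ ‖f.coeff i‖) ∧ ∀ j, i < j → ‖f.coeff j‖ < ‖f.coeff i‖ := by
  obtain ⟨i0, h0⟩ := exists_max_T1 f.tendsto_coeff
  have hp : 0 < ‖f.coeff i0‖ := by
    by_contra hc
    refine hf (ext fun n => ?_)
    exact norm_le_zero_iff.mp ((h0 n).trans (not_lt.mp hc))
  have h1 : {j | ¬ ‖f.coeff j‖ < ‖f.coeff i0‖}.Finite :=
    eventually_cofinite.mp (f.tendsto_coeff.norm.eventually_lt_const (by simpa using hp))
  obtain ⟨i, hi, hm⟩ := Set.exists_max_image _ (fun j => j) h1 ⟨i0, lt_irrefl _⟩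
  have hi' : ‖f.coeff i0‖ ≤ ‖f.coeff i‖ := not_lt.mp hi
  refine ⟨i, hp.trans_le hi', fun j => (h0 j).trans hi', fun j hj => lt_of_lt_of_le ?_ hi'⟩
  by_contra hc
  exact absurd (hm j hc) (not_le.mpr hj)

theorem summable_conv (f g : T C) (n : ℤ) : Summable fun i => f.coeff i * g.coeff (n - i) := by
  exact (summable_two_T1 f g).prod_factor n

theorem tendsto_conv (f g : T C) :
    Tendsto (fun n => ∑' i, f.coeff i * g.coeff (n - i)) cofinite (𝓝 0) := by
  exact (summable_two_T1 f g).prod.tendsto_cofinite_zero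

instance : Mul (T C) := ⟨fun f g => mk (fun n => ∑' i, f.coeff i * g.coeff (n - i))
  (tendsto_conv f g)⟩

instance : One (T C) := ⟨mono 0 1⟩

theorem coeff_mul (f g : T C) (n : ℤ) : (f * g).coeff n = ∑' i, f.coeff i * g.coeff (n - i) := rfl

theorem coeff_one (n : ℤ) : (1 : T C).coeff n = if n = 0 then 1 else 0 := rfl

theorem mul_assoc' (f g h : T C) : f * g * h = f * (g * h) := by
  ext n
  have hs : Summable (Function.uncurry fun j i : ℤ =>
      f.coeff i * g.coeff (j - i) * h.coeff (n - j)) := by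
    refine NonarchimedeanAddGroup.summable_of_tendsto_cofinite_zero ?_
    refine squeeze_zero_norm (a := fun p : ℤ × ℤ => ‖f.coeff p.2 * g.coeff (p.1 - p.2)‖ * ‖h‖)
      (fun p => ?_) ?_
    · change ‖f.coeff p.2 * g.coeff (p.1 - p.2) * h.coeff (n - p.1)‖ ≤ _
      rw [norm_mul]
      exact mul_le_mul_of_nonneg_left (h.norm_coeff_le _) (norm_nonneg _)
    · simpa using (tendsto_two_T1 f g).norm.mul_const ‖h‖
  rw [coeff_mul, coeff_mul]
  simp only [coeff_mul, ← tsum_mul_right, ← tsum_mul_left]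
  rw [← hs.tsum_comm]
  refine tsum_congr fun i => ?_
  rw [← (Equiv.addRight i).tsum_eq]
  refine tsum_congr fun k => ?_
  change f.coeff i * g.coeff (k + i - i) * h.coeff (n - (k + i)) = _
  rw [add_sub_cancel_right, mul_assoc, add_comm k i, sub_add_eq_sub_sub]
theorem mul_comm' (f g : T C) : f * g = g * f := by
  ext n
  rw [coeff_mul, coeff_mul, ← (Equiv.subLeft n).tsum_eq]
  refine tsum_congr fun i => ?_
  rw [Equiv.subLeft_apply, sub_sub_cancel, mul_comm]
theorem one_mul' (f : T C) : 1 * f = f := by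
  ext n
  rw [coeff_mul, tsum_eq_single 0 fun i hi => by rw [coeff_one, if_neg hi, zero_mul], coeff_one,
    if_pos rfl, one_mul, sub_zero]
theorem mul_add' (f g h : T C) : f * (g + h) = f * g + f * h := by
  ext n
  rw [coeff_add, coeff_mul, coeff_mul, coeff_mul,
    ← (summable_conv f g n).tsum_add (summable_conv f h n)]
  exact tsum_congr fun i => by rw [coeff_add, mul_add]
theorem mul_zero' (f : T C) : f * 0 = 0 := by
  ext n
  simp [coeff_mul]
theorem norm_mul_le' (f g : T C) : ‖f * g‖ ≤ ‖f‖ * ‖g‖ := by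
  refine norm_le _ (mul_nonneg (norm_nonneg _) (norm_nonneg _)) fun n => ?_
  rw [coeff_mul]
  refine IsUltrametricDist.norm_tsum_le_of_forall_le fun i => ?_
  rw [norm_mul]
  exact mul_le_mul (f.norm_coeff_le _) (g.norm_coeff_le _) (norm_nonneg _) (norm_nonneg _)

instance : NormedCommRing (T C) :=
  { (inferInstance : NormedAddCommGroup (T C)) with
    mul := (· * ·)
    one := 1
    mul_assoc := mul_assoc'
    mul_comm := mul_comm'
    one_mul := one_mul'
    mul_one := fun f => by rw [mul_comm', one_mul']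
    left_distrib := mul_add'
    right_distrib := fun f g h => by rw [mul_comm', mul_add', mul_comm' h, mul_comm' h]
    mul_zero := mul_zero'
    zero_mul := fun f => by rw [mul_comm', mul_zero']
    norm_mul_le := norm_mul_le' }

theorem coeff_mono_mul (m : ℤ) (a : C) (f : T C) (n : ℤ) :
    (mono m a * f).coeff n = a * f.coeff (n - m) := by
  rw [coeff_mul, tsum_eq_single m fun i hi => by rw [coeff_mono, if_neg hi, zero_mul], coeff_mono,
    if_pos rfl]

theorem mono_mul_mono (m n : ℤ) (a b : C) : mono m a * mono n b = mono (m + n) (a * b) := by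
  ext i
  rw [coeff_mono_mul, coeff_mono, coeff_mono]
  by_cases h : i = m + n
  · rw [if_pos h, if_pos (by omega)]
  · rw [if_neg h, if_neg (by omega), mul_zero]

theorem mono_pow (m : ℤ) (a : C) (i : ℕ) : mono m a ^ i = mono (i * m) (a ^ i) := by
  induction i with
  | zero =>
    rw [pow_zero, pow_zero, Nat.cast_zero, zero_mul]
    rfl
  | succ i ih => rw [pow_succ, ih, mono_mul_mono, pow_succ, Nat.cast_succ, add_mul, one_mul]

/-- Constants. -/
def cst : C →+* T C where
  toFun c := mono 0 c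
  map_one' := rfl
  map_zero' := by ext n; simp [coeff_mono]
  map_add' a b := by ext n; by_cases h : n = 0 <;> simp [coeff_mono, h]
  map_mul' a b := by rw [mono_mul_mono, add_zero]

theorem cst_apply (c : C) : (cst c : T C) = mono 0 c := rfl

theorem coeff_cst_mul (c : C) (f : T C) (n : ℤ) : (cst c * f).coeff n = c * f.coeff n := by
  rw [cst_apply, coeff_mono_mul, sub_zero]

/-- Coefficients of a polynomial evaluated at a monomial, times a series. -/
theorem coeff_eval₂_mul (P : Polynomial C) (m : ℤ) (a : C) (f : T C) (n : ℤ) :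
    (P.eval₂ cst (mono m a) * f).coeff n =
      ∑ i ∈ P.support, P.coeff i * a ^ i * f.coeff (n - i * m) := by
  rw [Polynomial.eval₂_eq_sum, Polynomial.sum, Finset.sum_mul, coeff_sum]
  refine Finset.sum_congr rfl fun i _ => ?_
  rw [mul_assoc, coeff_cst_mul, mono_pow, coeff_mono_mul, mul_assoc]

instance : Nontrivial (T C) := ⟨⟨0, 1, fun h => by
  have := congrArg (fun f : T C => f.coeff 0) h
  simp [coeff_one] at this⟩⟩

theorem eq_zero_or_eq_zero (f g : T C) (h : f * g = 0) : f = 0 ∨ g = 0 := by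
  by_contra hc
  obtain ⟨i, hi0, hi1, hi2⟩ := exists_top_T1 (not_or.mp hc).1
  obtain ⟨k, hk0, hk1, hk2⟩ := exists_top_T1 (not_or.mp hc).2
  have h1 : (f * g).coeff (i + k) = 0 := by rw [h, coeff_zero]
  have hs := summable_conv f g (i + k)
  rw [coeff_mul, hs.tsum_eq_add_tsum_ite i, add_sub_cancel_left] at h1
  have ht : Tendsto (fun j => if j = i then 0 else f.coeff j * g.coeff (i + k - j)) cofinite
      (𝓝 0) := by
    refine hs.tendsto_cofinite_zero.congr' ?_
    filter_upwards [(Set.finite_singleton i).compl_mem_cofinite] with j hj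
    rw [if_neg (by simpa using hj)]
  obtain ⟨j, hj⟩ := exists_max_T1 ht
  have h2 := IsUltrametricDist.norm_tsum_le_of_forall_le hj
  rw [← neg_eq_of_add_eq_zero_right h1, norm_neg, norm_mul] at h2
  refine absurd h2 (not_le.mpr ?_)
  rcases lt_trichotomy j i with hji | hji | hji
  · rw [if_neg hji.ne, norm_mul]
    exact mul_lt_mul' (hi1 j) (hk2 _ (by omega)) (norm_nonneg _) hi0
  · rw [if_pos hji, norm_zero]
    exact mul_pos hi0 hk0
  · rw [if_neg hji.ne', norm_mul]
    exact lt_of_le_of_lt (mul_le_mul_of_nonneg_left (hk1 _) (norm_nonneg _))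
      (mul_lt_mul_of_pos_right (hi2 j hji) hk0)

instance : NoZeroDivisors (T C) := ⟨fun {f g} h => eq_zero_or_eq_zero f g h⟩

instance : IsDomain (T C) := NoZeroDivisors.to_isDomain _

/-- A nonzero polynomial evaluated at a nonconstant monomial is nonzero. -/
theorem eval₂_ne_zero (P : Polynomial C) (hP : P ≠ 0) (m : ℤ) (hm : m ≠ 0) (a : C) (ha : a ≠ 0) :
    P.eval₂ cst (mono m a) ≠ (0 : T C) := by
  intro h
  have h1 := coeff_eval₂_mul P m a 1 (P.natDegree * m)
  rw [h, zero_mul, coeff_zero, Finset.sum_eq_single P.natDegree] at h1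
  · rw [sub_self, coeff_one, if_pos rfl, mul_one] at h1
    exact mul_ne_zero (Polynomial.leadingCoeff_ne_zero.mpr hP) (pow_ne_zero _ ha) h1.symm
  · intro i _ hi
    rw [coeff_one, if_neg, mul_zero]
    intro h2
    have h3 := mul_right_cancel₀ hm (sub_eq_zero.mp h2)
    exact hi (by exact_mod_cast h3.symm)
  · intro h2
    exact absurd (Polynomial.natDegree_mem_support_of_nonzero hP) h2

end T

end

end Pool.Agent.Adm
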