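import Pool.Agent.Adm.T1

/-! Subrings of T and coefficientwise ring homomorphisms. -/

namespace Pool.Agent.Adm

open Filter Topology

noncomputable section

namespace T

variable {C : Type} [NormedField C] [CompleteSpace C] [IsUltrametricDist C]

omit [CompleteSpace C] [IsUltrametricDist C] in
theorem tendsto_le_T2 {a : ℤ → C} (f : T C) (h : ∀ n, ‖a n‖ ≤ ‖f.coeff n‖) :
    Tendsto a cofinite (𝓝 0) :=
  squeeze_zero_norm h (tendsto_zero_iff_norm_tendsto_zero.1 (tendsto_coeff f))

omit [CompleteSpace C] [IsUltrametricDist C] in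
theorem conv_T2 {l : C} (hl : l ≠ 0) (a b : ℤ → C) (n : ℤ) :
    l ^ n * ∑' i, a i * b (n - i) = ∑' i, (l ^ i * a i) * (l ^ (n - i) * b (n - i)) := by
  rw [← tsum_mul_left]
  refine tsum_congr fun i => ?_
  have : l ^ n = l ^ i * l ^ (n - i) := by rw [← zpow_add₀ hl, add_sub_cancel]
  rw [this]
  ring

omit [CompleteSpace C] [IsUltrametricDist C] in
theorem ne_zero_T2 {ζ : C} (h : ‖ζ‖ = 1) : ζ ≠ 0 := by
  rintro rfl
  simp at h

omit [CompleteSpace C] [IsUltrametricDist C] in
theorem pwc_T2 {e : ℕ} (he : 0 < e) (a : ℤ → C) (n : ℤ) :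
    (if (e : ℤ) ∣ e * n then a (e * n / e) else 0) = a n := by
  rw [if_pos (dvd_mul_right _ _), Int.mul_ediv_cancel_left _ (by omega)]

theorem tendsto_sc (ζ : C) (h : ‖ζ‖ = 1) (f : T C) :
    Tendsto (fun n : ℤ => ζ ^ n * f.coeff n) cofinite (𝓝 0) :=
  tendsto_le_T2 f fun n => by rw [norm_mul, norm_zpow, h, one_zpow, one_mul]

/-- The substitution V ↦ ζ V for ζ of norm one. -/
def sc (ζ : C) (h : ‖ζ‖ = 1) : T C →+* T C where
  toFun f := mk (fun n => ζ ^ n * f.coeff n) (tendsto_sc ζ h f)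
  map_one' := by
    ext n
    rw [coeff_mk, coeff_one]
    split_ifs with hn <;> simp [hn]
  map_zero' := by
    ext n
    simp
  map_add' f g := by
    ext n
    simp [mul_add]
  map_mul' f g := by
    ext n
    rw [coeff_mk, coeff_mul, coeff_mul, conv_T2 (ne_zero_T2 h)]
    rfl

@[simp] theorem coeff_sc (ζ : C) (h : ‖ζ‖ = 1) (f : T C) (n : ℤ) :
    (sc ζ h f).coeff n = ζ ^ n * f.coeff n := rfl

theorem tendsto_pw (e : ℕ) (he : 0 < e) (f : T C) :
    Tendsto (fun n : ℤ => if (e : ℤ) ∣ n then f.coeff (n / e) else 0) cofinite (𝓝 0) := by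
  have h1 : Tendsto (fun n : ℤ => n / (e : ℤ)) cofinite cofinite := by
    refine Tendsto.cofinite_of_finite_preimage_singleton fun b => ?_
    refine (Set.finite_Icc (e * b) (e * b + e)).subset fun n hn => ?_
    have h2 : n / (e : ℤ) = b := hn
    have h3 := Int.mul_ediv_add_emod n e
    have h4 := Int.emod_nonneg n (show (e : ℤ) ≠ 0 by omega)
    have h5 := Int.emod_lt_of_pos n (show (0 : ℤ) < e by omega)
    rw [h2] at h3
    constructor <;> linarith
  refine squeeze_zero_norm (fun n => ?_)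
    (tendsto_zero_iff_norm_tendsto_zero.1 ((tendsto_coeff f).comp h1))
  split_ifs <;> simp

/-- The substitution V ↦ V^e. -/
def pw (e : ℕ) (he : 0 < e) : T C →+* T C where
  toFun f := mk (fun n => if (e : ℤ) ∣ n then f.coeff (n / e) else 0) (tendsto_pw e he f)
  map_one' := by
    ext n
    rw [coeff_mk, coeff_one n]
    by_cases h : (e : ℤ) ∣ n
    · obtain ⟨m, rfl⟩ := h
      rw [pwc_T2 he, coeff_one]
      simp [he.ne']
    · rw [if_neg h, if_neg (by rintro rfl; exact h (dvd_zero _))]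
  map_zero' := by
    ext n
    simp
  map_add' f g := by
    ext n
    simp only [coeff_mk, coeff_add]
    split_ifs <;> simp
  map_mul' f g := by
    ext n
    rw [coeff_mk, coeff_mul _ _ n]
    simp only [coeff_mk]
    by_cases h : (e : ℤ) ∣ n
    · obtain ⟨m, rfl⟩ := h
      have hi : Function.Injective fun i : ℤ => (e : ℤ) * i :=
        mul_right_injective₀ (by omega)
      rw [pwc_T2 he, coeff_mul]
      refine Eq.trans (tsum_congr fun i => ?_) (hi.tsum_eq fun i hi' => ?_)
      · rw [← mul_sub, pwc_T2 he, pwc_T2 he]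
      · by_contra hn
        have : ¬ (e : ℤ) ∣ i := fun ⟨c, hc⟩ => hn ⟨c, hc.symm⟩
        exact hi' (by simp only [if_neg this, zero_mul])
    · rw [if_neg h]
      refine ((tsum_congr fun i => ?_).trans tsum_zero).symm
      by_cases h1 : (e : ℤ) ∣ i
      · rw [if_neg (c := (e : ℤ) ∣ n - i) (fun h2 => h (by simpa using dvd_add h2 h1)), mul_zero]
      · rw [if_neg h1, zero_mul]

theorem coeff_pw (e : ℕ) (he : 0 < e) (f : T C) (n : ℤ) :
    (pw e he f).coeff n = if (e : ℤ) ∣ n then f.coeff (n / e) else 0 := rfl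

theorem coeff_pw_mul (e : ℕ) (he : 0 < e) (f : T C) (n : ℤ) :
    (pw e he f).coeff (e * n) = f.coeff n := pwc_T2 he f.coeff n

theorem pw_injective (e : ℕ) (he : 0 < e) : Function.Injective (pw e he : T C → T C) := by
  intro f g h
  ext n
  rw [← coeff_pw_mul e he f, h, coeff_pw_mul]

theorem pw_mono (e : ℕ) (he : 0 < e) (n : ℤ) (c : C) : pw e he (mono n c) = mono (e * n) c := by
  ext i
  by_cases h : (e : ℤ) ∣ i
  · obtain ⟨m, rfl⟩ := h
    rw [coeff_pw_mul, coeff_mono, coeff_mono]
    simp [he.ne']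
  · rw [coeff_pw, if_neg h, coeff_mono, if_neg (by rintro rfl; exact h (dvd_mul_right _ _))]

theorem sc_pw (e : ℕ) (he : 0 < e) (ζ : C) (h : ‖ζ‖ = 1) (hζ : ζ ^ e = 1) (f : T C) :
    sc ζ h (pw e he f) = pw e he f := by
  ext i
  rw [coeff_sc]
  by_cases h : (e : ℤ) ∣ i
  · obtain ⟨m, rfl⟩ := h
    rw [zpow_mul, zpow_natCast, hζ, one_zpow, one_mul]
  · rw [coeff_pw, if_neg h, mul_zero]

theorem exists_pw_of_sc (e : ℕ) (he : 0 < e) (ζ : C) (h : ‖ζ‖ = 1) (hζ : IsPrimitiveRoot ζ e)
    (f : T C) (hf : sc ζ h f = f) : ∃ g, pw e he g = f := by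
  have hi : Function.Injective fun i : ℤ => (e : ℤ) * i := mul_right_injective₀ (by omega)
  refine ⟨mk (fun n => f.coeff (e * n)) ((tendsto_coeff f).comp hi.tendsto_cofinite), ?_⟩
  ext i
  by_cases h1 : (e : ℤ) ∣ i
  · obtain ⟨m, rfl⟩ := h1
    rw [coeff_pw_mul, coeff_mk]
  · rw [coeff_pw, if_neg h1]
    have h2 : ζ ^ i * f.coeff i = f.coeff i := by rw [← coeff_sc ζ h, hf]
    by_contra h3
    exact h1 ((hζ.zpow_eq_one_iff_dvd i).1 ((mul_eq_right₀ (Ne.symm h3)).1 h2))

theorem tendsto_flip (f : T C) : Tendsto (fun n : ℤ => f.coeff (-n)) cofinite (𝓝 0) :=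
  (tendsto_coeff f).comp neg_injective.tendsto_cofinite

/-- The substitution V ↦ V⁻¹. -/
def flip : T C →+* T C where
  toFun f := mk (fun n => f.coeff (-n)) (tendsto_flip f)
  map_one' := by
    ext n
    rw [coeff_mk, coeff_one, coeff_one]
    simp
  map_zero' := by
    ext n
    simp
  map_add' f g := by
    ext n
    simp
  map_mul' f g := by
    ext n
    rw [coeff_mk, coeff_mul, coeff_mul, ← (Equiv.neg ℤ).tsum_eq]
    refine tsum_congr fun i => ?_
    simp only [coeff_mk, Equiv.neg_apply]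
    congr 2
    ring

@[simp] theorem coeff_flip (f : T C) (n : ℤ) : (flip f).coeff n = f.coeff (-n) := rfl

theorem flip_flip (f : T C) : flip (flip f) = f := by
  ext n
  simp

theorem flip_mono (n : ℤ) (c : C) : flip (mono n c) = mono (-n) c := by
  ext i
  rw [coeff_flip, coeff_mono, coeff_mono]
  simp only [neg_eq_iff_eq_neg]

theorem flip_sc (ζ : C) (h : ‖ζ‖ = 1) (f : T C) :
    flip (sc ζ h f) = sc ζ⁻¹ (by rw [norm_inv, h, inv_one]) (flip f) := by
  ext n
  simp

variable (C) in
/-- Power series in V. -/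
def Tp : Subring (T C) where
  carrier := {f | ∀ n < 0, f.coeff n = 0}
  mul_mem' := by
    intro f g hf hg n hn
    rw [coeff_mul]
    refine (tsum_congr fun i => ?_).trans tsum_zero
    by_cases h : i < 0
    · rw [hf i h, zero_mul]
    · rw [hg (n - i) (by omega), mul_zero]
  one_mem' := fun n hn => by rw [coeff_one, if_neg hn.ne]
  add_mem' := by
    intro f g hf hg n hn
    rw [coeff_add, hf n hn, hg n hn, add_zero]
  zero_mem' := fun n _ => rfl
  neg_mem' := by
    intro f hf n hn
    rw [coeff_neg, hf n hn, neg_zero]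

theorem mem_Tp (f : T C) : f ∈ Tp C ↔ ∀ n < 0, f.coeff n = 0 := Iff.rfl

variable (C) in
/-- Power series in V⁻¹. -/
def Tm : Subring (T C) where
  carrier := {f | ∀ n, 0 < n → f.coeff n = 0}
  mul_mem' := by
    intro f g hf hg n hn
    rw [coeff_mul]
    refine (tsum_congr fun i => ?_).trans tsum_zero
    by_cases h : 0 < i
    · rw [hf i h, zero_mul]
    · rw [hg (n - i) (by omega), mul_zero]
  one_mem' := fun n hn => by rw [coeff_one, if_neg hn.ne']
  add_mem' := by
    intro f g hf hg n hn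
    rw [coeff_add, hf n hn, hg n hn, add_zero]
  zero_mem' := fun n _ => rfl
  neg_mem' := by
    intro f hf n hn
    rw [coeff_neg, hf n hn, neg_zero]

theorem mem_Tm (f : T C) : f ∈ Tm C ↔ ∀ n, 0 < n → f.coeff n = 0 := Iff.rfl

/-- Series converging also on the circle of radius the norm of l. -/
def Tan (l : C) (hl : l ≠ 0) : Subring (T C) where
  carrier := {f | Tendsto (fun n : ℤ => l ^ n * f.coeff n) cofinite (𝓝 0)}
  mul_mem' := by
    intro f g hf hg
    refine (tendsto_coeff (mk _ hf * mk _ hg)).congr fun n => ?_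
    rw [coeff_mul, coeff_mul, conv_T2 hl]
    rfl
  one_mem' := by
    refine (tendsto_coeff (1 : T C)).congr fun n => ?_
    rw [coeff_one]
    split_ifs with hn <;> simp [hn]
  add_mem' := by
    intro f g hf hg
    refine (tendsto_coeff (mk _ hf + mk _ hg)).congr fun n => ?_
    simp [mul_add]
  zero_mem' := by
    refine (tendsto_coeff (0 : T C)).congr fun n => ?_
    simp
  neg_mem' := by
    intro f hf
    refine (tendsto_coeff (-mk _ hf)).congr fun n => ?_
    simp

theorem mem_Tan (l : C) (hl : l ≠ 0) (f : T C) :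
    f ∈ Tan l hl ↔ Tendsto (fun n : ℤ => l ^ n * f.coeff n) cofinite (𝓝 0) := Iff.rfl

theorem mono_mem_Tp (n : ℤ) (hn : 0 ≤ n) (c : C) : mono n c ∈ Tp C :=
  fun i hi => by rw [coeff_mono, if_neg (by omega)]

theorem mono_mem_Tm (n : ℤ) (hn : n ≤ 0) (c : C) : mono n c ∈ Tm C :=
  fun i hi => by rw [coeff_mono, if_neg (by omega)]

theorem mono_mem_Tan (l : C) (hl : l ≠ 0) (n : ℤ) (c : C) : mono n c ∈ Tan l hl := by
  refine (tendsto_coeff (mono n (l ^ n * c))).congr fun i => ?_
  rw [coeff_mono, coeff_mono]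
  split_ifs with h <;> simp [h]

theorem Tm_le_Tan (l : C) (hl : l ≠ 0) (h1 : 1 ≤ ‖l‖) : Tm C ≤ Tan l hl := by
  intro f hf
  refine tendsto_le_T2 f fun n => ?_
  by_cases h : 0 < n
  · rw [hf n h, mul_zero]
  · rw [norm_mul, norm_zpow]
    exact mul_le_of_le_one_left (norm_nonneg _) (zpow_le_one_of_nonpos₀ h1 (by omega))

/-- Restriction to the second circle: V ↦ l V. -/
def res (l : C) (hl : l ≠ 0) : Tan l hl →+* T C where
  toFun f := mk (fun n => l ^ n * (f : T C).coeff n) f.2
  map_one' := by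
    ext n
    rw [coeff_mk, OneMemClass.coe_one, coeff_one]
    split_ifs with hn <;> simp [hn]
  map_zero' := by
    ext n
    simp
  map_add' f g := by
    ext n
    simp [mul_add]
  map_mul' f g := by
    ext n
    rw [coeff_mk, MulMemClass.coe_mul, coeff_mul, coeff_mul, conv_T2 hl]
    rfl

@[simp] theorem coeff_res (l : C) (hl : l ≠ 0) (f : Tan l hl) (n : ℤ) :
    (res l hl f).coeff n = l ^ n * (f : T C).coeff n := rfl

theorem res_injective (l : C) (hl : l ≠ 0) : Function.Injective (res l hl) := by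
  intro f g h
  ext n
  have := congrArg (fun x : T C => x.coeff n) h
  exact mul_left_cancel₀ (zpow_ne_zero n hl) this

theorem res_mono (l : C) (hl : l ≠ 0) (n : ℤ) (c : C) :
    res l hl ⟨mono n c, mono_mem_Tan l hl n c⟩ = mono n (l ^ n * c) := by
  ext i
  rw [coeff_res, coeff_mono, coeff_mono]
  split_ifs with h <;> simp [h]

/-- A power series converging on the big disc restricts to the annulus and to the small disc. -/
theorem exists_up (l : C) (hl : l ≠ 0) (h1 : 1 ≤ ‖l‖) :
    ∃ up : Tp C →+* Tan l hl, (∀ f, res l hl (up f) = (f : T C)) ∧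
      ∀ f, ((up f : Tan l hl) : T C) ∈ Tp C := by
  have key : ∀ f : Tp C, ∃ g : Tan l hl, res l hl g = (f : T C) ∧ (g : T C) ∈ Tp C := by
    intro f
    have e : ∀ n : ℤ, l ^ n * (l ^ (-n) * (f : T C).coeff n) = (f : T C).coeff n := fun n => by
      rw [← mul_assoc, ← zpow_add₀ hl, add_neg_cancel, zpow_zero, one_mul]
    have ht : Tendsto (fun n : ℤ => l ^ (-n) * (f : T C).coeff n) cofinite (𝓝 0) := by
      refine tendsto_le_T2 f fun n => ?_
      by_cases h : n < 0
      · rw [f.2 n h, mul_zero]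
      · rw [norm_mul, norm_zpow]
        exact mul_le_of_le_one_left (norm_nonneg _) (zpow_le_one_of_nonpos₀ h1 (by omega))
    refine ⟨⟨mk _ ht, (tendsto_coeff (f : T C)).congr fun n => (e n).symm⟩, ext e, fun n hn => ?_⟩
    rw [coeff_mk, f.2 n hn, mul_zero]
  choose u hu hu' using key
  refine ⟨{ toFun := u
            map_one' := res_injective l hl (by rw [hu, map_one]; rfl)
            map_mul' := fun f g => res_injective l hl (by rw [map_mul, hu, hu, hu]; rfl)
            map_zero' := res_injective l hl (by rw [hu, map_zero]; rfl)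
            map_add' := fun f g => res_injective l hl (by rw [map_add, hu, hu, hu]; rfl) },
    hu, hu'⟩

theorem isClosed_Tp : IsClosed ((Tp C : Subring (T C)) : Set (T C)) := by
  have : ((Tp C : Subring (T C)) : Set (T C)) = ⋂ n, ⋂ _ : n < 0, {f : T C | f.coeff n = 0} := by
    ext f
    simp [mem_Tp]
  rw [this]
  exact isClosed_iInter fun n => isClosed_iInter fun _ =>
    isClosed_eq (continuous_coeff n) continuous_const

theorem isClosed_Tm : IsClosed ((Tm C : Subring (T C)) : Set (T C)) := by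
  have : ((Tm C : Subring (T C)) : Set (T C)) = ⋂ n, ⋂ _ : 0 < n, {f : T C | f.coeff n = 0} := by
    ext f
    simp [mem_Tm]
  rw [this]
  exact isClosed_iInter fun n => isClosed_iInter fun _ =>
    isClosed_eq (continuous_coeff n) continuous_const

end T

end

end Pool.Agent.Adm
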