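import Pool.Agent.Adm.ADefs

/-! Hilbert 90 for the affine group; powers of rational functions. -/

namespace Pool.Agent.Adm

open Polynomial

/-- Hilbert 90 for the affine group. -/
theorem exists_gens {K L F : Type} [Field K] [Field L] [Algebra K L] [FiniteDimensional K L]
    [IsGalois K L] [Field F] (θ : F →+* K) (ψ : (L ≃ₐ[K] L) →* Aff F) :
    ∃ y w : L, y ≠ 0 ∧ (∀ σ, σ y = algebraMap K L (θ (ψ σ).u) * y) ∧
      ∀ σ, σ w = algebraMap K L (θ (ψ σ).u) * w + algebraMap K L (θ (ψ σ).b) := by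
  classical
  let φ : F →+* L := (algebraMap K L).comp θ
  have hφ : ∀ (σ : L ≃ₐ[K] L) (x : F), σ (φ x) = φ x := fun σ x => σ.commutes _
  obtain ⟨y, hy⟩ := groupCohomology.isMulCoboundary₁_of_isMulCocycle₁_of_aut_to_units
    (K := K) (L := L) (fun σ => Units.map (φ : F →* L) (ψ σ).u) (by
      intro g h
      ext
      simp only [map_mul, Aff.mul_u, AlgEquiv.smul_units_def, Units.val_mul, Units.coe_map,
        MonoidHom.coe_coe, hφ]
      ring)
  obtain ⟨l, hl⟩ := Algebra.trace_surjective K L 1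
  have hl1 : ∑ τ : L ≃ₐ[K] L, τ l = 1 := by
    rw [← trace_eq_sum_automorphisms, hl, map_one]
  let c : (L ≃ₐ[K] L) → F := fun τ => -(((ψ τ).u : F)⁻¹ * (ψ τ).b)
  have hc : ∀ σ τ, c τ = (ψ σ).u * c (σ * τ) + (ψ σ).b := by
    intro σ τ
    have h1 := (ψ σ).u.ne_zero
    have h2 := (ψ τ).u.ne_zero
    simp only [c, map_mul, Aff.mul_u, Aff.mul_b, Units.val_mul]
    field_simp
    ring
  refine ⟨y, ∑ τ : L ≃ₐ[K] L, τ l * φ (c τ), y.ne_zero, fun σ => ?_, fun σ => ?_⟩
  · have h1 := congrArg Units.val (div_eq_iff_eq_mul.1 (hy σ))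
    simpa [AlgEquiv.smul_units_def, φ] using h1
  · change _ = φ (ψ σ).u * _ + φ (ψ σ).b
    have h1 : ∑ τ : L ≃ₐ[K] L, (σ * τ) l * φ (c (σ * τ)) = ∑ τ : L ≃ₐ[K] L, τ l * φ (c τ) :=
      Fintype.sum_bijective _ (Group.mulLeft_bijective σ) _ _ fun _ => rfl
    have h2 : ∑ τ : L ≃ₐ[K] L, (σ * τ) l = 1 := by
      rw [← hl1]
      exact Fintype.sum_bijective _ (Group.mulLeft_bijective σ) _ _ fun _ => rfl
    rw [map_sum, ← h1, ← mul_one (φ (ψ σ).b), ← h2, Finset.mul_sum, Finset.mul_sum,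
      ← Finset.sum_add_distrib]
    refine Finset.sum_congr rfl fun τ _ => ?_
    rw [map_mul, hφ, hc σ τ, map_add, map_mul, AlgEquiv.mul_apply]
    ring

theorem eq_prod_VF0 {k : Type} [Field k] [IsAlgClosed k] [DecidableEq k] (P : k[X])
    (s : Finset k) (hs : P.roots.toFinset ⊆ s) :
    P = C P.leadingCoeff * ∏ a ∈ s, (X - C a) ^ P.rootMultiplicity a := by
  have h1 : ∏ a ∈ s, (X - C a) ^ P.rootMultiplicity a = (P.roots.map (X - C ·)).prod := by
    rw [Finset.prod_multiset_map_count]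
    symm
    refine Finset.prod_subset_one_on_sdiff hs (fun a ha => ?_) fun a _ => by rw [count_roots]
    rw [← count_roots, Multiset.count_eq_zero_of_notMem, pow_zero]
    simpa using (Finset.mem_sdiff.1 ha).2
  rw [h1]
  exact (IsAlgClosed.splits P).eq_prod_roots

/-- A rational function all of whose finite orders are divisible by m is an m-th power. -/
theorem exists_pow_eq_ratFunc {k : Type} [Field k] [IsAlgClosed k] (m : ℕ) (hm : 0 < m)
    (P Q : k[X]) (hP : P ≠ 0) (hQ : Q ≠ 0)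
    (h : ∀ a : k, (P.rootMultiplicity a : ℤ) ≡ Q.rootMultiplicity a [ZMOD m]) :
    ∃ g : RatFunc k, g ≠ 0 ∧
      algebraMap k[X] (RatFunc k) P = g ^ m * algebraMap k[X] (RatFunc k) Q := by
  classical
  choose t ht using fun a => (h a).symm.dvd
  obtain ⟨c, hc⟩ := IsAlgClosed.exists_pow_nat_eq (P.leadingCoeff / Q.leadingCoeff) hm
  have hP' := leadingCoeff_ne_zero.2 hP
  have hQ' := leadingCoeff_ne_zero.2 hQ
  have hc0 : c ≠ 0 := by
    rintro rfl
    rw [zero_pow hm.ne'] at hc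
    exact div_ne_zero hP' hQ' hc.symm
  have hc1 : P.leadingCoeff = c ^ m * Q.leadingCoeff := by
    rw [hc, div_mul_cancel₀ _ hQ']
  let ι := algebraMap k[X] (RatFunc k)
  have hι : Function.Injective ι := IsFractionRing.injective _ _
  have hX : ∀ a : k, ι (X - C a) ≠ 0 := fun a => (map_ne_zero_iff ι hι).2 (X_sub_C_ne_zero a)
  let s := P.roots.toFinset ∪ Q.roots.toFinset
  refine ⟨ι (C c) * ∏ a ∈ s, ι (X - C a) ^ t a,
    mul_ne_zero ((map_ne_zero_iff ι hι).2 (C_ne_zero.2 hc0))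
      (Finset.prod_ne_zero_iff.2 fun a _ => zpow_ne_zero _ (hX a)), ?_⟩
  have e1 := congrArg ι (eq_prod_VF0 P s Finset.subset_union_left)
  have e2 := congrArg ι (eq_prod_VF0 Q s Finset.subset_union_right)
  change ι P = _ * ι Q
  rw [e1, e2, hc1, map_mul, map_mul, map_mul, map_mul, map_prod, map_prod, mul_pow,
    ← Finset.prod_pow, map_pow, map_pow, mul_mul_mul_comm, ← Finset.prod_mul_distrib]
  congr 1
  refine Finset.prod_congr rfl fun a _ => ?_
  rw [map_pow, map_pow, ← zpow_natCast, ← zpow_natCast, ← zpow_natCast, ← zpow_mul,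
    ← zpow_add₀ (hX a)]
  congr 1
  linear_combination ht a

end Pool.Agent.Adm
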