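import Pool.Agent.Adm.LabL
import Pool.Agent.Adm.H1
import Pool.Agent.Adm.VF0

/-! Kummer and Artin-Schreier generators of an affine covering. -/

namespace Pool.Agent.Adm

open scoped OnePoint
open Polynomial

variable {k G F : Type} [Field k] [Group G] [Field F] [Fintype F]

theorem Cover.lab_aux_VF1 (c : Cover k G) (θ : F →+* k) (χ : G →* Fˣ) (y : c.L) (P Q : k[X])
    (hP : P ≠ 0) (hQ : Q ≠ 0)
    (hy : ∀ σ : c.L ≃ₐ[RatFunc k] c.L,
      σ y = algebraMap (RatFunc k) c.L (RatFunc.C (θ (χ (c.ι σ)))) * y)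
    (hm : y ^ (Fintype.card F - 1) * algebraMap (RatFunc k) c.L (algebraMap k[X] (RatFunc k) Q) =
      algebraMap (RatFunc k) c.L (algebraMap k[X] (RatFunc k) P))
    (a : OnePoint k) (e : ℕ) (ζ : k) (g : G) (h : c.Mono a e ζ g) :
    ∃ r : ℤ, ((Fintype.card F - 1 : ℕ) : ℤ) * r +
        (Q.eval₂ HahnSeries.C (expand a e)).order = (P.eval₂ HahnSeries.C (expand a e)).order ∧
      θ (χ g) = ζ ^ r := by
  obtain ⟨he, hζ, j, h1, h2, σ, h3, h4⟩ := h
  have hζ0 : ζ ≠ 0 := hζ.ne_zero he.ne'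
  have hJ : ∀ R : k[X], j (algebraMap (RatFunc k) c.L (algebraMap k[X] (RatFunc k) R)) =
      R.eval₂ HahnSeries.C (expand a e) := fun R =>
    hom_algebraMap (j.comp (algebraMap (RatFunc k) c.L)) HahnSeries.C (expand a e) h1 h2 R
  have hm' := congrArg j hm
  rw [map_mul, map_pow, hJ, hJ] at hm'
  have hP' := eval₂_expand_ne_zero a e he P hP
  have hQ' := eval₂_expand_ne_zero a e he Q hQ
  have hpow : j y ^ (Fintype.card F - 1) ≠ 0 := by
    intro h0
    rw [h0, zero_mul] at hm'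
    exact hP' hm'.symm
  have hcard : Fintype.card F - 1 ≠ 0 := by
    have := Fintype.one_lt_card (α := F)
    omega
  have hy0 : j y ≠ 0 := fun h0 => hpow (by rw [h0, zero_pow hcard])
  refine ⟨(j y).order, ?_, ?_⟩
  · rw [← hm', HahnSeries.order_mul hpow hQ', HahnSeries.order_pow, nsmul_eq_mul]
  · apply eigen_eq_zpow ζ hζ0 (j y) hy0
    have h5 : scL ζ hζ0 (j y) = j (σ y) := by
      ext n
      rw [scL_coeff, h4]
    rw [h5, hy σ, map_mul, h1, h3]

/-- Labels read off from a Kummer generator. -/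
theorem Cover.lab_of_gen (c : Cover k G) (θ : F →+* k) (χ : G →* Fˣ) (y : c.L) (P Q : k[X])
    (hP : P ≠ 0) (hQ : Q ≠ 0)
    (hy : ∀ σ : c.L ≃ₐ[RatFunc k] c.L,
      σ y = algebraMap (RatFunc k) c.L (RatFunc.C (θ (χ (c.ι σ)))) * y)
    (hm : y ^ (Fintype.card F - 1) * algebraMap (RatFunc k) c.L (algebraMap k[X] (RatFunc k) Q) =
      algebraMap (RatFunc k) c.L (algebraMap k[X] (RatFunc k) P)) :
    (∀ (a : k) e ζ g, c.Mono (a : OnePoint k) e ζ g → Lab (Fintype.card F - 1) e ζ (θ (χ g))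
      ((P.rootMultiplicity a : ℤ) - Q.rootMultiplicity a)) ∧
    ∀ e ζ g, c.Mono ∞ e ζ g → Lab (Fintype.card F - 1) e ζ (θ (χ g))
      (-(P.natDegree : ℤ) + Q.natDegree) := by
  refine ⟨fun a e ζ g h => ?_, fun e ζ g h => ?_⟩
  · obtain ⟨r, hr, hc⟩ := c.lab_aux_VF1 θ χ y P Q hP hQ hy hm a e ζ g h
    rw [order_eval₂_expand_coe a e h.1 P hP, order_eval₂_expand_coe a e h.1 Q hQ] at hr
    exact ⟨r, 0, by linear_combination hr, hc⟩
  · obtain ⟨r, hr, hc⟩ := c.lab_aux_VF1 θ χ y P Q hP hQ hy hm ∞ e ζ g h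
    rw [order_eval₂_expand_infty e h.1 P hP, order_eval₂_expand_infty e h.1 Q hQ] at hr
    exact ⟨r, 0, by linear_combination hr, hc⟩

/-- Normalised generators. -/
theorem Cover.exists_norm_gens [IsAlgClosed k] (c : Cover k G) (θ : F →+* k) (ψ : G →* Aff F)
    (f : k[X]) (hf : f ≠ 0)
    (hS : ∀ a : k, ∃ e ζ g, c.Mono (a : OnePoint k) e ζ g ∧
      Lab (Fintype.card F - 1) e ζ (θ (ψ g).u) (f.rootMultiplicity a)) :
    ∃ y w : c.L,
      y ^ (Fintype.card F - 1) = algebraMap (RatFunc k) c.L (algebraMap k[X] (RatFunc k) f) ∧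
      (∀ σ : c.L ≃ₐ[RatFunc k] c.L,
        σ y = algebraMap (RatFunc k) c.L (RatFunc.C (θ (ψ (c.ι σ)).u)) * y) ∧
      ∀ σ : c.L ≃ₐ[RatFunc k] c.L,
        σ w = algebraMap (RatFunc k) c.L (RatFunc.C (θ (ψ (c.ι σ)).u)) * w +
          algebraMap (RatFunc k) c.L (RatFunc.C (θ (ψ (c.ι σ)).b)) := by
  obtain ⟨y0, w, hy0, h1, h2⟩ := exists_gens (K := RatFunc k) (L := c.L)
    ((RatFunc.C : k →+* RatFunc k).comp θ) (ψ.comp c.ι)
  simp only [RingHom.comp_apply, MonoidHom.comp_apply] at h1 h2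
  have hcard : 0 < Fintype.card F - 1 := by
    have := Fintype.one_lt_card (α := F)
    omega
  have hfix : ∀ σ : c.L ≃ₐ[RatFunc k] c.L,
      σ (y0 ^ (Fintype.card F - 1)) = y0 ^ (Fintype.card F - 1) := by
    intro σ
    rw [map_pow, h1 σ, mul_pow, ← map_pow, ← map_pow, ← map_pow,
      FiniteField.pow_card_sub_one_eq_one _ (Units.ne_zero _), map_one, map_one, map_one, one_mul]
  obtain ⟨R, hR⟩ := (IsGalois.mem_range_algebraMap_iff_fixed (F := RatFunc k)
    (y0 ^ (Fintype.card F - 1))).2 hfix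
  have hR0 : R ≠ 0 := by
    rintro rfl
    rw [map_zero] at hR
    exact pow_ne_zero _ hy0 hR.symm
  have hP : R.num ≠ 0 := RatFunc.num_ne_zero hR0
  have hQ : R.denom ≠ 0 := RatFunc.denom_ne_zero R
  have hQ' : algebraMap k[X] (RatFunc k) R.denom ≠ 0 := RatFunc.algebraMap_ne_zero hQ
  have hRQ : R * algebraMap k[X] (RatFunc k) R.denom = algebraMap k[X] (RatFunc k) R.num :=
    ((div_eq_iff hQ').1 (RatFunc.num_div_denom R)).symm
  have hm : y0 ^ (Fintype.card F - 1) *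
      algebraMap (RatFunc k) c.L (algebraMap k[X] (RatFunc k) R.denom) =
      algebraMap (RatFunc k) c.L (algebraMap k[X] (RatFunc k) R.num) := by
    rw [← hR, ← map_mul, hRQ]
  have hlab := (c.lab_of_gen θ (Aff.lin.comp ψ) y0 R.num R.denom hP hQ h1 hm).1
  obtain ⟨g, hg0, hg⟩ := exists_pow_eq_ratFunc (Fintype.card F - 1) hcard R.num (R.denom * f) hP
    (mul_ne_zero hQ hf) (by
      intro a
      obtain ⟨e, ζ, g, hM, hL⟩ := hS a
      have h3 := Lab.unique hM.1 hM.2.1 hL (hlab a e ζ g hM)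
      rw [Polynomial.rootMultiplicity_mul (mul_ne_zero hQ hf)]
      push_cast
      have h4 := (h3.symm.add_left (R.denom.rootMultiplicity a : ℤ))
      rwa [add_sub_cancel] at h4)
  have hg' : algebraMap (RatFunc k) c.L g ≠ 0 := (_root_.map_ne_zero _).2 hg0
  have hRg : R = g ^ (Fintype.card F - 1) * algebraMap k[X] (RatFunc k) f := by
    apply mul_right_cancel₀ hQ'
    rw [hRQ, hg, map_mul]
    ring
  refine ⟨y0 / algebraMap (RatFunc k) c.L g, w, ?_, fun σ => ?_, h2⟩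
  · rw [div_pow, ← hR, div_eq_iff (pow_ne_zero _ hg'), hRg, map_mul, map_pow, mul_comm]
  · rw [map_div₀, h1 σ, AlgEquiv.commutes, mul_div_assoc]

end Pool.Agent.Adm
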