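import Pool.Agent.Adm.LabL
import Pool.Agent.Adm.H1

/-! Polar parts and regular rational functions. -/

namespace Pool.Agent.Adm

open scoped OnePoint
open Polynomial

variable {k : Type} [Field k]

/-- A family of expansions of rational functions in a uniformiser at every point. -/
def IsCharts (J : OnePoint k → RatFunc k →+* LaurentSeries k) : Prop :=
  ∀ a, (∀ c, J a (RatFunc.C c) = HahnSeries.C c) ∧ J a RatFunc.X = expand a 1

/-- No pole. -/
def Reg (x : LaurentSeries k) : Prop := ∀ n < 0, x.coeff n = 0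

theorem reg_of_order_VF4 {x : LaurentSeries k} (h : 0 ≤ x.order) : Reg x :=
  fun _ hn => HahnSeries.coeff_eq_zero_of_lt_order (lt_of_lt_of_le hn h)

theorem Reg.order_nonneg_VF4 {x : LaurentSeries k} (h : Reg x) : 0 ≤ x.order := by
  by_cases hx : x = 0
  · simp [hx]
  · by_contra h1
    exact HahnSeries.coeff_order_eq_zero.not.2 hx (h _ (not_le.1 h1))

theorem reg_zero_VF4 : Reg (0 : LaurentSeries k) := fun _ _ => by simp

theorem reg_single_VF4 (n : ℤ) (hn : 0 ≤ n) (c : k) :
    Reg (HahnSeries.single n c : LaurentSeries k) := fun m hm =>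
  HahnSeries.coeff_single_of_ne (by omega)

theorem reg_C_VF4 (c : k) : Reg (HahnSeries.C c : LaurentSeries k) :=
  reg_single_VF4 0 le_rfl c

theorem Reg.add {x y : LaurentSeries k} (hx : Reg x) (hy : Reg y) : Reg (x + y) := by
  intro n hn
  simp [hx n hn, hy n hn]

theorem Reg.sub {x y : LaurentSeries k} (hx : Reg x) (hy : Reg y) : Reg (x - y) := by
  intro n hn
  simp [hx n hn, hy n hn]

theorem Reg.mul {x y : LaurentSeries k} (hx : Reg x) (hy : Reg y) : Reg (x * y) := by
  by_cases h1 : x = 0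
  · simpa [h1] using reg_zero_VF4
  by_cases h2 : y = 0
  · simpa [h2] using reg_zero_VF4
  apply reg_of_order_VF4
  rw [HahnSeries.order_mul h1 h2]
  exact add_nonneg hx.order_nonneg_VF4 hy.order_nonneg_VF4

theorem Reg.pow {x : LaurentSeries k} (hx : Reg x) (n : ℕ) : Reg (x ^ n) := by
  induction n with
  | zero => simpa using reg_C_VF4 (1 : k)
  | succ n ih => rw [pow_succ]; exact ih.mul hx

theorem reg_inv_VF4 {x : LaurentSeries k} (hx : x.order = 0) : Reg x⁻¹ := by
  by_cases h : x = 0
  · simpa [h] using reg_zero_VF4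
  apply reg_of_order_VF4
  have h1 := HahnSeries.order_mul h (inv_ne_zero h)
  rw [mul_inv_cancel₀ h, HahnSeries.order_one, hx] at h1
  omega

variable {J : OnePoint k → RatFunc k →+* LaurentSeries k}

theorem IsCharts.eval_VF4 (hJ : IsCharts J) (a : OnePoint k) (P : k[X]) :
    J a (algebraMap k[X] (RatFunc k) P) = P.eval₂ HahnSeries.C (expand a 1) :=
  hom_algebraMap (J a) HahnSeries.C (expand a 1) (hJ a).1 (hJ a).2 P

theorem IsCharts.order_VF4 (hJ : IsCharts J) (a : k) (P : k[X]) (hP : P ≠ 0) :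
    (J a (algebraMap k[X] (RatFunc k) P)).order = P.rootMultiplicity a := by
  rw [hJ.eval_VF4, order_eval₂_expand_coe a 1 one_pos P hP]
  simp

theorem IsCharts.reg_poly (hJ : IsCharts J) (a : k) (P : k[X]) :
    Reg (J a (algebraMap k[X] (RatFunc k) P)) := by
  by_cases hP : P = 0
  · simpa [hP] using reg_zero_VF4
  apply reg_of_order_VF4
  rw [hJ.order_VF4 a P hP]
  exact Int.natCast_nonneg _

theorem IsCharts.reg_inv_VF4 (hJ : IsCharts J) (a : k) (P : k[X]) (hP : ¬ P.IsRoot a) :
    Reg (J a (algebraMap k[X] (RatFunc k) P))⁻¹ := by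
  have h0 : P ≠ 0 := by
    rintro rfl
    exact hP (by simp)
  apply Pool.Agent.Adm.reg_inv_VF4
  rw [hJ.order_VF4 a P h0, rootMultiplicity_eq_zero hP]
  rfl

theorem IsCharts.exists_finset (hJ : IsCharts J) (h : RatFunc k) :
    ∃ S : Finset k, ∀ a : k, a ∉ S → Reg (J a h) := by
  classical
  refine ⟨h.denom.roots.toFinset, fun a ha => ?_⟩
  have h1 : ¬ h.denom.IsRoot a := by
    intro h2
    exact ha (Multiset.mem_toFinset.2 ((mem_roots h.denom_ne_zero).2 h2))
  rw [← h.num_div_denom, map_div₀, div_eq_mul_inv]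
  exact (hJ.reg_poly a _).mul (hJ.reg_inv_VF4 a _ h1)

theorem IsCharts.single_VF4 (hJ : IsCharts J) (a : k) (c : k) (s : ℕ) :
    J a (RatFunc.C c * (algebraMap k[X] (RatFunc k) ((X - C a) ^ s))⁻¹) =
      HahnSeries.single (-(s : ℤ)) c := by
  have h1 : J a (algebraMap k[X] (RatFunc k) ((X - C a) ^ s)) = HahnSeries.single (s : ℤ) 1 := by
    rw [hJ.eval_VF4, eval₂_pow, eval₂_sub, eval₂_X, eval₂_C]
    simp [expand, HahnSeries.single_pow]
  have h2 : (HahnSeries.single (s : ℤ) (1 : k) : LaurentSeries k)⁻¹ =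
      HahnSeries.single (-(s : ℤ)) 1 := by
    apply inv_eq_of_mul_eq_one_right
    rw [HahnSeries.single_mul_single]
    simp
  rw [map_mul, map_inv₀, h1, h2, (hJ a).1, HahnSeries.C_apply, HahnSeries.single_mul_single]
  simp

theorem IsCharts.exists_polar_VF4 (hJ : IsCharts J) (a : k) (N : ℕ) :
    ∀ V : LaurentSeries k, (∀ n < -(N : ℤ), V.coeff n = 0) →
    ∃ r : RatFunc k, Reg (V - J a r) ∧ ∀ b : k, b ≠ a → Reg (J b r) := by
  induction N with
  | zero =>
    intro V hV
    refine ⟨0, fun n hn => ?_, fun b _ => by simpa using reg_zero_VF4⟩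
    simpa using hV n (by simpa using hn)
  | succ N ih =>
    intro V hV
    set r0 : RatFunc k := RatFunc.C (V.coeff (-((N + 1 : ℕ) : ℤ))) *
      (algebraMap k[X] (RatFunc k) ((X - C a) ^ (N + 1)))⁻¹ with hr0
    obtain ⟨r, h1, h2⟩ := ih (V - J a r0) (by
      intro n hn
      rw [hr0, hJ.single_VF4, HahnSeries.coeff_sub]
      by_cases h : n = -((N + 1 : ℕ) : ℤ)
      · rw [h, HahnSeries.coeff_single_same, sub_self]
      · rw [HahnSeries.coeff_single_of_ne h, hV n (by push_cast at h ⊢; omega), sub_self])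
    refine ⟨r0 + r, ?_, fun b hb => ?_⟩
    · rw [map_add, ← sub_sub]; exact h1
    · rw [map_add]
      refine Reg.add ?_ (h2 b hb)
      rw [hr0, map_mul, map_inv₀, (hJ b).1]
      refine (reg_C_VF4 _).mul (hJ.reg_inv_VF4 b _ ?_)
      simp [IsRoot, sub_eq_zero, hb]

theorem IsCharts.exists_polar (hJ : IsCharts J) (a : k) (V : LaurentSeries k) :
    ∃ r : RatFunc k, Reg (V - J a r) ∧ ∀ b : k, b ≠ a → Reg (J b r) :=
  hJ.exists_polar_VF4 a (-V.order).toNat V
    (fun n hn => HahnSeries.coeff_eq_zero_of_lt_order (by omega))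

theorem IsCharts.coeff_infty (hJ : IsCharts J) (P : k[X]) (n : ℤ) :
    (J ∞ (algebraMap k[X] (RatFunc k) P)).coeff n =
      if n ≤ 0 then P.coeff (-n).toNat else 0 := by
  induction P using Polynomial.induction_on' with
  | add p q hp hq =>
    rw [map_add, map_add, HahnSeries.coeff_add, hp, hq]
    split_ifs <;> simp
  | monomial i c =>
    have h1 : J ∞ (algebraMap k[X] (RatFunc k) (monomial i c)) =
        HahnSeries.single (-(i : ℤ)) c := by
      rw [hJ.eval_VF4, eval₂_monomial]
      simp [expand, HahnSeries.single_pow, HahnSeries.single_mul_single]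
    rw [h1, coeff_monomial]
    by_cases h : n = -(i : ℤ)
    · subst h
      simp
    · rw [HahnSeries.coeff_single_of_ne h]
      split_ifs with h2 h3
      · exact absurd (by omega) h
      · rfl
      · rfl

theorem IsCharts.exists_polar_infty (hJ : IsCharts J) (V : LaurentSeries k) :
    ∃ P : k[X], ∀ n ≤ 0, (V - J ∞ (algebraMap k[X] (RatFunc k) P)).coeff n = 0 := by
  refine ⟨∑ i ∈ Finset.range ((-V.order).toNat + 1), monomial i (V.coeff (-(i : ℤ))),
    fun n hn => ?_⟩
  rw [HahnSeries.coeff_sub, hJ.coeff_infty, if_pos hn, finsetSum_coeff]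
  simp only [coeff_monomial, Finset.sum_ite_eq', Finset.mem_range]
  have h1 : -(((-n).toNat : ℕ) : ℤ) = n := by omega
  split_ifs with h
  · rw [h1, sub_self]
  · rw [HahnSeries.coeff_eq_zero_of_lt_order (by omega), sub_self]

theorem IsCharts.exists_poly [IsAlgClosed k] (hJ : IsCharts J) (h : RatFunc k)
    (hreg : ∀ a : k, Reg (J a h)) : ∃ P : k[X], algebraMap k[X] (RatFunc k) P = h := by
  have hd : h.denom = 1 := by
    by_contra h1
    have h2 : h.denom.degree ≠ 0 := fun h3 =>
      h1 (h.monic_denom.degree_le_zero_iff_eq_one.1 h3.le)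
    obtain ⟨a, ha⟩ := IsAlgClosed.exists_root h.denom h2
    have h3 : ¬ h.num.IsRoot a := by
      intro h4
      obtain ⟨u, v, huv⟩ := h.isCoprime_num_denom
      have h5 := congrArg (eval a) huv
      rw [eval_add, eval_mul, eval_mul, h4, ha] at h5
      simp at h5
    have h4 : h.num ≠ 0 := by
      intro h5
      exact h3 (by simp [h5])
    have h5 : h ≠ 0 := fun h6 => h4 (by simp [h6])
    have h6 : algebraMap k[X] (RatFunc k) h.denom ≠ 0 :=
      RatFunc.algebraMap_ne_zero h.denom_ne_zero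
    have h7 : algebraMap k[X] (RatFunc k) h.num = h * algebraMap k[X] (RatFunc k) h.denom := by
      rw [← div_eq_iff h6, h.num_div_denom]
    have h8 := hJ.order_VF4 a h.num h4
    rw [h7, map_mul, HahnSeries.order_mul ((_root_.map_ne_zero _).2 h5) ((_root_.map_ne_zero _).2 h6),
      hJ.order_VF4 a _ h.denom_ne_zero, rootMultiplicity_eq_zero h3] at h8
    have h9 := (rootMultiplicity_pos h.denom_ne_zero).2 ha
    have h10 := (hreg a).order_nonneg_VF4
    omega
  refine ⟨h.num, ?_⟩
  have h1 := h.num_div_denom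
  rwa [hd, map_one, div_one] at h1

theorem exists_isCharts (k : Type) [Field k] :
    ∃ J : OnePoint k → RatFunc k →+* LaurentSeries k, IsCharts J := by
  choose J hJ using fun a : OnePoint k => exists_chart a 1 one_pos
  exact ⟨J, hJ⟩

end Pool.Agent.Adm
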