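import Pool.Agent.Adm.VF4

/-! Local-global principle for the twisted Artin-Schreier equation. -/

namespace Pool.Agent.Adm

open scoped OnePoint
open Polynomial

variable {k F : Type} [Field k] [Field F] [Fintype F]
  {J : OnePoint k → RatFunc k →+* LaurentSeries k}

theorem van_mul_VF5 {x y : LaurentSeries k} {a b : ℤ} (hx : ∀ n < a, x.coeff n = 0)
    (hy : ∀ n < b, y.coeff n = 0) : ∀ n < a + b, (x * y).coeff n = 0 := by
  intro n hn
  rw [HahnSeries.coeff_mul]
  refine Finset.sum_eq_zero fun ij hij => ?_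
  rw [Finset.mem_antidiagonal] at hij
  by_cases h1 : ij.1 < a
  · rw [hx _ h1, zero_mul]
  · rw [hy ij.2 (by have := hij.2.2; omega), mul_zero]

theorem van_pow_VF5 {x : LaurentSeries k} {a : ℤ} (hx : ∀ n < a, x.coeff n = 0) (m : ℕ) :
    ∀ n < m * a, (x ^ m).coeff n = 0 := by
  induction m with
  | zero =>
    intro n hn
    rw [pow_zero, HahnSeries.coeff_one, if_neg (by omega)]
  | succ m ih =>
    intro n hn
    rw [pow_succ]
    exact van_mul_VF5 ih hx n (by push_cast at hn; linarith)

theorem IsCharts.van_infty_VF5 (hJ : IsCharts J) (f : k[X]) {d : ℕ} (hd : f.natDegree ≤ d) :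
    ∀ n < -(d : ℤ), (J ∞ (algebraMap k[X] (RatFunc k) f)).coeff n = 0 := by
  intro n hn
  rw [hJ.coeff_infty, if_pos (by omega)]
  exact coeff_eq_zero_of_natDegree_lt (by omega)

theorem sum_pow_card_VF5 {W : Type} [CommRing W] (θ : F →+* W) (g : ℕ → W) (m : ℕ) :
    (∑ i ∈ Finset.range m, g i) ^ Fintype.card F =
      ∑ i ∈ Finset.range m, g i ^ Fintype.card F := by
  induction m with
  | zero => simp
  | succ m ih => rw [Finset.sum_range_succ, Finset.sum_range_succ, add_pow_card_of_hom θ, ih]

theorem IsCharts.poly_eq_zero (hJ : IsCharts J) (θ : F →+* k) (f P : k[X]) (V : LaurentSeries k)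
    (hV : ∀ n ≤ 0, V.coeff n = 0)
    (hD : f.natDegree ≤ Fintype.card F - 1 ∨
      (f.natDegree ≤ 2 * (Fintype.card F - 1) ∧ f.coeff (Fintype.card F - 1) = 0))
    (h : V ^ Fintype.card F * J ∞ (algebraMap k[X] (RatFunc k) f) - V =
      J ∞ (algebraMap k[X] (RatFunc k) P)) : P = 0 := by
  have hq : 1 < Fintype.card F := Fintype.one_lt_card
  have key : ∀ n < 1, (V ^ Fintype.card F * J ∞ (algebraMap k[X] (RatFunc k) f)).coeff n = 0 := by
    rcases hD with hD | ⟨hD, h0⟩
    · intro n hn
      exact van_mul_VF5 (van_pow_VF5 (a := 1) (fun n hn => hV n (by omega)) _)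
        (hJ.van_infty_VF5 f hD) n (by omega)
    · obtain ⟨R, hR⟩ : ∃ R, R = V - HahnSeries.single 1 (V.coeff 1) := ⟨_, rfl⟩
      have hR2 : ∀ n < 2, R.coeff n = 0 := by
        intro n hn
        rw [hR, HahnSeries.coeff_sub]
        by_cases h1 : n = 1
        · rw [h1, HahnSeries.coeff_single_same, sub_self]
        · rw [HahnSeries.coeff_single_of_ne h1, hV n (by omega), sub_zero]
      have hR3 : ∀ n < 2,
          (R ^ Fintype.card F * J ∞ (algebraMap k[X] (RatFunc k) f)).coeff n = 0 := by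
        intro n hn
        exact van_mul_VF5 (van_pow_VF5 hR2 _) (hJ.van_infty_VF5 f hD) n (by omega)
      have hVR : V = HahnSeries.single 1 (V.coeff 1) + R := by rw [hR, add_sub_cancel]
      have h1 := congrArg (fun w : LaurentSeries k => w.coeff 1) h
      have h2 : V ^ Fintype.card F = HahnSeries.single (Fintype.card F : ℤ)
          (V.coeff 1 ^ Fintype.card F) + R ^ Fintype.card F := by
        conv_lhs => rw [hVR, add_pow_card_of_hom (HahnSeries.C.comp θ), HahnSeries.single_pow]
        simp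
      have h3 : (HahnSeries.single (Fintype.card F : ℤ) (V.coeff 1 ^ Fintype.card F) *
          J ∞ (algebraMap k[X] (RatFunc k) f)).coeff 1 = 0 := by
        rw [HahnSeries.coeff_single_mul, hJ.coeff_infty, if_pos (by omega)]
        have : (-(1 - (Fintype.card F : ℤ))).toNat = Fintype.card F - 1 := by omega
        rw [this, h0, mul_zero]
      simp only [HahnSeries.coeff_sub] at h1
      rw [h2, add_mul, HahnSeries.coeff_add, h3, hR3 1 (by omega), hJ.coeff_infty,
        if_neg (by omega), add_zero, zero_sub, neg_eq_zero] at h1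
      rw [h1, map_zero, zero_add] at hVR
      intro n hn
      rw [hVR]
      exact hR3 n (by omega)
  ext m
  have h1 := congrArg (fun w : LaurentSeries k => w.coeff (-(m : ℤ))) h
  simp only [HahnSeries.coeff_sub] at h1
  rw [key _ (by omega), hV _ (by omega), hJ.coeff_infty, if_pos (by omega), sub_zero] at h1
  simpa using h1.symm

theorem IsCharts.exists_global [IsAlgClosed k] (hJ : IsCharts J) (θ : F →+* k) (f : k[X])
    (hD : f.natDegree ≤ Fintype.card F - 1 ∨
      (f.natDegree ≤ 2 * (Fintype.card F - 1) ∧ f.coeff (Fintype.card F - 1) = 0))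
    (h : RatFunc k)
    (hloc : ∀ a, ∃ V, V ^ Fintype.card F * J a (algebraMap k[X] (RatFunc k) f) - V = J a h) :
    ∃ r : RatFunc k, r ^ Fintype.card F * algebraMap k[X] (RatFunc k) f - r = h := by
  classical
  have shift : ∀ (a : OnePoint k) (h r : RatFunc k) (V : LaurentSeries k),
      V ^ Fintype.card F * J a (algebraMap k[X] (RatFunc k) f) - V = J a h →
      (V - J a r) ^ Fintype.card F * J a (algebraMap k[X] (RatFunc k) f) - (V - J a r) =
        J a (h - (r ^ Fintype.card F * algebraMap k[X] (RatFunc k) f - r)) := by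
    intro a h r V hV
    rw [sub_pow_card_of_hom (HahnSeries.C.comp θ), map_sub, map_sub, map_mul, map_pow, ← hV]
    ring
  obtain ⟨S, hS⟩ := hJ.exists_finset h
  induction S using Finset.induction_on generalizing h with
  | empty =>
    obtain ⟨P, rfl⟩ := hJ.exists_poly h fun a => hS a (Finset.notMem_empty a)
    obtain ⟨V, hV⟩ := hloc ∞
    obtain ⟨Q, hQ⟩ := hJ.exists_polar_infty V
    have h1 := shift ∞ _ (algebraMap k[X] (RatFunc k) Q) V hV
    rw [← map_pow, ← map_mul, ← map_sub, ← map_sub] at h1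
    have h2 := hJ.poly_eq_zero θ f _ _ hQ hD h1
    refine ⟨algebraMap k[X] (RatFunc k) Q, ?_⟩
    rw [← map_pow, ← map_mul, ← map_sub, sub_eq_zero.1 h2]
  | insert a S ha ih =>
    obtain ⟨V, hV⟩ := hloc a
    obtain ⟨r, hr, hr'⟩ := hJ.exists_polar a V
    obtain ⟨r', h'⟩ := ih (h - (r ^ Fintype.card F * algebraMap k[X] (RatFunc k) f - r))
      (fun b => by
        obtain ⟨W, hW⟩ := hloc b
        exact ⟨_, shift b h r W hW⟩)
      (fun b hb => by
        by_cases e : b = a
        · subst e
          rw [← shift b h r V hV]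
          exact ((hr.pow _).mul (hJ.reg_poly b f)).sub hr
        · rw [map_sub, map_sub, map_mul, map_pow]
          exact (hS b (by simp [e, hb])).sub
            ((((hr' b e).pow _).mul (hJ.reg_poly b f)).sub (hr' b e)))
    refine ⟨r + r', ?_⟩
    rw [add_pow_card_of_hom (RatFunc.C.comp θ)]
    linear_combination h'

/-- Descent of a solution from k((z)) to k((z^e)). -/
theorem exists_sol_descend (θ : F →+* k) (e : ℕ) (he : 0 < e) (ζ : k) (hζ : IsPrimitiveRoot ζ e)
    (A B x : LaurentSeries k) (h : x ^ Fintype.card F * powL e he A - x = powL e he B) :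
    ∃ V : LaurentSeries k, V ^ Fintype.card F * A - V = B := by
  have hz : ζ ≠ 0 := hζ.ne_zero he.ne'
  have : NeZero e := ⟨he.ne'⟩
  have he0 : (e : k) ≠ 0 := hζ.neZero'.out
  obtain ⟨g, hg⟩ : ∃ g : ℕ → LaurentSeries k, ∀ i, g i = scL (ζ ^ i) (pow_ne_zero _ hz) x :=
    ⟨_, fun _ => rfl⟩
  have fix : ∀ (i : ℕ) (y : LaurentSeries k),
      scL (ζ ^ i) (pow_ne_zero _ hz) (powL e he y) = powL e he y := by
    intro i y
    rw [scL_powL]
    congr 1
    ext n
    rw [scL_coeff, ← pow_mul, mul_comm i e, pow_mul, hζ.pow_eq_one, one_pow, one_zpow, one_mul]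
  have h1 : ∀ i, g i ^ Fintype.card F * powL e he A - g i = powL e he B := by
    intro i
    rw [hg, ← fix i A, ← map_pow, ← map_mul, ← map_sub, h, fix]
  have h2 : ∀ i, scL ζ hz (g i) = g (i + 1) := by
    intro i
    rw [hg, hg, scL_scL]
    ext n
    rw [scL_coeff, scL_coeff, pow_succ']
  have h3 : g e = g 0 := by
    rw [hg, hg]
    ext n
    rw [scL_coeff, scL_coeff, hζ.pow_eq_one, pow_zero]
  have h4 : scL ζ hz (∑ i ∈ Finset.range e, g i) = ∑ i ∈ Finset.range e, g i := by
    rw [map_sum, Finset.sum_congr rfl fun i _ => h2 i]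
    have := (Finset.sum_range_succ g e).symm.trans (Finset.sum_range_succ' g e)
    rw [h3] at this
    exact (add_right_cancel this).symm
  have h5 : ((e : k)⁻¹) ^ Fintype.card F = (e : k)⁻¹ := by
    rw [← map_natCast θ, ← map_inv₀, ← map_pow, FiniteField.pow_card]
  obtain ⟨V, hV⟩ := exists_powL_of_scL e he ζ hζ
    (HahnSeries.C (e : k)⁻¹ * ∑ i ∈ Finset.range e, g i) (by rw [map_mul, scL_C, h4])
  refine ⟨V, (powL e he).injective ?_⟩
  rw [map_sub, map_mul, map_pow, hV, mul_pow, ← map_pow, h5,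
    sum_pow_card_VF5 (HahnSeries.C.comp θ), mul_assoc, ← mul_sub, Finset.sum_mul,
    ← Finset.sum_sub_distrib, Finset.sum_congr rfl fun i _ => h1 i, Finset.sum_const,
    Finset.card_range, nsmul_eq_mul, ← mul_assoc,
    ← map_natCast (HahnSeries.C : k →+* LaurentSeries k), ← map_mul, inv_mul_cancel₀ he0, map_one,
    one_mul]

end Pool.Agent.Adm
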