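import Pool.Agent.Adm.VF1
import Pool.Agent.Adm.VF5

/-! Affine coverings of one component with labels given by a polynomial. -/

namespace Pool.Agent.Adm

open scoped OnePoint
open Polynomial

variable {k G F : Type} [Field k] [IsAlgClosed k] [Group G] [Field F] [Fintype F]

theorem Cover.vertex_poly (c : Cover k G) (θ : F →+* k) (ψ : G →* Aff F) (f : k[X]) (hf : f ≠ 0)
    (hinf : ∃ e ζ g, c.Mono ∞ e ζ g)
    (hS : ∀ a : k, ∃ e ζ g, c.Mono (a : OnePoint k) e ζ g ∧
      Lab (Fintype.card F - 1) e ζ (θ (ψ g).u) (f.rootMultiplicity a)) :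
    (∀ e ζ g, c.Mono ∞ e ζ g → Lab (Fintype.card F - 1) e ζ (θ (ψ g).u) (-(f.natDegree : ℤ))) ∧
    ((f.natDegree ≤ Fintype.card F - 1 ∨
      (f.natDegree ≤ 2 * (Fintype.card F - 1) ∧ f.coeff (Fintype.card F - 1) = 0)) →
        Aff.HasFix (c.ι.range.map ψ)) ∧
    (f.natDegree = 0 → c.ι.range.map ψ = ⊥) := by
  obtain ⟨y, w, hy, hσy, hσw⟩ := c.exists_norm_gens θ ψ f hf hS
  have hq : 1 < Fintype.card F := Fintype.one_lt_card
  let Θ : F →+* c.L := (algebraMap (RatFunc k) c.L).comp (RatFunc.C.comp θ)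
  have hΘ : ∀ x, algebraMap (RatFunc k) c.L (RatFunc.C (θ x)) = Θ x := fun _ => rfl
  have hΘσ : ∀ (σ : c.L ≃ₐ[RatFunc k] c.L) x, σ (Θ x) = Θ x := fun σ x => σ.commutes _
  have hΘq : ∀ x, Θ x ^ Fintype.card F = Θ x := fun x => by
    rw [← map_pow, FiniteField.pow_card]
  simp only [hΘ] at hσy hσw
  have hy0 : y ≠ 0 := by
    rintro rfl
    rw [zero_pow (by omega), eq_comm, map_eq_zero] at hy
    exact RatFunc.algebraMap_ne_zero hf hy
  have hyq : y ^ Fintype.card F =
      algebraMap (RatFunc k) c.L (algebraMap k[X] (RatFunc k) f) * y := by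
    rw [← hy, ← pow_succ, Nat.sub_add_cancel hq.le]
  have key : (f.natDegree ≤ Fintype.card F - 1 ∨
      (f.natDegree ≤ 2 * (Fintype.card F - 1) ∧ f.coeff (Fintype.card F - 1) = 0)) →
        Aff.HasFix (c.ι.range.map ψ) := by
    intro hD
    obtain ⟨h, hh⟩ : ∃ h, algebraMap (RatFunc k) c.L h = (w ^ Fintype.card F - w) / y := by
      refine (IsGalois.mem_range_algebraMap_iff_fixed _).2 fun σ => ?_
      have := (map_ne_zero Θ).2 (ψ (c.ι σ)).u.ne_zero
      rw [map_div₀, map_sub, map_pow, hσw, hσy, add_pow_card_of_hom Θ, mul_pow, hΘq, hΘq]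
      field_simp
      ring
    have hv : (w / y) ^ Fintype.card F *
        algebraMap (RatFunc k) c.L (algebraMap k[X] (RatFunc k) f) - w / y =
          algebraMap (RatFunc k) c.L h := by
      have h1 : algebraMap (RatFunc k) c.L (algebraMap k[X] (RatFunc k) f) ≠ 0 := by
        rw [← hy]
        exact pow_ne_zero _ hy0
      rw [hh, div_pow, hyq]
      field_simp
    obtain ⟨J, hJ⟩ := exists_isCharts k
    obtain ⟨r, hr⟩ := hJ.exists_global θ f hD h fun a => by
      obtain ⟨e, ζ, g, he, hζ, j, h1, h2, -⟩ : ∃ e ζ g, c.Mono a e ζ g := by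
        induction a using OnePoint.rec with
        | infty => exact hinf
        | coe a => exact (hS a).imp fun e => Exists.imp fun ζ => Exists.imp fun g => And.left
      have e1 : j.comp (algebraMap (RatFunc k) c.L) = (powL e he).comp (J a) :=
        ratFunc_hom_ext _ _ (fun x => by simp [h1, (hJ a).1, powL_single])
          (by simp [h2, (hJ a).2, powL_expand])
      have e2 : ∀ x, j (algebraMap (RatFunc k) c.L x) = powL e he (J a x) := fun x =>
        DFunLike.congr_fun e1 x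
      refine exists_sol_descend θ e he ζ hζ _ _ (j (w / y)) ?_
      rw [← e2, ← e2, ← hv, map_sub, map_mul, map_pow]
    have h3 := congrArg (algebraMap (RatFunc k) c.L) hr
    rw [map_sub, map_mul, map_pow, hh, eq_div_iff hy0] at h3
    obtain ⟨β, hβ⟩ := exists_eq_of_pow_card Θ (w - algebraMap (RatFunc k) c.L r * y) (by
      rw [sub_pow_card_of_hom Θ, mul_pow, hyq]
      linear_combination -h3)
    refine ⟨β, ?_⟩
    rintro _ ⟨_, ⟨σ, rfl⟩, rfl⟩
    have h4 := congrArg σ hβ
    rw [hΘσ, map_sub, map_mul, hσw, hσy, σ.commutes] at h4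
    refine Θ.injective ?_
    rw [map_add, map_mul]
    linear_combination Θ (ψ (c.ι σ)).u * hβ - h4
  refine ⟨fun e ζ g hg => ?_, key, fun h0 => ?_⟩
  · simpa using (c.lab_of_gen θ (Aff.lin.comp ψ) y f 1 hf one_ne_zero hσy
      (by simpa using hy)).2 e ζ g hg
  · obtain ⟨β, hβ⟩ := key (.inl (h0 ▸ Nat.zero_le _))
    obtain ⟨d, hd⟩ := IsAlgClosed.exists_pow_nat_eq (f.coeff 0)
      (n := Fintype.card F - 1) (by omega)
    rw [eq_C_of_natDegree_eq_zero h0, ← hd, RatFunc.algebraMap_C, map_pow, map_pow] at hy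
    have hd0 : algebraMap (RatFunc k) c.L (RatFunc.C d) ≠ 0 := fun e => by
      rw [e, zero_pow (by omega)] at hy
      exact pow_ne_zero _ hy0 hy
    obtain ⟨a, ha⟩ := exists_unit_of_pow_card_sub_one Θ
      (y / algebraMap (RatFunc k) c.L (RatFunc.C d))
      (by rw [div_pow, hy, div_self (pow_ne_zero _ hd0)])
    rw [eq_bot_iff]
    rintro _ ⟨_, ⟨σ, rfl⟩, rfl⟩
    have h1 : σ y = y := by
      rw [eq_div_iff hd0] at ha
      rw [← ha, map_mul, hΘσ, σ.commutes]
    have h2 : (ψ (c.ι σ)).u = 1 := by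
      rw [hσy, mul_eq_right₀ hy0, ← map_one Θ] at h1
      exact Units.ext (Θ.injective h1)
    have h3 := hβ _ ⟨_, ⟨σ, rfl⟩, rfl⟩
    rw [Aff.Fixes, h2, Units.val_one, one_mul, add_eq_left] at h3
    exact Aff.ext h2 h3

end Pool.Agent.Adm
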