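import Pool.Agent.Adm.EX
import Pool.Agent.Adm.PR
import Pool.Agent.Adm.CDefs

/-! Adjoining an affine covering to a given covering, component by component. -/

namespace Pool.Agent.Adm

open scoped OnePoint
open Polynomial

variable {k F G : Type} [Field k] [IsAlgClosed k] [Field F] [Fintype F] [Group G]

/-- The label of f at a point. -/
noncomputable def labAt (f : k[X]) (a : OnePoint k) : ℤ :=
  a.elim (-(f.natDegree : ℤ)) fun b => (f.rootMultiplicity b : ℤ)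

/-- c dominates c1 and has an affine quotient with the labels of f. -/
def Good (θ : F →+* k) (c1 : Cover k G) (c : Cover k (G × Aff F)) (f : k[X]) : Prop :=
  c.ι.range.map (MonoidHom.fst G (Aff F)) = c1.ι.range ∧
    ∀ (a : OnePoint k) (e : ℕ) (ξ : k) (g : G), IsPrimitiveRoot ξ (e * (Fintype.card F - 1)) →
      c1.Mono a e (ξ ^ (Fintype.card F - 1)) g →
      ∃ g2 : Aff F, c.Mono a (e * (Fintype.card F - 1)) ξ (g, g2) ∧ θ g2.u = (ξ ^ e) ^ labAt f a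

/-- The affine quotient of c has no fixed point. -/
def NoFix (c : Cover k (G × Aff F)) : Prop :=
  ¬ Aff.HasFix (c.ι.range.map (MonoidHom.snd G (Aff F)))

theorem card_sub_one_pos_VP (F : Type) [Field F] [Fintype F] : 0 < Fintype.card F - 1 :=
  Nat.sub_pos_of_lt Fintype.one_lt_card

omit [IsAlgClosed k] [Fintype F] in
theorem snd_eq_one_VP (θ : F →+* k) {c : Cover k (G × Aff F)} {a : OnePoint k} {e : ℕ} {ξ : k}
    {g : G} {g2 : Aff F} (h : c.Mono a e ξ (g, g2)) (hu : g2.u = 1) : g2 = 1 := by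
  refine Aff.eq_one_of_pow (e := e) (fun h0 => ?_) (congrArg Prod.snd h.pow_eq_one) hu
  have : NeZero e := ⟨h.1.ne'⟩
  have h1 : (e : k) ≠ 0 := h.2.1.neZero'.out
  apply h1
  rw [← map_natCast θ, h0, map_zero]

omit [IsAlgClosed k] in
theorem zpow_eq_one_VP {e m : ℕ} {ξ : k} (hξ : IsPrimitiveRoot ξ (e * m)) {n : ℤ}
    (hn : n ≡ 0 [ZMOD m]) : (ξ ^ e) ^ n = 1 := by
  obtain ⟨t, rfl⟩ := Int.modEq_zero_iff_dvd.1 hn
  rw [zpow_mul, zpow_natCast, ← pow_mul, hξ.pow_eq_one, one_zpow]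

theorem Good.lift_VP {θ : F →+* k} {c1 : Cover k G} {c : Cover k (G × Aff F)} {f : k[X]}
    (h : Good θ c1 c f) {a : OnePoint k} {e : ℕ} {ζ : k} {g : G} (hm : c1.Mono a e ζ g) :
    ∃ (ξ : k) (g2 : Aff F), IsPrimitiveRoot ξ (e * (Fintype.card F - 1)) ∧
      ξ ^ (Fintype.card F - 1) = ζ ∧ c.Mono a (e * (Fintype.card F - 1)) ξ (g, g2) ∧
      θ g2.u = (ξ ^ e) ^ labAt f a := by
  obtain ⟨ξ, h1, rfl⟩ := exists_root_lift (card_sub_one_cast_ne_zero θ) hm.1 hm.2.1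
  obtain ⟨g2, h2, h3⟩ := h.2 a e ξ g h1 hm
  exact ⟨ξ, g2, h1, rfl, h2, h3⟩

theorem exists_good (θ : F →+* k) (c1 : Cover k G) (c2 : Cover k (Aff F)) (f : k[X])
    (h : AffLab θ c2 f) : ∃ c : Cover k (G × Aff F), Good θ c1 c f ∧
      (¬ Aff.HasFix c2.ι.range → NoFix c) := by
  obtain ⟨c, h1, h2, h3⟩ := exists_product c1 c2
  refine ⟨c, ⟨h1, fun a e ξ g hξ hm => ?_⟩, fun hn => by rwa [NoFix, h2]⟩
  have hp : IsPrimitiveRoot (ξ ^ e) (Fintype.card F - 1) :=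
    hξ.pow (Nat.mul_pos hm.1 (card_sub_one_pos_VP F)) rfl
  have : ∃ g2, c2.Mono a (Fintype.card F - 1) (ξ ^ e) g2 ∧ θ g2.u = (ξ ^ e) ^ labAt f a := by
    induction a using OnePoint.rec with
    | infty => exact h.2 _ hp
    | coe b => exact h.1 b _ hp
  obtain ⟨g2, k1, k2⟩ := this
  obtain ⟨u, k3⟩ := h3 a e _ ξ g g2 hξ hm k1
  refine ⟨_, k3, ?_⟩
  rw [← k2, Aff.mul_u, Aff.mul_u, Aff.inv_u, inv_mul_cancel_comm]

theorem Good.tame {θ : F →+* k} {c1 : Cover k G} {c : Cover k (G × Aff F)} {f : k[X]}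
    (h : Good θ c1 c f) {S : Set (OnePoint k)} (hT : c1.Tame S)
    (hS : ∀ a, a ∉ S → labAt f a ≡ 0 [ZMOD (Fintype.card F - 1 : ℕ)]) : c.Tame S := by
  intro a
  obtain ⟨e, ζ, g, hm, hg⟩ := hT a
  obtain ⟨ξ, g2, h1, -, h2, h3⟩ := h.lift_VP hm
  refine ⟨_, ξ, _, h2, fun ha => ?_⟩
  rw [zpow_eq_one_VP h1 (hS a ha)] at h3
  have hu : g2.u = 1 := Units.ext (θ.injective (by rw [h3]; simp))
  rw [snd_eq_one_VP θ h2 hu, hg ha]
  rfl

theorem Good.glue {θ : F →+* k} {c1 c1' : Cover k G} {c c' : Cover k (G × Aff F)} {f f' : k[X]}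
    (h : Good θ c1 c f) (h' : Good θ c1' c' f') (hg : Glue c1 c1')
    (hl : labAt f ∞ + labAt f' ((0 : k) : OnePoint k) ≡ 0 [ZMOD (Fintype.card F - 1 : ℕ)]) :
    ∃ c'' : Cover k (G × Aff F), Good θ c1' c'' f' ∧ Glue c c'' ∧ (NoFix c' → NoFix c'') := by
  obtain ⟨e, ζ, g, hm, hm'⟩ := hg
  obtain ⟨ξ, g2, h1, rfl, h2, h3⟩ := h.lift_VP hm
  obtain ⟨g2', h2', h3'⟩ := h'.2 _ e ξ⁻¹ g h1.inv (by rwa [inv_pow])
  have h0 : ξ ≠ 0 := h1.ne_zero h2.1.ne'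
  have hu : g2.u = g2'.u := by
    refine Units.ext (θ.injective ?_)
    have := zpow_eq_one_VP h1 hl
    rw [zpow_add₀ (pow_ne_zero _ h0)] at this
    rw [h3, h3', inv_pow, inv_zpow]
    exact eq_inv_of_mul_eq_one_left this
  obtain ⟨γ, hγ⟩ := Aff.exists_conj hu
    (fun k1 => ⟨snd_eq_one_VP θ h2 k1, snd_eq_one_VP θ h2' (hu ▸ k1)⟩)
  let φ : G × Aff F →* G × Aff F := (MonoidHom.id G).prodMap (MulAut.conj γ).toMonoidHom
  have hφ : ∀ (x : G) (y : Aff F), φ (x, y) = (x, γ * y * γ⁻¹) := fun _ _ => rfl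
  refine ⟨c'.map φ, ⟨?_, fun a e' ξ' g' k1 k2 => ?_⟩, ⟨_, ξ, (g, g2), h2, ?_⟩, fun hn k1 => hn ?_⟩
  · rw [Cover.map_range, Subgroup.map_map, ← h'.1]
    rfl
  · obtain ⟨y, k3, k4⟩ := h'.2 a e' ξ' g' k1 k2
    refine ⟨γ * y * γ⁻¹, k3.map φ, ?_⟩
    rw [← k4, Aff.mul_u, Aff.mul_u, Aff.inv_u, mul_inv_cancel_comm]
  · have := h2'.map φ
    rwa [hφ, hγ] at this
  · rw [← Aff.hasFix_map_conj _ γ, Subgroup.map_map]
    rw [Cover.map_range, Subgroup.map_map] at k1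
    exact k1

theorem Good.md {θ : F →+* k} {c1 : Cover k G} {c : Cover k (G × Aff F)} {f : k[X]}
    (h : Good θ c1 c f) {a : OnePoint k} {d : Dat k G} (hd : c1.MD a d) :
    ∃ d' : Dat k (G × Aff F), c.MD a d' ∧ d'.2.2.1 = d.2.2 ∧
      ∀ χ : G →* Fˣ, χ d.2.2 = d'.2.2.2.u → LabD (Fintype.card F - 1) θ χ d (labAt f a) := by
  obtain ⟨e, ζ, g⟩ := d
  have hm : c1.Mono a e ζ g := hd
  obtain ⟨ξ, g2, h1, rfl, h2, h3⟩ := h.lift_VP hm
  refine ⟨(e * (Fintype.card F - 1), ξ, (g, g2)), h2, rfl, fun χ hχ => ?_⟩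
  refine lab_of_root (card_sub_one_pos_VP F) hm.1 h1 ?_ ?_
  · change θ (χ g) ^ e = 1
    rw [← map_pow, ← Units.val_pow_eq_pow_val, ← map_pow, hm.pow_eq_one]
    simp
  · rw [hχ]
    exact h3

theorem Cover.Tame.restr {c : Cover k G} {S : Set (OnePoint k)} (hT : c.Tame S) (H : Subgroup G)
    (h : c.ι.range ≤ H) : (c.restr H h).Tame S := by
  intro a
  obtain ⟨e, ζ, g, hm, hg⟩ := hT a
  exact ⟨e, ζ, _, hm.restr H h, fun ha => Subtype.ext (hg ha)⟩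

theorem Glue.restr {c c' : Cover k G} (hg : Glue c c') (H : Subgroup G) (h : c.ι.range ≤ H)
    (h' : c'.ι.range ≤ H) : Glue (c.restr H h) (c'.restr H h') := by
  obtain ⟨e, ζ, g, hm, hm'⟩ := hg
  exact ⟨e, ζ, _, hm.restr H h, hm'.restr H h'⟩

end Pool.Agent.Adm
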